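import Mathlib
import Pool.Agent.P.MP_5c258a_lc.Defs

-- part Pool.Agent.P.MP_5c258a_lc.Exp
section

namespace Pool.Agent.P.MP_5c258a_lc

open Finset

variable {X : Type} [Fintype X]

/-- Forward expectation after `t` more steps of the chain with kernel `st`. -/
noncomputable def Ex (st : List X → X → ℝ) : ℕ → List X → (List X → ℝ) →ₗ[ℝ] ℝ
  | 0, xs => LinearMap.proj xs
  | t + 1, xs => ∑ y, st xs y • Ex st t (xs ++ [y])

variable {st : List X → X → ℝ}

@[simp] lemma Ex_zero (xs : List X) (φ : List X → ℝ) : Ex st 0 xs φ = φ xs := rfl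

lemma Ex_succ (t : ℕ) (xs : List X) (φ : List X → ℝ) :
    Ex st (t + 1) xs φ = ∑ y, st xs y * Ex st t (xs ++ [y]) φ := by
  simp [Ex, LinearMap.sum_apply]

lemma Ex_mono' (h0 : ∀ xs y, 0 ≤ st xs y) : ∀ (t : ℕ) (xs : List X) (φ ψ : List X → ℝ),
    (∀ zs : List X, zs.length = t → φ (xs ++ zs) ≤ ψ (xs ++ zs)) → Ex st t xs φ ≤ Ex st t xs ψ
  | 0, xs, φ, ψ, h => by simpa using h [] rfl
  | t + 1, xs, φ, ψ, h => by
    rw [Ex_succ, Ex_succ]
    refine sum_le_sum fun y _ => mul_le_mul_of_nonneg_left ?_ (h0 _ _)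
    refine Ex_mono' h0 t _ φ ψ fun zs hz => ?_
    simpa using h (y :: zs) (by simp [hz])

lemma Ex_mono (h0 : ∀ xs y, 0 ≤ st xs y) (t : ℕ) (xs : List X) (φ ψ : List X → ℝ)
    (h : ∀ zs, φ zs ≤ ψ zs) : Ex st t xs φ ≤ Ex st t xs ψ :=
  Ex_mono' h0 t xs φ ψ fun _ _ => h _

lemma Ex_frozen (h1 : ∀ xs, ∑ y, st xs y = 1) : ∀ (t : ℕ) (xs : List X) (φ : List X → ℝ) (c : ℝ),
    (∀ zs : List X, φ (xs ++ zs) = c) → Ex st t xs φ = c
  | 0, xs, φ, c, h => by simpa using h []
  | t + 1, xs, φ, c, h => by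
    rw [Ex_succ]
    have : ∀ y, Ex st t (xs ++ [y]) φ = c := fun y =>
      Ex_frozen h1 t _ φ c fun zs => by simpa using h (y :: zs)
    simp only [this]
    rw [← sum_mul, h1, one_mul]

lemma Ex_const (h1 : ∀ xs, ∑ y, st xs y = 1) (t : ℕ) (xs : List X) (c : ℝ) :
    Ex st t xs (fun _ => c) = c := Ex_frozen h1 t xs _ c fun _ => rfl

lemma Ex_super (h0 : ∀ xs y, 0 ≤ st xs y) (D : List X → ℝ)
    (hD : ∀ xs, ∑ y, st xs y * D (xs ++ [y]) ≤ D xs) :
    ∀ (t : ℕ) (xs : List X), Ex st t xs D ≤ D xs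
  | 0, xs => le_rfl
  | t + 1, xs => by
    rw [Ex_succ]
    exact le_trans (sum_le_sum fun y _ =>
      mul_le_mul_of_nonneg_left (Ex_super h0 D hD t _) (h0 _ _)) (hD xs)

lemma Ex_couple (h1 : ∀ xs, ∑ y, st xs y = 1) (f : X → ℕ) (τ : X → X)
    (hτ : Function.Involutive τ)
    (hst : ∀ xs y, (∀ l ∈ xs, f (τ l) = f l) → st (xs.map τ) (τ y) = st xs y)
    (ψ : List X → ℝ) (hψ : ∀ ls, (∃ l ∈ ls, f (τ l) ≠ f l) → ∀ zs, ψ (ls ++ zs) = ψ ls) :
    ∀ (t : ℕ) (xs : List X), Ex st t xs (fun zs => ψ (zs.map τ)) = Ex st t (xs.map τ) ψ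
  | 0, xs => rfl
  | t + 1, xs => by
    by_cases h : ∀ l ∈ xs, f (τ l) = f l
    · rw [Ex_succ, Ex_succ, ← Equiv.sum_comp hτ.toPerm
        (fun y => st (xs.map τ) y * Ex st t (xs.map τ ++ [y]) ψ)]
      refine sum_congr rfl fun y _ => ?_
      rw [Ex_couple h1 f τ hτ hst ψ hψ t (xs ++ [y])]
      simp [hst xs y h]
    · push Not at h
      obtain ⟨l, hl, hne⟩ := h
      have hfr := hψ (xs.map τ) ⟨τ l, List.mem_map_of_mem hl, by rw [hτ l]; exact hne.symm⟩
      rw [Ex_frozen h1 _ _ ψ _ hfr]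
      exact Ex_frozen h1 _ _ _ _ fun zs => by rw [List.map_append, hfr]

end Pool.Agent.P.MP_5c258a_lc
end

-- part Pool.Agent.P.MP_5c258a_lc.Sym
section

namespace Pool.Agent.P.MP_5c258a_lc

open Finset

variable {n a k : ℕ}

/-- The classical LeadingOnes function. -/
def f0 (x : Fin n → Bool) : ℕ := LO (fun _ => true) 1 x

lemma f0_le (x : Fin n → Bool) : f0 x ≤ n := Nat.findGreatest_le n

lemma le_f0 {i : ℕ} (hi : i ≤ n) (x : Fin n → Bool) :
    i ≤ f0 x ↔ ∀ j : Fin n, j.val < i → x j = true := by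
  constructor
  · intro h j hj
    have := Nat.findGreatest_spec (P := fun i => ∀ j : Fin n, j.val < i → x ((1 : Equiv.Perm (Fin n)) j) = true)
      (Nat.zero_le n) (by intro j hj; omega)
    exact this j (lt_of_lt_of_le hj h)
  · intro h
    exact Nat.le_findGreatest hi h

lemma f0_true {i : ℕ} {x : Fin n → Bool} (h : i ≤ f0 x) (j : Fin n) (hj : j.val < i) :
    x j = true := (le_f0 (h.trans (f0_le x)) x).1 h j hj

lemma le_f0_congr {i : ℕ} {x x' : Fin n → Bool} (h : ∀ j : Fin n, j.val < i → x' j = x j) :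
    i ≤ f0 x' ↔ i ≤ f0 x := by
  by_cases hi : i ≤ n
  · rw [le_f0 hi, le_f0 hi]
    exact forall_congr' fun j => forall_congr' fun hj => by rw [h j hj]
  · have := f0_le x
    have := f0_le x'
    omega

lemma f0_congr {i : ℕ} {x x' : Fin n → Bool} (h : ∀ j : Fin n, j.val < i → x' j = x j)
    (hx : f0 x < i) : f0 x' = f0 x := by
  have h1 := (le_f0_congr (i := f0 x) (x := x) (x' := x') fun j hj => h j (by omega)).2 le_rfl
  have h2 := (le_f0_congr (i := f0 x + 1) (x := x) (x' := x') fun j hj => h j (by omega))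
  omega

lemma succ_le_f0 {i : Fin n} {x : Fin n → Bool} (h : i.val ≤ f0 x) (hx : x i = true) :
    i.val + 1 ≤ f0 x := by
  rw [le_f0 i.2]
  intro j hj
  rcases Nat.lt_succ_iff_lt_or_eq.1 hj with h' | h'
  · exact f0_true h j h'
  · rw [Fin.ext h']; exact hx

/-- A symmetry of the cube. -/
def sp (π : Equiv.Perm (Fin n)) (w x : Fin n → Bool) : Fin n → Bool := fun j => xor (x (π j)) (w j)

lemma op_sp (O : Op n a) (π : Equiv.Perm (Fin n)) (w : Fin n → Bool) (x : Fin a → Fin n → Bool)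
    (y : Fin n → Bool) : O.p (fun i => sp π w (x i)) (sp π w y) = O.p x y := by
  have := O.xor_inv w (fun i j => x i (π j)) (fun j => y (π j))
  rw [O.perm_inv] at this
  exact this

lemma sp_bijective (π : Equiv.Perm (Fin n)) (w : Fin n → Bool) : Function.Bijective (sp π w) := by
  refine Finite.injective_iff_bijective.1 fun x y h => ?_
  funext j
  have := congrFun h (π.symm j)
  simpa [sp] using this

lemma step_nonneg (A : Alg n a k) (f : (Fin n → Bool) → ℕ) (xs : List (Fin n → Bool))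
    (y : Fin n → Bool) : 0 ≤ step A f xs y := by
  unfold step
  split_ifs
  · positivity
  · exact Op.nonneg _ _ _

lemma step_sum (A : Alg n a k) (f : (Fin n → Bool) → ℕ) (xs : List (Fin n → Bool)) :
    ∑ y, step A f xs y = 1 := by
  unfold step
  split_ifs
  · simp
  · exact Op.sum_one _ _

lemma par_lt (A : Alg n a k) (f : (Fin n → Bool) → ℕ) {xs : List (Fin n → Bool)} (h : xs ≠ [])
    (i : Fin a) : A.par (xs.map f) i < xs.length := by
  simpa using A.mem_lt _ _ (A.par_mem (xs.map f) i (by simpa using h))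

lemma step_sp (A : Alg n a k) (f f' : (Fin n → Bool) → ℕ) (π : Equiv.Perm (Fin n))
    (w : Fin n → Bool) (xs : List (Fin n → Bool)) (y : Fin n → Bool)
    (h : ∀ l ∈ xs, f' (sp π w l) = f l) :
    step A f' (xs.map (sp π w)) (sp π w y) = step A f xs y := by
  have hm : (xs.map (sp π w)).map f' = xs.map f := by
    rw [List.map_map]
    exact List.map_congr_left h
  unfold step
  by_cases hx : xs = []
  · simp [hx]
  · rw [if_neg hx, if_neg (by simpa using hx), hm, ← op_sp _ π w _ y]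
    congr 1
    funext i
    have := par_lt A f hx i
    rw [List.getD_eq_getElem _ _ (by simpa using this), List.getD_eq_getElem _ _ this]
    simp

lemma step_fix (A : Alg n a k) (f : (Fin n → Bool) → ℕ) (π : Equiv.Perm (Fin n))
    (w : Fin n → Bool) (xs : List (Fin n → Bool)) (y : Fin n → Bool)
    (h : ∀ s ∈ A.mem (xs.map f), ∀ l, xs[s]? = some l → sp π w l = l) :
    step A f xs (sp π w y) = step A f xs y := by
  unfold step
  by_cases hx : xs = []
  · simp [hx]
  · rw [if_neg hx, if_neg hx, ← op_sp _ π w _ y]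
    congr 1
    funext i
    have := par_lt A f hx i
    rw [List.getD_eq_getElem _ _ this]
    exact (h _ (A.par_mem _ i (by simpa using hx)) _ (List.getElem?_eq_getElem this)).symm

lemma LO_eq (z : Fin n → Bool) (σ : Equiv.Perm (Fin n)) (x : Fin n → Bool) :
    f0 (sp σ (fun j => !z (σ j)) x) = LO z σ x := by
  unfold f0 LO
  congr 1
  funext i
  refine propext (forall_congr' fun j => forall_congr' fun _ => ?_)
  simp only [sp, Equiv.Perm.coe_one, id]
  cases x (σ j) <;> cases z (σ j) <;> simp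

lemma miss_eq (A : Alg n a k) (z : Fin n → Bool) (σ : Equiv.Perm (Fin n)) :
    ∀ (t : ℕ) (xs : List (Fin n → Bool)),
      miss A (LO z σ) t xs = miss A f0 t (xs.map (sp σ fun j => !z (σ j)))
  | 0, _ => rfl
  | t + 1, xs => by
    have hb := sp_bijective σ (fun j => !z (σ j))
    simp only [miss]
    refine Eq.trans ?_ (hb.sum_comp _)
    refine sum_congr rfl fun y _ => ?_
    rw [step_sp A (LO z σ) f0 σ _ xs y fun l _ => LO_eq z σ l, miss_eq A z σ t]
    have : (∀ x, LO z σ x ≤ LO z σ y) ↔ ∀ x : Fin n → Bool, f0 x ≤ f0 (sp σ (fun j => !z (σ j)) y) := by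
      symm
      rw [hb.2.forall]
      simp only [LO_eq]
    simp only [this, List.map_append, List.map_cons, List.map_nil]

/-- Some query has reached level `i`. -/
def hit (i : ℕ) (xs : List (Fin n → Bool)) : Prop := ∃ y ∈ xs, i ≤ f0 y

@[simp] lemma hit_nil (i : ℕ) : ¬hit i ([] : List (Fin n → Bool)) := by simp [hit]

@[simp] lemma hit_cons (i : ℕ) (y : Fin n → Bool) (ys : List (Fin n → Bool)) :
    hit i (y :: ys) ↔ i ≤ f0 y ∨ hit i ys := by simp [hit]

@[simp] lemma hit_append (i : ℕ) (xs ys : List (Fin n → Bool)) :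
    hit i (xs ++ ys) ↔ hit i xs ∨ hit i ys := by
  simp [hit, or_and_right, exists_or]

lemma hit_mono {i i' : ℕ} (h : i ≤ i') {xs : List (Fin n → Bool)} (hx : hit i' xs) : hit i xs := by
  obtain ⟨y, hy, hy'⟩ := hx
  exact ⟨y, hy, h.trans hy'⟩

open Classical in
lemma miss_ge (A : Alg n a k) : ∀ (t : ℕ) (xs : List (Fin n → Bool)),
    1 - Ex (step A f0) t xs (fun zs => if hit n zs then 1 else 0) ≤ miss A f0 t xs
  | 0, xs => by
    simp only [miss, Ex_zero]
    split_ifs <;> simp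
  | t + 1, xs => by
    rw [Ex_succ, miss]
    refine le_trans (le_of_eq ?_) (sum_le_sum (f := fun y => step A f0 xs y *
      (1 - Ex (step A f0) t (xs ++ [y]) (fun zs => if hit n zs then 1 else 0))) fun y _ => ?_)
    · simp only [mul_sub, sum_sub_distrib, mul_one, step_sum]
    refine mul_le_mul_of_nonneg_left ?_ (step_nonneg _ _ _ _)
    split_ifs with h
    · have hy : n ≤ f0 y := le_trans ((le_f0 le_rfl fun _ => true).2 fun _ _ => rfl) (h _)
      rw [Ex_frozen (step_sum A f0) t _ _ 1 fun zs => by simp [hy]]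
      simp
    · exact miss_ge A t _

end Pool.Agent.P.MP_5c258a_lc
end
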