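import Mathlib

-- part Pool.Agent.P.MP_5c258a_lc.Bin.HypA
section

/-! Negative association under swap-invariant weights (Lemma H in abstract form). -/

namespace Pool.Agent.P.MP_5c258a_lc.Bin

open Finset

variable {ι κ : Type} [Fintype ι] [DecidableEq ι] [DecidableEq κ]

/-- The mass of the patterns with value `x` on all of `B`. -/
noncomputable def massB (μ : (ι → Bool) → ℝ) (x : Bool) (B : Finset ι) : ℝ :=
  ∑ F, μ F * if ∀ j ∈ B, F j = x then 1 else 0

omit [DecidableEq κ] in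
lemma massB_swap {part : ι → κ} {μ : (ι → Bool) → ℝ}
    (hs : ∀ b b', part b = part b' → ∀ F, μ (F ∘ Equiv.swap b b') = μ F) (x : Bool)
    {B : Finset ι} {b b' : ι} (hp : part b = part b') (hb : b ∉ B) (hb' : b' ∉ B) :
    massB μ x (insert b' B) = massB μ x (insert b B) := by
  unfold massB
  have hinv : Function.Involutive (fun F : ι → Bool => F ∘ Equiv.swap b b') := fun F => by
    funext j; simp
  rw [← Equiv.sum_comp hinv.toPerm]
  refine sum_congr rfl fun F _ => ?_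
  simp only [Function.Involutive.coe_toPerm, hs b b' hp, forall_mem_insert, Function.comp,
    Equiv.swap_apply_right]
  congr 1
  refine if_congr (and_congr Iff.rfl (forall₂_congr fun j hj => ?_)) rfl rfl
  rw [Equiv.swap_apply_of_ne_of_ne (ne_of_mem_of_not_mem hj hb) (ne_of_mem_of_not_mem hj hb')]

lemma massB_insert {part : ι → κ} {μ : (ι → Bool) → ℝ} (h0 : ∀ F, 0 ≤ μ F)
    (hs : ∀ b b', part b = part b' → ∀ F, μ (F ∘ Equiv.swap b b') = μ F) (x : Bool) (r : ι → ℝ)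
    (hr : ∀ b, r b ≤ 1)
    (hc : ∀ F, μ F ≠ 0 → ∀ b, ((univ.filter fun j => part j = part b ∧ F j = x).card : ℝ) =
      r b * (univ.filter fun j => part j = part b).card)
    {B : Finset ι} {b : ι} (hb : b ∉ B) : massB μ x (insert b B) ≤ r b * massB μ x B := by
  set P := univ.filter fun j => part j = part b with hP
  have hbP : b ∈ P \ B := by simp [hP, hb]
  have hpos : (0 : ℝ) < (P \ B).card := by exact_mod_cast card_pos.2 ⟨b, hbP⟩
  have h1 : ∑ b' ∈ P \ B, massB μ x (insert b' B) = (P \ B).card * massB μ x (insert b B) := by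
    rw [sum_congr rfl (g := fun _ => massB μ x (insert b B)) fun b' hb' => ?_]
    · simp
    · have := mem_sdiff.1 hb'
      exact massB_swap hs x (by simpa [hP, eq_comm] using this.1) hb this.2
  have h2 : ∑ b' ∈ P \ B, massB μ x (insert b' B) ≤ (P \ B).card * (r b * massB μ x B) := by
    unfold massB
    rw [sum_comm, mul_sum, mul_sum]
    refine sum_le_sum fun F _ => ?_
    by_cases hF : μ F = 0
    · simp [hF]
    by_cases hB : ∀ j ∈ B, F j = x
    · simp only [forall_mem_insert, eq_true hB, and_true, if_true, mul_one]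
      rw [← mul_sum, sum_boole]
      have e1 : ((univ.filter fun j => part j = part b ∧ F j = x).card : ℝ) =
          ((P \ B).filter fun j => F j = x).card + (P ∩ B).card := by
        rw [← Nat.cast_add, ← card_union_of_disjoint]
        · congr 2
          ext j
          simp only [hP, mem_filter, mem_univ, true_and, mem_union, mem_sdiff, mem_inter]
          by_cases hj : j ∈ B
          · simp [hj, hB j hj]
          · simp [hj]
        · exact disjoint_left.2 fun j hj hj' =>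
            (mem_sdiff.1 (mem_filter.1 hj).1).2 (mem_inter.1 hj').2
      have e2 : (P.card : ℝ) = (P \ B).card + (P ∩ B).card := by
        exact_mod_cast (card_sdiff_add_card_inter P B).symm
      have e3 := hc F hF b
      rw [e1, ← hP, e2] at e3
      have e4 : r b * (P ∩ B).card ≤ (P ∩ B).card := by
        have : (0 : ℝ) ≤ (P ∩ B).card := by positivity
        nlinarith [hr b]
      have e5 : (((P \ B).filter fun j => F j = x).card : ℝ) ≤ (P \ B).card * r b := by linarith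
      nlinarith [mul_le_mul_of_nonneg_left e5 (h0 F)]
    · simp [hB]
  rw [h1] at h2
  exact le_of_mul_le_mul_left h2 hpos

lemma massB_le {part : ι → κ} {μ : (ι → Bool) → ℝ} (h0 : ∀ F, 0 ≤ μ F)
    (hs : ∀ b b', part b = part b' → ∀ F, μ (F ∘ Equiv.swap b b') = μ F) (x : Bool) (r : ι → ℝ)
    (hr0 : ∀ b, 0 ≤ r b) (hr : ∀ b, r b ≤ 1)
    (hc : ∀ F, μ F ≠ 0 → ∀ b, ((univ.filter fun j => part j = part b ∧ F j = x).card : ℝ) =
      r b * (univ.filter fun j => part j = part b).card) (B : Finset ι) :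
    massB μ x B ≤ (∏ j ∈ B, r j) * ∑ F, μ F := by
  induction B using Finset.induction_on with
  | empty => simp [massB]
  | insert b B hb ih =>
    rw [prod_insert hb, mul_assoc]
    exact (massB_insert h0 hs x r hr hc hb).trans (mul_le_mul_of_nonneg_left ih (hr0 b))

lemma prod_mono_le {part : ι → κ} {μ : (ι → Bool) → ℝ} (h0 : ∀ F, 0 ≤ μ F)
    (hs : ∀ b b', part b = part b' → ∀ F, μ (F ∘ Equiv.swap b b') = μ F) (x : Bool) (r : ι → ℝ)
    (hr0 : ∀ b, 0 ≤ r b) (hr : ∀ b, r b ≤ 1)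
    (hc : ∀ F, μ F ≠ 0 → ∀ b, ((univ.filter fun j => part j = part b ∧ F j = x).card : ℝ) =
      r b * (univ.filter fun j => part j = part b).card) (G : ι → Bool → ℝ) (I : Finset ι)
    (hG : ∀ b y, 0 ≤ G b y) (hI : ∀ b ∈ I, G b (!x) ≤ G b x)
    (hf : ∀ b, r b * G b x + (1 - r b) * G b (!x) ≤ 1) :
    ∑ F, μ F * ∏ b ∈ I, G b (F b) ≤ ∑ F, μ F := by
  have e : ∀ F : ι → Bool, ∏ b ∈ I, G b (F b) = ∑ B ∈ I.powerset,
      ((∏ b ∈ B, (G b x - G b (!x))) * ∏ b ∈ I \ B, G b (!x)) *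
        if ∀ j ∈ B, F j = x then 1 else 0 := fun F => by
    rw [prod_congr rfl (g := fun b => (G b x - G b (!x)) * (if F b = x then 1 else 0) + G b (!x))
      fun b _ => by cases x <;> cases F b <;> simp, prod_add]
    refine sum_congr rfl fun B _ => ?_
    rw [prod_mul_distrib, prod_boole, mul_right_comm]
    congr
  have hM : 0 ≤ ∑ F, μ F := sum_nonneg fun F _ => h0 F
  calc ∑ F, μ F * ∏ b ∈ I, G b (F b)
      = ∑ B ∈ I.powerset, ((∏ b ∈ B, (G b x - G b (!x))) * ∏ b ∈ I \ B, G b (!x)) *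
          massB μ x B := by
        simp only [e, mul_sum, massB]
        rw [sum_comm]
        exact sum_congr rfl fun B _ => sum_congr rfl fun F _ => by ring
    _ ≤ ∑ B ∈ I.powerset, ((∏ b ∈ B, (G b x - G b (!x)) * r b) * ∏ b ∈ I \ B, G b (!x)) *
          ∑ F, μ F := by
        refine sum_le_sum fun B hB => ?_
        have h1 : 0 ≤ (∏ b ∈ B, (G b x - G b (!x))) * ∏ b ∈ I \ B, G b (!x) :=
          mul_nonneg (prod_nonneg fun b hb => sub_nonneg.2 (hI b (mem_powerset.1 hB hb)))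
            (prod_nonneg fun b _ => hG _ _)
        refine (mul_le_mul_of_nonneg_left (massB_le h0 hs x r hr0 hr hc B) h1).trans (le_of_eq ?_)
        rw [prod_mul_distrib]
        ring
    _ = (∏ b ∈ I, ((G b x - G b (!x)) * r b + G b (!x))) * ∑ F, μ F := by
        rw [prod_add, sum_mul]
    _ ≤ 1 * ∑ F, μ F := by
        refine mul_le_mul_of_nonneg_right (prod_le_one (fun b hb => ?_) fun b _ => ?_) hM
        · exact add_nonneg (mul_nonneg (sub_nonneg.2 (hI b hb)) (hr0 b)) (hG _ _)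
        · linarith [hf b]
    _ = _ := one_mul _

/-- The fraction of `true` in the part of `b`. -/
noncomputable def rt (part : ι → κ) (F : ι → Bool) (b : ι) : ℝ :=
  ((univ.filter fun j => part j = part b ∧ F j = true).card : ℝ) /
    (univ.filter fun j => part j = part b).card

omit [DecidableEq ι] in
lemma part_pos (part : ι → κ) (b : ι) :
    (0 : ℝ) < (univ.filter fun j => part j = part b).card := by
  exact_mod_cast card_pos.2 ⟨b, by simp⟩

omit [DecidableEq ι] in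
lemma rt_nonneg (part : ι → κ) (F : ι → Bool) (b : ι) : 0 ≤ rt part F b := by
  unfold rt; positivity

omit [DecidableEq ι] in
lemma rt_le (part : ι → κ) (F : ι → Bool) (b : ι) : rt part F b ≤ 1 := by
  unfold rt
  rw [div_le_one (part_pos part b)]
  exact_mod_cast card_le_card fun j hj => by simp at hj ⊢; exact hj.1

lemma cnt_swap (part : ι → κ) {b b' : ι} (h : part b = part b') (F : ι → Bool) (s : κ) :
    (univ.filter fun j => part j = s ∧ (F ∘ Equiv.swap b b') j = true).card =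
      (univ.filter fun j => part j = s ∧ F j = true).card := by
  refine card_bij (fun j _ => Equiv.swap b b' j) (fun j hj => ?_) (fun _ _ _ _ e => by simpa using e)
    fun j hj => ⟨Equiv.swap b b' j, ?_, by simp⟩
  all_goals
    have hp : ∀ j, part (Equiv.swap b b' j) = part j := fun j => by
      rw [Equiv.swap_apply_def]; split_ifs with h1 h2 <;> simp [*]
    simpa [hp] using hj

lemma lemH_fix {part : ι → κ} {μ : (ι → Bool) → ℝ} (h0 : ∀ F, 0 ≤ μ F)
    (hs : ∀ b b', part b = part b' → ∀ F, μ (F ∘ Equiv.swap b b') = μ F) (r : ι → ℝ)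
    (hr0 : ∀ b, 0 ≤ r b) (hr : ∀ b, r b ≤ 1) (hc : ∀ F, μ F ≠ 0 → rt part F = r)
    (G : ι → Bool → ℝ) (hG : ∀ b y, 0 ≤ G b y)
    (hf : ∀ b, r b * G b true + (1 - r b) * G b false ≤ 1) :
    ∑ F, μ F * √(∏ b, G b (F b)) ≤ ∑ F, μ F := by
  have c1 : ∀ F, μ F ≠ 0 → ∀ b, ((univ.filter fun j => part j = part b ∧ F j = true).card : ℝ) =
      r b * (univ.filter fun j => part j = part b).card := fun F hF b => by
    rw [← hc F hF, rt, div_mul_cancel₀ _ (part_pos part b).ne']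
  have c2 : ∀ F, μ F ≠ 0 → ∀ b, ((univ.filter fun j => part j = part b ∧ F j = false).card : ℝ) =
      (1 - r b) * (univ.filter fun j => part j = part b).card := fun F hF b => by
    have := card_filter_add_card_filter_not (s := univ.filter fun j => part j = part b)
      (fun j => F j = true)
    rw [filter_filter, filter_filter] at this
    simp only [Bool.not_eq_true] at this
    have h3 := congrArg (Nat.cast : ℕ → ℝ) this
    rw [Nat.cast_add, c1 F hF b] at h3
    linarith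
  set I := univ.filter fun b => G b false ≤ G b true with hI
  have h1 := prod_mono_le h0 hs true r hr0 hr c1 G I hG (fun b hb => by simpa [hI] using hb) hf
  have h2 := prod_mono_le h0 hs false (fun b => 1 - r b) (fun b => by linarith [hr b])
    (fun b => by linarith [hr0 b]) c2 G Iᶜ hG
    (fun b hb => by have : G b true < G b false := by simpa [hI] using hb
                    exact this.le) (fun b => by simpa [add_comm] using hf b)
  have h3 : ∀ F : ι → Bool, √(∏ b, G b (F b)) ≤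
      (∏ b ∈ I, G b (F b) + ∏ b ∈ Iᶜ, G b (F b)) / 2 := fun F => by
    have a1 : 0 ≤ ∏ b ∈ I, G b (F b) := prod_nonneg fun b _ => hG _ _
    have a2 : 0 ≤ ∏ b ∈ Iᶜ, G b (F b) := prod_nonneg fun b _ => hG _ _
    rw [← prod_mul_prod_compl I]
    refine Real.sqrt_le_iff.2 ⟨by positivity, ?_⟩
    nlinarith [sq_nonneg (∏ b ∈ I, G b (F b) - ∏ b ∈ Iᶜ, G b (F b))]
  refine (sum_le_sum fun F _ => mul_le_mul_of_nonneg_left (h3 F) (h0 F)).trans ?_
  simp only [← mul_div_assoc, mul_add, add_div, sum_add_distrib, ← sum_div]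
  linarith

end Pool.Agent.P.MP_5c258a_lc.Bin
end

-- part Pool.Agent.P.MP_5c258a_lc.Bin.Tr
section

/-! Normalised trajectories, backward flows, plans (paper sections 1-3): definitions only. -/

namespace Pool.Agent.P.MP_5c258a_lc.Bin

open Finset Classical

/-- A trajectory: strings, the two parents of each step and the two flip rates. -/
structure Tr (n : ℕ) where
  c : ℕ → Fin n → Bool
  u : ℕ → ℕ
  v : ℕ → ℕ
  al : ℕ → ℝ
  be : ℕ → ℝ

namespace Tr

variable {n : ℕ}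

structure WF (tr : Tr n) : Prop where
  u_lt : ∀ w, 0 < w → tr.u w < w
  v_lt : ∀ w, 0 < w → tr.v w < w
  al0 : ∀ w, 0 ≤ tr.al w
  al1 : ∀ w, tr.al w ≤ 1
  be0 : ∀ w, 0 ≤ tr.be w
  be1 : ∀ w, tr.be w ≤ 1

noncomputable def bt (tr : Tr n) (w : ℕ) (b : Fin n) : ℝ := if tr.c w b = true then 1 else 0

noncomputable def kb (tr : Tr n) (w : ℕ) (b : Fin n) : ℝ :=
  tr.be w * (1 - tr.bt (tr.u w) b) + (1 - tr.be w) * (1 - tr.bt (tr.v w) b)

/-- Conditional probability that bit `b` of string `w` is one. -/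
noncomputable def pb (tr : Tr n) (w : ℕ) (b : Fin n) : ℝ :=
  (1 - tr.al w) * (1 - tr.be w) * tr.bt (tr.u w) b + (1 - tr.al w) * tr.be w * tr.bt (tr.v w) b
    + tr.al w * tr.kb w b

noncomputable def xi (tr : Tr n) (w : ℕ) (b : Fin n) : ℝ := tr.bt w b - tr.pb w b

noncomputable def vr (tr : Tr n) (w : ℕ) (b : Fin n) : ℝ := tr.pb w b * (1 - tr.pb w b)

/-- Weight of the parent `x` of `w`. -/
noncomputable def p (tr : Tr n) (w x : ℕ) : ℝ :=
  (if tr.u w = x then (1 - tr.al w) * (1 - tr.be w) else 0) +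
    (if tr.v w = x then (1 - tr.al w) * tr.be w else 0)

/-- What is known just before the bits of string `w` are drawn. -/
def cut (w : ℕ) (tr : Tr n) : Tr n where
  c := fun i => if i < w then tr.c i else fun _ => false
  u := fun i => if i ≤ w then tr.u i else 0
  v := fun i => if i ≤ w then tr.v i else 0
  al := fun i => if i ≤ w then tr.al i else 0
  be := fun i => if i ≤ w then tr.be i else 0

/-- Backward flow from the node `z` through the allowed nodes `A`. Use `gr_eq`, never unfold. -/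
noncomputable def gr (tr : Tr n) (A : ℕ → Prop) (z x : ℕ) : ℝ :=
  (if x = z then 1 else 0) +
    ∑ w ∈ (Ioc x z).attach, if A w.1 then gr tr A z w.1 * tr.p w.1 x else 0
termination_by z - x
decreasing_by
  have := mem_Ioc.1 w.2
  omega

theorem gr_eq (tr : Tr n) (A : ℕ → Prop) (z x : ℕ) : tr.gr A z x =
    (if x = z then 1 else 0) + ∑ w ∈ Ioc x z, if A w then tr.gr A z w * tr.p w x else 0 := by
  rw [gr, sum_attach (Ioc x z) fun w => if A w then tr.gr A z w * tr.p w x else 0]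

/-- Stopping distribution of the flow. -/
noncomputable def st (tr : Tr n) (A : ℕ → Prop) (z x : ℕ) : ℝ := if A x then 0 else tr.gr A z x

/-- Full flow above the time `τ`. -/
noncomputable def pi (tr : Tr n) (τ z x : ℕ) : ℝ := tr.gr (fun w => τ < w) z x

noncomputable def x1 (tr : Tr n) (t z : ℕ) (b : Fin n) : ℝ :=
  ∑ x ∈ range (z + 1), tr.st (fun w => t < w) z x * tr.bt x b

noncomputable def x0 (tr : Tr n) (t z : ℕ) (b : Fin n) : ℝ :=
  ∑ x ∈ range (z + 1), tr.st (fun w => t < w) z x * (1 - tr.bt x b)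

noncomputable def kap (tr : Tr n) (τ z : ℕ) : ℝ := ∑ w ∈ Ioc τ z, tr.pi τ z w * tr.al w

noncomputable def VV (tr : Tr n) (N : Finset (Fin n)) (w : ℕ) : ℝ := (∑ b ∈ N, tr.vr w b) / N.card

noncomputable def vv (tr : Tr n) (N : Finset (Fin n)) (τ z : ℕ) : ℝ :=
  ∑ w ∈ Ioc τ z, tr.pi τ z w ^ 2 * tr.VV N w

noncomputable def df (tr : Tr n) (f f' : ℕ) (b : Fin n) : ℝ := if tr.c f b = tr.c f' b then 0 else 1

structure Good (tr : Tr n) (O N : Finset (Fin n)) (δ : ℝ) (T : ℕ) : Prop where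
  gN : ∀ w, 0 < w → w ≤ T → ∀ x < w, |∑ b ∈ N, tr.xi w b * (tr.bt x b - 1 / 2)| ≤ δ * N.card
  gO : ∀ w, 0 < w → w ≤ T → |∑ b ∈ O, tr.xi w b| ≤ δ * O.card

structure Norm (tr : Tr n) (O : Finset (Fin n)) : Prop where
  n0 : (O.card : ℝ) / 2 ≤ ∑ b ∈ O, tr.bt 0 b
  nw : ∀ w, 0 < w → (O.card : ℝ) / 2 ≤ ∑ b ∈ O, tr.pb w b

structure Typ (tr : Tr n) {L : ℕ} (W : Fin L → Fin n) (N : Finset (Fin n)) (ε : ℝ) (τ : ℕ) :
    Prop where
  one : ∀ f ≤ τ, ∑ l, tr.bt f (W l) ≤ (1 / 2 + ε) * L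
  two : ∀ f ≤ τ, ∀ f' ≤ τ, ∑ l, tr.df f f' (W l) ≤ ((∑ b ∈ N, tr.df f f' b) / N.card + ε) * L

noncomputable def XX (tr : Tr n) (q : ℕ → ℝ) (b : Fin n) (lo t : ℕ) : ℝ :=
  ∑ w ∈ Ioc lo t, q w * tr.xi w b

noncomputable def QQ (tr : Tr n) (q : ℕ → ℝ) (b : Fin n) (lo t : ℕ) : ℝ :=
  ∑ w ∈ Ioc lo t, q w ^ 2 * (tr.xi w b ^ 2 + tr.vr w b)

end Tr

/-- The three kinds of episodes. -/
inductive Ty
  | A
  | H
  | L
  deriving DecidableEq

noncomputable def cA : ℝ := 1 / 20000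
noncomputable def cH : ℝ := 1 / 10 ^ 13

noncomputable def gainOf : Ty → ℝ → ℝ → ℝ → ℝ
  | .A, lam, X, _ => cA * Real.log ((lam + X) / lam) - 1
  | .H, _, _, Q => cH * Q - 1
  | .L, lam, X, Q => cA * X / lam - Q / lam ^ 2

/-- The condition an episode must satisfy on the true path. -/
def Cond {n : ℕ} (tr : Tr n) (q : ℕ → ℝ) (b : Fin n) (lo hi : ℕ) (lam : ℝ) : Ty → Prop
  | .A => ∀ w ∈ Ioc lo hi, q w * tr.pb w b ≤ lam + tr.XX q b lo (w - 1)
  | .H => lam = 1 ∧ ∀ w ∈ Ioc lo hi, q w ≤ 1 ∧ -2 ≤ tr.XX q b lo w ∧ tr.XX q b lo w ≤ 1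
  | .L => ∀ w ∈ Ioc lo hi, q w ≤ lam

theorem ty_realize : True := by
  have := @gainOf.eq_1
  have := @gainOf.eq_2
  have := @gainOf.eq_3
  have := @Cond.eq_1
  have := @Cond.eq_2
  have := @Cond.eq_3
  trivial

structure Plan (n : ℕ) (E K : Type) where
  t0 : ℕ
  te : ℕ
  col : E → Fin n
  ty : E → Ty
  lam : E → ℝ
  lo : E → ℕ
  hi : E → ℕ
  om : E → Tr n → ℕ → K → ℝ

namespace Plan

variable {n : ℕ} {E K : Type} [Fintype E] [Fintype K]

/-- True weight of the episode `e` at step `w` for the flows from `z k` through `A k`. -/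
noncomputable def q (P : Plan n E K) (tr : Tr n) (A : K → ℕ → Prop) (z : K → ℕ) (e : E) (w : ℕ) :
    ℝ := ∑ k, P.om e (tr.cut w) w k * tr.gr (A k) (z k) w

noncomputable def gain (P : Plan n E K) (tr : Tr n) (A : K → ℕ → Prop) (z : K → ℕ) (e : E) : ℝ :=
  gainOf (P.ty e) (P.lam e) (tr.XX (P.q tr A z e) (P.col e) (P.lo e) (P.hi e))
    (tr.QQ (P.q tr A z e) (P.col e) (P.lo e) (P.hi e))

structure Valid (H : ℕ) (P : Plan n E K) (tr : Tr n) (A : K → ℕ → Prop) (z : K → ℕ) : Prop where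
  t0_le : P.t0 ≤ P.te
  lo_ge : ∀ e, P.t0 ≤ P.lo e
  lo_le : ∀ e, P.lo e ≤ P.hi e
  hi_le : ∀ e, P.hi e ≤ P.te
  z_le : ∀ k, z k ≤ P.te
  cols : (univ.image P.col).card ≤ H ^ 81
  disj : ∀ e e', e ≠ e' → P.col e = P.col e' →
    ∀ w, w ∈ Ioc (P.lo e) (P.hi e) → w ∉ Ioc (P.lo e') (P.hi e')
  lam_ge : ∀ e, 1 / (H : ℝ) ≤ P.lam e
  om0 : ∀ e, ∀ w ∈ Ioc (P.lo e) (P.hi e), ∀ k, 0 ≤ P.om e (tr.cut w) w k
  om1 : ∀ e, ∀ w ∈ Ioc (P.lo e) (P.hi e), ∑ k, P.om e (tr.cut w) w k ≤ 1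
  cond : ∀ e, Cond tr (P.q tr A z e) (P.col e) (P.lo e) (P.hi e) (P.lam e) (P.ty e)

/-- The plan wins `g` on the trajectory `tr` after paying `A0` per step. -/
def Win (A0 : ℝ) (H T : ℕ) (P : Plan n E K) (tr : Tr n) (g : ℝ) : Prop :=
  P.te ≤ T ∧ ∃ A z, P.Valid H tr A z ∧
    g + A0 * ((P.te : ℝ) - P.t0) + (H : ℝ) ^ 80 ≤ (∑ e, P.gain tr A z e) / 2

end Plan

/-- An abstract bettor (paper section 1). All arguments `tr` are meant to be cut trajectories. -/
structure Bettor (n : ℕ) (St Opt : Type) [Fintype Opt] where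
  init : St
  wt : St → Tr n → ℕ → Opt → ℝ
  G : St → Tr n → ℕ → Opt → Fin n → Bool → ℝ
  upd : St → Tr n → ℕ → Opt → (Fin n → Bool) → St
  wt0 : ∀ s tr w o, 0 ≤ wt s tr w o
  wt1 : ∀ s tr w, ∑ o, wt s tr w o ≤ 1
  G0 : ∀ s tr w o b x, 0 ≤ tr.pb w b → tr.pb w b ≤ 1 → 0 ≤ G s tr w o b x
  G1 : ∀ s tr w o b, 0 ≤ tr.pb w b → tr.pb w b ≤ 1 →
    tr.pb w b * G s tr w o b true + (1 - tr.pb w b) * G s tr w o b false ≤ 1

namespace Bettor

variable {n : ℕ} {St Opt : Type} [Fintype Opt]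

/-- State after the steps `t0 + 1, …, t0 + r`. -/
def run (B : Bettor n St Opt) (tr : Tr n) (t0 : ℕ) (o : ℕ → Opt) : ℕ → St
  | 0 => B.init
  | r + 1 => B.upd (run B tr t0 o r) (tr.cut (t0 + r + 1)) (t0 + r + 1) (o r) (tr.c (t0 + r + 1))

theorem run_zero (B : Bettor n St Opt) (tr : Tr n) (t0 : ℕ) (o : ℕ → Opt) :
    B.run tr t0 o 0 = B.init := rfl

theorem run_succ (B : Bettor n St Opt) (tr : Tr n) (t0 : ℕ) (o : ℕ → Opt) (r : ℕ) :
    B.run tr t0 o (r + 1) =
      B.upd (B.run tr t0 o r) (tr.cut (t0 + r + 1)) (t0 + r + 1) (o r) (tr.c (t0 + r + 1)) := rfl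

theorem run_realize : True := by have := @run.eq_def; trivial

/-- The factor earned at step `w` from the state `s` with the option `o`. -/
noncomputable def fac (B : Bettor n St Opt) (tr : Tr n) (s : St) (w : ℕ) (o : Opt) : ℝ :=
  B.wt s (tr.cut w) w o * √(∏ b, B.G s (tr.cut w) w o b (tr.c w b))

noncomputable def wealth (B : Bettor n St Opt) (tr : Tr n) (t0 : ℕ) (o : ℕ → Opt) (m : ℕ) : ℝ :=
  ∏ r ∈ range m, B.fac tr (B.run tr t0 o r) (t0 + r + 1) (o r)

end Bettor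

end Pool.Agent.P.MP_5c258a_lc.Bin
end

-- part Pool.Agent.P.MP_5c258a_lc.Bin.Flow
section

/-! Task FLOW: algebra of backward flows (paper section 2, first paragraph). -/

namespace Pool.Agent.P.MP_5c258a_lc.Bin

open Finset Classical

namespace Tr

variable {n : ℕ} {tr : Tr n}

lemma bt_nonneg (tr : Tr n) (w : ℕ) (b : Fin n) : 0 ≤ tr.bt w b := by
  unfold bt; split_ifs <;> norm_num

lemma bt_le_one (tr : Tr n) (w : ℕ) (b : Fin n) : tr.bt w b ≤ 1 := by
  unfold bt; split_ifs <;> norm_num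

lemma bt_mul_one_sub (tr : Tr n) (w : ℕ) (b : Fin n) : tr.bt w b * (1 - tr.bt w b) = 0 := by
  unfold bt; split_ifs <;> norm_num

lemma kb_nonneg (h : tr.WF) (w : ℕ) (b : Fin n) : 0 ≤ tr.kb w b := by
  have := h.be0 w
  have := sub_nonneg.2 (h.be1 w)
  have := sub_nonneg.2 (tr.bt_le_one (tr.u w) b)
  have := sub_nonneg.2 (tr.bt_le_one (tr.v w) b)
  unfold kb; positivity

lemma kb_le_one (h : tr.WF) (w : ℕ) (b : Fin n) : tr.kb w b ≤ 1 := by
  have h1 := mul_nonneg (h.be0 w) (tr.bt_nonneg (tr.u w) b)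
  have h2 := mul_nonneg (sub_nonneg.2 (h.be1 w)) (tr.bt_nonneg (tr.v w) b)
  unfold kb; nlinarith

lemma pb_nonneg (h : tr.WF) (w : ℕ) (b : Fin n) : 0 ≤ tr.pb w b := by
  have := h.be0 w
  have := h.al0 w
  have := sub_nonneg.2 (h.be1 w)
  have := sub_nonneg.2 (h.al1 w)
  have := tr.bt_nonneg (tr.u w) b
  have := tr.bt_nonneg (tr.v w) b
  have := kb_nonneg h w b
  unfold pb; positivity

lemma pb_le_one (h : tr.WF) (w : ℕ) (b : Fin n) : tr.pb w b ≤ 1 := by
  have h0 := sub_nonneg.2 (h.al1 w)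
  have h1 := mul_nonneg (mul_nonneg h0 (sub_nonneg.2 (h.be1 w)))
    (sub_nonneg.2 (tr.bt_le_one (tr.u w) b))
  have h2 := mul_nonneg (mul_nonneg h0 (h.be0 w)) (sub_nonneg.2 (tr.bt_le_one (tr.v w) b))
  have h3 := mul_nonneg (h.al0 w) (sub_nonneg.2 (kb_le_one h w b))
  unfold pb; nlinarith

lemma abs_xi_le (h : tr.WF) (w : ℕ) (b : Fin n) : |tr.xi w b| ≤ 1 := by
  have := tr.bt_nonneg w b
  have := tr.bt_le_one w b
  have := pb_nonneg h w b
  have := pb_le_one h w b
  unfold xi; rw [abs_le]; constructor <;> linarith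

lemma vr_nonneg (h : tr.WF) (w : ℕ) (b : Fin n) : 0 ≤ tr.vr w b := 
  mul_nonneg (pb_nonneg h w b) (sub_nonneg.2 (pb_le_one h w b))

lemma VV_nonneg (h : tr.WF) (N : Finset (Fin n)) (w : ℕ) : 0 ≤ tr.VV N w := 
  div_nonneg (sum_nonneg fun b _ => vr_nonneg h w b) (Nat.cast_nonneg _)

lemma p_nonneg (h : tr.WF) (w x : ℕ) : 0 ≤ tr.p w x := by
  have := h.be0 w
  have := sub_nonneg.2 (h.be1 w)
  have := sub_nonneg.2 (h.al1 w)
  unfold p; split_ifs <;> positivity

lemma p_eq_zero (h : tr.WF) {w x : ℕ} (hw : 0 < w) (hx : w ≤ x) : tr.p w x = 0 := by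
  have h1 := h.u_lt w hw
  have h2 := h.v_lt w hw
  unfold p; rw [if_neg (by omega), if_neg (by omega), add_zero]

lemma psum (h : tr.WF) {w m : ℕ} (hw : 0 < w) (hm : w ≤ m) (F : ℕ → ℝ) :
    ∑ x ∈ range m, tr.p w x * F x =
      (1 - tr.al w) * (1 - tr.be w) * F (tr.u w) + (1 - tr.al w) * tr.be w * F (tr.v w) := by
  have h1 : tr.u w ∈ range m := mem_range.2 ((h.u_lt w hw).trans_le hm)
  have h2 : tr.v w ∈ range m := mem_range.2 ((h.v_lt w hw).trans_le hm)
  simp only [p, add_mul, ite_mul, zero_mul, sum_add_distrib, sum_ite_eq, if_pos h1, if_pos h2]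

lemma down_ind (z : ℕ) {P : ℕ → Prop} (h : ∀ x, (∀ w, x < w → w ≤ z → P w) → P x) (x : ℕ) :
    P x := by
  induction hk : z - x using Nat.strong_induction_on generalizing x with
  | h k ih => exact h x fun w h1 h2 => ih (z - w) (by omega) w rfl

lemma gr_nonneg (h : tr.WF) (A : ℕ → Prop) (z x : ℕ) : 0 ≤ tr.gr A z x := by
  induction x using down_ind z with
  | h x ih =>
    rw [gr_eq]
    refine add_nonneg (by split_ifs <;> norm_num) (sum_nonneg fun w hw => ?_)
    split_ifs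
    · exact mul_nonneg (ih w (mem_Ioc.1 hw).1 (mem_Ioc.1 hw).2) (p_nonneg h w x)
    · exact le_rfl

lemma gr_of_lt (tr : Tr n) (A : ℕ → Prop) {z x : ℕ} (hx : z < x) : tr.gr A z x = 0 := by
  rw [gr_eq, if_neg hx.ne', Ioc_eq_empty (by omega), sum_empty, add_zero]

lemma gr_self (tr : Tr n) (A : ℕ → Prop) (z : ℕ) : tr.gr A z z = 1 := by
  rw [gr_eq, if_pos rfl, Ioc_self, sum_empty, add_zero]

/-- The recursion with any horizon `m ≥ z`. -/
lemma gr_eq' (tr : Tr n) (A : ℕ → Prop) {z m : ℕ} (hm : z ≤ m) (x : ℕ) : tr.gr A z x =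
    (if x = z then 1 else 0) + ∑ w ∈ Ioc x m, if A w then tr.gr A z w * tr.p w x else 0 := by
  rw [gr_eq]
  congr 1
  refine sum_subset (Ioc_subset_Ioc_right hm) fun w h1 h2 => ?_
  rw [mem_Ioc] at h1 h2
  rw [gr_of_lt tr A (show z < w by omega), zero_mul, ite_self]

lemma gr_mono (h : tr.WF) {A A' : ℕ → Prop} (hA : ∀ w, A w → A' w) (z x : ℕ) :
    tr.gr A z x ≤ tr.gr A' z x := by
  induction x using down_ind z with
  | h x ih =>
    rw [gr_eq tr A, gr_eq tr A']
    refine add_le_add le_rfl (sum_le_sum fun w hw => ?_)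
    by_cases h1 : A w
    · rw [if_pos h1, if_pos (hA w h1)]
      exact mul_le_mul_of_nonneg_right (ih w (mem_Ioc.1 hw).1 (mem_Ioc.1 hw).2) (p_nonneg h w x)
    · rw [if_neg h1]
      split_ifs
      · exact mul_nonneg (gr_nonneg h _ _ _) (p_nonneg h w x)
      · exact le_rfl

lemma gr_congr (tr : Tr n) {A A' : ℕ → Prop} {t : ℕ} (hA : ∀ w, t < w → (A w ↔ A' w)) (z : ℕ)
    {x : ℕ} (hx : t ≤ x) : tr.gr A z x = tr.gr A' z x := by
  induction x using down_ind z with
  | h x ih =>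
    rw [gr_eq tr A, gr_eq tr A']
    congr 1
    refine sum_congr rfl fun w hw => ?_
    rw [mem_Ioc] at hw
    rw [ih w hw.1 hw.2 (by omega)]
    exact if_congr (hA w (by omega)) rfl rfl

lemma pi_congr (tr : Tr n) {τ t : ℕ} (ht : τ ≤ t) (z : ℕ) {x : ℕ} (hx : t ≤ x) :
    tr.pi τ z x = tr.pi t z x := 
  gr_congr tr (t := t) (fun _ hw => ⟨fun _ => hw, fun _ => ht.trans_lt hw⟩) z hx

lemma st_nonneg (h : tr.WF) (A : ℕ → Prop) (z x : ℕ) : 0 ≤ tr.st A z x := by
  unfold st; split_ifs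
  · exact le_rfl
  · exact gr_nonneg h A z x

/-- (I1). -/
lemma flow_id (h : tr.WF) {A : ℕ → Prop} (h0 : ¬A 0) (z : ℕ) (F : ℕ → ℝ) :
    F z = ∑ x ∈ range (z + 1), tr.st A z x * F x + ∑ w ∈ range (z + 1),
      if A w then tr.gr A z w * (F w - ((1 - tr.al w) * (1 - tr.be w) * F (tr.u w)
        + (1 - tr.al w) * tr.be w * F (tr.v w))) else 0 := by
  have e1 : ∀ x, (if x = z then 1 else 0) * F x = tr.gr A z x * F x -
      ∑ w ∈ range (z + 1), if A w then tr.gr A z w * (tr.p w x * F x) else 0 := by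
    intro x
    have : ∑ w ∈ Ioc x z, (if A w then tr.gr A z w * tr.p w x else 0) =
        ∑ w ∈ range (z + 1), if A w then tr.gr A z w * tr.p w x else 0 := by
      refine sum_subset (fun w hw => mem_range.2 (by have := mem_Ioc.1 hw; omega))
        fun w h1 h2 => ?_
      rw [mem_range] at h1
      rw [mem_Ioc] at h2
      split_ifs with h3
      · rw [p_eq_zero h (Nat.pos_of_ne_zero (by rintro rfl; exact h0 h3)) (by omega), mul_zero]
      · rfl
    rw [gr_eq tr A z x, this, add_mul, sum_mul]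
    simp only [ite_mul, zero_mul, mul_assoc, add_sub_cancel_right]
  have e2 : F z = ∑ x ∈ range (z + 1), (if x = z then 1 else 0) * F x := by simp
  rw [e2, sum_congr rfl fun x _ => e1 x, sum_sub_distrib, sum_comm, ← sum_add_distrib,
    ← sum_sub_distrib]
  refine sum_congr rfl fun w hw => ?_
  by_cases h1 : A w
  · simp only [st, if_pos h1, ← mul_sum]
    rw [psum h (Nat.pos_of_ne_zero (by rintro rfl; exact h0 h1)) (mem_range.1 hw).le]
    ring
  · simp [st, h1]

lemma st_sum_le (h : tr.WF) {A : ℕ → Prop} (h0 : ¬A 0) (z : ℕ) :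
    ∑ x ∈ range (z + 1), tr.st A z x ≤ 1 := by
  have h1 := flow_id h h0 z fun _ => 1
  have h2 : 0 ≤ ∑ w ∈ range (z + 1), if A w then tr.gr A z w * (1 - ((1 - tr.al w) *
      (1 - tr.be w) * 1 + (1 - tr.al w) * tr.be w * 1)) else 0 := by
    refine sum_nonneg fun w _ => ?_
    split_ifs
    · exact mul_nonneg (gr_nonneg h A z w) (by have := h.al0 w; linarith)
    · exact le_rfl
  simp only [mul_one] at h1 h2
  linarith

/-- Use `gr_congr` to make `x` a stopping node, then (I1) with `F = 1`. -/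
lemma gr_le_one (h : tr.WF) (A : ℕ → Prop) (z x : ℕ) : tr.gr A z x ≤ 1 := by
  rcases lt_or_ge z x with hx | hx
  · rw [gr_of_lt tr A hx]; exact zero_le_one
  have h1 : tr.gr A z x = tr.st (fun w => A w ∧ x < w) z x := by
    rw [st, if_neg (by simp)]
    exact gr_congr tr (t := x) (fun w hw => by simp [hw]) z le_rfl
  rw [h1]
  exact (single_le_sum (fun y _ => st_nonneg h _ z y) (mem_range.2 (by omega))).trans
    (st_sum_le h (by simp) z)

lemma st_of_lt (tr : Tr n) (A : ℕ → Prop) {z x : ℕ} (hx : z < x) : tr.st A z x = 0 := by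
  rw [st, gr_of_lt tr A hx, ite_self]

/-- (COMP). Downward induction on `x`. -/
lemma gr_comp (_h : tr.WF) {A A' : ℕ → Prop} (hA : ∀ w, A w → A' w) (a x : ℕ) :
    tr.gr A' a x = (if A x then tr.gr A a x else 0) +
      ∑ z ∈ range (a + 1), tr.st A a z * tr.gr A' z x := by
  induction x using down_ind a with
  | h x ih =>
    have e1 : ∑ z ∈ range (a + 1), tr.st A a z * tr.gr A' z x = tr.st A a x +
        ∑ w ∈ Ioc x a, if A' w then (∑ z ∈ range (a + 1), tr.st A a z * tr.gr A' z w) * tr.p w x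
          else 0 := by
      rw [sum_congr rfl fun z hz => by
        rw [gr_eq' tr A' (m := a) (by have := mem_range.1 hz; omega) x, mul_add, mul_sum],
        sum_add_distrib, sum_comm]
      congr 1
      · simp only [mul_ite, mul_one, mul_zero, sum_ite_eq, mem_range]
        split_ifs with h1
        · rfl
        · rw [st_of_lt tr A (by omega)]
      · refine sum_congr rfl fun w _ => ?_
        split_ifs
        · simp only [sum_mul, mul_assoc]
        · simp
    have e2 : (if A x then tr.gr A a x else 0) + tr.st A a x = tr.gr A a x := by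
      unfold st; split_ifs <;> simp
    rw [e1, ← add_assoc, e2, gr_eq tr A', gr_eq tr A, add_assoc, ← sum_add_distrib]
    congr 1
    refine sum_congr rfl fun w hw => ?_
    rw [ih w (mem_Ioc.1 hw).1 (mem_Ioc.1 hw).2]
    by_cases h1 : A w
    · simp only [if_pos h1, if_pos (hA w h1)]; ring
    · simp only [if_neg h1, zero_add]

lemma st_comp (h : tr.WF) {A A' : ℕ → Prop} (hA : ∀ w, A w → A' w) (a x : ℕ) :
    tr.st A' a x = ∑ z ∈ range (a + 1), tr.st A a z * tr.st A' z x := by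
  by_cases h1 : A' x
  · simp [st, h1]
  · have h2 := gr_comp h hA a x
    rw [if_neg (fun h3 => h1 (hA x h3)), zero_add] at h2
    simp only [st, if_neg h1] at h2 ⊢
    exact h2

lemma x1_nonneg (h : tr.WF) (t z : ℕ) (b : Fin n) : 0 ≤ tr.x1 t z b := 
  sum_nonneg fun x _ => mul_nonneg (st_nonneg h _ z x) (tr.bt_nonneg x b)

lemma x0_nonneg (h : tr.WF) (t z : ℕ) (b : Fin n) : 0 ≤ tr.x0 t z b := 
  sum_nonneg fun x _ => mul_nonneg (st_nonneg h _ z x) (sub_nonneg.2 (tr.bt_le_one x b))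

lemma kap_nonneg (h : tr.WF) (τ z : ℕ) : 0 ≤ tr.kap τ z := 
  sum_nonneg fun w _ => mul_nonneg (gr_nonneg h _ z w) (h.al0 w)

lemma pi_nonneg (h : tr.WF) (τ z x : ℕ) : 0 ≤ tr.pi τ z x := gr_nonneg h _ z x

lemma pi_of_lt (tr : Tr n) (τ : ℕ) {z x : ℕ} (hx : z < x) : tr.pi τ z x = 0 := gr_of_lt tr _ hx

/-- (I1) with the sum over an interval with any horizon. -/
lemma flow_Ioc (h : tr.WF) {A : ℕ → Prop} {τ z m : ℕ} (hA : ∀ w, A w → τ < w) (hm : z ≤ m)
    (F : ℕ → ℝ) : F z = ∑ x ∈ range (z + 1), tr.st A z x * F x + ∑ w ∈ Ioc τ m,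
      (if A w then tr.gr A z w else 0) * (F w - ((1 - tr.al w) * (1 - tr.be w) * F (tr.u w)
        + (1 - tr.al w) * tr.be w * F (tr.v w))) := by
  refine (flow_id h (fun h0 => absurd (hA 0 h0) (Nat.not_lt_zero _)) z F).trans ?_
  congr 1
  simp only [ite_mul, zero_mul]
  refine (sum_subset (s₂ := range (m + 1)) (range_subset_range.2 (by omega))
    fun w _ h2 => ?_).trans (sum_subset (fun w hw => mem_range.2 (by
      have := mem_Ioc.1 hw; omega)) fun w h1 h2 => ?_).symm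
  · rw [gr_of_lt tr A (by rw [mem_range] at h2; omega), zero_mul, ite_self]
  · rw [mem_range] at h1
    rw [mem_Ioc] at h2
    exact if_neg fun h3 => by have := hA w h3; omega

lemma flow_full (h : tr.WF) {τ t z m : ℕ} (ht : τ ≤ t) (hm : z ≤ m) (F : ℕ → ℝ) :
    F z = ∑ x ∈ range (z + 1), tr.st (fun w => t < w) z x * F x + ∑ w ∈ Ioc t m,
      tr.pi τ z w * (F w - ((1 - tr.al w) * (1 - tr.be w) * F (tr.u w)
        + (1 - tr.al w) * tr.be w * F (tr.v w))) := by
  refine (flow_Ioc h (A := fun w => t < w) (τ := t) (fun _ h => h) hm F).trans ?_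
  congr 1
  refine sum_congr rfl fun w hw => ?_
  rw [if_pos (mem_Ioc.1 hw).1, pi_congr tr ht z (mem_Ioc.1 hw).1.le, pi]

lemma bt_sub (tr : Tr n) (w : ℕ) (b : Fin n) : tr.bt w b - ((1 - tr.al w) * (1 - tr.be w) *
    tr.bt (tr.u w) b + (1 - tr.al w) * tr.be w * tr.bt (tr.v w) b) =
      tr.xi w b + tr.al w * tr.kb w b := by
  unfold xi pb; ring

lemma flow_bt (h : tr.WF) {τ t z m : ℕ} (ht : τ ≤ t) (hm : z ≤ m) (b : Fin n) :
    tr.bt z b = tr.x1 t z b + ∑ w ∈ Ioc t m, tr.pi τ z w * (tr.xi w b + tr.al w * tr.kb w b) := by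
  have := flow_full h ht hm fun x => tr.bt x b
  simp only [bt_sub] at this
  exact this

lemma kap_eq (tr : Tr n) (τ : ℕ) {z m : ℕ} (hm : z ≤ m) :
    tr.kap τ z = ∑ w ∈ Ioc τ m, tr.pi τ z w * tr.al w := by
  refine sum_subset (Ioc_subset_Ioc_right hm) fun w h1 h2 => ?_
  rw [mem_Ioc] at h1 h2
  rw [pi_of_lt tr τ (show z < w by omega), zero_mul]

lemma le_kap (h : tr.WF) {τ t1 : ℕ} (h1 : τ ≤ t1) (t z : ℕ) :
    ∑ w ∈ Ioc t1 t, tr.pi τ z w * tr.al w ≤ tr.kap τ z := by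
  rw [kap_eq tr τ (le_max_left z t)]
  exact sum_le_sum_of_subset_of_nonneg (Ioc_subset_Ioc h1 (le_max_right _ _))
    fun w _ _ => mul_nonneg (pi_nonneg h _ _ _) (h.al0 w)

lemma mass (h : tr.WF) (τ z : ℕ) (b : Fin n) : tr.x1 τ z b + tr.x0 τ z b + tr.kap τ z = 1 := by
  have h1 := flow_full h le_rfl (le_refl z) (τ := τ) fun _ => 1
  have h2 : tr.x1 τ z b + tr.x0 τ z b = ∑ x ∈ range (z + 1), tr.st (fun w => τ < w) z x * 1 := by
    rw [x1, x0, ← sum_add_distrib]
    exact sum_congr rfl fun x _ => by ring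
  refine Eq.trans ?_ h1.symm
  rw [h2, kap]
  congr 1
  exact sum_congr rfl fun w _ => by ring

lemma st_top (tr : Tr n) {t z : ℕ} (hz : z ≤ t) (x : ℕ) :
    tr.st (fun w => t < w) z x = if x = z then 1 else 0 := by
  rcases lt_or_ge z x with hx | hx
  · rw [st_of_lt tr _ hx, if_neg hx.ne']
  · rw [st, if_neg (by omega), gr_eq, sum_eq_zero, add_zero]
    exact fun w hw => if_neg (by have := mem_Ioc.1 hw; omega)

lemma x1_top (tr : Tr n) {t z : ℕ} (hz : z ≤ t) (b : Fin n) : tr.x1 t z b = tr.bt z b := by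
  simp [x1, st_top tr hz]

lemma x0_top (tr : Tr n) {t z : ℕ} (hz : z ≤ t) (b : Fin n) : tr.x0 t z b = 1 - tr.bt z b := by
  simp [x0, st_top tr hz]

lemma kap_anti (h : tr.WF) {τ t : ℕ} (ht : τ ≤ t) (z : ℕ) : tr.kap t z ≤ tr.kap τ z := by
  refine le_trans (le_of_eq (sum_congr rfl fun w hw => ?_)) (le_kap h ht z z)
  rw [pi_congr tr ht z (mem_Ioc.1 hw).1.le]

/-- (I1) for the allowed sets `(t1, ∞)` and `(t, ∞)`, subtracted. -/
lemma evolve (h : tr.WF) {τ t1 t : ℕ} (h1 : τ ≤ t1) (h2 : t1 ≤ t) (z : ℕ) (b : Fin n) :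
    tr.x1 t z b = tr.x1 t1 z b +
      ∑ w ∈ Ioc t1 t, tr.pi τ z w * (tr.xi w b + tr.al w * tr.kb w b) := by
  have e1 := flow_bt h h1 (le_max_left z t) b
  have e2 := flow_bt h (h1.trans h2) (le_max_left z t) b
  rw [← sum_Ioc_consecutive _ h2 (le_max_right z t)] at e1
  linarith

/-- The killed part between two times is at most `kap`. -/
lemma kill_le (h : tr.WF) {τ t1 t : ℕ} (h1 : τ ≤ t1) (z : ℕ) (b : Fin n) :
    0 ≤ ∑ w ∈ Ioc t1 t, tr.pi τ z w * (tr.al w * tr.kb w b) ∧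
      ∑ w ∈ Ioc t1 t, tr.pi τ z w * (tr.al w * tr.kb w b) ≤ tr.kap τ z := by
  refine ⟨sum_nonneg fun w _ => mul_nonneg (pi_nonneg h _ _ _)
    (mul_nonneg (h.al0 w) (kb_nonneg h w b)), le_trans (sum_le_sum fun w _ => ?_) (le_kap h h1 t z)⟩
  exact mul_le_mul_of_nonneg_left (mul_le_of_le_one_right (h.al0 w) (kb_le_one h w b))
    (pi_nonneg h _ _ _)

lemma pre_bound (h : tr.WF) {τ w : ℕ} (hw : τ < w) (z : ℕ) (b : Fin n) :
    tr.pi τ z w * (tr.pb w b - tr.al w * tr.kb w b) ≤ tr.x1 (w - 1) z b := by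
  rcases lt_or_ge z w with hz | hz
  · rw [pi_of_lt tr τ hz, zero_mul]; exact x1_nonneg h _ _ _
  have e : tr.pb w b - tr.al w * tr.kb w b = ∑ x ∈ range (z + 1), tr.p w x * tr.bt x b := by
    rw [psum h (by omega) (by omega) fun x => tr.bt x b, pb]; ring
  rw [e, mul_sum, x1]
  refine sum_le_sum fun x _ => ?_
  rw [← mul_assoc]
  refine mul_le_mul_of_nonneg_right ?_ (tr.bt_nonneg x b)
  rcases lt_or_ge x w with hx | hx
  swap
  · rw [p_eq_zero h (by omega) hx, mul_zero]; exact st_nonneg h _ _ _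
  rw [st, if_neg (by omega), gr_eq, pi_congr tr (show τ ≤ w - 1 by omega) z (by omega), pi]
  refine le_add_of_nonneg_of_le (by split_ifs <;> norm_num) (le_trans (le_of_eq ?_)
    (single_le_sum (a := w) (fun y _ => ?_) (mem_Ioc.2 ⟨hx, hz⟩)))
  · rw [if_pos (by omega)]
  · split_ifs
    · exact mul_nonneg (gr_nonneg h _ _ _) (p_nonneg h _ _)
    · exact le_rfl

/-- The condition of an episode of type A for one flow. -/
lemma condA_one (h : tr.WF) {τ lo w : ℕ} (h1 : τ ≤ lo) (hw : lo < w) (z : ℕ) (b : Fin n) :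
    tr.pi τ z w * tr.pb w b ≤
      tr.x1 lo z b + tr.kap τ z + tr.XX (tr.pi τ z) b lo (w - 1) := by
  obtain ⟨w, rfl⟩ : ∃ k, w = k + 1 := ⟨w - 1, by omega⟩
  have e1 := pre_bound h (h1.trans_lt hw) z b
  have e2 := evolve h h1 (show lo ≤ w by omega) z b
  have e3 := (kill_le h (t := w + 1) h1 z b).2
  rw [sum_Ioc_succ_top (by omega)] at e3
  simp only [mul_add, sum_add_distrib] at e2
  simp only [Nat.add_sub_cancel, XX] at e1 ⊢
  linarith

/-- The end value of an episode of type A for one flow. -/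
lemma endA_one (h : tr.WF) {τ lo hi : ℕ} (h1 : τ ≤ lo) (h2 : lo ≤ hi) (z : ℕ) (b : Fin n) :
    tr.x1 hi z b ≤ tr.x1 lo z b + tr.kap τ z + tr.XX (tr.pi τ z) b lo hi := by
  have e2 := evolve h h1 h2 z b
  have e3 := (kill_le h (t := hi) h1 z b).2
  simp only [mul_add, sum_add_distrib] at e2
  simp only [XX]
  linarith

lemma x1_le_one (h : tr.WF) (t z : ℕ) (b : Fin n) : tr.x1 t z b ≤ 1 := by
  linarith [mass h t z b, x0_nonneg h t z b, kap_nonneg h t z]

lemma kap_le_one (h : tr.WF) (t z : ℕ) (b : Fin n) : tr.kap t z ≤ 1 := by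
  linarith [mass h t z b, x0_nonneg h t z b, x1_nonneg h t z b]

lemma condH (h : tr.WF) {τ lo : ℕ} (h1 : τ ≤ lo) (hi z : ℕ) (b : Fin n) :
    Cond tr (tr.pi τ z) b lo hi 1 .H := by
  refine ⟨rfl, fun w hw => ⟨gr_le_one h _ _ _, ?_⟩⟩
  have e2 := evolve h h1 (mem_Ioc.1 hw).1.le z b
  have e3 := kill_le h (t := w) h1 z b
  have e4 := x1_nonneg h w z b
  have e5 := x1_nonneg h lo z b
  have e6 := x1_le_one h w z b
  have e7 := x1_le_one h lo z b
  have e8 := kap_le_one h τ z b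
  simp only [mul_add, sum_add_distrib] at e2
  simp only [XX]
  constructor <;> linarith [e3.1, e3.2]

lemma x1_comp (h : tr.WF) {A : ℕ → Prop} {τ : ℕ} (hA : ∀ w, A w → τ < w) (a : ℕ) (b : Fin n) :
    ∑ z ∈ range (a + 1), tr.st A a z * tr.x1 τ z b = tr.x1 τ a b := by
  have e : ∀ z ∈ range (a + 1), tr.x1 τ z b =
      ∑ x ∈ range (a + 1), tr.st (fun w => τ < w) z x * tr.bt x b := fun z hz =>
    sum_subset (range_subset_range.2 (mem_range.1 hz)) fun x _ h2 => by
      rw [st_of_lt tr _ (by rw [mem_range] at h2; omega), zero_mul]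
  rw [sum_congr rfl fun z hz => by rw [e z hz, mul_sum], sum_comm, x1]
  refine sum_congr rfl fun x _ => ?_
  rw [st_comp h hA a x, sum_mul]
  exact sum_congr rfl fun z _ => by ring

lemma pi_comp (h : tr.WF) {A : ℕ → Prop} {τ : ℕ} (hA : ∀ w, A w → τ < w) (a w : ℕ) :
    ∑ z ∈ range (a + 1), tr.st A a z * tr.pi τ z w ≤ tr.pi τ a w := by
  refine le_trans (le_add_of_nonneg_left ?_) (gr_comp h hA a w).ge
  split_ifs
  · exact gr_nonneg h _ _ _
  · exact le_rfl

lemma kap_comp (h : tr.WF) {A : ℕ → Prop} {τ : ℕ} (hA : ∀ w, A w → τ < w) (a : ℕ) :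
    ∑ z ∈ range (a + 1), tr.st A a z * tr.kap τ z ≤ tr.kap τ a := by
  rw [sum_congr rfl fun z hz => by
    rw [kap_eq tr τ (m := a) (by have := mem_range.1 hz; omega), mul_sum], sum_comm, kap]
  refine sum_le_sum fun w _ => le_trans (le_of_eq ?_)
    (mul_le_mul_of_nonneg_right (pi_comp h hA a w) (h.al0 w))
  rw [sum_mul]
  exact sum_congr rfl fun z _ => by ring

/-- (I1) twice: above `T` the flows through `A` and through `(T, ∞)` agree. -/
lemma pair_id (h : tr.WF) {A : ℕ → Prop} {τ T : ℕ} (hT : τ ≤ T) (hA : ∀ w, A w → τ < w)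
    (hA' : ∀ w, T < w → A w) (z : ℕ) (b : Fin n) :
    tr.x1 T z b ≤ ∑ x ∈ range (z + 1), tr.st A z x * tr.bt x b +
      tr.XX (fun w => if A w then tr.gr A z w else 0) b τ T + tr.kap τ z := by
  have e1 := flow_Ioc h hA (le_max_left z T) fun x => tr.bt x b
  have e2 := flow_bt h (le_refl T) (le_max_left z T) b
  simp only [bt_sub] at e1
  rw [← sum_Ioc_consecutive _ hT (le_max_right z T)] at e1
  have e3 : ∑ w ∈ Ioc T (max z T), (if A w then tr.gr A z w else 0) *
      (tr.xi w b + tr.al w * tr.kb w b) =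
      ∑ w ∈ Ioc T (max z T), tr.pi T z w * (tr.xi w b + tr.al w * tr.kb w b) := by
    refine sum_congr rfl fun w hw => ?_
    have h1 := (mem_Ioc.1 hw).1
    rw [if_pos (hA' w h1), pi,
      gr_congr tr (A' := fun w => T < w) (t := T) (fun y hy => ⟨fun _ => hy, hA' y⟩) z h1.le]
  have e4 : ∑ w ∈ Ioc τ T, (if A w then tr.gr A z w else 0) * (tr.al w * tr.kb w b) ≤
      tr.kap τ z := by
    refine le_trans (sum_le_sum fun w _ => mul_le_mul_of_nonneg_right ?_
      (mul_nonneg (h.al0 w) (kb_nonneg h w b))) (kill_le h (t := T) (le_refl τ) z b).2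
    split_ifs
    · exact gr_mono h hA z w
    · exact pi_nonneg h _ _ _
  rw [e3] at e1
  simp only [mul_add, sum_add_distrib] at e1 e2
  simp only [XX]
  linarith

/-- The full flow is superharmonic (input of the meeting lemma). -/
lemma pi_super (h : tr.WF) {τ x : ℕ} (hx : τ ≤ x) (z t : ℕ) :
    ∑ w ∈ Ioc x t, tr.pi τ z w * tr.p w x ≤ tr.pi τ z x := by
  conv_rhs => rw [pi, gr_eq' tr _ (le_max_left z t) x]
  refine le_add_of_nonneg_of_le (by split_ifs <;> norm_num) (le_trans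
    (sum_le_sum_of_subset_of_nonneg (Ioc_subset_Ioc_right (le_max_right z t)) fun w _ _ =>
      mul_nonneg (pi_nonneg h _ _ _) (p_nonneg h _ _)) (le_of_eq (sum_congr rfl fun w hw => ?_)))
  rw [if_pos (hx.trans_lt (mem_Ioc.1 hw).1), pi]

lemma cut_WF (h : tr.WF) (w : ℕ) : (tr.cut w).WF := by
  constructor <;> intro i <;> simp only [cut] <;> split_ifs <;>
    first | exact h.u_lt i | exact h.v_lt i | exact id | exact h.al0 i | exact h.al1 i
          | exact h.be0 i | exact h.be1 i | norm_num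

lemma cut_bt (tr : Tr n) {w f : ℕ} (hf : f < w) (b : Fin n) : (tr.cut w).bt f b = tr.bt f b := by
  simp only [bt, cut, if_pos hf]

lemma cut_pb (h : tr.WF) {w w' : ℕ} (h0 : 0 < w') (hw : w' ≤ w) (b : Fin n) :
    (tr.cut w).pb w' b = tr.pb w' b := by
  have h1 := cut_bt tr ((h.u_lt w' h0).trans_le hw) b
  have h2 := cut_bt tr ((h.v_lt w' h0).trans_le hw) b
  have e1 : (tr.cut w).u w' = tr.u w' := if_pos hw
  have e2 : (tr.cut w).v w' = tr.v w' := if_pos hw
  have e3 : (tr.cut w).al w' = tr.al w' := if_pos hw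
  have e4 : (tr.cut w).be w' = tr.be w' := if_pos hw
  simp only [pb, kb, e1, e2, e3, e4, h1, h2]

lemma cut_p (tr : Tr n) {w w' : ℕ} (hw : w' ≤ w) (x : ℕ) : (tr.cut w).p w' x = tr.p w' x := by
  simp only [p, cut, if_pos hw]

lemma cut_gr (tr : Tr n) (A : ℕ → Prop) {w z : ℕ} (hz : z ≤ w) (x : ℕ) :
    (tr.cut w).gr A z x = tr.gr A z x := by
  induction x using down_ind z with
  | h x ih =>
    rw [gr_eq, gr_eq tr]
    congr 1
    refine sum_congr rfl fun y hy => ?_
    rw [mem_Ioc] at hy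
    rw [ih y hy.1 hy.2, cut_p tr (hy.2.trans hz)]

lemma cut_vv (h : tr.WF) (N : Finset (Fin n)) (τ w : ℕ) :
    (tr.cut w).vv N τ w = tr.vv N τ w := by
  refine sum_congr rfl fun y hy => ?_
  rw [mem_Ioc] at hy
  rw [pi, pi, cut_gr tr _ le_rfl]
  simp only [VV, vr, cut_pb h (show 0 < y by omega) hy.2]

end Tr

end Pool.Agent.P.MP_5c258a_lc.Bin
end

-- part Pool.Agent.P.MP_5c258a_lc.Bin.Mach
section

/-! The three machines (paper section 6, MACHINES): definitions. `c = 10000`. -/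

namespace Pool.Agent.P.MP_5c258a_lc.Bin

/-- State of a machine: estimate `x` and scale `lam`. -/
structure MS where
  x : ℝ
  lam : ℝ

noncomputable def bR (x : Bool) : ℝ := if x = true then 1 else 0

noncomputable def psi (a : ℝ) : ℝ := a ^ 2 / (1 + |a|)

/-- Factor of case U; `vt` is the normalised stake, `p` the probability of a one. -/
noncomputable def GU (vt p : ℝ) (x : Bool) : ℝ :=
  if -1 / 2 ≤ vt * (1 - p) ∧ -1 / 2 ≤ vt * (0 - p) then
    (1 + vt * (bR x - p) / 2 - psi (vt * (bR x - p)) / 16) *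
      (1 + (p * psi (vt * (1 - p)) + (1 - p) * psi (vt * (0 - p))) / 16)
  else 1

/-- Factor of case D. -/
noncomputable def GD (vt F p : ℝ) (x : Bool) : ℝ :=
  if F ≤ 6 then
    if |vt| ≤ 1 / 2 then
      (1 + vt * (bR x - p) / 2) * (1 + 8 * F ^ 2 * (bR x - p) ^ 2) / (1 + 10 * F ^ 2 * (p * (1 - p)))
    else 1
  else (1 + bR x * F) / (1 + p * F)

noncomputable def den : Ty → MS → ℝ
  | .A, s => 9999 + s.x / s.lam
  | .H, s => 10000 + s.x
  | .L, _ => 10000

noncomputable def rr : Ty → ℝ → ℝ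
  | .A, p => p
  | .H, _ => 1 / 2
  | .L, _ => 1 / 2

noncomputable def pre : Ty → MS → ℝ → ℝ → MS
  | .A, s, Q, p => ⟨s.x, max s.lam (Q * p / 3)⟩
  | .H, s, _, _ => s
  | .L, s, _, _ => s

noncomputable def post : Ty → MS → ℝ → MS
  | .A, s, d => ⟨s.x + d, max s.lam |s.x + d|⟩
  | .H, s, d => ⟨max (-1) (min 4 (s.x + d)), s.lam⟩
  | .L, s, _ => s

noncomputable def ini : Ty → ℝ → MS
  | .A, lam => ⟨lam, lam⟩
  | .H, lam => ⟨2, lam⟩
  | .L, lam => ⟨0, lam⟩

/-- The shift between the partial sum and the true value `X`. -/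
noncomputable def base : Ty → ℝ → ℝ
  | .A, lam => lam
  | .H, _ => 2
  | .L, _ => 0

noncomputable def Phi : Ty → MS → ℝ → ℝ → ℝ
  | .A, s, X, _ => (Real.log (9999 + s.x / s.lam) + Real.log s.lam / 10000) / 2 +
      Real.log (1 + (max 0 ((X - s.x) / s.lam)) ^ 2) / 256
  | .H, s, X, Q => Real.log (10000 + s.x) / 2 + (s.x - X) ^ 2 / 1000 + cH * Q
  | .L, s, X, Q => cA * X / s.lam - Q / s.lam ^ 2

def MInv : Ty → MS → Prop
  | .A, s => 0 < s.lam ∧ |s.x| ≤ s.lam
  | .H, s => s.lam = 1 ∧ -1 ≤ s.x ∧ s.x ≤ 4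
  | .L, s => 0 < s.lam

/-- What is true about the step: `X` before, weight `q`, probability `p`, outcome `x`. -/
def TOK : Ty → MS → ℝ → ℝ → ℝ → Bool → Prop
  | .A, _, X, q, p, _ => q * p ≤ X
  | .H, _, X, q, p, x => q ≤ 1 ∧ 0 ≤ X ∧ X ≤ 3 ∧ 0 ≤ X + q * (bR x - p) ∧ X + q * (bR x - p) ≤ 3
  | .L, s, _, q, _, _ => q ≤ s.lam

noncomputable def pay (F p : ℝ) : ℝ := p * (1 - p) * (F * min F 6)

/-- Log factor minus potential after the step, case U, stake `qt`, upper grid value `Q`. -/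
noncomputable def valU (ty : Ty) (s : MS) (Q p X QV q qt : ℝ) (x : Bool) : ℝ :=
  Real.log (GU (qt / ((pre ty s Q p).lam * den ty (pre ty s Q p))) p x) -
    Phi ty (post ty (pre ty s Q p) (qt * (bR x - p))) (X + q * (bR x - p))
      (QV + q ^ 2 * ((bR x - p) ^ 2 + p * (1 - p)))

/-- The stake actually used in case D. -/
noncomputable def qD (s : MS) (Q qt : ℝ) : ℝ := if Q / s.lam ≤ 6 then qt else 0

noncomputable def valD (ty : Ty) (s : MS) (Q p X QV q qt : ℝ) (x : Bool) : ℝ :=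
  Real.log (GD (qt / (s.lam * den ty s)) (Q / s.lam) p x) -
    Phi ty (post ty s (qD s Q qt * (bR x - p))) (X + q * (bR x - p))
      (QV + q ^ 2 * ((bR x - p) ^ 2 + p * (1 - p)))

/-- Three modes with probabilities `π` and stakes `qt` around the true weight `q`: error at most
`D`, bias at most `θ'`. -/
structure Modes (π qt : Fin 3 → ℝ) (q D θ' : ℝ) : Prop where
  nn : ∀ m, 0 ≤ π m
  one : ∑ m, π m = 1
  near : ∀ m, |qt m - q| ≤ D
  bias : |∑ m, π m * qt m - q| ≤ θ'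

/-- Common hypotheses of a step. -/
structure Sit (ty : Ty) (s : MS) (Q p X q θ θ' : ℝ) (x : Bool) : Prop where
  inv : MInv ty s
  p0 : 0 ≤ p
  p1 : p ≤ 1
  Q0 : 0 ≤ Q
  q0 : 0 ≤ q
  t0 : 0 ≤ θ
  t1 : θ ≤ s.lam / 1000
  t2 : 0 ≤ θ'
  tok : TOK ty s X q p x

/-- The inequality (U). -/
def StepU (ty : Ty) : Prop :=
  ∀ (s : MS) (Q p X QV q θ θ' : ℝ) (x : Bool) (π qt : Fin 3 → ℝ), Sit ty s Q p X q θ θ' x →
    Modes π qt q (Q / 100000 + θ) θ' → |Q - q| ≤ Q / 100000 + θ →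
    1 / 2 ≤ π 0 + π 1 → Q / 2 ≤ qt 0 → Q / 2 ≤ qt 1 →
    1 / 10 ^ 12 * (pay (Q / (pre ty s Q p).lam) p + Real.log ((pre ty s Q p).lam / s.lam))
      - 10 * (θ / s.lam) ^ 2 - 10 * (θ' / s.lam) ≤
      ∑ m, π m * valU ty s Q p X QV q (qt m) x + Phi ty s X QV

/-- The inequality (D). -/
def StepD (ty : Ty) : Prop :=
  ∀ (s : MS) (Q p X QV q θ θ' : ℝ) (x : Bool) (π qt : Fin 3 → ℝ), Sit ty s Q p X q θ θ' x →
    Modes π qt q (2 * Q + θ) θ' → q ≤ 2 * Q + θ → Q * rr ty p ≤ 3 * s.lam →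
    -11 * pay (Q / s.lam) p - 10 * (θ / s.lam) ^ 2 - 10 * (θ' / s.lam) ≤
      ∑ m, π m * valD ty s Q p X QV q (qt m) x + Phi ty s X QV

theorem mach_realize : True := by
  have := @den.eq_1; have := @den.eq_2; have := @den.eq_3
  have := @rr.eq_1; have := @rr.eq_2; have := @rr.eq_3
  have := @pre.eq_1; have := @pre.eq_2; have := @pre.eq_3
  have := @post.eq_1; have := @post.eq_2; have := @post.eq_3
  have := @ini.eq_1; have := @ini.eq_2; have := @ini.eq_3
  have := @base.eq_1; have := @base.eq_2; have := @base.eq_3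
  have := @Phi.eq_1; have := @Phi.eq_2; have := @Phi.eq_3
  have := @MInv.eq_1; have := @MInv.eq_2; have := @MInv.eq_3
  have := @TOK.eq_1; have := @TOK.eq_2; have := @TOK.eq_3
  trivial

end Pool.Agent.P.MP_5c258a_lc.Bin
end
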