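import Pool.Agent.K.MP_5c258a_lc.C1

-- part Pool.Agent.P.MP_5c258a_lc.Bin.Dir
section

/-! Task DIR: direction tracking (paper section 6, DIRECTIONS). -/

namespace Pool.Agent.P.MP_5c258a_lc.Bin

open Finset Classical

variable {n : ℕ} {K : Type} [Fintype K]

/-- The direction of node `w`: inherited from the parents, or spelled out. -/
noncomputable def dnew (N : ℕ) (dh : ℕ → K → ℝ) (tr : Tr n) (w : ℕ) :
    Option (K → Fin (N + 1)) → K → ℝ
  | some m => fun k => ((m k : ℕ) + 1 : ℝ) / (N + Fintype.card K)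
  | none => fun k => (1 - tr.be w) * dh (tr.u w) k + tr.be w * dh (tr.v w) k

theorem dnew_realize : True := by
  have := @dnew.eq_1
  have := @dnew.eq_2
  trivial

namespace DirX

lemma kl_ge {a b : ℝ} (ha : 0 ≤ a) (hb : 0 < b) :
    a - b + (√a - √b) ^ 2 ≤ a * Real.log (a / b) := by
  have hb2 := Real.sq_sqrt hb.le
  rcases ha.eq_or_lt with rfl | ha'
  · simp [hb2]
  have ha2 := Real.sq_sqrt ha
  have hsa := Real.sqrt_pos.2 ha'
  have hsb := Real.sqrt_pos.2 hb
  have e : Real.log (a / b) = -2 * Real.log (√b / √a) := by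
    rw [Real.log_div ha'.ne' hb.ne', Real.log_div hsb.ne' hsa.ne', Real.log_sqrt ha,
      Real.log_sqrt hb.le]
    ring
  have l := Real.log_le_sub_one_of_pos (div_pos hsb hsa)
  have e2 : a * (√b / √a) = √a * √b := by
    field_simp
    rw [ha2]
  rw [e]
  nlinarith [mul_le_mul_of_nonneg_left l ha]

lemma sq_gap {a b ε θ : ℝ} (ha : 0 ≤ a) (hb : 0 ≤ b) (e0 : 0 < ε) (e1 : ε ≤ 1) (h0 : 0 < θ)
    (h : ε * a + 2 * θ < |a - b|) : ε * θ / 4 ≤ (√a - √b) ^ 2 := by
  have ha2 := Real.sq_sqrt ha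
  have hb2 := Real.sq_sqrt hb
  have hsa := Real.sqrt_nonneg a
  have hsb := Real.sqrt_nonneg b
  set x := √a
  set y := √b
  have hD : 0 < |a - b| := lt_of_le_of_lt (by positivity) h
  have key : (a - b) ^ 2 ≤ (x - y) ^ 2 * (2 * (a + b)) := by
    have e : (a - b) ^ 2 = (x - y) ^ 2 * (x + y) ^ 2 := by rw [← ha2, ← hb2]; ring
    rw [e]
    refine mul_le_mul_of_nonneg_left ?_ (sq_nonneg _)
    nlinarith [sq_nonneg (x - y)]
  have hb3 : b ≤ a + |a - b| := by have := neg_abs_le (a - b); linarith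
  have h1 : ε * (a + b) ≤ 3 * |a - b| := by nlinarith
  have h2 : ε * a ≥ 0 := by positivity
  have hq := sq_abs (a - b)
  set D := |a - b|
  by_contra hc
  push Not at hc
  have h3 : ε * D ^ 2 ≤ (x - y) ^ 2 * (6 * D) := by
    rw [hq]
    nlinarith [mul_le_mul_of_nonneg_left key e0.le,
      mul_le_mul_of_nonneg_left h1 (sq_nonneg (x - y))]
  have h4 : (x - y) ^ 2 * (6 * D) < ε * θ / 4 * (6 * D) :=
    mul_lt_mul_of_pos_right hc (by positivity)
  have h5 : 2 * θ < D := by linarith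
  nlinarith [mul_pos (mul_pos e0 hD) (sub_pos.2 h5), mul_pos (mul_pos e0 hD) h0]

/-- The invariant of a direction. -/
def Inv (N : ℕ) (d : K → ℝ) : Prop :=
  (∀ k, 1 / ((N : ℝ) + Fintype.card K) ≤ d k) ∧ ∑ k, d k ≤ 1

lemma resync (hK : 0 < Fintype.card K) {N : ℕ} {ε θ : ℝ} (e0 : 0 < ε) (e1 : ε ≤ 1)
    (h0 : 0 < θ) (hN : (Fintype.card K : ℝ) ^ 2 ≤ ε * θ / 8 * N) {g e : K → ℝ}
    (g0 : ∀ k, 0 ≤ g k) (g1 : ∀ k, g k ≤ 1) (he : Inv N e) {k0 : K}
    (hv : ε * g k0 + 2 * θ < |g k0 - (∑ k', g k') * e k0|) :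
    ∃ m : K → Fin (N + 1), Inv N (fun k => ((m k : ℕ) + 1 : ℝ) / (N + Fintype.card K)) ∧
      (∀ k, |g k - (∑ k', g k') * (((m k : ℕ) + 1 : ℝ) / (N + Fintype.card K))| ≤
        ε * g k + 2 * θ) ∧
      ε * θ / 8 ≤ ∑ k, g k * (Real.log (((m k : ℕ) + 1 : ℝ) / (N + Fintype.card K)) -
        Real.log (e k)) := by
  set s := ∑ k', g k' with hs
  set c : ℝ := (Fintype.card K : ℝ) with hc
  have c1 : 1 ≤ c := by rw [hc]; exact_mod_cast hK
  have hgs : ∀ k, g k ≤ s := fun k => single_le_sum (fun k _ => g0 k) (mem_univ k)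
  have hsc : s ≤ c := by
    have := sum_le_sum (s := univ) fun k _ => g1 k
    simpa [hc] using this
  have N0 : (0 : ℝ) < N := by
    by_contra hn
    have : (N : ℝ) = 0 := le_antisymm (not_lt.1 hn) (Nat.cast_nonneg N)
    rw [this] at hN
    nlinarith
  have s0 : 0 < s := by
    refine lt_of_le_of_ne ((g0 k0).trans (hgs k0)) fun h => ?_
    have h1 : g k0 = 0 := le_antisymm (h ▸ hgs k0) (g0 k0)
    rw [← h, h1] at hv
    simp at hv
    linarith
  have M0 : (0 : ℝ) < N + c := by linarith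
  have epos : ∀ k, 0 < e k := fun k => lt_of_lt_of_le (by positivity) (he.1 k)
  have hfl : ∀ k, ⌊N * g k / s⌋₊ < N + 1 := fun k => by
    refine Nat.lt_succ_of_le (Nat.floor_le_of_le ?_)
    rw [div_le_iff₀ s0]
    exact mul_le_mul_of_nonneg_left (hgs k) N0.le
  have q0 : ∀ k, 0 ≤ N * g k / s := fun k => by have := g0 k; positivity
  have f1 : ∀ k, (⌊N * g k / s⌋₊ : ℝ) ≤ N * g k / s := fun k => Nat.floor_le (q0 k)
  have f2 : ∀ k, N * g k / s < (⌊N * g k / s⌋₊ : ℝ) + 1 := fun k => Nat.lt_floor_add_one _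
  have hcN : c * c / N ≤ ε * θ / 8 := by rw [div_le_iff₀ N0]; nlinarith
  have hcM : c / (N + c) ≤ θ := by
    have a1 : c / (N + c) ≤ c * c / N := by
      rw [div_le_div_iff₀ M0 N0]; nlinarith [mul_pos N0 (lt_of_lt_of_le one_pos c1)]
    nlinarith
  refine ⟨fun k => ⟨⌊N * g k / s⌋₊, hfl k⟩, ⟨fun k => ?_, ?_⟩, fun k => ?_, ?_⟩
  · refine div_le_div_of_nonneg_right ?_ M0.le
    have : (0 : ℝ) ≤ ⌊N * g k / s⌋₊ := Nat.cast_nonneg _
    simp only
    linarith
  · simp only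
    rw [← sum_div, div_le_one M0, sum_add_distrib]
    have a1 := sum_le_sum (s := univ) fun k _ => f1 k
    rw [← sum_div, ← mul_sum, ← hs, mul_div_assoc, div_self s0.ne', mul_one] at a1
    simp only [sum_const, card_univ, nsmul_eq_mul, mul_one]
    linarith
  · simp only
    have a1 := mul_le_mul_of_nonneg_left (f1 k) s0.le
    have a2 := mul_le_mul_of_nonneg_left (f2 k).le s0.le
    rw [mul_div_cancel₀ _ s0.ne'] at a1 a2
    have a3 : 0 ≤ ε * g k := mul_nonneg e0.le (g0 k)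
    rw [div_le_iff₀ M0] at hcM
    have e3 : g k - s * (((⌊N * g k / s⌋₊ : ℝ) + 1) / (N + c)) =
        (g k * (N + c) - s * ((⌊N * g k / s⌋₊ : ℝ) + 1)) / (N + c) := by field_simp
    rw [e3, abs_le, le_div_iff₀ M0, div_le_iff₀ M0]
    have := g0 k
    have := g1 k
    constructor <;> nlinarith [mul_nonneg a3 M0.le, mul_pos h0 M0]
  · simp only
    have a1 : ∀ k, g k - s * e k + (√(g k) - √(s * e k)) ^ 2 - g k * (c / N) ≤
        g k * (Real.log (((⌊N * g k / s⌋₊ : ℝ) + 1) / (N + c)) - Real.log (e k)) := fun k => by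
      have b1 := kl_ge (g0 k) (mul_pos s0 (epos k))
      rcases (g0 k).eq_or_lt with h | h
      · rw [← h] at b1 ⊢
        simpa using b1
      have ek := epos k
      have b2 : Real.log (N * g k / s / (N + c)) ≤
          Real.log (((⌊N * g k / s⌋₊ : ℝ) + 1) / (N + c)) :=
        Real.log_le_log (by positivity) (div_le_div_of_nonneg_right (f2 k).le M0.le)
      have b3 : Real.log (N * g k / s / (N + c)) = Real.log (g k / (s * e k)) + Real.log (e k)
          - Real.log ((N + c) / N) := by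
        rw [← Real.log_mul (by positivity) ek.ne', ← Real.log_div (by positivity) (by positivity)]
        congr 1
        field_simp
      have b4 := Real.log_le_sub_one_of_pos (div_pos M0 N0)
      have b5 : (N + c) / N - 1 = c / N := by field_simp; ring
      rw [b5] at b4
      nlinarith [mul_le_mul_of_nonneg_left b2 h.le, mul_le_mul_of_nonneg_left b4 h.le]
    refine le_trans ?_ (sum_le_sum fun k _ => a1 k)
    rw [sum_sub_distrib, sum_add_distrib, sum_sub_distrib, ← mul_sum, ← sum_mul, ← hs]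
    have a2 : (√(g k0) - √(s * e k0)) ^ 2 ≤ ∑ k, (√(g k) - √(s * e k)) ^ 2 :=
      single_le_sum (f := fun k => (√(g k) - √(s * e k)) ^ 2) (fun k _ => sq_nonneg _)
        (mem_univ k0)
    have a3 := sq_gap (g0 k0) (mul_pos s0 (epos k0)).le e0 e1 h0 hv
    have a4 : s * (c / N) ≤ c * c / N := by
      rw [mul_div_assoc]; exact mul_le_mul_of_nonneg_right hsc (by positivity)
    have a5 := mul_le_mul_of_nonneg_left he.2 s0.le
    linarith

lemma inv_mix {N : ℕ} {d d' : K → ℝ} (h : Inv N d) (h' : Inv N d') {b : ℝ} (b0 : 0 ≤ b)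
    (b1 : b ≤ 1) : Inv N fun k => (1 - b) * d k + b * d' k := by
  refine ⟨fun k => ?_, ?_⟩
  · nlinarith [mul_le_mul_of_nonneg_left (h.1 k) (sub_nonneg.2 b1),
      mul_le_mul_of_nonneg_left (h'.1 k) b0]
  · rw [sum_add_distrib, ← mul_sum, ← mul_sum]
    nlinarith [mul_le_mul_of_nonneg_left h.2 (sub_nonneg.2 b1), mul_le_mul_of_nonneg_left h'.2 b0]

lemma Inv.pos (hK : 0 < Fintype.card K) {N : ℕ} {d : K → ℝ} (h : Inv N d) (k : K) : 0 < d k := by
  have : (0 : ℝ) < Fintype.card K := by exact_mod_cast hK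
  exact lt_of_lt_of_le (by positivity) (h.1 k)

lemma Inv.le_one (hK : 0 < Fintype.card K) {N : ℕ} {d : K → ℝ} (h : Inv N d) (k : K) :
    d k ≤ 1 :=
  (single_le_sum (fun k _ => (h.pos hK k).le) (mem_univ k)).trans h.2

/-- Demand of the allowed children after time `t`. -/
noncomputable def rem (tr : Tr n) (A : ℕ → Prop) (z te t x : ℕ) : ℝ :=
  ∑ w ∈ Ioc t te, if A w then tr.gr A z w * tr.p w x else 0

lemma rem_nonneg {tr : Tr n} (h : tr.WF) (A : ℕ → Prop) (z te t x : ℕ) :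
    0 ≤ rem tr A z te t x :=
  sum_nonneg fun w _ => by
    split_ifs
    · exact mul_nonneg (Tr.gr_nonneg h _ _ _) (Tr.p_nonneg h _ _)
    · exact le_rfl

/-- One step of the potential of one flow. -/
lemma pot_step {tr : Tr n} (h : tr.WF) (A : ℕ → Prop) {z te t : ℕ} (hz : z ≤ te) (ht : t < te)
    (F : ℕ → ℝ) {G Λ : ℝ} (G0 : 0 ≤ G) (hΛ : F (t + 1) ≤ Λ)
    (hG : (1 - tr.be (t + 1)) * F (tr.u (t + 1)) + tr.be (t + 1) * F (tr.v (t + 1)) ≤ G) :
    ∑ x ∈ range (t + 1), rem tr A z te t x * F x + tr.gr A z (t + 1) * (F (t + 1) - G) ≤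
      ∑ x ∈ range (t + 1 + 1), rem tr A z te (t + 1) x * F x +
        (if t + 1 = z then 1 else 0) * Λ := by
  have e1 : ∀ x, rem tr A z te t x = (if A (t + 1) then tr.gr A z (t + 1) else 0) *
      tr.p (t + 1) x + rem tr A z te (t + 1) x := fun x => by
    unfold rem
    rw [← sum_Ioc_consecutive _ (Nat.le_succ t) ht, Nat.Ioc_succ_singleton, sum_singleton]
    split_ifs <;> simp
  have e2 : rem tr A z te (t + 1) (t + 1) =
      tr.gr A z (t + 1) - if t + 1 = z then 1 else 0 := by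
    rw [Tr.gr_eq' tr A hz (t + 1)]
    unfold rem
    ring
  rw [sum_range_succ _ (t + 1), e2]
  simp only [e1, add_mul, sum_add_distrib, mul_assoc, ← mul_sum]
  rw [Tr.psum h (Nat.succ_pos t) le_rfl F]
  have g0 := Tr.gr_nonneg h A z (t + 1)
  have a0 := h.al0 (t + 1)
  have a1 := sub_nonneg.2 (h.al1 (t + 1))
  have k1 := mul_le_mul_of_nonneg_left hG a1
  have k2 : (1 - tr.al (t + 1)) * (1 - tr.be (t + 1)) * F (tr.u (t + 1)) +
      (1 - tr.al (t + 1)) * tr.be (t + 1) * F (tr.v (t + 1)) ≤ G := by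
    nlinarith [mul_nonneg a0 G0]
  have k3 := mul_le_mul_of_nonneg_left k2 g0
  have k4 := mul_nonneg g0 G0
  simp only [Nat.succ_eq_add_one]
  split_ifs <;> nlinarith

end DirX

open DirX in
/-- Build `ρ` and `dh` step by step (resync iff the inherited direction is not accurate), with the
invariant `1/(N+|K|) ≤ dh x k`, `∑ k, dh x k ≤ 1`. Potential
`Ξ t = ∑ x ≤ t, ∑ k, rem k t x * (-log (dh x k))`,
`rem k t x = ∑ w ∈ Ioc t te, if A k w then gr (A k) (z k) w * p w x else 0`;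
`a log (a/b) - a + b ≥ (√a - √b)^2 ≥ (a-b)^2 / (4 max a b)`. -/
theorem directions {tr : Tr n} (h : tr.WF) (hK : 0 < Fintype.card K) (A : K → ℕ → Prop)
    (z : K → ℕ) (t0 te N : ℕ) (hz : ∀ k, z k ≤ te) (ε θ : ℝ) (e0 : 0 < ε) (e1 : ε ≤ 1)
    (h0 : 0 < θ) (hN : (Fintype.card K : ℝ) ^ 2 ≤ ε * θ / 8 * N) :
    ∃ (ρ : ℕ → Option (K → Fin (N + 1))) (dh : ℕ → K → ℝ),
      (∀ w ≤ t0, dh w = fun _ => 1 / (Fintype.card K : ℝ)) ∧
      (∀ w ∈ Ioc t0 te, dh w = dnew N dh tr w (ρ w)) ∧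
      (∀ w ≤ te, ∀ k, 0 ≤ dh w k ∧ dh w k ≤ 1) ∧
      (∀ w ∈ Ioc t0 te, ∀ k, |tr.gr (A k) (z k) w - (∑ k', tr.gr (A k') (z k') w) * dh w k| ≤
        ε * tr.gr (A k) (z k) w + 2 * θ) ∧
      (((Ioc t0 te).filter fun w => ρ w ≠ none).card : ℝ) * (ε * θ / 8) ≤
        Fintype.card K * Real.log (N + Fintype.card K) := by
  set M : ℝ := N + Fintype.card K with hM
  have c0 : (0 : ℝ) < Fintype.card K := by exact_mod_cast hK
  have c1 : (1 : ℝ) ≤ Fintype.card K := by exact_mod_cast hK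
  have N0 : (0 : ℝ) ≤ N := Nat.cast_nonneg N
  have M1 : 1 ≤ M := by linarith
  have M0 : 0 < M := by linarith
  have L0 : 0 ≤ Real.log M := Real.log_nonneg M1
  have I0 : Inv N (fun _ : K => 1 / (Fintype.card K : ℝ)) := by
    refine ⟨fun _ => one_div_le_one_div_of_le c0 (by linarith), ?_⟩
    simp [c0.ne']
  have F0 : ∀ {d : K → ℝ}, Inv N d → ∀ k, 0 ≤ Real.log (d k) + Real.log M := fun hd k => by
    rw [← Real.log_mul (hd.pos hK k).ne' M0.ne']
    exact Real.log_nonneg ((div_le_iff₀ M0).1 (hd.1 k))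
  have main : ∀ t, t0 ≤ t → t ≤ max t0 te →
      ∃ (ρ : ℕ → Option (K → Fin (N + 1))) (dh : ℕ → K → ℝ),
      (∀ w ≤ t0, dh w = fun _ => 1 / (Fintype.card K : ℝ)) ∧
      (∀ w ∈ Ioc t0 t, dh w = dnew N dh tr w (ρ w)) ∧
      (∀ w ≤ t, Inv N (dh w)) ∧
      (∀ w ∈ Ioc t0 t, ∀ k, |tr.gr (A k) (z k) w - (∑ k', tr.gr (A k') (z k') w) * dh w k| ≤
        ε * tr.gr (A k) (z k) w + 2 * θ) ∧
      (((Ioc t0 t).filter fun w => ρ w ≠ none).card : ℝ) * (ε * θ / 8) ≤
        ∑ k, (∑ x ∈ range (t + 1), rem tr (A k) (z k) te t x * (Real.log (dh x k) + Real.log M)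
          + (if z k ≤ t then 1 else 0) * Real.log M) := by
    intro t ht
    induction t, ht using Nat.le_induction with
    | base =>
      intro _
      refine ⟨fun _ => none, fun _ _ => 1 / (Fintype.card K : ℝ), fun _ _ => rfl, by simp,
        fun _ _ => I0, by simp, ?_⟩
      simp only [Ioc_self, filter_empty, card_empty, Nat.cast_zero, zero_mul]
      refine sum_nonneg fun k _ => add_nonneg (sum_nonneg fun x _ =>
        mul_nonneg (rem_nonneg h _ _ _ _ _) (F0 I0 k)) (mul_nonneg (by split_ifs <;> norm_num) L0)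
    | succ t ht ih =>
      intro hm
      have hte : t < te := by omega
      obtain ⟨ρ, dh, p1, p2, p3, p4, p5⟩ := ih (by omega)
      have hu := h.u_lt (t + 1) (Nat.succ_pos t)
      have hv := h.v_lt (t + 1) (Nat.succ_pos t)
      have Iu := p3 _ (Nat.le_of_lt_succ hu)
      have Iv := p3 _ (Nat.le_of_lt_succ hv)
      have Ie : Inv N (dnew N dh tr (t + 1) none) := inv_mix Iu Iv (h.be0 _) (h.be1 _)
      have hstep : ∃ o, Inv N (dnew N dh tr (t + 1) o) ∧
          (∀ k, |tr.gr (A k) (z k) (t + 1) - (∑ k', tr.gr (A k') (z k') (t + 1)) *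
            dnew N dh tr (t + 1) o k| ≤ ε * tr.gr (A k) (z k) (t + 1) + 2 * θ) ∧
          (if o ≠ none then 1 else 0) * (ε * θ / 8) ≤ ∑ k, tr.gr (A k) (z k) (t + 1) *
            (Real.log (dnew N dh tr (t + 1) o k) - Real.log (dnew N dh tr (t + 1) none k)) := by
        by_cases hacc : ∀ k, |tr.gr (A k) (z k) (t + 1) - (∑ k', tr.gr (A k') (z k') (t + 1)) *
            dnew N dh tr (t + 1) none k| ≤ ε * tr.gr (A k) (z k) (t + 1) + 2 * θ
        · exact ⟨none, Ie, hacc, by simp⟩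
        · push Not at hacc
          obtain ⟨k0, hk0⟩ := hacc
          obtain ⟨m, m1, m2, m3⟩ := resync hK e0 e1 h0 hN
            (g := fun k => tr.gr (A k) (z k) (t + 1)) (fun k => Tr.gr_nonneg h _ _ _)
            (fun k => Tr.gr_le_one h _ _ _) Ie hk0
          exact ⟨some m, m1, m2, by rw [if_pos (by simp), one_mul]; exact m3⟩
      obtain ⟨o, o1, o2, o3⟩ := hstep
      set d := dnew N dh tr (t + 1) o with hd
      have hup : ∀ w, w ≤ t → Function.update dh (t + 1) d w = dh w := fun w hw =>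
        Function.update_of_ne (by omega) _ _
      have hdn : ∀ w, 0 < w → w ≤ t + 1 → ∀ o', dnew N (Function.update dh (t + 1) d) tr w o' =
          dnew N dh tr w o' := fun w hw hw' o' => by
        have := h.u_lt w hw
        have := h.v_lt w hw
        cases o' with
        | some m => rfl
        | none => simp only [dnew]; rw [hup _ (by omega), hup _ (by omega)]
      refine ⟨Function.update ρ (t + 1) o, Function.update dh (t + 1) d,
        fun w hw => by rw [hup w (by omega), p1 w hw], fun w hw => ?_, fun w hw => ?_,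
        fun w hw => ?_, ?_⟩
      · rw [mem_Ioc] at hw
        rw [hdn w (by omega) hw.2]
        rcases hw.2.eq_or_lt with rfl | hlt
        · rw [Function.update_self, Function.update_self]
        · rw [hup w (by omega), Function.update_of_ne (by omega)]
          exact p2 w (mem_Ioc.2 ⟨hw.1, by omega⟩)
      · rcases hw.eq_or_lt with rfl | hlt
        · rw [Function.update_self]; exact o1
        · rw [hup w (by omega)]; exact p3 w (by omega)
      · rw [mem_Ioc] at hw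
        rcases hw.2.eq_or_lt with rfl | hlt
        · rw [Function.update_self]; exact o2
        · rw [hup w (by omega)]; exact p4 w (mem_Ioc.2 ⟨hw.1, by omega⟩)
      · have ec : (((Ioc t0 (t + 1)).filter fun w => Function.update ρ (t + 1) o w ≠ none).card : ℝ)
            = ((Ioc t0 t).filter fun w => ρ w ≠ none).card + if o ≠ none then 1 else 0 := by
          rw [card_filter, card_filter, sum_Ioc_succ_top ht, Function.update_self]
          push_cast
          congr 1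
          exact sum_congr rfl fun w hw => by
            rw [Function.update_of_ne (by have := (mem_Ioc.1 hw).2; omega)]
        rw [ec, add_mul]
        refine (add_le_add p5 o3).trans ?_
        rw [← sum_add_distrib]
        refine sum_le_sum fun k _ => ?_
        have hc := (strictConcaveOn_log_Ioi.concaveOn).2 (Set.mem_Ioi.2 (Iu.pos hK k))
          (Set.mem_Ioi.2 (Iv.pos hK k)) (sub_nonneg.2 (h.be1 (t + 1))) (h.be0 (t + 1)) (by ring)
        simp only [smul_eq_mul] at hc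
        have ps := pot_step h (A k) (hz k) hte
          (fun x => Real.log (Function.update dh (t + 1) d x k) + Real.log M)
          (G := Real.log (dnew N dh tr (t + 1) none k) + Real.log M) (Λ := Real.log M) (F0 Ie k)
          (by
            rw [Function.update_self]
            have := Real.log_nonpos (o1.pos hK k).le (o1.le_one hK k)
            linarith)
          (by
            rw [hup _ (by omega), hup _ (by omega)]
            simp only [dnew]
            linarith)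
        have es : ∑ x ∈ range (t + 1), rem tr (A k) (z k) te t x *
            (Real.log (Function.update dh (t + 1) d x k) + Real.log M) =
            ∑ x ∈ range (t + 1), rem tr (A k) (z k) te t x * (Real.log (dh x k) + Real.log M) :=
          sum_congr rfl fun x hx => by rw [hup x (by have := mem_range.1 hx; omega)]
        rw [es, Function.update_self] at ps
        have ei : ((if z k ≤ t + 1 then 1 else 0 : ℝ)) =
            (if z k ≤ t then 1 else 0) + if t + 1 = z k then 1 else 0 := by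
          split_ifs <;> first | omega | norm_num
        rw [ei]
        linarith
  rcases le_total te t0 with hle | hle
  · refine ⟨fun _ => none, fun _ _ => 1 / (Fintype.card K : ℝ), fun _ _ => rfl, ?_,
      fun _ _ k => ⟨(I0.pos hK k).le, I0.le_one hK k⟩, ?_, ?_⟩
    · simp [Ioc_eq_empty (not_lt.2 hle)]
    · simp [Ioc_eq_empty (not_lt.2 hle)]
    · simp only [ne_eq, not_true_eq_false, filter_false, card_empty, Nat.cast_zero, zero_mul]
      positivity
  obtain ⟨ρ, dh, p1, p2, p3, p4, p5⟩ := main te hle (le_max_right _ _)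
  refine ⟨ρ, dh, p1, p2, fun w hw k => ⟨((p3 w hw).pos hK k).le, (p3 w hw).le_one hK k⟩, p4,
    p5.trans (le_of_eq ?_)⟩
  simp [rem, hz]

end Pool.Agent.P.MP_5c258a_lc.Bin
end

-- part Pool.Agent.P.MP_5c258a_lc.Bin.Geo
section

/-! Task GEO: (G0)-(G3) of paper section 2. -/

namespace Pool.Agent.P.MP_5c258a_lc.Bin

open Finset Classical

namespace Tr

variable {n : ℕ} {tr : Tr n} {O N : Finset (Fin n)} {δ : ℝ} {T T' τ z : ℕ}

namespace GeoX

lemma pi0 (h : tr.WF) (τ z w : ℕ) : 0 ≤ tr.pi τ z w := gr_nonneg h _ _ _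

lemma pi1 (h : tr.WF) (τ z w : ℕ) : tr.pi τ z w ≤ 1 := gr_le_one h _ _ _

lemma kap1 (h : tr.WF) (b : Fin n) (τ z : ℕ) : tr.kap τ z ≤ 1 := by
  have := mass h τ z b
  have := x1_nonneg h τ z b
  have := x0_nonneg h τ z b
  linarith

lemma kap_split (tr : Tr n) {t : ℕ} (h1 : τ ≤ t) (h2 : t ≤ z) :
    tr.kap τ z = ∑ w ∈ Ioc τ t, tr.pi τ z w * tr.al w + tr.kap t z := by
  unfold kap
  rw [← sum_Ioc_consecutive _ h1 h2]
  congr 1
  exact sum_congr rfl fun w hw => by rw [pi_congr tr h1 z (mem_Ioc.1 hw).1.le]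

/-- A sum of at most `T'` terms `π w * a w` with `a w ≤ D`. -/
lemma sum_pi_le (h : tr.WF) (hT : z ≤ τ + T') {a : ℕ → ℝ} {D : ℝ} (hD : 0 ≤ D)
    (ha : ∀ w ∈ Ioc τ z, a w ≤ D) : ∑ w ∈ Ioc τ z, tr.pi τ z w * a w ≤ D * T' := by
  have h1 : ∑ w ∈ Ioc τ z, tr.pi τ z w * a w ≤ ∑ w ∈ Ioc τ z, D := sum_le_sum fun w hw => by
    have := mul_le_mul_of_nonneg_left (ha w hw) (pi0 h τ z w)
    have := mul_le_mul_of_nonneg_right (pi1 h τ z w) hD
    linarith
  rw [sum_const, Nat.card_Ioc, nsmul_eq_mul] at h1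
  have h2 : ((z - τ : ℕ) : ℝ) ≤ T' := by exact_mod_cast (by omega : z - τ ≤ T')
  have := mul_le_mul_of_nonneg_right h2 hD
  linarith

/-- Centred profile. -/
noncomputable def yy (tr : Tr n) (t z : ℕ) (b : Fin n) : ℝ :=
  ∑ x ∈ range (z + 1), tr.st (fun w => t < w) z x * (tr.bt x b - 1 / 2)

lemma yy_eq (tr : Tr n) (t z : ℕ) (b : Fin n) :
    yy tr t z b = (tr.x1 t z b - tr.x0 t z b) / 2 := by
  unfold yy x1 x0
  rw [← sum_sub_distrib, sum_div]
  exact sum_congr rfl fun x _ => by ring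

lemma yy_evolve (h : tr.WF) {t : ℕ} (h1 : τ ≤ t) (h2 : t ≤ z) (b : Fin n) :
    tr.XX (tr.pi τ z) b τ t = yy tr t z b - yy tr τ z b -
      ∑ w ∈ Ioc τ t, tr.pi τ z w * tr.al w * (tr.kb w b - 1 / 2) := by
  have e1 := evolve h le_rfl h1 z b
  have e2 := kap_split tr h1 h2
  have e3 := mass h τ z b
  have e4 := mass h t z b
  have e5 : ∑ w ∈ Ioc τ t, tr.pi τ z w * (tr.xi w b + tr.al w * tr.kb w b) =
      tr.XX (tr.pi τ z) b τ t + ∑ w ∈ Ioc τ t, tr.pi τ z w * tr.al w * (tr.kb w b - 1 / 2) +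
        (∑ w ∈ Ioc τ t, tr.pi τ z w * tr.al w) / 2 := by
    unfold XX
    rw [sum_div, ← sum_add_distrib, ← sum_add_distrib]
    exact sum_congr rfl fun w _ => by ring
  rw [yy_eq, yy_eq]
  linarith

lemma ip_yy (h : tr.WF) (hG : tr.Good O N δ T) (h0 : 0 ≤ δ) {w t : ℕ} (ht : t < w) (hw : w ≤ T)
    (z : ℕ) : |∑ b ∈ N, tr.xi w b * yy tr t z b| ≤ δ * N.card := by
  have hD : 0 ≤ δ * N.card := by positivity
  have e : ∑ b ∈ N, tr.xi w b * yy tr t z b = ∑ x ∈ range (z + 1),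
      tr.st (fun w => t < w) z x * ∑ b ∈ N, tr.xi w b * (tr.bt x b - 1 / 2) := by
    unfold yy
    simp only [mul_sum]
    rw [sum_comm]
    exact sum_congr rfl fun x _ => sum_congr rfl fun b _ => by ring
  rw [e]
  refine (abs_sum_le_sum_abs _ _).trans ?_
  have h1 : ∀ x ∈ range (z + 1), |tr.st (fun w => t < w) z x *
      ∑ b ∈ N, tr.xi w b * (tr.bt x b - 1 / 2)| ≤ tr.st (fun w => t < w) z x * (δ * N.card) := by
    intro x _
    rw [abs_mul, abs_of_nonneg (st_nonneg h _ z x)]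
    by_cases hx : t < x
    · simp [st, hx]
    · exact mul_le_mul_of_nonneg_left (hG.gN w (by omega) hw x (by omega)) (st_nonneg h _ z x)
  refine (sum_le_sum h1).trans ?_
  rw [← sum_mul]
  have := mul_le_mul_of_nonneg_right (st_sum_le h (A := fun w => t < w) (by simp) z) hD
  linarith

lemma ip_two (hG : tr.Good O N δ T) {w x x' : ℕ} (hw : w ≤ T) (hx : x < w) (hx' : x' < w)
    {r s : ℝ} (hrs : |r| + |s| ≤ 1) (h0 : 0 ≤ δ) {F : Fin n → ℝ}
    (hF : ∀ b, F b = r * (tr.bt x b - 1 / 2) + s * (tr.bt x' b - 1 / 2)) :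
    |∑ b ∈ N, tr.xi w b * F b| ≤ δ * N.card := by
  have hD : 0 ≤ δ * N.card := by positivity
  have e : ∑ b ∈ N, tr.xi w b * F b = r * ∑ b ∈ N, tr.xi w b * (tr.bt x b - 1 / 2) +
      s * ∑ b ∈ N, tr.xi w b * (tr.bt x' b - 1 / 2) := by
    rw [mul_sum, mul_sum, ← sum_add_distrib]
    exact sum_congr rfl fun b _ => by rw [hF]; ring
  rw [e]
  refine (abs_add_le _ _).trans ?_
  rw [abs_mul, abs_mul]
  have a1 := mul_le_mul_of_nonneg_left (hG.gN w (by omega) hw x hx) (abs_nonneg r)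
  have a2 := mul_le_mul_of_nonneg_left (hG.gN w (by omega) hw x' hx') (abs_nonneg s)
  have a3 := mul_le_mul_of_nonneg_right hrs hD
  linarith

lemma ip_kb (h : tr.WF) (hG : tr.Good O N δ T) (h0 : 0 ≤ δ) {w w' : ℕ} (h1 : 0 < w')
    (h2 : w' < w) (hw : w ≤ T) : |∑ b ∈ N, tr.xi w b * (tr.kb w' b - 1 / 2)| ≤ δ * N.card := by
  refine ip_two hG hw ((h.u_lt w' h1).trans h2) ((h.v_lt w' h1).trans h2)
    (r := -tr.be w') (s := -(1 - tr.be w')) ?_ h0 fun b => by unfold kb; ring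
  rw [abs_neg, abs_neg, abs_of_nonneg (h.be0 w'), abs_of_nonneg (sub_nonneg.2 (h.be1 w'))]
  linarith

lemma ip_pb (h : tr.WF) (hG : tr.Good O N δ T) (h0 : 0 ≤ δ) {w : ℕ} (h1 : 0 < w) (hw : w ≤ T) :
    |∑ b ∈ N, tr.xi w b * (tr.pb w b - 1 / 2)| ≤ δ * N.card := by
  refine ip_two hG hw (h.u_lt w h1) (h.v_lt w h1) (r := 1 - tr.al w - tr.be w)
    (s := tr.be w - tr.al w) ?_ h0 fun b => by unfold pb kb; ring
  have := h.al0 w
  have := h.al1 w
  have := h.be0 w
  have := h.be1 w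
  rcases abs_cases (1 - tr.al w - tr.be w) with a | a <;>
    rcases abs_cases (tr.be w - tr.al w) with a' | a' <;> linarith [a.1, a'.1]

lemma ip_XX (h : tr.WF) (hG : tr.Good O N δ T) (hN : N.Nonempty) (h0 : 0 ≤ δ) {t : ℕ}
    (h1 : τ ≤ t) (h2 : t < z) (hz : z ≤ T) :
    |∑ b ∈ N, tr.xi (t + 1) b * tr.XX (tr.pi τ z) b τ t| ≤ 3 * (δ * N.card) := by
  have hD : 0 ≤ δ * N.card := by positivity
  have e : ∑ b ∈ N, tr.xi (t + 1) b * tr.XX (tr.pi τ z) b τ t =
      ∑ b ∈ N, tr.xi (t + 1) b * yy tr t z b - ∑ b ∈ N, tr.xi (t + 1) b * yy tr τ z b -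
        ∑ w ∈ Ioc τ t, tr.pi τ z w * tr.al w *
          ∑ b ∈ N, tr.xi (t + 1) b * (tr.kb w b - 1 / 2) := by
    simp only [yy_evolve h h1 h2.le, mul_sub (tr.xi _ _) _ (Finset.sum _ _),
      mul_sub (tr.xi _ _) (yy _ _ _ _), sum_sub_distrib, mul_sum]
    rw [sum_comm]
    congr 1
    exact sum_congr rfl fun w _ => sum_congr rfl fun b _ => by ring
  have a1 := ip_yy h hG h0 (w := t + 1) (t := t) (by omega) (by omega) z
  have a2 := ip_yy h hG h0 (w := t + 1) (t := τ) (by omega) (by omega) z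
  have a3 : |∑ w ∈ Ioc τ t, tr.pi τ z w * tr.al w *
      ∑ b ∈ N, tr.xi (t + 1) b * (tr.kb w b - 1 / 2)| ≤ δ * N.card := by
    refine (abs_sum_le_sum_abs _ _).trans ?_
    refine (sum_le_sum (g := fun w => tr.pi τ z w * tr.al w * (δ * N.card)) fun w hw => ?_).trans ?_
    · have hp := mul_nonneg (pi0 h τ z w) (h.al0 w)
      have := mem_Ioc.1 hw
      rw [abs_mul, abs_of_nonneg hp]
      exact mul_le_mul_of_nonneg_left (ip_kb h hG h0 (by omega) (by omega) (by omega)) hp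
    · rw [← sum_mul]
      have b1 := kap_split tr h1 h2.le
      have b2 := kap_nonneg h t z
      have b3 := kap1 h hN.choose τ z
      have := mul_le_mul_of_nonneg_right
        (show ∑ w ∈ Ioc τ t, tr.pi τ z w * tr.al w ≤ 1 by linarith) hD
      linarith
  rw [e, abs_le] at *
  constructor <;> linarith [a1.1, a1.2, a2.1, a2.2, a3.1, a3.2]

lemma xi_sq (tr : Tr n) (w : ℕ) (b : Fin n) :
    tr.xi w b ^ 2 = tr.vr w b - 2 * (tr.xi w b * (tr.pb w b - 1 / 2)) := by
  have := bt_mul_one_sub tr w b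
  unfold xi vr
  linear_combination -this

/-- (G0). -/
lemma G0 (h : tr.WF) (hG : tr.Good O N δ T) (hN : N.Nonempty) (h0 : 0 ≤ δ) (hz : z ≤ T) {t : ℕ}
    (h1 : τ ≤ t) : t ≤ z → |∑ b ∈ N, tr.XX (tr.pi τ z) b τ t ^ 2 -
      ∑ w ∈ Ioc τ t, tr.pi τ z w ^ 2 * ∑ b ∈ N, tr.vr w b| ≤ 8 * (δ * N.card) * ((t : ℝ) - τ) := by
  have hD : 0 ≤ δ * N.card := by positivity
  induction t, h1 using Nat.le_induction with
  | base => intro _; simp [XX]
  | succ t h1 ih =>
    intro h2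
    have ih := ih (by omega)
    have a1 := ip_XX h hG hN h0 h1 (show t < z by omega) hz
    have a2 := ip_pb h hG h0 (w := t + 1) (by omega) (by omega)
    have e : ∑ b ∈ N, tr.XX (tr.pi τ z) b τ (t + 1) ^ 2 = ∑ b ∈ N, tr.XX (tr.pi τ z) b τ t ^ 2 +
        2 * (tr.pi τ z (t + 1) * ∑ b ∈ N, tr.xi (t + 1) b * tr.XX (tr.pi τ z) b τ t) +
        tr.pi τ z (t + 1) ^ 2 * ∑ b ∈ N, tr.vr (t + 1) b -
        2 * (tr.pi τ z (t + 1) ^ 2 * ∑ b ∈ N, tr.xi (t + 1) b * (tr.pb (t + 1) b - 1 / 2)) := by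
      simp only [mul_sum, ← sum_add_distrib, ← sum_sub_distrib]
      refine sum_congr rfl fun b _ => ?_
      have e1 : tr.XX (tr.pi τ z) b τ (t + 1) =
          tr.XX (tr.pi τ z) b τ t + tr.pi τ z (t + 1) * tr.xi (t + 1) b := sum_Ioc_succ_top h1 _
      rw [e1]
      linear_combination tr.pi τ z (t + 1) ^ 2 * xi_sq tr (t + 1) b
    have p0 := pi0 h τ z (t + 1)
    have p1 := pi1 h τ z (t + 1)
    have b1 : |tr.pi τ z (t + 1) * ∑ b ∈ N, tr.xi (t + 1) b * tr.XX (tr.pi τ z) b τ t| ≤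
        3 * (δ * N.card) := by
      rw [abs_mul, abs_of_nonneg p0]
      exact (mul_le_of_le_one_left (abs_nonneg _) p1).trans a1
    have b2 : |tr.pi τ z (t + 1) ^ 2 * ∑ b ∈ N, tr.xi (t + 1) b * (tr.pb (t + 1) b - 1 / 2)| ≤
        δ * N.card := by
      rw [abs_mul, abs_of_nonneg (sq_nonneg _)]
      exact (mul_le_of_le_one_left (abs_nonneg _) (pow_le_one₀ p0 p1)).trans a2
    rw [e, sum_Ioc_succ_top h1]
    push_cast
    rw [abs_le] at *
    constructor <;> linarith [ih.1, ih.2, b1.1, b1.2, b2.1, b2.2]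

lemma G0' (h : tr.WF) (hG : tr.Good O N δ T) (hN : N.Nonempty) (h0 : 0 ≤ δ) (hz : z ≤ T)
    (hT : z ≤ τ + T') (h1 : τ ≤ z) : |∑ b ∈ N, tr.XX (tr.pi τ z) b τ z ^ 2 -
      tr.vv N τ z * N.card| ≤ 8 * δ * T' * N.card := by
  have hc : (0 : ℝ) < N.card := by exact_mod_cast hN.card_pos
  have e : tr.vv N τ z * N.card = ∑ w ∈ Ioc τ z, tr.pi τ z w ^ 2 * ∑ b ∈ N, tr.vr w b := by
    unfold vv VV
    rw [sum_mul]
    exact sum_congr rfl fun w _ => by field_simp
  rw [e]
  refine (G0 h hG hN h0 hz h1 le_rfl).trans ?_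
  have h2 : (z : ℝ) ≤ τ + T' := by exact_mod_cast hT
  have := mul_le_mul_of_nonneg_left (show (z : ℝ) - τ ≤ T' by linarith)
    (show 0 ≤ 8 * (δ * N.card) by positivity)
  linarith

lemma XX_eq (h : tr.WF) (h1 : τ ≤ z) (b : Fin n) : tr.XX (tr.pi τ z) b τ z =
    tr.bt z b - tr.x1 τ z b - ∑ w ∈ Ioc τ z, tr.pi τ z w * (tr.al w * tr.kb w b) := by
  have e1 := evolve h le_rfl h1 z b
  rw [x1_top tr le_rfl] at e1
  simp only [mul_add, sum_add_distrib] at e1
  unfold XX
  linarith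

end GeoX

open GeoX

/-- (G1). `g x = mean_O bt x ≥ 1/2 - δ` for all `x ≤ T`; `flow_id` with `F = g`. -/
theorem kill_bound (h : tr.WF) (hG : tr.Good O N δ T) (hN : tr.Norm O) (hO : O.Nonempty)
    (h0 : 0 ≤ δ) (h1 : δ ≤ 1 / 4) (hz : z ≤ T) (hT : z ≤ τ + T')
    (hr : ∀ b ∈ O, tr.c z b = true) : tr.kap τ z ≤ 4 * δ * T' := by
  rcases lt_or_ge z τ with hτ | hτ
  · rw [kap, Ioc_eq_empty (by omega), sum_empty]
    positivity
  have hc : (0 : ℝ) < O.card := by exact_mod_cast hO.card_pos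
  have hg : ∀ x ≤ T, (1 / 2 - δ) * O.card ≤ ∑ b ∈ O, tr.bt x b := by
    intro x hx
    rcases Nat.eq_zero_or_pos x with rfl | hx0
    · have := hN.n0
      nlinarith
    · have a1 := hN.nw x hx0
      have a2 := (abs_le.1 (hG.gO x hx0 hx)).1
      simp only [xi, sum_sub_distrib] at a2
      linarith
  have hk : ∀ w ∈ Ioc τ z, ∑ b ∈ O, tr.kb w b ≤ (1 / 2 + δ) * O.card := by
    intro w hw
    have hw := mem_Ioc.1 hw
    have b1 := h.u_lt w (by omega)
    have b2 := h.v_lt w (by omega)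
    have a1 := mul_le_mul_of_nonneg_left (hg (tr.u w) (by omega)) (h.be0 w)
    have a2 := mul_le_mul_of_nonneg_left (hg (tr.v w) (by omega)) (sub_nonneg.2 (h.be1 w))
    simp only [kb, sum_add_distrib, ← mul_sum, sum_sub_distrib, sum_const, nsmul_eq_mul]
    linarith
  have a1 : ∑ b ∈ O, tr.kap τ z ≤ ∑ b ∈ O, (tr.XX (tr.pi τ z) b τ z +
      ∑ w ∈ Ioc τ z, tr.pi τ z w * (tr.al w * tr.kb w b)) := sum_le_sum fun b hb => by
    have e1 := XX_eq h hτ b
    have e2 := mass h τ z b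
    have e3 := x0_nonneg h τ z b
    have e4 : tr.bt z b = 1 := by simp [bt, hr b hb]
    linarith
  have a2 : ∑ b ∈ O, tr.XX (tr.pi τ z) b τ z ≤ δ * O.card * T' := by
    unfold XX
    rw [sum_comm]
    simp only [← mul_sum]
    exact sum_pi_le h hT (by positivity) fun w hw =>
      (abs_le.1 (hG.gO w (by have := mem_Ioc.1 hw; omega) (by have := mem_Ioc.1 hw; omega))).2
  have a3 : ∑ b ∈ O, ∑ w ∈ Ioc τ z, tr.pi τ z w * (tr.al w * tr.kb w b) ≤
      tr.kap τ z * ((1 / 2 + δ) * O.card) := by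
    rw [sum_comm, kap, sum_mul]
    refine sum_le_sum fun w hw => ?_
    simp only [← mul_sum, ← mul_assoc]
    rw [mul_assoc (_ * _)]
    exact mul_le_mul_of_nonneg_left (hk w hw) (mul_nonneg (pi0 h τ z w) (h.al0 w))
  rw [sum_add_distrib, sum_const, nsmul_eq_mul] at a1
  have a4 := kap_nonneg h τ z
  have a5 := mul_le_mul_of_nonneg_left h1 a4
  have a6 : tr.kap τ z * O.card ≤ (δ * T' + tr.kap τ z * (1 / 2 + δ)) * O.card := by linarith
  have := le_of_mul_le_mul_right a6 hc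
  linarith

/-- (G2). -/
theorem vv_le (h : tr.WF) (hG : tr.Good O N δ T) (hN : N.Nonempty) (h0 : 0 ≤ δ)
    (hz : z ≤ T) (hT : z ≤ τ + T') : tr.vv N τ z ≤ 1 + 8 * δ * T' := by
  rcases lt_or_ge z τ with hτ | hτ
  · rw [vv, Ioc_eq_empty (by omega), sum_empty]
    positivity
  have hc : (0 : ℝ) < N.card := by exact_mod_cast hN.card_pos
  have a1 := (abs_le.1 (G0' h hG hN h0 hz hT hτ)).1
  have a2 : ∑ b ∈ N, tr.XX (tr.pi τ z) b τ z ^ 2 ≤ ∑ b ∈ N, (1 : ℝ) := sum_le_sum fun b _ => by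
    have e1 := XX_eq h hτ b
    have e2 := mass h τ z b
    have e3 := x0_nonneg h τ z b
    have e4 := x1_nonneg h τ z b
    have e5 := kill_le h (t := z) le_rfl z b (τ := τ)
    have e6 := bt_nonneg tr z b
    have e7 := bt_le_one tr z b
    exact (sq_le_one_iff_abs_le_one _).2 (abs_le.2 ⟨by linarith [e5.2], by linarith [e5.1]⟩)
  rw [sum_const, nsmul_eq_mul] at a2
  exact le_of_mul_le_mul_right (by linarith) hc

/-- (G3). -/
theorem low_v (h : tr.WF) (hG : tr.Good O N δ T) (hN : N.Nonempty) (h0 : 0 ≤ δ)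
    (hz : z ≤ T) (hT : z ≤ τ + T') :
    (∑ b ∈ N, tr.x0 τ z b * tr.x1 τ z b) / N.card ≤
      tr.vv N τ z + 10 * δ * T' + 2 * tr.kap τ z := by
  have hk := kap_nonneg h τ z
  rcases lt_or_ge z τ with hτ | hτ
  · rw [vv, Ioc_eq_empty (by omega), sum_empty, sum_eq_zero fun b _ => by
      rw [x0_top tr hτ.le, x1_top tr hτ.le, mul_comm, bt_mul_one_sub], zero_div]
    positivity
  have hc : (0 : ℝ) < N.card := by exact_mod_cast hN.card_pos
  have a1 := (abs_le.1 (G0' h hG hN h0 hz hT hτ)).2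
  have a2 : ∑ b ∈ N, tr.XX (tr.pi τ z) b τ z * yy tr τ z b ≤ δ * N.card * T' := by
    unfold XX
    simp only [sum_mul, mul_assoc]
    rw [sum_comm]
    simp only [← mul_sum, ← mul_assoc δ]
    exact sum_pi_le h hT (by positivity) fun w hw =>
      (abs_le.1 (ip_yy h hG h0 (mem_Ioc.1 hw).1 ((mem_Ioc.1 hw).2.trans hz) z)).2
  have a3 : ∑ b ∈ N, tr.x0 τ z b * tr.x1 τ z b ≤ ∑ b ∈ N, (tr.XX (tr.pi τ z) b τ z ^ 2 +
      2 * (tr.XX (tr.pi τ z) b τ z * yy tr τ z b) + 2 * tr.kap τ z) := sum_le_sum fun b _ => by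
    have e1 := XX_eq h hτ b
    have e2 := mass h τ z b
    have e3 := x0_nonneg h τ z b
    have e4 := x1_nonneg h τ z b
    have e5 := kill_le h (t := z) le_rfl z b (τ := τ)
    have e6 := bt_nonneg tr z b
    have e7 := bt_le_one tr z b
    have e8 := bt_mul_one_sub tr z b
    have e9 := kap1 h b τ z
    rw [yy_eq, e1]
    generalize ∑ w ∈ Ioc τ z, tr.pi τ z w * (tr.al w * tr.kb w b) = k at *
    rw [show tr.x0 τ z b = 1 - tr.x1 τ z b - tr.kap τ z by linarith]
    generalize tr.x1 τ z b = x at *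
    generalize tr.kap τ z = κ at *
    generalize tr.bt z b = c at *
    nlinarith [e5.1, e5.2, sq_nonneg (k - κ / 2), mul_nonneg e6 e5.1, mul_nonneg e6 hk,
      mul_nonneg (sub_nonneg.2 e7) (sub_nonneg.2 e5.2), mul_nonneg hk (sub_nonneg.2 e9),
      mul_nonneg e5.1 (sub_nonneg.2 e5.2), mul_nonneg (sub_nonneg.2 e7) e5.1,
      mul_nonneg e6 (sub_nonneg.2 e5.2), mul_nonneg (sub_nonneg.2 e7) hk]
  rw [sum_add_distrib, sum_add_distrib, ← mul_sum, sum_const, nsmul_eq_mul] at a3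
  rw [div_le_iff₀ hc]
  linarith

end Tr

end Pool.Agent.P.MP_5c258a_lc.Bin
end
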