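import Pool.Agent.K.MP_5c258a_lc.C1
import Pool.Agent.P.MP_5c258a_lc.Bin.Defs
import Pool.Agent.K.MP_5c258a_lc.C0
import Pool.Agent.K.MP_5c258a_lc.C2

-- part Pool.Agent.P.MP_5c258a_lc.Bin.Meet
section

/-! Task MEET: the meeting lemma, the sampling lemma and the greedy lemma. -/

namespace Pool.Agent.P.MP_5c258a_lc.Bin

open Finset Classical

theorem meeting_aux {n : ℕ} {tr : Tr n} (h : tr.WF) (τ t : ℕ) (π : ℕ → ℝ)
    (h0 : ∀ x, 0 ≤ π x) (hs : ∀ x, τ < x → x ≤ t → ∑ w ∈ Ioc x t, π w * tr.p w x ≤ π x)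
    (F : Finset ℕ) (hF : F ⊆ Ioc τ t) (k : ℕ) : ∀ s, s + k = t → τ ≤ s →
    ∃ M : ℕ → ℝ, (∀ x, 0 ≤ M x) ∧ (∀ z ≤ s, M z = 0) ∧
      (∀ x y, s < x → x ≤ t → s < y → y ≤ t →
        ∑ z ∈ F, M z * (tr.pi τ z x * tr.pi τ z y) ≤ π x * π y) ∧
      ∀ f ∈ F, s < f → π f * π f ≤ ∑ z ∈ F, M z * (tr.pi τ z f * tr.pi τ z f) := by
  induction k with
  | zero =>
    intro s e _
    refine ⟨fun _ => 0, fun _ => le_rfl, fun _ _ => rfl, fun x y h1 h2 => by omega,
      fun f hf h1 => ?_⟩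
    have := mem_Ioc.1 (hF hf)
    omega
  | succ k ih =>
    intro s e hτ
    obtain ⟨M, M0, Mz, K0, Kf⟩ := ih (s + 1) (by omega) (by omega)
    set x0 := s + 1 with hx0
    have g0 : ∀ z x, 0 ≤ tr.pi τ z x := fun z x => Tr.gr_nonneg h _ z x
    have expand : ∀ y, (∀ w, x0 < w → w ≤ t →
        ∑ z ∈ F, M z * (tr.pi τ z w * tr.pi τ z y) ≤ π w * π y) →
        ∑ z ∈ F, M z * (tr.pi τ z x0 * tr.pi τ z y) ≤ π x0 * π y := by
      intro y hy
      have e1 : ∀ z ∈ F, M z * (tr.pi τ z x0 * tr.pi τ z y) =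
          ∑ w ∈ Ioc x0 t, tr.p w x0 * (M z * (tr.pi τ z w * tr.pi τ z y)) := by
        intro z hz
        by_cases hzx : z ≤ x0
        · simp [Mz z hzx]
        · have e2 : tr.pi τ z x0 = ∑ w ∈ Ioc x0 t, tr.pi τ z w * tr.p w x0 := by
            unfold Tr.pi
            rw [Tr.gr_eq' tr _ (mem_Ioc.1 (hF hz)).2 x0, if_neg (by omega), zero_add]
            refine sum_congr rfl fun w hw => ?_
            rw [if_pos (by have := (mem_Ioc.1 hw).1; omega)]
          rw [e2, sum_mul, mul_sum]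
          exact sum_congr rfl fun w _ => by ring
      rw [sum_congr rfl e1, sum_comm]
      calc _ ≤ ∑ w ∈ Ioc x0 t, π w * tr.p w x0 * π y := by
            refine sum_le_sum fun w hw => ?_
            rw [← mul_sum]
            have := mul_le_mul_of_nonneg_left (hy w (mem_Ioc.1 hw).1 (mem_Ioc.1 hw).2)
              (Tr.p_nonneg h w x0)
            linarith
        _ ≤ _ := by
            rw [← sum_mul]
            exact mul_le_mul_of_nonneg_right (hs x0 (by omega) (by omega)) (h0 y)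
    have k1 : ∀ y, x0 < y → y ≤ t → ∑ z ∈ F, M z * (tr.pi τ z x0 * tr.pi τ z y) ≤ π x0 * π y :=
      fun y h1 h2 => expand y fun w h3 h4 => K0 w y h3 h4 h1 h2
    have k1' : ∀ y, x0 < y → y ≤ t → ∑ z ∈ F, M z * (tr.pi τ z y * tr.pi τ z x0) ≤ π y * π x0 :=
      fun y h1 h2 => by simpa only [mul_comm] using k1 y h1 h2
    have k2 := expand x0 k1'
    set D := π x0 * π x0 - ∑ z ∈ F, M z * (tr.pi τ z x0 * tr.pi τ z x0) with hD
    have D0 : 0 ≤ D := sub_nonneg.2 k2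
    have new : ∀ x y, ∑ z ∈ F, (M z + if z = x0 then D else 0) * (tr.pi τ z x * tr.pi τ z y) =
        ∑ z ∈ F, M z * (tr.pi τ z x * tr.pi τ z y) +
          if x0 ∈ F then D * (tr.pi τ x0 x * tr.pi τ x0 y) else 0 := by
      intro x y
      simp only [add_mul, sum_add_distrib, ite_mul, zero_mul, sum_ite_eq']
    have gz : ∀ x, x0 < x → tr.pi τ x0 x = 0 := fun x hx => Tr.gr_of_lt tr _ hx
    have g1 : tr.pi τ x0 x0 = 1 := Tr.gr_self tr _ x0
    refine ⟨fun z => M z + if z = x0 then D else 0, fun z => ?_, fun z hz => ?_,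
      fun x y h1 h2 h3 h4 => ?_, fun f hf h1 => ?_⟩
    · have := M0 z
      beta_reduce
      split_ifs <;> linarith
    · simp only [Mz z (by omega), if_neg (show z ≠ x0 by omega), add_zero]
    · rw [new]
      rcases (show x = x0 ∨ x0 < x by omega) with rfl | hx
      · rcases (show y = x0 ∨ x0 < y by omega) with rfl | hy
        · rw [g1]
          split_ifs <;> linarith
        · simpa [gz y hy] using k1 y hy h4
      · rcases (show y = x0 ∨ x0 < y by omega) with rfl | hy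
        · simpa [gz x hx] using k1' x hx h2
        · simpa [gz x hx] using K0 x y hx h2 hy h4
    · rw [new]
      rcases (show f = x0 ∨ x0 < f by omega) with rfl | hx
      · rw [g1, if_pos hf]
        linarith
      · simpa [gz f hx] using Kf f hf hx

/-- Meeting lemma (paper section 2). `π` is any superharmonic function on `(τ, t]`. -/
theorem meeting {n : ℕ} {tr : Tr n} (h : tr.WF) (N : Finset (Fin n)) (τ t : ℕ) (π : ℕ → ℝ)
    (h0 : ∀ x, 0 ≤ π x) (hs : ∀ x, τ < x → x ≤ t → ∑ w ∈ Ioc x t, π w * tr.p w x ≤ π x)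
    (F : Finset ℕ) (hF : F ⊆ Ioc τ t) (v η : ℝ) (hv : 0 < v) (hFv : ∀ f ∈ F, v ≤ tr.vv N τ f)
    (hη : ∑ w ∈ Ioc τ t, π w ^ 2 * tr.VV N w ≤ η) :
    ∃ M : ℕ → ℝ, (∀ x, 0 ≤ M x) ∧ ∑ x ∈ F, M x ≤ η / v ∧
      ∀ f ∈ F, π f ^ 2 ≤ ∑ x ∈ F, M x * tr.pi τ x f ^ 2 := by
  rcases lt_or_ge t τ with hlt | hle
  · have : F = ∅ := subset_empty.1 (by rwa [Ioc_eq_empty (by omega)] at hF)
    rw [Ioc_eq_empty (by omega), sum_empty] at hη
    subst this
    exact ⟨fun _ => 0, fun _ => le_rfl, by simpa using div_nonneg hη hv.le, by simp⟩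
  obtain ⟨M, M0, -, K0, Kf⟩ := meeting_aux h τ t π h0 hs F hF (t - τ) τ (by omega) le_rfl
  refine ⟨M, M0, ?_, fun f hf => by simpa only [sq] using Kf f hf (mem_Ioc.1 (hF hf)).1⟩
  rw [le_div_iff₀ hv, sum_mul]
  calc _ ≤ ∑ z ∈ F, ∑ w ∈ Ioc τ t, M z * (tr.pi τ z w * tr.pi τ z w) * tr.VV N w := by
        refine sum_le_sum fun z hz => (mul_le_mul_of_nonneg_left (hFv z hz) (M0 z)).trans ?_
        unfold Tr.vv
        rw [mul_sum]
        refine le_trans (le_of_eq (sum_congr rfl fun w _ => by ring))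
          (sum_le_sum_of_subset_of_nonneg (Ioc_subset_Ioc_right (mem_Ioc.1 (hF hz)).2)
            fun w _ _ => mul_nonneg (mul_nonneg (M0 z) (mul_self_nonneg _)) (Tr.VV_nonneg h N w))
    _ ≤ ∑ w ∈ Ioc τ t, π w ^ 2 * tr.VV N w := by
        rw [sum_comm]
        refine sum_le_sum fun w hw => ?_
        rw [← sum_mul, sq]
        have := mem_Ioc.1 hw
        exact mul_le_mul_of_nonneg_right (K0 w w this.1 this.2 this.1 this.2) (Tr.VV_nonneg h N w)
    _ ≤ η := hη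

section Sample

variable {X : Type} {s : Finset X} {P : X → ℝ} {m : ℕ}

/-- Expectation over `m` independent samples. -/
noncomputable def ExS (s : Finset X) (P : X → ℝ) (m : ℕ) (φ : (Fin m → X) → ℝ) : ℝ :=
  ∑ z ∈ Fintype.piFinset fun _ : Fin m => s, (∏ i, P (z i)) * φ z

theorem ExS_prod (f : Fin m → X → ℝ) :
    ExS s P m (fun z => ∏ i, f i (z i)) = ∏ i, ∑ x ∈ s, P x * f i x := by
  unfold ExS
  rw [prod_univ_sum]
  exact sum_congr rfl fun z _ => by rw [prod_mul_distrib]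

theorem ExS_sum {ι : Type} (T : Finset ι) (φ : ι → (Fin m → X) → ℝ) :
    ExS s P m (fun z => ∑ i ∈ T, φ i z) = ∑ i ∈ T, ExS s P m (φ i) := by
  unfold ExS
  simp only [mul_sum]
  rw [sum_comm]

theorem ExS_mul (c : ℝ) (φ : (Fin m → X) → ℝ) : ExS s P m (fun z => φ z * c) = ExS s P m φ * c := by
  unfold ExS
  rw [sum_mul]
  exact sum_congr rfl fun z _ => by ring

theorem ExS_add (φ ψ : (Fin m → X) → ℝ) :
    ExS s P m (fun z => φ z + ψ z) = ExS s P m φ + ExS s P m ψ := by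
  unfold ExS
  simp only [mul_add, sum_add_distrib]

theorem ExS_const (h1 : ∑ x ∈ s, P x = 1) : ExS s P m (fun _ => 1) = 1 := by
  simpa [h1] using ExS_prod (s := s) (P := P) (m := m) fun _ _ => 1

theorem ExS_one (h1 : ∑ x ∈ s, P x = 1) (f : X → ℝ) (j : Fin m) :
    ExS s P m (fun z => f (z j)) = ∑ x ∈ s, P x * f x := by
  have := ExS_prod (s := s) (P := P) fun i x => if i = j then f x else 1
  simp only [prod_ite_eq', mem_univ, if_true] at this
  rw [this, prod_eq_single j (fun i _ hi => by simp [hi, h1]) (by simp)]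
  simp

theorem ExS_two (h1 : ∑ x ∈ s, P x = 1) (f : X → ℝ) {j k : Fin m} (hjk : j ≠ k) :
    ExS s P m (fun z => f (z j) * f (z k)) = (∑ x ∈ s, P x * f x) ^ 2 := by
  have := ExS_prod (s := s) (P := P)
    fun i x => (if i = j then f x else 1) * (if i = k then f x else 1)
  simp only [prod_mul_distrib, prod_ite_eq', mem_univ, if_true] at this
  rw [this, prod_eq_mul j k hjk (fun i _ hi => by simp [hi.1, hi.2, h1]) (by simp) (by simp)]
  simp [hjk, hjk.symm, sq]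

theorem ExS_sq (h1 : ∑ x ∈ s, P x = 1) (hm : 0 < m) (f : X → ℝ) :
    ExS s P m (fun z => ((∑ j, f (z j)) / m) ^ 2) ≤
      (∑ x ∈ s, P x * f x) ^ 2 + (∑ x ∈ s, P x * f x ^ 2) / m := by
  have hm' : (0 : ℝ) < m := by exact_mod_cast hm
  set a := (∑ x ∈ s, P x * f x) ^ 2 with ha
  set b := ∑ x ∈ s, P x * f x ^ 2 with hb
  have a0 : 0 ≤ a := sq_nonneg _
  have e : (fun z : Fin m → X => ((∑ j, f (z j)) / m) ^ 2) =
      fun z => (∑ j, ∑ k, f (z j) * f (z k)) * (1 / m ^ 2) := by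
    ext z
    rw [← sum_mul_sum, div_pow, sq, mul_one_div]
  rw [e, ExS_mul, ExS_sum]
  have k : ∀ j : Fin m, ExS s P m (fun z => ∑ k, f (z j) * f (z k)) ≤ m * a + b := by
    intro j
    rw [ExS_sum]
    calc _ ≤ ∑ k : Fin m, (a + if k = j then b else 0) := by
          refine sum_le_sum fun k _ => ?_
          split_ifs with hk
          · subst hk
            have := ExS_one (s := s) (P := P) h1 (fun x => f x ^ 2) k
            simp only [← sq]
            rw [this]; linarith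
          · rw [ExS_two h1 f (Ne.symm hk), add_zero]
      _ = _ := by simp [sum_add_distrib]
  calc _ ≤ (∑ _j : Fin m, (m * a + b)) * (1 / m ^ 2) :=
        mul_le_mul_of_nonneg_right (sum_le_sum fun j _ => k j) (by positivity)
    _ = _ := by simp; field_simp

theorem ExS_exists (hP : ∀ x ∈ s, 0 ≤ P x) (h1 : ∑ x ∈ s, P x = 1) (φ : (Fin m → X) → ℝ)
    (h : ExS s P m φ ≤ 1) : ∃ z : Fin m → X, (∀ i, z i ∈ s) ∧ φ z ≤ 1 := by
  by_contra hc
  push Not at hc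
  have e := ExS_const (m := m) h1
  have w0 : ∀ z ∈ Fintype.piFinset fun _ : Fin m => s, 0 ≤ ∏ i, P (z i) := fun z hz =>
    prod_nonneg fun i _ => hP _ (Fintype.mem_piFinset.1 hz i)
  obtain ⟨z, hz, hz0⟩ : ∃ z ∈ Fintype.piFinset fun _ : Fin m => s, (∏ i, P (z i)) * 1 ≠ 0 :=
    exists_ne_zero_of_sum_ne_zero (by unfold ExS at e; rw [e]; exact one_ne_zero)
  have : ExS s P m (fun _ => 1) < ExS s P m φ :=
    sum_lt_sum (fun z hz => mul_le_mul_of_nonneg_left (hc z (Fintype.mem_piFinset.1 hz)).le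
      (w0 z hz)) ⟨z, hz, mul_lt_mul_of_pos_left (hc z (Fintype.mem_piFinset.1 hz))
        ((w0 z hz).lt_of_ne' (by simpa only [mul_one] using hz0))⟩
  linarith

theorem ExS_budget (hP : ∀ x ∈ s, 0 ≤ P x) (h1 : ∑ x ∈ s, P x = 1) (hm : 0 < m)
    (a : ℕ → X → ℝ) (V : ℕ → ℝ) (hV : ∀ w, 0 ≤ V w) (W : Finset ℕ) (η : ℝ)
    (e : ∑ w ∈ W, (∑ x ∈ s, P x * a w x) ^ 2 * V w ≤ η)
    (o : ∀ x ∈ s, ∑ w ∈ W, a w x ^ 2 * V w ≤ 2) :
    ExS s P m (fun z => ∑ w ∈ W, ((∑ j, a w (z j)) / m) ^ 2 * V w) ≤ η + 2 / m := by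
  have hm' : (0 : ℝ) < m := by exact_mod_cast hm
  rw [ExS_sum]
  calc _ ≤ ∑ w ∈ W, ((∑ x ∈ s, P x * a w x) ^ 2 + (∑ x ∈ s, P x * a w x ^ 2) / m) * V w := by
        refine sum_le_sum fun w _ => ?_
        rw [ExS_mul]
        exact mul_le_mul_of_nonneg_right (ExS_sq h1 hm (a w)) (hV w)
    _ = ∑ w ∈ W, (∑ x ∈ s, P x * a w x) ^ 2 * V w +
          (∑ x ∈ s, P x * ∑ w ∈ W, a w x ^ 2 * V w) / m := by
        simp only [add_mul, sum_add_distrib, mul_sum]
        congr 1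
        rw [sum_comm, sum_div]
        refine sum_congr rfl fun w _ => ?_
        rw [div_mul_eq_mul_div, sum_mul]
        congr 1
        exact sum_congr rfl fun x _ => by ring
    _ ≤ _ := by
        refine add_le_add e (div_le_div_of_nonneg_right ?_ hm'.le)
        calc _ ≤ ∑ x ∈ s, P x * 2 :=
              sum_le_sum fun x hx => mul_le_mul_of_nonneg_left (o x hx) (hP x hx)
          _ = 2 := by rw [← sum_mul, h1, one_mul]

end Sample

/-- Sampling lemma: `m` independent samples from `P`; four Markov inequalities at once. -/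
theorem sampling {X I : Type} [Fintype I] (s : Finset X) (P : X → ℝ) (hP : ∀ x ∈ s, 0 ≤ P x)
    (h1 : ∑ x ∈ s, P x = 1) (m : ℕ) (hm : 0 < m)
    (g : I → X → ℝ) (hg : ∀ i, ∀ x ∈ s, 0 ≤ g i x ∧ g i x ≤ 1)
    (a : ℕ → X → ℝ) (V : ℕ → ℝ) (hV : ∀ w, 0 ≤ V w) (W₁ W₂ : Finset ℕ) (η₁ η₂ : ℝ)
    (e₁ : ∑ w ∈ W₁, (∑ x ∈ s, P x * a w x) ^ 2 * V w ≤ η₁)
    (e₂ : ∑ w ∈ W₂, (∑ x ∈ s, P x * a w x) ^ 2 * V w ≤ η₂)
    (o₁ : ∀ x ∈ s, ∑ w ∈ W₁, a w x ^ 2 * V w ≤ 2) (o₂ : ∀ x ∈ s, ∑ w ∈ W₂, a w x ^ 2 * V w ≤ 2)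
    (κ : X → ℝ) (hκ : ∀ x ∈ s, 0 ≤ κ x) (y : ℝ) (hy : 0 < y) (eκ : ∑ x ∈ s, P x * κ x ≤ y) :
    ∃ smp : Fin m → X, (∀ i, smp i ∈ s) ∧
      ∑ i, ((∑ j, g i (smp j)) / m - ∑ x ∈ s, P x * g i x) ^ 2 ≤ 4 * Fintype.card I / m ∧
      ∑ w ∈ W₁, ((∑ j, a w (smp j)) / m) ^ 2 * V w ≤ 4 * (η₁ + 2 / m) ∧
      ∑ w ∈ W₂, ((∑ j, a w (smp j)) / m) ^ 2 * V w ≤ 4 * (η₂ + 2 / m) ∧
      (∑ j, κ (smp j)) / m ≤ 4 * y := by
  have hm' : (0 : ℝ) < m := by exact_mod_cast hm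
  have η1 : 0 ≤ η₁ := (sum_nonneg fun w _ => mul_nonneg (sq_nonneg _) (hV w)).trans e₁
  have η2 : 0 ≤ η₂ := (sum_nonneg fun w _ => mul_nonneg (sq_nonneg _) (hV w)).trans e₂
  set A1 : (Fin m → X) → ℝ := fun z => ∑ i, ((∑ j, g i (z j)) / m - ∑ x ∈ s, P x * g i x) ^ 2
    with hA1
  set A2 : (Fin m → X) → ℝ := fun z => ∑ w ∈ W₁, ((∑ j, a w (z j)) / m) ^ 2 * V w with hA2
  set A3 : (Fin m → X) → ℝ := fun z => ∑ w ∈ W₂, ((∑ j, a w (z j)) / m) ^ 2 * V w with hA3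
  set A4 : (Fin m → X) → ℝ := fun z => (∑ j, κ (z j)) / m with hA4
  have E1 : ExS s P m A1 ≤ Fintype.card I / m := by
    rw [hA1, ExS_sum]
    calc _ ≤ ∑ _i : I, (1 : ℝ) / m := by
          refine sum_le_sum fun i _ => ?_
          set μ := ∑ x ∈ s, P x * g i x with hμ
          have μ0 : 0 ≤ μ := sum_nonneg fun x hx => mul_nonneg (hP x hx) (hg i x hx).1
          have μ1 : μ ≤ 1 := by
            rw [← h1]
            exact sum_le_sum fun x hx => mul_le_of_le_one_right (hP x hx) (hg i x hx).2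
          have k := ExS_sq h1 hm fun x => g i x - μ
          have e : (fun z : Fin m → X => ((∑ j, g i (z j)) / m - μ) ^ 2) =
              fun z => ((∑ j, (g i (z j) - μ)) / m) ^ 2 := by
            ext z
            rw [sum_sub_distrib, sub_div]
            simp [mul_div_cancel_left₀ _ hm'.ne']
          have z0 : ∑ x ∈ s, P x * (g i x - μ) = 0 := by
            simp only [mul_sub, sum_sub_distrib, ← sum_mul, h1, ← hμ]; ring
          rw [e]
          refine k.trans ?_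
          rw [z0, zero_pow two_ne_zero, zero_add]
          refine div_le_div_of_nonneg_right ?_ hm'.le
          rw [← h1]
          refine sum_le_sum fun x hx => mul_le_of_le_one_right (hP x hx) ?_
          have := hg i x hx
          nlinarith [this.1, this.2]
      _ = _ := by simp [div_eq_mul_inv]
  have E2 : ExS s P m A2 ≤ η₁ + 2 / m := ExS_budget hP h1 hm a V hV W₁ η₁ e₁ o₁
  have E3 : ExS s P m A3 ≤ η₂ + 2 / m := ExS_budget hP h1 hm a V hV W₂ η₂ e₂ o₂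
  have E4 : ExS s P m A4 ≤ y := by
    rw [hA4]
    simp only [div_eq_mul_inv]
    rw [ExS_mul, ExS_sum]
    simp only [ExS_one h1, sum_const, card_univ, Fintype.card_fin, nsmul_eq_mul]
    rw [mul_comm, ← mul_assoc, inv_mul_cancel₀ hm'.ne', one_mul]
    exact eκ
  have q : ∀ E c : ℝ, 0 ≤ c → E ≤ c → E * (4 * c)⁻¹ ≤ 1 / 4 := by
    intro E c hc hE
    rcases hc.lt_or_eq with h | h
    · rw [← div_eq_mul_inv, div_le_iff₀ (by positivity)]; linarith
    · rw [← h]; norm_num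
  have c1 : (0 : ℝ) ≤ Fintype.card I / m := by positivity
  have c2 : 0 < η₁ + 2 / m := by positivity
  have c3 : 0 < η₂ + 2 / m := by positivity
  obtain ⟨z, hz, hT⟩ := ExS_exists hP h1 (fun z => A1 z * (4 * (Fintype.card I / m : ℝ))⁻¹ +
      A2 z * (4 * (η₁ + 2 / m))⁻¹ + A3 z * (4 * (η₂ + 2 / m))⁻¹ + A4 z * (4 * y)⁻¹) (by
    rw [ExS_add, ExS_add, ExS_add, ExS_mul, ExS_mul, ExS_mul, ExS_mul]
    linarith [q _ _ c1 E1, q _ _ c2.le E2, q _ _ c3.le E3, q _ _ hy.le E4])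
  have p1 : 0 ≤ A1 z := sum_nonneg fun _ _ => sq_nonneg _
  have p2 : 0 ≤ A2 z := sum_nonneg fun w _ => mul_nonneg (sq_nonneg _) (hV w)
  have p3 : 0 ≤ A3 z := sum_nonneg fun w _ => mul_nonneg (sq_nonneg _) (hV w)
  have p4 : 0 ≤ A4 z := div_nonneg (sum_nonneg fun j _ => hκ _ (hz j)) hm'.le
  have n1 : 0 ≤ A1 z * (4 * (Fintype.card I / m : ℝ))⁻¹ := by positivity
  have n2 : 0 ≤ A2 z * (4 * (η₁ + 2 / m))⁻¹ := by positivity
  have n3 : 0 ≤ A3 z * (4 * (η₂ + 2 / m))⁻¹ := by positivity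
  have n4 : 0 ≤ A4 z * (4 * y)⁻¹ := by positivity
  have r : ∀ E c : ℝ, 0 < c → E * c⁻¹ ≤ 1 → E ≤ c := fun E c hc hE => by
    rwa [← div_eq_mul_inv, div_le_one hc] at hE
  refine ⟨z, hz, ?_, r (A2 z) _ (by positivity) (by linarith),
    r (A3 z) _ (by positivity) (by linarith), r (A4 z) _ (by positivity) (by linarith)⟩
  rcases isEmpty_or_nonempty I with hI | hI
  · simp
  · have : (0 : ℝ) < Fintype.card I := by exact_mod_cast Fintype.card_pos
    rw [mul_div_assoc]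
    exact r (A1 z) _ (by positivity) (by linarith)

/-- Greedy choice from the top. -/
theorem greedy (G : Finset ℕ) (m : ℕ → ℕ) (hm : ∀ k ∈ G, 1 ≤ m k) :
    ∃ S ⊆ G, (∀ k ∈ S, ∀ k' ∈ S, k' < k → k' + m k ≤ k) ∧ G.card ≤ ∑ k ∈ S, m k := by
  induction G using Finset.strongInduction with
  | H G ih =>
    rcases G.eq_empty_or_nonempty with rfl | hne
    · exact ⟨∅, Subset.rfl, by simp, by simp⟩
    set k := G.max' hne with hk
    have kG : k ∈ G := G.max'_mem hne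
    have kmax : ∀ x ∈ G, x ≤ k := fun x hx => G.le_max' x hx
    have mk := hm k kG
    set G' := G.filter fun x => x + m k ≤ k with hG'
    have kG' : k ∉ G' := by simp only [hG', mem_filter]; omega
    have sub : G' ⊆ G := filter_subset _ _
    obtain ⟨S, S1, S2, S3⟩ := ih G' ⟨sub, fun h => kG' (h kG)⟩ fun x hx => hm x (sub hx)
    refine ⟨insert k S, insert_subset kG (S1.trans sub), fun a ha b hb hab => ?_, ?_⟩
    · rcases mem_insert.1 hb with rfl | hb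
      · have := kmax a (insert_subset kG (S1.trans sub) ha)
        omega
      · rcases mem_insert.1 ha with rfl | ha
        · exact (mem_filter.1 (S1 hb)).2
        · exact S2 a ha b hb hab
    · rw [sum_insert fun h => kG' (S1 h)]
      have e := card_filter_add_card_filter_not (s := G) fun x => x + m k ≤ k
      have e2 : (G.filter fun x => ¬ x + m k ≤ k).card ≤ (Ico (k + 1 - m k) (k + 1)).card :=
        card_le_card fun x hx => by
          have := mem_filter.1 hx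
          have := kmax x this.1
          rw [mem_Ico]; omega
      rw [Nat.card_Ico] at e2
      rw [← hG'] at e
      omega

end Pool.Agent.P.MP_5c258a_lc.Bin
end

-- part Pool.Agent.P.MP_5c258a_lc.Bin.Nrm
section

/-! Orbits, flip rates, normalised trajectory of a list of queries (paper section 1). -/

namespace Pool.Agent.P.MP_5c258a_lc.Bin

open Finset Classical

variable {n : ℕ}

/-- Number of flips (relative to `u`) on the agree set and on the differ set of `u, v`. -/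
noncomputable def ca (u v y : Fin n → Bool) : ℕ := (univ.filter fun b => u b = v b ∧ y b ≠ u b).card
noncomputable def cb (u v y : Fin n → Bool) : ℕ := (univ.filter fun b => u b ≠ v b ∧ y b ≠ u b).card

noncomputable def alf (u v y : Fin n → Bool) : ℝ :=
  ca u v y / (univ.filter fun b => u b = v b).card
noncomputable def bet (u v y : Fin n → Bool) : ℝ :=
  cb u v y / (univ.filter fun b => u b ≠ v b).card

noncomputable def orb (u v y : Fin n → Bool) : Finset (Fin n → Bool) :=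
  univ.filter fun y' => ca u v y' = ca u v y ∧ cb u v y' = cb u v y

/-- The probability of a one at `b` on the orbit with rates `α, β`. -/
noncomputable def pbf (u v : Fin n → Bool) (α β : ℝ) (b : Fin n) : ℝ :=
  if u b = v b then (if u b = true then 1 - α else α) else (if v b = true then β else 1 - β)

lemma pb_eq_pbf (tr : Tr n) (w : ℕ) (b : Fin n) :
    tr.pb w b = pbf (tr.c (tr.u w)) (tr.c (tr.v w)) (tr.al w) (tr.be w) b := by
  unfold Tr.pb Tr.kb Tr.bt pbf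
  cases tr.c (tr.u w) b <;> cases tr.c (tr.v w) b <;> simp <;> ring

def cpl (y : Fin n → Bool) : Fin n → Bool := fun b => !y b

noncomputable def nz0 (O : Finset (Fin n)) (y : Fin n → Bool) : Fin n → Bool :=
  if (O.card : ℝ) / 2 ≤ ∑ b ∈ O, (if y b = true then 1 else 0) then y else cpl y

noncomputable def nz (O : Finset (Fin n)) (u v y : Fin n → Bool) : Fin n → Bool :=
  if (O.card : ℝ) / 2 ≤ ∑ b ∈ O, pbf u v (alf u v y) (bet u v y) b then y else cpl y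

/-- Parent number `i` of query `w`. -/
def parW (A : BAlg n) (xs : List (Fin n → Bool)) (i : Fin 2) (w : ℕ) : ℕ :=
  min (A.par ((xs.take w).map f0) i) (w - 1)

/-- Normalised strings. Use `nc_zero`, `nc_succ`, never unfold. -/
noncomputable def nc (A : BAlg n) (O : Finset (Fin n)) (xs : List (Fin n → Bool)) :
    ℕ → Fin n → Bool
  | 0 => nz0 O (xs.getD 0 fun _ => false)
  | w + 1 => nz O (nc A O xs (parW A xs 0 (w + 1))) (nc A O xs (parW A xs 1 (w + 1)))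
      (xs.getD (w + 1) fun _ => false)
decreasing_by all_goals (unfold parW; omega)

theorem nc_zero (A : BAlg n) (O : Finset (Fin n)) (xs : List (Fin n → Bool)) :
    nc A O xs 0 = nz0 O (xs.getD 0 fun _ => false) := by rw [nc]

theorem nc_succ (A : BAlg n) (O : Finset (Fin n)) (xs : List (Fin n → Bool)) (w : ℕ) :
    nc A O xs (w + 1) = nz O (nc A O xs (parW A xs 0 (w + 1))) (nc A O xs (parW A xs 1 (w + 1)))
      (xs.getD (w + 1) fun _ => false) := by rw [nc]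

/-- The normalised trajectory of the queries `xs`. -/
noncomputable def nrm (A : BAlg n) (O : Finset (Fin n)) (xs : List (Fin n → Bool)) : Tr n where
  c := nc A O xs
  u := parW A xs 0
  v := parW A xs 1
  al := fun w => alf (nc A O xs (parW A xs 0 w)) (nc A O xs (parW A xs 1 w)) (nc A O xs w)
  be := fun w => bet (nc A O xs (parW A xs 0 w)) (nc A O xs (parW A xs 1 w)) (nc A O xs w)

/-- Probability of an event after `t` queries on the classical LeadingOnes function. -/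
noncomputable def Pr (A : BAlg n) (t : ℕ) (p : List (Fin n → Bool) → Prop) : ℝ :=
  Ex (bstep A f0) t [] fun xs => if p xs then 1 else 0

lemma bstep_nonneg (A : BAlg n) (f : (Fin n → Bool) → ℕ) (xs : List (Fin n → Bool))
    (y : Fin n → Bool) : 0 ≤ bstep A f xs y := by
  unfold bstep
  split_ifs
  · positivity
  · exact Op.nonneg _ _ _

lemma bstep_sum (A : BAlg n) (f : (Fin n → Bool) → ℕ) (xs : List (Fin n → Bool)) :
    ∑ y, bstep A f xs y = 1 := by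
  unfold bstep
  split_ifs
  · simp
  · exact Op.sum_one _ _

lemma bstep_sp (A : BAlg n) (f f' : (Fin n → Bool) → ℕ) (π : Equiv.Perm (Fin n))
    (w : Fin n → Bool) (xs : List (Fin n → Bool)) (y : Fin n → Bool)
    (h : ∀ l ∈ xs, f' (sp π w l) = f l) :
    bstep A f' (xs.map (sp π w)) (sp π w y) = bstep A f xs y := by
  have hm : (xs.map (sp π w)).map f' = xs.map f := by
    rw [List.map_map]
    exact List.map_congr_left h
  unfold bstep
  by_cases hx : xs = []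
  · simp [hx]
  · rw [if_neg hx, if_neg (by simpa using hx), hm, ← op_sp _ π w _ y]
    congr 1
    funext i
    have : A.par (xs.map f) i < xs.length := by
      simpa using A.par_lt (xs.map f) i (by simpa using hx)
    rw [List.getD_eq_getElem _ _ (by simpa using this), List.getD_eq_getElem _ _ this]
    simp

lemma Pr_mono (A : BAlg n) (t : ℕ) {p q : List (Fin n → Bool) → Prop}
    (h : ∀ xs, xs.length = t → p xs → q xs) : Pr A t p ≤ Pr A t q := by
  refine Ex_mono' (bstep_nonneg A f0) t [] _ _ fun zs hz => ?_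
  simp only [List.nil_append]
  by_cases hp : p zs
  · simp [hp, h zs hz hp]
  · simp only [hp, if_false]; split_ifs <;> norm_num

lemma Pr_exists {I : Type} (A : BAlg n) (t : ℕ) (s : Finset I)
    (p : I → List (Fin n → Bool) → Prop) :
    Pr A t (fun xs => ∃ i ∈ s, p i xs) ≤ ∑ i ∈ s, Pr A t (p i) := by
  unfold Pr
  rw [← map_sum]
  refine Ex_mono (bstep_nonneg A f0) t [] _ _ fun zs => ?_
  rw [Finset.sum_apply]
  have h0 : ∀ i ∈ s, (0 : ℝ) ≤ if p i zs then 1 else 0 := fun i _ => by split_ifs <;> norm_num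
  split_ifs with h
  · obtain ⟨i, hi, hp⟩ := h
    exact le_trans (by simp [hp]) (single_le_sum h0 hi)
  · exact sum_nonneg h0

lemma Pr_or (A : BAlg n) (t : ℕ) (p q : List (Fin n → Bool) → Prop) :
    Pr A t (fun xs => p xs ∨ q xs) ≤ Pr A t p + Pr A t q := by
  unfold Pr
  rw [← map_add]
  refine Ex_mono (bstep_nonneg A f0) t [] _ _ fun zs => ?_
  rw [Pi.add_apply]
  by_cases hp : p zs <;> by_cases hq : q zs <;> simp [hp, hq]

end Pool.Agent.P.MP_5c258a_lc.Bin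
end

-- part Pool.Agent.P.MP_5c258a_lc.Bin.Par
section

/-! Parameters, blocks, levels, labels (paper sections 0 and 4): definitions and small facts. -/

namespace Pool.Agent.P.MP_5c258a_lc.Bin

open Finset Classical

def pK (r : ℕ) : ℕ := r ^ 13
def pR (r : ℕ) : ℕ := r ^ 20
def pH (r : ℕ) : ℕ := pR r ^ (pK r + 1)
def pL (r : ℕ) : ℕ := pH r ^ 80
def pN (r : ℕ) : ℕ := pH r ^ 2
def pS (r : ℕ) : ℕ := r ^ 18
def ph (r k : ℕ) : ℕ := pR r ^ (k - 1) * r ^ 2
def pJ (r : ℕ) : ℕ := pH r / 2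
/-- `r ^ (-m)`. -/
noncomputable def rp (r m : ℕ) : ℝ := ((r : ℝ) ^ m)⁻¹

lemma pH_eq (r : ℕ) : pH r = r ^ (20 * (pK r + 1)) := by rw [pH, pR, ← pow_mul]

lemma rp_pos {r : ℕ} (hr : 0 < r) (m : ℕ) : 0 < rp r m := by unfold rp; positivity

lemma rp_add (r a b : ℕ) : rp r (a + b) = rp r a * rp r b := by
  unfold rp; rw [pow_add, mul_inv]

lemma rp_anti {r a b : ℕ} (hr : 0 < r) (h : a ≤ b) : rp r b ≤ rp r a := by
  unfold rp
  have : (1 : ℝ) ≤ r := by exact_mod_cast hr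
  exact inv_anti₀ (by positivity) (pow_le_pow_right₀ this h)

lemma rp_mul_pow {r : ℕ} (hr : 0 < r) (m : ℕ) : rp r m * (r : ℝ) ^ m = 1 := by
  unfold rp
  have : (0 : ℝ) < r := by exact_mod_cast hr
  field_simp

lemma inv_pH (r : ℕ) : 1 / (pH r : ℝ) = rp r (20 * (pK r + 1)) := by
  rw [pH_eq, rp, one_div]; push_cast; rfl

lemma pS_mul_ph {r k : ℕ} (hk : 1 ≤ k) : pS r * ph r k = pR r ^ k := by
  obtain ⟨k, rfl⟩ : ∃ j, k = j + 1 := ⟨k - 1, by omega⟩
  simp only [pS, ph, pR, Nat.add_sub_cancel]; ring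

lemma pJ_add {r k : ℕ} (hr : 2 ≤ r) (hk : k ≤ pK r) : pJ r + 3 * pR r ^ k ≤ pH r := by
  have h1 : 6 ≤ pR r := le_trans (by norm_num) (Nat.pow_le_pow_left hr 20)
  have h2 : pR r ^ k ≤ pR r ^ pK r := Nat.pow_le_pow_right (by omega) hk
  have h3 : 6 * pR r ^ pK r ≤ pH r := by
    rw [pH, pow_succ, mul_comm]; exact Nat.mul_le_mul_left _ h1
  unfold pJ; omega

variable {n : ℕ}

/-- A fast block: `col j` are the columns of window `j`, `t i` is the time at which the windows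
below `i` are passed. -/
structure Blk (r : ℕ) (tr : Tr n) (O N : Finset (Fin n)) (col : ℕ → Fin (pL r) → Fin n)
    (t : ℕ → ℕ) (T T' : ℕ) : Prop where
  wf : tr.WF
  mono : ∀ i j, i ≤ j → j ≤ pH r → t i ≤ t j
  top : t (pH r) ≤ T
  fast : t (pH r) ≤ t 0 + T'
  T'_le : T' ≤ pH r ^ 82
  logT : Real.log (T + 2) ≤ 3 * pH r
  good : tr.Good O N ((pH r : ℝ) ^ 83)⁻¹ T
  norm : tr.Norm O
  One : O.Nonempty
  Nne : N.Nonempty
  typ : ∀ j < pH r, tr.Typ (col j) N (1 / pH r) (t j)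
  rightO : ∀ i ≤ pH r, ∀ b ∈ O, tr.c (t i) b = true
  rightW : ∀ i ≤ pH r, ∀ j < i, ∀ l, tr.c (t i) (col j l) = true
  inj : ∀ j < pH r, ∀ j' < pH r, ∀ l l', col j l = col j' l' → j = j' ∧ l = l'

/-- The rise of column `b` between the time `s` and the node `a`. -/
noncomputable def rise (tr : Tr n) (s a : ℕ) (b : Fin n) : ℝ := tr.XX (tr.pi s a) b s a

/-- Number of particles of a window that are not locked. -/
noncomputable def nbad {L : ℕ} (tr : Tr n) (W : Fin L → Fin n) (s a : ℕ) : ℕ :=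
  (univ.filter fun l => 1 / 100 < rise tr s a (W l)).card

def LockOK (r : ℕ) (tr : Tr n) (col : ℕ → Fin (pL r) → Fin n) (t : ℕ → ℕ) (k : ℕ) : Prop :=
  ((∑ j ∈ range (pJ r), ∑ d ∈ Ico (pR r ^ k) (2 * pR r ^ k),
    nbad tr (col j) (t (j + d)) (t (j + d + ph r k)) : ℕ) : ℝ) ≤ pJ r * pL r * pR r ^ k / r

/-- The level times `T_i`. -/
def lev (r : ℕ) (t : ℕ → ℕ) (j k d i : ℕ) : ℕ :=
  if i = 0 then t (j + d) else if k ≤ 4 ^ i then t j else t (j + 2 * pR r ^ (k - 4 ^ i))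

def BudOK (r : ℕ) (tr : Tr n) (N : Finset (Fin n)) (τ a : ℕ) (Tm : ℕ → ℕ) : Prop :=
  ∀ i, ∑ w ∈ Ioc τ (Tm i), tr.pi τ a w ^ 2 * tr.VV N w ≤ rp r (12 * 4 ^ i)

/-- Everything the dichotomy needs about one window, one scale `k` and one target `a`. -/
structure Ctx (r : ℕ) (tr : Tr n) (N : Finset (Fin n)) (W : Fin (pL r) → Fin n) (τ a k : ℕ)
    (Tm : ℕ → ℕ) : Prop where
  wf : tr.WF
  k1 : 1 ≤ k
  kK : k ≤ pK r
  anti : Antitone Tm
  lo : ∀ i, τ ≤ Tm i
  top : Tm 0 ≤ a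
  triv : ∀ i, 1 ≤ i → k ≤ 4 ^ i → Tm i = τ
  kill : tr.kap τ a ≤ 4 / pH r
  g2 : ∀ z ≤ a, tr.vv N τ z ≤ 2
  g3 : ∀ z ≤ a, (∑ b ∈ N, tr.x0 τ z b * tr.x1 τ z b) / N.card ≤
    tr.vv N τ z + 10 / pH r + 2 * tr.kap τ z
  bud : BudOK r tr N τ a Tm
  typ : tr.Typ W N (1 / pH r) τ
  right : ∀ l, tr.c a (W l) = true

/-- The allowed set of level `i`. -/
def AA (r : ℕ) (tr : Tr n) (N : Finset (Fin n)) (τ : ℕ) (Tm : ℕ → ℕ) (i w : ℕ) : Prop :=
  τ < w ∧ (Tm i < w ∨ rp r (3 * 4 ^ i) < tr.vv N τ w)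

/-- The measure `Z_i`. -/
noncomputable def ZZ (r : ℕ) (tr : Tr n) (N : Finset (Fin n)) (τ a : ℕ) (Tm : ℕ → ℕ) :
    ℕ → ℕ → ℝ
  | 0, z => if z = a then 1 else 0
  | i + 1, z => tr.st (AA r tr N τ Tm i) a z

/-- Node, presence and weight of a sampled pair `(z, f)`. -/
def sz : Option (ℕ × ℕ) → ℕ
  | none => 0
  | some x => x.1

noncomputable def so : Option (ℕ × ℕ) → ℝ
  | none => 0
  | some _ => 1

noncomputable def sw (tr : Tr n) (b : Fin n) : Option (ℕ × ℕ) → ℝ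
  | none => 0
  | some x => 1 - tr.bt x.2 b

variable {m : ℕ}

noncomputable def qA (tr : Tr n) (τ : ℕ) (s : Fin m → Option (ℕ × ℕ)) (b : Fin n) (w : ℕ) : ℝ :=
  (∑ j, sw tr b (s j) * tr.pi τ (sz (s j)) w) / m

noncomputable def qL (r : ℕ) (tr : Tr n) (N : Finset (Fin n)) (τ : ℕ) (Tm : ℕ → ℕ) (i : ℕ)
    (s : Fin m → Option (ℕ × ℕ)) (b : Fin n) (w : ℕ) : ℝ :=
  (∑ j, sw tr b (s j) * if rp r (3 * 4 ^ i) < tr.vv N τ w
    then tr.gr (AA r tr N τ Tm i) (sz (s j)) w else 0) / m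

noncomputable def pih (tr : Tr n) (τ : ℕ) (s : Fin m → Option (ℕ × ℕ)) (w : ℕ) : ℝ :=
  (∑ j, so (s j) * tr.pi τ (sz (s j)) w) / m

noncomputable def kh (tr : Tr n) (τ : ℕ) (s : Fin m → Option (ℕ × ℕ)) : ℝ :=
  (∑ j, so (s j) * tr.kap τ (sz (s j))) / m

/-- `hat (1 - c f) x^z_t`. -/
noncomputable def Yh (tr : Tr n) (t : ℕ) (s : Fin m → Option (ℕ × ℕ)) (b : Fin n) : ℝ :=
  (∑ j, sw tr b (s j) * tr.x1 t (sz (s j)) b) / m

noncomputable def Gz (tr : Tr n) (A : ℕ → Prop) (z : ℕ) (b : Fin n) : ℝ :=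
  ∑ x ∈ range (z + 1), tr.st A z x * tr.bt x b

noncomputable def Gh (tr : Tr n) (A : ℕ → Prop) (s : Fin m → Option (ℕ × ℕ)) (b : Fin n) : ℝ :=
  (∑ j, sw tr b (s j) * Gz tr A (sz (s j)) b) / m

/-- `∑ Z_i(z) x0^z F(z)`: the mean of `(1 - c f) F z` over pairs of level `i`. -/
noncomputable def EZ (r : ℕ) (tr : Tr n) (N : Finset (Fin n)) (τ a : ℕ) (Tm : ℕ → ℕ) (i : ℕ)
    (b : Fin n) (F : ℕ → ℝ) : ℝ :=
  ∑ z ∈ range (a + 1), ZZ r tr N τ a Tm i z * tr.x0 τ z b * F z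

/-- Squared sampling deviation of the column `b` at level `i`. -/
noncomputable def dev (r : ℕ) (tr : Tr n) (N : Finset (Fin n)) (τ a : ℕ) (Tm : ℕ → ℕ) (i : ℕ)
    (s : Fin m → Option (ℕ × ℕ)) (b : Fin n) : ℝ :=
  (Yh tr (Tm (i - 1)) s b - EZ r tr N τ a Tm i b fun z => tr.x1 (Tm (i - 1)) z b) ^ 2 +
    (Gh tr (AA r tr N τ Tm i) s b - EZ r tr N τ a Tm i b fun z => Gz tr (AA r tr N τ Tm i) z b) ^ 2

/-- Properties of the samples of all levels. -/
structure Smp (r : ℕ) (tr : Tr n) (N : Finset (Fin n)) (W : Fin (pL r) → Fin n) (τ a : ℕ)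
    (Tm : ℕ → ℕ) (s : ℕ → Fin (pN r) → Option (ℕ × ℕ)) : Prop where
  le : ∀ i j x, s i j = some x → x.1 ≤ a ∧ x.2 ≤ τ
  bud1 : ∀ i, ∑ w ∈ Ioc τ (Tm i), pih tr τ (s i) w ^ 2 * tr.VV N w ≤
    4 * (rp r (12 * 4 ^ i) + 2 / pN r)
  bud2 : ∀ i, ∑ w ∈ Ioc τ (Tm (i + 1)), pih tr τ (s i) w ^ 2 * tr.VV N w ≤
    4 * (rp r (12 * 4 ^ (i + 1)) + 2 / pN r)
  kill : ∀ i, kh tr τ (s i) ≤ 16 / pH r
  dev : ∀ i, ∑ l, dev r tr N τ a Tm i (s i) (W l) ≤ 8 * pL r / pN r

/-- A good particle. -/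
structure GoodP (r : ℕ) (tr : Tr n) (N : Finset (Fin n)) (τ a : ℕ) (Tm : ℕ → ℕ)
    (s : ℕ → Fin (pN r) → Option (ℕ × ℕ)) (b : Fin n) : Prop where
  lock : rise tr (Tm 0) a b ≤ 1 / 100
  start : tr.x1 τ a b ≤ 3 / 4
  tau : ∀ i, 4 ^ i ≤ pK r →
    (EZ r tr N τ a Tm (i + 1) b fun z => tr.x1 τ z b) ≤ rp r (2 * 4 ^ i) / 4
  dev : ∀ i ≤ pK r, dev r tr N τ a Tm i (s i) b ≤ (rp r (2 * pK r) / 16) ^ 2

/-- Kinds of episodes: 0 alpha, 1 late linear, 2 late harvest, 3 early linear, 4 early harvest. -/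
def lTy (κ : Fin 5) : Ty := ![.A, .L, .H, .L, .H] κ
def lLo (τ : ℕ) (Tm : ℕ → ℕ) (κ : Fin 5) (i : ℕ) : ℕ := ![Tm i, Tm (i + 1), Tm (i + 1), τ, τ] κ
def lHi (Tm : ℕ → ℕ) (κ : Fin 5) (i : ℕ) : ℕ :=
  ![Tm (i - 1), Tm i, Tm i, Tm (i + 1), Tm (i + 1)] κ
noncomputable def lLam (r : ℕ) (κ : Fin 5) (i : ℕ) : ℝ :=
  ![2 * rp r (2 * 4 ^ (i - 1)), rp r (2 * 4 ^ i), 1, rp r (15 * 4 ^ i), 1] κ
def lLen (k : ℕ) (κ : Fin 5) (i : ℕ) : ℕ := ![4 ^ i, 4 ^ (i + 1), 4 ^ (i + 1), k, k] κ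
/-- The gain an episode must reach. -/
noncomputable def lTarget (r k : ℕ) (κ : Fin 5) (i : ℕ) : ℝ :=
  cA / 8 * lLen k κ i * Real.log r + 2 * (i + 4)

/-- The weight function of an episode; `w0` is only used by the kinds 2 and 4. -/
noncomputable def lQ (r : ℕ) (tr : Tr n) (N : Finset (Fin n)) (τ : ℕ) (Tm : ℕ → ℕ)
    (s : Fin m → Option (ℕ × ℕ)) (w0 : ℕ) (κ : Fin 5) (i : ℕ) (b : Fin n) : ℕ → ℝ :=
  ![qA tr τ s b, qL r tr N τ Tm i s b, tr.pi τ w0, qL r tr N τ Tm i s b, tr.pi τ w0] κ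

noncomputable def lGain (r : ℕ) (tr : Tr n) (N : Finset (Fin n)) (τ : ℕ) (Tm : ℕ → ℕ)
    (s : Fin m → Option (ℕ × ℕ)) (w0 : ℕ) (κ : Fin 5) (i : ℕ) (b : Fin n) : ℝ :=
  gainOf (lTy κ) (lLam r κ i)
    (tr.XX (lQ r tr N τ Tm s w0 κ i b) b (lLo τ Tm κ i) (lHi Tm κ i))
    (tr.QQ (lQ r tr N τ Tm s w0 κ i b) b (lLo τ Tm κ i) (lHi Tm κ i))

/-- The output of the dichotomy for one window and one scale. -/
structure Loc (r : ℕ) (tr : Tr n) (N : Finset (Fin n)) (W : Fin (pL r) → Fin n) (τ a k : ℕ)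
    (Tm : ℕ → ℕ) (s : ℕ → Fin (pN r) → Option (ℕ × ℕ)) (lab : Fin (pL r) → Option (Fin 5 × ℕ)) :
    Prop where
  le : ∀ i j x, s i j = some x → x.1 ≤ a ∧ x.2 ≤ τ
  few : ((univ.filter fun l => lab l = none).card : ℝ) ≤ 68 / 100 * pL r + nbad tr W (Tm 0) a
  lev : ∀ l κ i, lab l = some (κ, i) → i ≤ pK r ∧ 1 / (pH r : ℝ) ≤ lLam r κ i ∧ (κ = 0 → 1 ≤ i)
  cond : ∀ l κ i w0, lab l = some (κ, i) → Cond tr (lQ r tr N τ Tm (s i) w0 κ i (W l)) (W l)
    (lLo τ Tm κ i) (lHi Tm κ i) (lLam r κ i) (lTy κ)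
  gain : ∀ κ i (C : Finset (Fin (pL r))), (∀ l ∈ C, lab l = some (κ, i)) →
    ∃ w0 ≤ a, C.card * lTarget r k κ i ≤ ∑ l ∈ C, lGain r tr N τ Tm (s i) w0 κ i (W l)

/-- The three alternatives for a good particle at level `i`. -/
def Alt (r : ℕ) (tr : Tr n) (N : Finset (Fin n)) (τ k : ℕ) (Tm : ℕ → ℕ)
    (s : Fin m → Option (ℕ × ℕ)) (i : ℕ) (b : Fin n) : Prop :=
  (1 ≤ i ∧ 4 ^ (i - 1) ≤ pK r ∧ Yh tr (Tm i) s b + kh tr τ s ≤ 2 * rp r (2 * 4 ^ (i - 1)) ∧
    rp r (4 ^ (i - 1)) / 2 ≤ Yh tr (Tm (i - 1)) s b) ∨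
  (4 ^ i ≤ pK r ∧ rp r (4 ^ i) ≤ tr.XX (qL r tr N τ Tm i s b) b (Tm (i + 1)) (Tm i)) ∨
  (4 ^ (i + 1) < k ∧ rp r (4 ^ i) ≤ tr.XX (qL r tr N τ Tm i s b) b τ (Tm (i + 1)))

theorem par_realize : True := by
  have := @ZZ.eq_1
  have := @ZZ.eq_2
  have := @sz.eq_1
  have := @sz.eq_2
  have := @so.eq_1
  have := @so.eq_2
  have := @sw.eq_1
  have := @sw.eq_2
  trivial

end Pool.Agent.P.MP_5c258a_lc.Bin
end

-- part Pool.Agent.P.MP_5c258a_lc.Bin.Avg
section

/-! Task AVG: budgets and the choice of `d j k` (paper section 4, BUDGETS). -/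

namespace Pool.Agent.P.MP_5c258a_lc.Bin

open Finset Classical

variable {n : ℕ}

lemma avg_pR {r : ℕ} (hr : 2 ≤ r) : 16 ≤ pR r :=
  le_trans (by norm_num) (Nat.pow_le_pow_left hr 20)

lemma avg_pH {r : ℕ} (hr : 2 ≤ r) : 16 ≤ pH r := by
  have h1 := avg_pR hr
  calc 16 ≤ pR r := h1
    _ = pR r ^ 1 := (pow_one _).symm
    _ ≤ pR r ^ (pK r + 1) := Nat.pow_le_pow_right (by omega) (by omega)

lemma avg_ph_le {r k : ℕ} (hr : 2 ≤ r) (hk : 1 ≤ k) : ph r k ≤ pR r ^ k := by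
  rw [← pS_mul_ph hk]
  exact Nat.le_mul_of_pos_left _ (Nat.pow_pos (by omega))

lemma avg_ph_succ {r k : ℕ} (hr : 2 ≤ r) : 3 * pR r ^ k ≤ ph r (k + 1) := by
  have h1 : 3 ≤ r ^ 2 := le_trans (by norm_num) (Nat.pow_le_pow_left hr 2)
  rw [ph, Nat.add_sub_cancel, mul_comm]
  exact Nat.mul_le_mul_left _ h1

lemma avg_len {r k e : ℕ} (hr : 2 ≤ r) (he : 1 ≤ e) (hk : e < k) :
    2 * pR r ^ (k - e) ≤ pR r ^ k := by
  have h1 := avg_pR hr
  have h2 : pR r ^ (k - e) ≤ pR r ^ (k - 1) := Nat.pow_le_pow_right (by omega) (by omega)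
  have h3 : pR r ^ k = pR r ^ (k - 1) * pR r := by rw [← pow_succ]; congr 1; omega
  have h4 := Nat.mul_le_mul_left (pR r ^ (k - 1)) h1
  omega

lemma avg_delta {r T' : ℕ} (hr : 2 ≤ r) (h : T' ≤ pH r ^ 82) :
    ((pH r : ℝ) ^ 83)⁻¹ * T' ≤ 1 / pH r := by
  have h0 : (16 : ℝ) ≤ pH r := by exact_mod_cast avg_pH hr
  have h1 : (T' : ℝ) ≤ (pH r : ℝ) ^ 82 := by exact_mod_cast h
  have h2 : (0 : ℝ) < pH r := by linarith
  calc ((pH r : ℝ) ^ 83)⁻¹ * T' ≤ ((pH r : ℝ) ^ 83)⁻¹ * (pH r : ℝ) ^ 82 := by gcongr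
    _ = 1 / pH r := by field_simp

lemma avg_vv {r : ℕ} (hr : 2 ≤ r) {tr : Tr n} {O N : Finset (Fin n)}
    {col : ℕ → Fin (pL r) → Fin n} {t : ℕ → ℕ} {T T' : ℕ} (h : Blk r tr O N col t T T')
    {j z : ℕ} (hj : j ≤ pH r) (hz : z ≤ t (pH r)) : tr.vv N (t j) z ≤ 2 := by
  have h0 : (16 : ℝ) ≤ pH r := by exact_mod_cast avg_pH hr
  have h1 := h.mono 0 j (by omega) hj
  have h2 := h.fast
  have h3 := Tr.vv_le (τ := t j) (T' := T') h.wf h.good h.Nne (by positivity) (hz.trans h.top)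
    (by omega)
  have h4 := avg_delta hr h.T'_le
  have h5 : 1 / (pH r : ℝ) ≤ 1 / 16 := one_div_le_one_div_of_le (by norm_num) h0
  linarith

theorem ctx_of_blk {r : ℕ} (hr : 2 ≤ r) {tr : Tr n} {O N : Finset (Fin n)}
    {col : ℕ → Fin (pL r) → Fin n} {t : ℕ → ℕ} {T T' : ℕ} (h : Blk r tr O N col t T T')
    {j k d : ℕ} (hj : j < pJ r) (k1 : 1 ≤ k) (kK : k ≤ pK r) (d1 : pR r ^ k ≤ d)
    (d2 : d < 2 * pR r ^ k)
    (hb : BudOK r tr N (t j) (t (j + d + ph r k)) (lev r t j k d)) :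
    Ctx r tr N (col j) (t j) (t (j + d + ph r k)) k (lev r t j k d) := by
  have hJ := pJ_add hr kK
  have hh := avg_ph_le hr k1
  have hR := avg_pR hr
  have hRk : 0 < pR r ^ k := Nat.pow_pos (by omega)
  have hI : j + d + ph r k ≤ pH r := by omega
  have ha := h.mono _ _ hI le_rfl
  have h0 : (16 : ℝ) ≤ pH r := by exact_mod_cast avg_pH hr
  have hj0 := h.mono 0 j (by omega) (by omega)
  have hf := h.fast
  have hT := h.top
  have hδ := avg_delta hr h.T'_le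
  have h4 : ∀ i : ℕ, 1 ≤ 4 ^ i := fun i => Nat.pow_pos (by norm_num)
  have hlo : ∀ i, t j ≤ lev r t j k d i := by
    intro i
    unfold lev
    split_ifs with h1 h2
    · exact h.mono _ _ (by omega) (by omega)
    · exact le_rfl
    · have := avg_len hr (h4 i) (not_le.1 h2)
      exact h.mono _ _ (by omega) (by omega)
  refine ⟨h.wf, k1, kK, ?_, hlo, ?_, ?_, ?_, ?_, ?_, hb, h.typ j (by omega),
    h.rightW _ hI j (by omega)⟩
  · refine antitone_nat_of_succ_le fun i => ?_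
    by_cases h2 : k ≤ 4 ^ (i + 1)
    · refine le_trans (le_of_eq ?_) (hlo i)
      rw [lev, if_neg (by omega), if_pos h2]
    have h3 := avg_len hr (h4 (i + 1)) (not_le.1 h2)
    have h5 : 4 ^ i ≤ 4 ^ (i + 1) := Nat.pow_le_pow_right (by norm_num) (by omega)
    rw [lev, if_neg (by omega), if_neg h2, lev]
    split_ifs with h6 h7
    · exact h.mono _ _ (by omega) (by omega)
    · omega
    · have h8 := avg_len hr (h4 i) (not_le.1 h7)
      have h9 : pR r ^ (k - 4 ^ (i + 1)) ≤ pR r ^ (k - 4 ^ i) :=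
        Nat.pow_le_pow_right (by omega) (by omega)
      exact h.mono _ _ (by omega) (by omega)
  · rw [lev, if_pos rfl]
    exact h.mono _ _ (by omega) hI
  · intro i h1 h2
    rw [lev, if_neg (by omega), if_pos h2]
  · have h1 : ((pH r : ℝ) ^ 83)⁻¹ ≤ 1 / 4 := by
      rw [one_div]
      refine inv_anti₀ (by norm_num) (le_trans (by linarith) (le_self_pow₀ (by linarith) (by norm_num)))
    have h2 := Tr.kill_bound (τ := t j) (T' := T') h.wf h.good h.norm h.One (by positivity) h1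
      (ha.trans hT) (by omega) (h.rightO _ hI)
    have h3 : 4 / (pH r : ℝ) = 4 * (1 / pH r) := by ring
    linarith
  · exact fun z hz => avg_vv hr h (by omega) (hz.trans ha)
  · intro z hz
    have h2 := Tr.low_v (τ := t j) (T' := T') (z := z) h.wf h.good h.Nne (by positivity)
      (by omega) (by omega)
    have h3 : 10 / (pH r : ℝ) = 10 * (1 / pH r) := by ring
    linarith

/-- Cumulative budget of the target `t I` up to the time `t m`. -/
noncomputable def avgG (tr : Tr n) (N : Finset (Fin n)) (t : ℕ → ℕ) (I m : ℕ) : ℝ :=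
  ∑ w ∈ Ioc (t 0) (t m), tr.pi (t 0) (t I) w ^ 2 * tr.VV N w

lemma avgG_nonneg {tr : Tr n} (h : tr.WF) (N : Finset (Fin n)) (t : ℕ → ℕ) (I m : ℕ) :
    0 ≤ avgG tr N t I m :=
  sum_nonneg fun w _ => mul_nonneg (sq_nonneg _) (Tr.VV_nonneg h N w)

lemma avgG_mono {tr : Tr n} (h : tr.WF) (N : Finset (Fin n)) {t : ℕ → ℕ} (I : ℕ) {m m' : ℕ}
    (hm : t m ≤ t m') : avgG tr N t I m ≤ avgG tr N t I m' :=
  sum_le_sum_of_subset_of_nonneg (Ioc_subset_Ioc_right hm)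
    fun w _ _ => mul_nonneg (sq_nonneg _) (Tr.VV_nonneg h N w)

lemma avgG_sub (tr : Tr n) (N : Finset (Fin n)) {t : ℕ → ℕ} (I : ℕ) {j m : ℕ}
    (h0 : t 0 ≤ t j) (hm : t j ≤ t m) :
    ∑ w ∈ Ioc (t j) (t m), tr.pi (t j) (t I) w ^ 2 * tr.VV N w =
      avgG tr N t I m - avgG tr N t I j := by
  rw [avgG, avgG, ← sum_Ioc_consecutive _ h0 hm, add_sub_cancel_left]
  refine sum_congr rfl fun w hw => ?_
  rw [Tr.pi_congr tr h0 _ (mem_Ioc.1 hw).1.le]

lemma avgG_le {r : ℕ} (hr : 2 ≤ r) {tr : Tr n} {O N : Finset (Fin n)}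
    {col : ℕ → Fin (pL r) → Fin n} {t : ℕ → ℕ} {T T' : ℕ} (h : Blk r tr O N col t T T')
    {I : ℕ} (hI : I ≤ pH r) (m : ℕ) : avgG tr N t I m ≤ 2 := by
  refine le_trans ?_ (avg_vv hr h (j := 0) (by omega) (h.mono _ _ hI le_rfl))
  rcases le_total (t m) (t I) with h1 | h1
  · exact avgG_mono h.wf N I h1
  · refine (sum_subset (Ioc_subset_Ioc_right h1) fun w h2 h3 => ?_).ge
    rw [mem_Ioc] at h2 h3
    rw [Tr.pi_of_lt tr _ (show t I < w by omega)]
    simp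

lemma avg_tele (g : ℕ → ℝ) (h0 : ∀ m, 0 ≤ g m) (h2 : ∀ m, g m ≤ 2) (J l : ℕ) :
    ∑ j ∈ range J, (g (j + l) - g j) ≤ 2 * l := by
  have e1 := sum_range_add g J l
  have e2 := sum_range_add g l J
  rw [add_comm l J] at e2
  have e3 : ∑ j ∈ range l, g (J + j) ≤ ∑ _j ∈ range l, (2 : ℝ) := sum_le_sum fun j _ => h2 _
  have e4 : 0 ≤ ∑ j ∈ range l, g j := sum_nonneg fun j _ => h0 _
  have e5 : ∑ j ∈ range J, g (j + l) = ∑ j ∈ range J, g (l + j) :=
    sum_congr rfl fun j _ => by rw [add_comm]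
  simp only [sum_const, card_range, nsmul_eq_mul] at e3
  rw [sum_sub_distrib]
  linarith

lemma avg_shift (F : ℕ → ℝ) (H c : ℕ) (h0 : ∀ I ≤ H, 0 ≤ F I) (s : Finset ℕ)
    (hs : ∀ x ∈ s, x + c ≤ H) : ∑ x ∈ s, F (x + c) ≤ ∑ I ∈ range (H + 1), F I := by
  have e : ∑ x ∈ s, F (x + c) = ∑ y ∈ s.map (addRightEmbedding c), F y := by
    rw [sum_map]; rfl
  rw [e]
  refine sum_le_sum_of_subset_of_nonneg (fun y hy => ?_)
    fun I hI _ => h0 I (by have := mem_range.1 hI; omega)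
  obtain ⟨x, hx, rfl⟩ := mem_map.1 hy
  have := hs x hx
  exact mem_range.2 (by simp only [addRightEmbedding_apply]; omega)

/-- The budget of the ring of scale `k` below the target `I`. -/
noncomputable def avgE (r : ℕ) (tr : Tr n) (N : Finset (Fin n)) (t : ℕ → ℕ) (k I : ℕ) : ℝ :=
  avgG tr N t I (I - ph r k) - avgG tr N t I (I - ph r (k + 1))

/-- The cost of the choice `d`. -/
noncomputable def avgC (r : ℕ) (tr : Tr n) (N : Finset (Fin n)) (col : ℕ → Fin (pL r) → Fin n)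
    (t : ℕ → ℕ) (j k d : ℕ) : ℝ :=
  if BudOK r tr N (t j) (t (j + d + ph r k)) (lev r t j k d)
    then (nbad tr (col j) (t (j + d)) (t (j + d + ph r k)) : ℝ) else pL r

lemma avgE_nonneg {r : ℕ} (hr : 2 ≤ r) {tr : Tr n} {O N : Finset (Fin n)}
    {col : ℕ → Fin (pL r) → Fin n} {t : ℕ → ℕ} {T T' : ℕ} (h : Blk r tr O N col t T T')
    {k I : ℕ} (k1 : 1 ≤ k) (hI : I ≤ pH r) : 0 ≤ avgE r tr N t k I := by
  have h1 := avg_ph_le hr k1
  have h2 := avg_ph_succ (k := k) hr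
  exact sub_nonneg.2 (avgG_mono h.wf N I (h.mono _ _ (by omega) (by omega)))

lemma avgC_le {r : ℕ} (hr : 2 ≤ r) {tr : Tr n} {O N : Finset (Fin n)}
    {col : ℕ → Fin (pL r) → Fin n} {t : ℕ → ℕ} {T T' : ℕ} (h : Blk r tr O N col t T T')
    {j k d : ℕ} (hj : j < pJ r) (k1 : 1 ≤ k) (kK : k ≤ pK r)
    (d2 : d < 2 * pR r ^ k) :
    avgC r tr N col t j k d ≤ nbad tr (col j) (t (j + d)) (t (j + d + ph r k)) +
      pL r * ((r : ℝ) ^ 12 * avgE r tr N t k (j + d + ph r k) +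
        ∑ i ∈ (range k).filter fun i => 1 ≤ i ∧ 4 ^ i < k, (r : ℝ) ^ (12 * 4 ^ i) *
          (avgG tr N t (j + d + ph r k) (j + 2 * pR r ^ (k - 4 ^ i)) -
            avgG tr N t (j + d + ph r k) j)) := by
  have hJ := pJ_add hr kK
  have hh := avg_ph_le hr k1
  have hs := avg_ph_succ (k := k) hr
  have hI : j + d + ph r k ≤ pH r := by omega
  have hj0 := h.mono 0 j (by omega) (by omega)
  have h4 : ∀ i : ℕ, 1 ≤ 4 ^ i := fun i => Nat.pow_pos (by norm_num)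
  have hE := avgE_nonneg hr h k1 hI
  have hr0 : 0 < r := by omega
  have hS : ∀ i ∈ (range k).filter fun i => 1 ≤ i ∧ 4 ^ i < k, 0 ≤ (r : ℝ) ^ (12 * 4 ^ i) *
      (avgG tr N t (j + d + ph r k) (j + 2 * pR r ^ (k - 4 ^ i)) -
        avgG tr N t (j + d + ph r k) j) := by
    intro i hi
    have := avg_len hr (h4 i) (mem_filter.1 hi).2.2
    exact mul_nonneg (by positivity)
      (sub_nonneg.2 (avgG_mono h.wf N _ (h.mono _ _ (by omega) (by omega))))
  have hS0 := sum_nonneg hS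
  have hE0 : 0 ≤ (r : ℝ) ^ 12 * avgE r tr N t k (j + d + ph r k) := by positivity
  unfold avgC
  split_ifs with hb
  · exact le_add_of_nonneg_right (by positivity)
  refine le_add_of_nonneg_of_le (by positivity) (le_mul_of_one_le_right (by positivity) ?_)
  unfold BudOK at hb
  push Not at hb
  obtain ⟨i, hi⟩ := hb
  have hm := rp_mul_pow hr0 (12 * 4 ^ i)
  have hp : (0 : ℝ) < (r : ℝ) ^ (12 * 4 ^ i) := by positivity
  unfold lev at hi
  split_ifs at hi with h1 h2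
  · subst h1
    rw [avgG_sub tr N _ hj0 (h.mono _ _ (by omega) (by omega))] at hi
    have h3 : avgG tr N t (j + d + ph r k) (j + d + ph r k - ph r (k + 1)) ≤
        avgG tr N t (j + d + ph r k) j := avgG_mono h.wf N _ (h.mono _ _ (by omega) (by omega))
    have h5 : rp r (12 * 4 ^ 0) ≤ avgE r tr N t k (j + d + ph r k) := by
      rw [avgE, Nat.add_sub_cancel]; linarith
    have h6 := mul_le_mul_of_nonneg_left h5 hp.le
    simp only [pow_zero, mul_one] at h6 hm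
    linarith
  · rw [Ioc_self, sum_empty] at hi
    exact absurd hi (rp_pos hr0 _).not_gt
  · have h3 := avg_len hr (h4 i) (not_le.1 h2)
    rw [avgG_sub tr N _ hj0 (h.mono _ _ (by omega) (by omega))] at hi
    have h5 : i < 4 ^ i := Nat.lt_pow_self (by norm_num)
    have h6 := single_le_sum hS (a := i) (mem_filter.2 ⟨mem_range.2 (by omega), by omega, by omega⟩)
    have h7 := mul_le_mul_of_nonneg_left hi.le hp.le
    linarith

lemma avg_pow {r k e : ℕ} (hr : 2 ≤ r) (he : 4 ≤ e) (hk : e < k) :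
    r ^ (12 * e) * pR r ^ (k - e) * r ^ 14 ≤ pR r ^ k := by
  rw [pR, ← pow_mul, ← pow_mul, ← pow_add, ← pow_add]
  exact Nat.pow_le_pow_right (by omega) (by omega)

/-- The total cost of one scale. -/
lemma avgC_sum {r : ℕ} (hr : 2 ≤ r) {tr : Tr n} {O N : Finset (Fin n)}
    {col : ℕ → Fin (pL r) → Fin n} {t : ℕ → ℕ} {T T' : ℕ} (h : Blk r tr O N col t T T')
    {k : ℕ} (k1 : 1 ≤ k) (kK : k ≤ pK r) (hl : LockOK r tr col t k) :
    ∑ j ∈ range (pJ r), ∑ d ∈ Ico (pR r ^ k) (2 * pR r ^ k), avgC r tr N col t j k d ≤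
      (pR r : ℝ) ^ k * (pL r * (pJ r / r + (r : ℝ) ^ 12 *
        ∑ I ∈ range (pH r + 1), avgE r tr N t k I + 4 * (pH r + 1) / r)) := by
  have hJ := pJ_add hr kK
  have hh := avg_ph_le hr k1
  have hr0 : (0 : ℝ) < r := by exact_mod_cast (by omega : 0 < r)
  have h4 : ∀ i : ℕ, 1 ≤ 4 ^ i := fun i => Nat.pow_pos (by norm_num)
  refine le_trans (sum_le_sum fun j hj => sum_le_sum fun d hd =>
    avgC_le hr h (mem_range.1 hj) k1 kK (mem_Ico.1 hd).2) ?_
  unfold LockOK at hl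
  push_cast at hl
  have hb : ∑ j ∈ range (pJ r), ∑ d ∈ Ico (pR r ^ k) (2 * pR r ^ k),
      avgE r tr N t k (j + d + ph r k) ≤
      (pR r : ℝ) ^ k * ∑ I ∈ range (pH r + 1), avgE r tr N t k I := by
    rw [sum_comm]
    refine le_trans (sum_le_card_nsmul _ _ (∑ I ∈ range (pH r + 1), avgE r tr N t k I)
      fun d hd => ?_) (le_of_eq ?_)
    · simp only [add_assoc]
      refine avg_shift _ _ _ (fun I hI => avgE_nonneg hr h k1 hI) _ fun j hj => ?_
      have := mem_range.1 hj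
      have := mem_Ico.1 hd
      omega
    · rw [Nat.card_Ico, nsmul_eq_mul, show 2 * pR r ^ k - pR r ^ k = pR r ^ k by omega]
      push_cast; rfl
  have hc : ∀ i ∈ (range k).filter fun i => 1 ≤ i ∧ 4 ^ i < k,
      ∑ j ∈ range (pJ r), ∑ d ∈ Ico (pR r ^ k) (2 * pR r ^ k), (r : ℝ) ^ (12 * 4 ^ i) *
        (avgG tr N t (j + d + ph r k) (j + 2 * pR r ^ (k - 4 ^ i)) -
          avgG tr N t (j + d + ph r k) j) ≤ (pR r : ℝ) ^ k * (4 * (pH r + 1) / r ^ 14) := by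
    intro i hi
    obtain ⟨-, i1, i2⟩ := mem_filter.1 hi
    have h1 := avg_len hr (h4 i) i2
    have h2 : ∑ j ∈ range (pJ r), ∑ d ∈ Ico (pR r ^ k) (2 * pR r ^ k),
        (avgG tr N t (j + d + ph r k) (j + 2 * pR r ^ (k - 4 ^ i)) -
          avgG tr N t (j + d + ph r k) j) ≤
        (pH r + 1) * (2 * ((2 * pR r ^ (k - 4 ^ i) : ℕ) : ℝ)) := by
      refine le_trans (sum_le_sum (g := fun j => ∑ I ∈ range (pH r + 1),
        (avgG tr N t I (j + 2 * pR r ^ (k - 4 ^ i)) - avgG tr N t I j)) fun j hj => ?_) ?_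
      · have hj' := mem_range.1 hj
        have e : ∀ d, j + d + ph r k = d + (j + ph r k) := fun d => by omega
        simp only [e]
        refine avg_shift (fun I => avgG tr N t I (j + 2 * pR r ^ (k - 4 ^ i)) - avgG tr N t I j)
          _ _ (fun I _ => sub_nonneg.2 (avgG_mono h.wf N _ (h.mono _ _ (by omega) (by omega))))
          _ fun d hd => ?_
        have := mem_Ico.1 hd
        omega
      · rw [sum_comm]
        refine le_trans (sum_le_card_nsmul _ _ (2 * ((2 * pR r ^ (k - 4 ^ i) : ℕ) : ℝ))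
          fun I hI => avg_tele _ (avgG_nonneg h.wf N t I)
            (avgG_le hr h (by have := mem_range.1 hI; omega)) _ _) (le_of_eq ?_)
        rw [card_range, nsmul_eq_mul]
        push_cast; rfl
    have h3 : (r : ℝ) ^ (12 * 4 ^ i) * (pR r : ℝ) ^ (k - 4 ^ i) * r ^ 14 ≤ (pR r : ℝ) ^ k := by
      exact_mod_cast avg_pow hr
        (le_trans (by norm_num) (Nat.pow_le_pow_right (by norm_num : 0 < 4) i1)) i2
    simp only [← mul_sum]
    refine le_trans (mul_le_mul_of_nonneg_left h2 (by positivity)) ?_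
    push_cast
    rw [← mul_div_assoc, le_div_iff₀ (by positivity)]
    have h5 : (0 : ℝ) ≤ 4 * (pH r + 1) := by positivity
    have h6 := mul_le_mul_of_nonneg_right h3 h5
    linarith
  have hd := sum_le_card_nsmul _ _ _ hc
  have hk : (((range k).filter fun i => 1 ≤ i ∧ 4 ^ i < k).card : ℝ) ≤ (r : ℝ) ^ 13 := by
    have : ((range k).filter fun i => 1 ≤ i ∧ 4 ^ i < k).card ≤ r ^ 13 :=
      le_trans (card_filter_le _ _) (by rw [card_range]; exact kK)
    exact_mod_cast this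
  rw [nsmul_eq_mul] at hd
  have he : (r : ℝ) ^ 13 * ((pR r : ℝ) ^ k * (4 * (pH r + 1) / r ^ 14)) =
      (pR r : ℝ) ^ k * (4 * (pH r + 1) / r) := by field_simp
  have hf := hd.trans ((mul_le_mul_of_nonneg_right hk (by positivity)).trans he.le)
  rw [sum_comm] at hf
  rw [sum_congr rfl fun j _ => sum_comm] at hf
  simp only [sum_add_distrib, ← mul_sum]
  have hL : (0 : ℝ) ≤ pL r := by positivity
  have h7 := mul_le_mul_of_nonneg_left hb (show (0 : ℝ) ≤ (r : ℝ) ^ 12 by positivity)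
  have h8 := mul_le_mul_of_nonneg_left (add_le_add h7 hf) hL
  have h9 : (pJ r : ℝ) * pL r * pR r ^ k / r = (pR r : ℝ) ^ k * (pL r * (pJ r / r)) := by ring
  linarith

lemma avgE_sum {r : ℕ} (hr : 2 ≤ r) {tr : Tr n} {O N : Finset (Fin n)}
    {col : ℕ → Fin (pL r) → Fin n} {t : ℕ → ℕ} {T T' : ℕ} (h : Blk r tr O N col t T T')
    {I : ℕ} (hI : I ≤ pH r) (K : ℕ) : ∑ k ∈ Icc 1 K, avgE r tr N t k I ≤ 2 := by
  have e : ∀ K, ∑ k ∈ Icc 1 K, avgE r tr N t k I =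
      avgG tr N t I (I - ph r 1) - avgG tr N t I (I - ph r (K + 1)) := by
    intro K
    induction K with
    | zero => simp
    | succ K ih => rw [sum_Icc_succ_top (by omega), ih, avgE]; ring
  have h1 := avgG_le hr h hI (I - ph r 1)
  have h2 := avgG_nonneg h.wf N t I (I - ph r (K + 1))
  rw [e]; linarith

theorem choose_d : ∃ r0 : ℕ, ∀ r ≥ r0, ∀ {n : ℕ} {tr : Tr n} {O N : Finset (Fin n)}
    {col : ℕ → Fin (pL r) → Fin n} {t : ℕ → ℕ} {T T' : ℕ}, Blk r tr O N col t T T' →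
    (∀ k, 1 ≤ k → k ≤ pK r → LockOK r tr col t k) →
    ∃ d : ℕ → ℕ → ℕ, (∀ j k, pR r ^ k ≤ d j k ∧ d j k < 2 * pR r ^ k) ∧
      ∑ j ∈ range (pJ r), ∑ k ∈ Icc 1 (pK r),
        (if BudOK r tr N (t j) (t (j + d j k + ph r k)) (lev r t j k (d j k))
          then (nbad tr (col j) (t (j + d j k)) (t (j + d j k + ph r k)) : ℝ) else pL r) ≤
        1 / 100 * pJ r * pK r * pL r := by
  refine ⟨1900, fun r hr0 n tr O N col t T T' h hl => ?_⟩
  have hr : 2 ≤ r := by omega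
  have hR := avg_pR hr
  have hRk : ∀ k, 0 < pR r ^ k := fun k => Nat.pow_pos (by omega)
  have hch : ∀ j k, ∃ d ∈ Ico (pR r ^ k) (2 * pR r ^ k),
      ∀ d' ∈ Ico (pR r ^ k) (2 * pR r ^ k), avgC r tr N col t j k d ≤ avgC r tr N col t j k d' :=
    fun j k => exists_min_image _ _ (nonempty_Ico.2 (by have := hRk k; omega))
  choose d hd hmin using hch
  refine ⟨d, fun j k => mem_Ico.1 (hd j k), ?_⟩
  change ∑ j ∈ range (pJ r), ∑ k ∈ Icc 1 (pK r), avgC r tr N col t j k (d j k) ≤ _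
  have hρ : (1900 : ℝ) ≤ r := by exact_mod_cast hr0
  have h1 : ∀ k ∈ Icc 1 (pK r), ∑ j ∈ range (pJ r), avgC r tr N col t j k (d j k) ≤
      pL r * (pJ r / r + (r : ℝ) ^ 12 *
        ∑ I ∈ range (pH r + 1), avgE r tr N t k I + 4 * (pH r + 1) / r) := by
    intro k hk
    obtain ⟨k1, kK⟩ := mem_Icc.1 hk
    have h2 : (0 : ℝ) < (pR r : ℝ) ^ k := by exact_mod_cast hRk k
    refine le_of_mul_le_mul_left (le_trans ?_ (avgC_sum hr h k1 kK (hl k k1 kK))) h2
    rw [mul_sum]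
    refine sum_le_sum fun j _ => le_trans (le_of_eq ?_) (card_nsmul_le_sum _ _ _ (hmin j k))
    rw [Nat.card_Ico, nsmul_eq_mul, show 2 * pR r ^ k - pR r ^ k = pR r ^ k by omega]
    push_cast; rfl
  have h3 : ∑ k ∈ Icc 1 (pK r), ∑ I ∈ range (pH r + 1), avgE r tr N t k I ≤ (pH r + 1) * 2 := by
    rw [sum_comm]
    refine le_trans (sum_le_card_nsmul _ _ 2 fun I hI =>
      avgE_sum hr h (by have := mem_range.1 hI; omega) _) (le_of_eq ?_)
    rw [card_range, nsmul_eq_mul]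
    push_cast; rfl
  have h4 : (pH r : ℝ) + 1 ≤ 3 * pJ r := by
    have h5 := avg_pH hr
    have : pH r + 1 ≤ 3 * pJ r := by unfold pJ; omega
    exact_mod_cast this
  rw [sum_comm]
  refine (sum_le_sum h1).trans ?_
  simp only [sum_add_distrib, ← mul_sum, sum_const, Nat.card_Icc, Nat.add_sub_cancel,
    nsmul_eq_mul]
  have hK : (pK r : ℝ) = (r : ℝ) ^ 12 * r := by rw [pK]; push_cast; ring
  have hJ : (0 : ℝ) ≤ pJ r := by positivity
  have h12 : (0 : ℝ) < (r : ℝ) ^ 12 := by positivity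
  have e1 : (pK r : ℝ) * (pJ r / r) = (r : ℝ) ^ 12 * pJ r := by rw [hK]; field_simp
  have e2 : (pK r : ℝ) * (4 * (pH r + 1) / r) = (r : ℝ) ^ 12 * (4 * (pH r + 1)) := by
    rw [hK]; field_simp
  have e3 : 1 / 100 * (pJ r : ℝ) * pK r * pL r = pL r * ((r : ℝ) ^ 12 * (pJ r * (r / 100))) := by
    rw [hK]; ring
  rw [e1, e2, e3, ← mul_add, ← mul_add]
  refine mul_le_mul_of_nonneg_left (mul_le_mul_of_nonneg_left ?_ h12.le) (by positivity)
  have h6 := mul_le_mul_of_nonneg_left (show (19 : ℝ) ≤ r / 100 by linarith) hJ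
  linarith

end Pool.Agent.P.MP_5c258a_lc.Bin
end
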