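import Pool.Agent.K.MP_5c258a_lc.C1

/-! Task MACHG: the factors `GU`, `GD`, invariants, end bounds, and the machine of type L. -/

namespace Pool.Agent.P.MP_5c258a_lc.Bin

namespace MG

lemma psi0 (a : ℝ) : 0 ≤ psi a := by unfold psi; positivity

lemma psi_abs (a : ℝ) : psi a ≤ |a| := by
  unfold psi
  rw [div_le_iff₀ (by positivity), ← sq_abs]
  nlinarith [abs_nonneg a]

lemma psi_mul (a : ℝ) : psi a * (1 + |a|) = a ^ 2 := by
  unfold psi; field_simp

lemma fac_pos {a : ℝ} (h : -1 / 2 ≤ a) : 0 < 1 + a / 2 - psi a / 16 := by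
  have := psi_abs a
  rcases abs_cases a with h1 | h1 <;> linarith [h1.1]

lemma side {vt p : ℝ} (ha : -1 / 2 ≤ vt * (1 - p)) (hb : -1 / 2 ≤ vt * (0 - p)) (x : Bool) :
    -1 / 2 ≤ vt * (bR x - p) := by
  cases x
  · simpa [bR] using hb
  · simpa [bR] using ha

lemma abs_xi {p : ℝ} (h0 : 0 ≤ p) (h1 : p ≤ 1) (x : Bool) : |bR x - p| ≤ 1 := by
  cases x <;> simp only [bR] <;> rw [abs_le] <;> constructor <;> simp <;> linarith

lemma bR0 (x : Bool) : 0 ≤ bR x := by cases x <;> simp [bR]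

lemma log_fac {a : ℝ} (h : -1 / 2 ≤ a) :
    Real.log (1 + a) / 2 + Real.log (1 + a ^ 2) / 64 ≤ Real.log (1 + a / 2 - psi a / 16) := by
  have h1 : 0 < 1 + a := by linarith
  obtain ⟨y, hy⟩ : ∃ y, y = a ^ 2 / (8 * (1 + a)) := ⟨_, rfl⟩
  have y0 : 0 ≤ y := by rw [hy]; positivity
  have y1 : y * (1 + a) = a ^ 2 / 8 := by rw [hy]; field_simp
  have k1 : (1 + a) * (1 + y) ≤ (1 + a / 2 - psi a / 16) ^ 2 := by
    have := psi0 a
    have e := psi_mul a
    have : psi a * (1 + a / 2) ≤ a ^ 2 := by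
      rw [← e]
      exact mul_le_mul_of_nonneg_left (by linarith [le_abs_self a, abs_nonneg a]) this
    nlinarith [sq_nonneg (psi a)]
  have k2 : 1 + a ^ 2 ≤ (1 + y) ^ 32 := by
    have b1 : 1 + (16 : ℕ) * y ≤ (1 + y) ^ 16 := one_add_mul_le_pow (by linarith) 16
    have b2 : (1 + 16 * y) ^ 2 ≤ ((1 + y) ^ 16) ^ 2 :=
      pow_le_pow_left₀ (by positivity) (by exact_mod_cast b1) 2
    rw [← pow_mul] at b2
    refine le_trans ?_ b2
    have : a ^ 2 * (1 + a) ^ 2 ≤ (32 * y + 256 * y ^ 2) * (1 + a) ^ 2 := by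
      have : (32 * y + 256 * y ^ 2) * (1 + a) ^ 2 =
          32 * (y * (1 + a)) * (1 + a) + 256 * (y * (1 + a)) ^ 2 := by ring
      rw [this, y1]
      nlinarith [mul_nonneg (sq_nonneg a) (show 0 ≤ 3 + 2 * a + 3 * a ^ 2 by nlinarith)]
    have := le_of_mul_le_mul_right this (by positivity)
    nlinarith
  have l1 := Real.log_le_log (by positivity) k1
  have l2 := Real.log_le_log (by positivity) k2
  rw [Real.log_mul h1.ne' (by positivity), Real.log_pow] at l1
  rw [Real.log_pow] at l2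
  push_cast at l1 l2
  linarith

lemma log_ge {a : ℝ} (h : 0 < 1 + a) : a / (1 + a) ≤ Real.log (1 + a) := by
  have := Real.one_sub_inv_le_log_of_pos h
  have e : a / (1 + a) = 1 - (1 + a)⁻¹ := by field_simp; ring
  rwa [e]

lemma log_ge' {a : ℝ} (h : -1 / 2 ≤ a) : a - 2 * a ^ 2 ≤ Real.log (1 + a) := by
  refine le_trans ?_ (log_ge (by linarith))
  rw [le_div_iff₀ (by linarith)]
  nlinarith [mul_nonneg (sq_nonneg a) (show 0 ≤ 1 + 2 * a by linarith)]

lemma psi_ge {a v : ℝ} (h : |a| ≤ v) : a ^ 2 / (1 + v) ≤ psi a := by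
  unfold psi
  exact div_le_div_of_nonneg_left (sq_nonneg _) (by positivity) (by linarith)

end MG

open MG

theorem GU_pos (vt : ℝ) {p : ℝ} (h0 : 0 ≤ p) (h1 : p ≤ 1) (x : Bool) : 0 < GU vt p x := by
  unfold GU
  split_ifs with h
  · have := mul_nonneg h0 (psi0 (vt * (1 - p)))
    have := mul_nonneg (sub_nonneg.2 h1) (psi0 (vt * (0 - p)))
    exact mul_pos (fac_pos (side h.1 h.2 x)) (by linarith)
  · exact one_pos

theorem GU_mean (vt : ℝ) {p : ℝ} (_h0 : 0 ≤ p) (_h1 : p ≤ 1) :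
    p * GU vt p true + (1 - p) * GU vt p false ≤ 1 := by
  unfold GU
  split_ifs with h
  · simp only [bR, if_true, Bool.false_eq_true, if_false]
    generalize psi (vt * (1 - p)) = a
    generalize psi (vt * (0 - p)) = b
    nlinarith [sq_nonneg (p * a + (1 - p) * b)]
  · linarith

theorem GD_pos (vt F : ℝ) {p : ℝ} (h0 : 0 ≤ p) (h1 : p ≤ 1) (x : Bool) : 0 < GD vt F p x := by
  unfold GD
  have := mul_nonneg h0 (sub_nonneg.2 h1)
  split_ifs with h h'
  · have k : |vt * (bR x - p)| ≤ 1 / 2 := by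
      rw [abs_mul]; nlinarith [abs_xi h0 h1 x, abs_nonneg vt, abs_nonneg (bR x - p)]
    have : 0 < 1 + vt * (bR x - p) / 2 := by linarith [(abs_le.1 k).1]
    positivity
  · exact one_pos
  · have : 0 < F := by linarith
    have := bR0 x
    positivity

theorem GD_mean (vt F : ℝ) {p : ℝ} (h0 : 0 ≤ p) (h1 : p ≤ 1) :
    p * GD vt F p true + (1 - p) * GD vt F p false ≤ 1 := by
  unfold GD
  have v0 := mul_nonneg h0 (sub_nonneg.2 h1)
  split_ifs with h h'
  · simp only [bR, if_true, Bool.false_eq_true, if_false]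
    rw [← mul_div_assoc, ← mul_div_assoc, ← add_div, div_le_one (by positivity)]
    have k : vt * (1 - 2 * p) ≤ 1 / 2 := by
      have := abs_le.1 h'
      nlinarith
    nlinarith [mul_le_mul_of_nonneg_left k (mul_nonneg (sq_nonneg F) v0)]
  · linarith
  · have : 0 < F := by linarith
    simp only [bR, if_true, Bool.false_eq_true, if_false]
    rw [← mul_div_assoc, ← mul_div_assoc, ← add_div, div_le_one (by positivity)]
    linarith

/-- `(1 + a/2 - psi a/16)^2 ≥ (1 + a)(1 + a^2)^(1/32)` for `a ≥ -1/2`; the mean `m` of `psi` lies in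
`[0, 1]`, `log (1 + m/16) ≥ m/32`, `m ≥ var |vt| min |vt| 1 / 2`. -/
theorem log_GU {vt p : ℝ} (h0 : 0 ≤ p) (h1 : p ≤ 1) (ha : -1 / 2 ≤ vt * (1 - p))
    (hb : -1 / 2 ≤ vt * (0 - p)) (x : Bool) :
    Real.log (1 + vt * (bR x - p)) / 2 + Real.log (1 + (vt * (bR x - p)) ^ 2) / 64 +
      p * (1 - p) * (|vt| * min |vt| 1) / 64 ≤ Real.log (GU vt p x) := by
  have q0 := sub_nonneg.2 h1
  have v0 := mul_nonneg h0 q0
  have w0 := abs_nonneg vt
  have a1 : |vt * (1 - p)| = |vt| * (1 - p) := by rw [abs_mul, abs_of_nonneg q0]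
  have a2 : |vt * (0 - p)| = |vt| * p := by rw [abs_mul, zero_sub, abs_neg, abs_of_nonneg h0]
  obtain ⟨m, hm⟩ : ∃ m, m = p * psi (vt * (1 - p)) + (1 - p) * psi (vt * (0 - p)) := ⟨_, rfl⟩
  have m0 : 0 ≤ m := by
    rw [hm]; exact add_nonneg (mul_nonneg h0 (psi0 _)) (mul_nonneg q0 (psi0 _))
  have m1 : m ≤ 1 := by
    have b1 := mul_le_mul_of_nonneg_left (psi_abs (vt * (1 - p))) h0
    have b2 := mul_le_mul_of_nonneg_left (psi_abs (vt * (0 - p))) q0
    rw [a1] at b1
    rw [a2] at b2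
    have : |vt| * (p * (1 - p)) ≤ 1 / 2 := by
      rcases abs_cases vt with h | h <;> rw [h.1] <;> nlinarith
    nlinarith
  have m2 : p * (1 - p) * (|vt| * min |vt| 1) / 2 ≤ m := by
    have b1 := mul_le_mul_of_nonneg_left
      (psi_ge (a := vt * (1 - p)) (v := |vt|) (by rw [a1]; nlinarith)) h0
    have b2 := mul_le_mul_of_nonneg_left
      (psi_ge (a := vt * (0 - p)) (v := |vt|) (by rw [a2]; nlinarith)) q0
    have e : p * ((vt * (1 - p)) ^ 2 / (1 + |vt|)) + (1 - p) * ((vt * (0 - p)) ^ 2 / (1 + |vt|)) =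
        p * (1 - p) * (|vt| * (|vt| / (1 + |vt|))) := by
      have : vt ^ 2 = |vt| ^ 2 := (sq_abs vt).symm
      rw [mul_pow, mul_pow, this]
      field_simp
      ring
    have k : min |vt| 1 / 2 ≤ |vt| / (1 + |vt|) := by
      rw [div_le_div_iff₀ (by norm_num) (by positivity)]
      rcases min_cases |vt| 1 with h | h <;> rw [h.1] <;> nlinarith [h.2]
    nlinarith [mul_le_mul_of_nonneg_left k (mul_nonneg v0 w0)]
  have l1 := log_fac (side ha hb x)
  have l2 : m / 32 ≤ Real.log (1 + m / 16) := by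
    refine le_trans ?_ (log_ge (by linarith))
    rw [le_div_iff₀ (by linarith)]
    nlinarith
  rw [GU, if_pos ⟨ha, hb⟩, ← hm, Real.log_mul (fac_pos (side ha hb x)).ne' (by positivity)]
  linarith

theorem log_GD_small {vt F p : ℝ} (h0 : 0 ≤ p) (h1 : p ≤ 1) (hF : F ≤ 6) (hv : |vt| ≤ 1 / 2)
    (x : Bool) :
    Real.log (1 + vt * (bR x - p)) / 2 + Real.log (1 + 8 * F ^ 2 * (bR x - p) ^ 2) -
      10 * F ^ 2 * (p * (1 - p)) ≤ Real.log (GD vt F p x) := by
  have v0 := mul_nonneg h0 (sub_nonneg.2 h1)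
  have k : |vt * (bR x - p)| ≤ 1 / 2 := by
    rw [abs_mul]; nlinarith [abs_xi h0 h1 x, abs_nonneg vt, abs_nonneg (bR x - p)]
  have k' := (abs_le.1 k).1
  have k1 : 0 < 1 + vt * (bR x - p) / 2 := by linarith
  rw [GD, if_pos hF, if_pos hv, Real.log_div (by positivity) (by positivity),
    Real.log_mul k1.ne' (by positivity)]
  have l1 := Real.log_le_sub_one_of_pos (show 0 < 1 + 10 * F ^ 2 * (p * (1 - p)) by positivity)
  have l2 := Real.log_le_log (show 0 < 1 + vt * (bR x - p) by linarith)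
    (show 1 + vt * (bR x - p) ≤ (1 + vt * (bR x - p) / 2) ^ 2 by
      nlinarith [sq_nonneg (vt * (bR x - p))])
  rw [Real.log_pow] at l2
  push_cast at l2
  linarith

theorem log_GD_big (vt : ℝ) {F p : ℝ} (h0 : 0 ≤ p) (_h1 : p ≤ 1) (hF : 6 < F) (x : Bool) :
    Real.log (1 + bR x * F) - p * F ≤ Real.log (GD vt F p x) := by
  have : 0 < F := by linarith
  have := bR0 x
  rw [GD, if_neg (not_le.2 hF), Real.log_div (by positivity) (by positivity)]
  linarith [Real.log_le_sub_one_of_pos (show 0 < 1 + p * F by positivity)]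

theorem inv_ini (ty : Ty) {lam : ℝ} (h : 0 < lam) (hH : ty = .H → lam = 1) :
    MInv ty (ini ty lam) := by
  cases ty
  · exact ⟨h, (abs_of_pos h).le⟩
  · exact ⟨hH rfl, by norm_num [ini], by norm_num [ini]⟩
  · exact h

theorem ini_lam (ty : Ty) (lam : ℝ) : (ini ty lam).lam = lam := by cases ty <;> rfl

theorem inv_pre {ty : Ty} {s : MS} (h : MInv ty s) (Q p : ℝ) : MInv ty (pre ty s Q p) := by
  cases ty
  · exact ⟨h.1.trans_le (le_max_left _ _), h.2.trans (le_max_left _ _)⟩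
  · exact h
  · exact h

theorem inv_post {ty : Ty} {s : MS} (h : MInv ty s) (d : ℝ) : MInv ty (post ty s d) := by
  cases ty
  · exact ⟨h.1.trans_le (le_max_left _ _), le_max_right _ _⟩
  · exact ⟨h.1, le_max_left _ _, max_le (by norm_num) (min_le_left _ _)⟩
  · exact h

theorem lam_pos {ty : Ty} {s : MS} (h : MInv ty s) : 0 < s.lam := by
  cases ty
  · exact h.1
  · rw [h.1]; exact one_pos
  · exact h

theorem lam_pre (ty : Ty) (s : MS) (Q p : ℝ) : s.lam ≤ (pre ty s Q p).lam := by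
  cases ty
  · exact le_max_left _ _
  · exact le_rfl
  · exact le_rfl

theorem lam_post (ty : Ty) (s : MS) (d : ℝ) : s.lam ≤ (post ty s d).lam := by
  cases ty
  · exact le_max_left _ _
  · exact le_rfl
  · exact le_rfl

theorem lam_pre_L (s : MS) (Q p : ℝ) : (pre .L s Q p).lam = s.lam := rfl

theorem lam_post_L (s : MS) (d : ℝ) : (post .L s d).lam = s.lam := rfl

/-- If the cap is violated at `Q` on the true path, the pre-raise is by the factor
`Q * rr / (3 lam)`; for the types H and L it is never violated. -/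
theorem pre_cap {ty : Ty} {s : MS} {Q p X q θ θ' : ℝ} {x : Bool} (h : Sit ty s Q p X q θ θ' x)
    (hQ : |Q - q| ≤ Q / 100000 + θ) : Q * rr ty p ≤ 3 * (pre ty s Q p).lam := by
  have k := (abs_le.1 hQ).2
  have t1 := h.t1
  have l0 := lam_pos h.inv
  cases ty
  · have := le_max_right s.lam (Q * p / 3)
    simp only [rr, pre]
    linarith
  · have a : q ≤ 1 := h.tok.1
    have b : s.lam = 1 := h.inv.1
    simp only [rr, pre]
    linarith
  · have a : q ≤ s.lam := h.tok
    simp only [rr, pre]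
    linarith

/-- End of an episode. -/
theorem phi_end (ty : Ty) {lam : ℝ} (h : 0 < lam) {s : MS} (hs : MInv ty s) (hl : lam ≤ s.lam)
    (hL : ty = .L → s.lam = lam) (X Q : ℝ) (hX : ty = .A → 0 ≤ lam + X) :
    gainOf ty lam X Q ≤ Phi ty s (base ty lam + X) Q - Phi ty (ini ty lam) (base ty lam) 0 := by
  have key : ∀ {a b : ℝ}, 0 < b → b ≤ 2 * a → Real.log b - 1 ≤ Real.log a := fun {a b} hb hab => by
    have := Real.log_le_log hb hab
    rw [Real.log_mul (by norm_num) (by linarith)] at this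
    linarith [Real.log_two_lt_d9]
  cases ty
  · obtain ⟨l0, hx⟩ := hs
    have Y0 := hX rfl
    simp only [gainOf, Phi, base, ini, cA, sub_self, zero_div, max_self, div_self h.ne']
    generalize lam + X = Y at Y0
    have x1 : |s.x / s.lam| ≤ 1 := by rw [abs_div, abs_of_pos l0, div_le_one l0]; exact hx
    have x2 := abs_le.1 x1
    have k1 := key (a := 9999 + s.x / s.lam) (b := 9999 + 1) (by norm_num) (by linarith)
    obtain ⟨e, he⟩ : ∃ e, e = max 0 ((Y - s.x) / s.lam) := ⟨_, rfl⟩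
    rw [← he]
    have k2 : 0 ≤ Real.log (1 + e ^ 2) := Real.log_nonneg (by nlinarith [sq_nonneg e])
    have k3 := Real.log_le_log h hl
    have k4 : Real.log (Y / lam) ≤ Real.log s.lam - Real.log lam + 1 + Real.log (1 + e ^ 2) := by
      rcases Y0.eq_or_lt with hY | hY
      · rw [← hY, zero_div, Real.log_zero]; linarith
      have e1 : (Y - s.x) / s.lam ≤ e := he ▸ le_max_right _ _
      rw [sub_div] at e1
      have := key (a := 1 + e ^ 2) (b := Y / s.lam) (by positivity)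
        (by nlinarith [sq_nonneg (e - 1)])
      rw [Real.log_div hY.ne' l0.ne'] at this
      rw [Real.log_div hY.ne' h.ne']
      linarith
    norm_num at k1 ⊢
    linarith
  · obtain ⟨-, a, -⟩ := hs
    simp only [gainOf, Phi, base, ini, sub_self, mul_zero]
    have k1 := key (a := 10000 + s.x) (b := 10000 + 2) (by norm_num) (by linarith)
    have := sq_nonneg (s.x - (2 + X))
    generalize Real.log (10000 + 2) = L at k1 ⊢
    rw [zero_pow (by norm_num)]
    linarith
  · simp [gainOf, Phi, base, ini, hL rfl]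

namespace MG

/-- The averaged linear part for the type L. -/
lemma avgL {π qt : Fin 3 → ℝ} {q D θ' lam ξ B : ℝ} (M : Modes π qt q D θ') (l0 : 0 < lam)
    (hξ : |ξ| ≤ 1) (f : Fin 3 → ℝ)
    (hf : ∀ m, qt m / (lam * 10000) * ξ / 2 + B ≤ f m) :
    cA * (q * ξ) / lam - θ' / lam + B ≤ ∑ m, π m * f m := by
  refine le_trans ?_ (Finset.sum_le_sum fun m _ => mul_le_mul_of_nonneg_left (hf m) (M.nn m))
  have e : ∑ m, π m * (qt m / (lam * 10000) * ξ / 2 + B) =
      cA * ((∑ m, π m * qt m) * ξ) / lam + (∑ m, π m) * B := by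
    simp only [Fin.sum_univ_three, cA]
    field_simp
    ring
  rw [e, M.one, one_mul, ← sub_div]
  have b := M.bias
  have t0 := (abs_nonneg _).trans b
  have k : |(∑ m, π m * qt m - q) * ξ| ≤ θ' := by
    rw [abs_mul]; nlinarith [abs_nonneg (∑ m, π m * qt m - q), abs_nonneg ξ]
  have k2 := (abs_le.1 k).1
  have : cA * (q * ξ) - θ' ≤ cA * ((∑ m, π m * qt m) * ξ) := by
    simp only [cA]; nlinarith
  linarith [div_le_div_of_nonneg_right this l0.le]

lemma sumL {π : Fin 3 → ℝ} (h : ∑ m, π m = 1) (f : Fin 3 → ℝ) (C : ℝ) :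
    ∑ m, π m * (f m - C) = ∑ m, π m * f m - C := by
  simp only [mul_sub, Finset.sum_sub_distrib, ← Finset.sum_mul, h, one_mul]

lemma small {y lam c ξ : ℝ} (l0 : 0 < lam) (hy : |y| ≤ c * lam) (hc : c ≤ 5000) (hξ : |ξ| ≤ 1) :
    |y / (lam * 10000)| ≤ 1 / 2 ∧ |y / (lam * 10000) * ξ| ≤ 1 / 2 := by
  have k : |y / (lam * 10000)| ≤ 1 / 2 := by
    rw [abs_div, abs_of_pos (by positivity : 0 < lam * 10000), div_le_iff₀ (by positivity)]
    nlinarith
  refine ⟨k, ?_⟩
  rw [abs_mul]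
  nlinarith [abs_nonneg (y / (lam * 10000)), abs_nonneg ξ]

end MG

theorem stepU_L : StepU .L := by
  intro s Q p X QV q θ θ' x π qt S M hQ _ _ _
  have l0 : 0 < s.lam := S.inv
  have ql : q ≤ s.lam := S.tok
  have q0 := S.q0
  have Q0 := S.Q0
  have t0 := S.t0
  have t1 := S.t1
  have t2 := S.t2
  have v0 := mul_nonneg S.p0 (sub_nonneg.2 S.p1)
  have hξ := abs_xi S.p0 S.p1 x
  have Q1 : Q ≤ 2 * (q + θ) := by linarith [(abs_le.1 hQ).2]
  have y1 : ∀ m, |qt m| ≤ 2 * (q + θ) := fun m => by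
    have := abs_le.1 (M.near m)
    rw [abs_le]; constructor <;> linarith
  simp only [valU, pre, post, den, Phi, div_self l0.ne', Real.log_one, add_zero]
  rw [sumL M.one]
  have := avgL (B := -(8 * ((q / s.lam) ^ 2 * (bR x - p) ^ 2 + (θ / s.lam) ^ 2) / 10 ^ 8)) M l0 hξ
    (fun m => Real.log (GU (qt m / (s.lam * 10000)) p x)) fun m => by
      have s1 := fun ξ hξ => (abs_le.1 (small (c := 3) (ξ := ξ) l0
        ((y1 m).trans (by linarith)) (by norm_num) hξ).2).1
      have a1 := s1 (1 - p) (by simpa [bR] using abs_xi S.p0 S.p1 true)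
      have a2 := s1 (0 - p) (by simpa [bR] using abs_xi S.p0 S.p1 false)
      have a3 := s1 _ hξ
      have k := log_GU S.p0 S.p1 (vt := qt m / (s.lam * 10000)) (by linarith) (by linarith) x
      have k1 := log_ge' (a := qt m / (s.lam * 10000) * (bR x - p)) (by linarith)
      have k2 : 0 ≤ Real.log (1 + (qt m / (s.lam * 10000) * (bR x - p)) ^ 2) :=
        Real.log_nonneg (by nlinarith [sq_nonneg (qt m / (s.lam * 10000) * (bR x - p))])
      have k3 : 0 ≤ p * (1 - p) * (|qt m / (s.lam * 10000)| * min |qt m / (s.lam * 10000)| 1) := by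
        positivity
      have k4 : (qt m / (s.lam * 10000) * (bR x - p)) ^ 2 ≤
          8 * ((q / s.lam) ^ 2 * (bR x - p) ^ 2 + (θ / s.lam) ^ 2) / 10 ^ 8 := by
        have b1 : qt m ^ 2 ≤ 8 * (q ^ 2 + θ ^ 2) := by
          nlinarith [sq_abs (qt m), abs_nonneg (qt m), y1 m, sq_nonneg (q - θ)]
        have b2 : (bR x - p) ^ 2 ≤ 1 := by nlinarith [sq_abs (bR x - p), abs_nonneg (bR x - p)]
        field_simp
        nlinarith [mul_le_mul_of_nonneg_right b1 (sq_nonneg (bR x - p)),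
          mul_le_mul_of_nonneg_left b2 (sq_nonneg θ)]
      linarith
  have k5 : pay (Q / s.lam) p ≤ 8 * ((q / s.lam) ^ 2 * (p * (1 - p)) + (θ / s.lam) ^ 2) := by
    have F0 : 0 ≤ Q / s.lam := by positivity
    have b1 : Q / s.lam * min (Q / s.lam) 6 ≤ 8 * ((q / s.lam) ^ 2 + (θ / s.lam) ^ 2) := by
      refine (mul_le_mul_of_nonneg_left (min_le_left _ _) F0).trans ?_
      field_simp
      nlinarith [sq_nonneg (q - θ)]
    have b2 : p * (1 - p) ≤ 1 := by nlinarith [S.p0, S.p1]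
    unfold pay
    nlinarith [mul_le_mul_of_nonneg_left b1 v0, mul_le_mul_of_nonneg_left b2 (sq_nonneg (θ / s.lam))]
  have e1 : cA * (X + q * (bR x - p)) / s.lam = cA * X / s.lam + cA * (q * (bR x - p)) / s.lam := by
    ring
  have e2 : (QV + q ^ 2 * ((bR x - p) ^ 2 + p * (1 - p))) / s.lam ^ 2 = QV / s.lam ^ 2 +
      ((q / s.lam) ^ 2 * (bR x - p) ^ 2 + (q / s.lam) ^ 2 * (p * (1 - p))) := by
    ring
  rw [e1, e2]
  have p1 : 0 ≤ (q / s.lam) ^ 2 * (bR x - p) ^ 2 := by positivity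
  have p2 : 0 ≤ (q / s.lam) ^ 2 * (p * (1 - p)) := by positivity
  have p3 : 0 ≤ (θ / s.lam) ^ 2 := by positivity
  have p4 : 0 ≤ θ' / s.lam := by positivity
  linarith

theorem stepD_L : StepD .L := by
  intro s Q p X QV q θ θ' x π qt S M hq hQ
  have l0 : 0 < s.lam := S.inv
  have q0 := S.q0
  have Q0 := S.Q0
  have t0 := S.t0
  have t1 := S.t1
  have t2 := S.t2
  have v0 := mul_nonneg S.p0 (sub_nonneg.2 S.p1)
  have hξ := abs_xi S.p0 S.p1 x
  simp only [rr] at hQ
  have F0 : 0 ≤ Q / s.lam := by positivity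
  have F6 : Q / s.lam ≤ 6 := by rw [div_le_iff₀ l0]; linarith
  have y1 : ∀ m, |qt m| ≤ 2 * (2 * Q + θ) := fun m => by
    have := abs_le.1 (M.near m)
    rw [abs_le]; constructor <;> linarith
  have b2 : (bR x - p) ^ 2 ≤ 1 := by nlinarith [sq_abs (bR x - p), abs_nonneg (bR x - p)]
  simp only [valD, post, den, Phi]
  rw [sumL M.one]
  have := avgL (B := -(θ / s.lam) ^ 2 - 10 * (Q / s.lam) ^ 2 * (p * (1 - p))) M l0 hξ
    (fun m => Real.log (GD (qt m / (s.lam * 10000)) (Q / s.lam) p x)) fun m => by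
      obtain ⟨a1, a2⟩ := small (c := 30) l0 ((y1 m).trans (by linarith)) (by norm_num) hξ
      have k := log_GD_small S.p0 S.p1 F6 a1 x
      have k1 := log_ge' (a := qt m / (s.lam * 10000) * (bR x - p)) (by linarith [(abs_le.1 a2).1])
      have k4 : (qt m / (s.lam * 10000) * (bR x - p)) ^ 2 ≤
          8 * (4 * ((Q / s.lam) ^ 2 * (bR x - p) ^ 2) + (θ / s.lam) ^ 2) / 10 ^ 8 := by
        have b1 : qt m ^ 2 ≤ 8 * (4 * Q ^ 2 + θ ^ 2) := by
          nlinarith [sq_abs (qt m), abs_nonneg (qt m), y1 m, sq_nonneg (2 * Q - θ)]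
        field_simp
        nlinarith [mul_le_mul_of_nonneg_right b1 (sq_nonneg (bR x - p)),
          mul_le_mul_of_nonneg_left b2 (sq_nonneg θ)]
      have u0 : 0 ≤ (Q / s.lam) ^ 2 * (bR x - p) ^ 2 := by positivity
      have u1 : (Q / s.lam) ^ 2 * (bR x - p) ^ 2 ≤ 36 := by
        nlinarith [mul_le_mul_of_nonneg_left b2 (sq_nonneg (Q / s.lam))]
      rw [mul_assoc 8] at k
      generalize (Q / s.lam) ^ 2 * (bR x - p) ^ 2 = u at k k4 u0 u1
      have k2 : u / 100 ≤ Real.log (1 + 8 * u) := by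
        refine le_trans ?_ (log_ge (by linarith))
        rw [le_div_iff₀ (by linarith)]
        nlinarith
      have p3 : 0 ≤ (θ / s.lam) ^ 2 := by positivity
      linarith
  have k5 : pay (Q / s.lam) p = (Q / s.lam) ^ 2 * (p * (1 - p)) := by
    rw [pay, min_eq_left F6]; ring
  have e1 : cA * (X + q * (bR x - p)) / s.lam = cA * X / s.lam + cA * (q * (bR x - p)) / s.lam := by
    ring
  have e2 : (QV + q ^ 2 * ((bR x - p) ^ 2 + p * (1 - p))) / s.lam ^ 2 = QV / s.lam ^ 2 +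
      (q / s.lam) ^ 2 * ((bR x - p) ^ 2 + p * (1 - p)) := by
    ring
  rw [e1, e2, k5]
  have p1 : 0 ≤ (q / s.lam) ^ 2 * ((bR x - p) ^ 2 + p * (1 - p)) := by positivity
  have p2 : 0 ≤ (Q / s.lam) ^ 2 * (p * (1 - p)) := by positivity
  have p3 : 0 ≤ (θ / s.lam) ^ 2 := by positivity
  have p4 : 0 ≤ θ' / s.lam := by positivity
  linarith

end Pool.Agent.P.MP_5c258a_lc.Bin
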