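import Pool.Agent.K.MP_5c258a_lc.C4
import Pool.Agent.K.MP_5c258a_lc.C2
import Pool.Agent.K.MP_5c258a_lc.C3
import Pool.Agent.K.MP_5c258a_lc.C1

-- part Pool.Agent.P.MP_5c258a_lc.Bin.DAlt
section

/-! Task DALT: the dichotomy for one good particle (paper section 4, DICHOTOMY). -/

namespace Pool.Agent.P.MP_5c258a_lc.Bin

open Finset Classical

section

variable {n : ℕ} {r : ℕ} {tr : Tr n} {N : Finset (Fin n)} {τ a : ℕ} {Tm : ℕ → ℕ}

lemma dalt_AA_gt (i w : ℕ) (h : AA r tr N τ Tm i w) : τ < w := h.1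

lemma dalt_AA_mono (hr : 0 < r) (anti : Antitone Tm) (i w : ℕ) (h : AA r tr N τ Tm i w) :
    AA r tr N τ Tm (i + 1) w := by
  refine ⟨h.1, ?_⟩
  rcases h.2 with h2 | h2
  · exact Or.inl (lt_of_le_of_lt (anti (Nat.le_succ i)) h2)
  · refine Or.inr (lt_of_le_of_lt (rp_anti hr ?_) h2)
    exact Nat.mul_le_mul_left 3 (Nat.pow_le_pow_right (by norm_num) (Nat.le_succ i))

lemma dalt_st_of_lt (tr : Tr n) (A : ℕ → Prop) {z x : ℕ} (hx : z < x) : tr.st A z x = 0 := by
  unfold Tr.st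
  split_ifs
  · rfl
  · exact tr.gr_of_lt A hx

lemma dalt_ZZ_nonneg (h : tr.WF) (i z : ℕ) : 0 ≤ ZZ r tr N τ a Tm i z := by
  cases i with
  | zero => rw [ZZ]; split_ifs <;> norm_num
  | succ i => rw [ZZ]; exact Tr.st_nonneg h _ _ _

lemma dalt_ZZ_zero (F : ℕ → ℝ) : ∑ z ∈ range (a + 1), ZZ r tr N τ a Tm 0 z * F z = F a := by
  rw [sum_eq_single a]
  · simp [ZZ]
  · intro z _ hz
    simp [ZZ, hz]
  · intro h
    exact absurd (mem_range.2 (Nat.lt_succ_self a)) h

/-- `Z_(i+1) = stop^(A_i) Z_i`. -/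
lemma dalt_ZZ_succ (h : tr.WF) (hr : 0 < r) (anti : Antitone Tm) (i x : ℕ) :
    ZZ r tr N τ a Tm (i + 1) x =
      ∑ z ∈ range (a + 1), ZZ r tr N τ a Tm i z * tr.st (AA r tr N τ Tm i) z x := by
  cases i with
  | zero => rw [dalt_ZZ_zero (fun z => tr.st (AA r tr N τ Tm 0) z x), ZZ]
  | succ i =>
    rw [ZZ, Tr.st_comp h (dalt_AA_mono hr anti i) a x]
    refine sum_congr rfl fun z _ => ?_
    rw [ZZ]

lemma dalt_ZZ_kap (h : tr.WF) (i : ℕ) :
    ∑ z ∈ range (a + 1), ZZ r tr N τ a Tm i z * tr.kap τ z ≤ tr.kap τ a := by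
  cases i with
  | zero => rw [dalt_ZZ_zero (fun z => tr.kap τ z)]
  | succ i =>
    refine le_trans (le_of_eq ?_) (Tr.kap_comp h (dalt_AA_gt (r := r) (tr := tr) (N := N) (Tm := Tm) i) a)
    refine sum_congr rfl fun z _ => ?_
    rw [ZZ]

lemma dalt_x0_le (h : tr.WF) (τ z : ℕ) (b : Fin n) : tr.x0 τ z b ≤ 1 := by
  have h1 := Tr.mass h τ z b
  have h2 := Tr.x1_nonneg h τ z b
  have h3 := Tr.kap_nonneg h τ z
  linarith

/-- One node of the bound `EG ≤ U + tau + y`. -/
lemma dalt_node (h : tr.WF) {A : ℕ → Prop} (hA : ∀ w, A w → τ < w) (z : ℕ) (b : Fin n) :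
    tr.x0 τ z b * Gz tr A z b ≤
      ∑ x ∈ range (z + 1), tr.st A z x * (tr.x0 τ x b * tr.bt x b) +
        tr.x0 τ z b * tr.x1 τ z b + tr.kap τ z := by
  have h1 : Gz tr A z b ≤ ∑ x ∈ range (z + 1), tr.st A z x * (tr.x0 τ x b * tr.bt x b) +
      tr.x1 τ z b + tr.kap τ z := by
    have e1 := Tr.x1_comp h hA z b
    have e2 := Tr.kap_comp h hA z
    have e3 : Gz tr A z b ≤ ∑ x ∈ range (z + 1), (tr.st A z x * (tr.x0 τ x b * tr.bt x b) +
        tr.st A z x * tr.x1 τ x b + tr.st A z x * tr.kap τ x) := by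
      unfold Gz
      refine sum_le_sum fun x _ => ?_
      have m := Tr.mass h τ x b
      have s0 := Tr.st_nonneg h A z x
      have b1 := tr.bt_le_one x b
      have k0 := Tr.kap_nonneg h τ x
      have y0 := Tr.x1_nonneg h τ x b
      have e4 : tr.bt x b ≤ tr.x0 τ x b * tr.bt x b + tr.x1 τ x b + tr.kap τ x := by
        have e5 : tr.x0 τ x b = 1 - (tr.x1 τ x b + tr.kap τ x) := by linarith
        have e6 := mul_nonneg (add_nonneg y0 k0) (sub_nonneg.2 b1)
        rw [e5]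
        nlinarith
      have e7 := mul_le_mul_of_nonneg_left e4 s0
      linarith
    rw [sum_add_distrib, sum_add_distrib] at e3
    linarith
  have h2 : 0 ≤ ∑ x ∈ range (z + 1), tr.st A z x * (tr.x0 τ x b * tr.bt x b) :=
    sum_nonneg fun x _ => mul_nonneg (Tr.st_nonneg h A z x)
      (mul_nonneg (Tr.x0_nonneg h τ x b) (tr.bt_nonneg x b))
  have h3 := Tr.x0_nonneg h τ z b
  have h4 := dalt_x0_le h τ z b
  have h5 := Tr.kap_nonneg h τ z
  have h6 := mul_le_mul_of_nonneg_left h1 h3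
  have h7 := mul_nonneg (sub_nonneg.2 h4) h2
  have h8 := mul_nonneg (sub_nonneg.2 h4) h5
  nlinarith

/-- `EG ≤ U_(i+1) + tau_i + kap`. -/
lemma dalt_EG (h : tr.WF) (hr : 0 < r) (anti : Antitone Tm) (i : ℕ) (b : Fin n) :
    (EZ r tr N τ a Tm i b fun z => Gz tr (AA r tr N τ Tm i) z b) ≤
      (EZ r tr N τ a Tm (i + 1) b fun z => tr.bt z b) +
        (EZ r tr N τ a Tm i b fun z => tr.x1 τ z b) + tr.kap τ a := by
  have h1 : (EZ r tr N τ a Tm (i + 1) b fun z => tr.bt z b) =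
      ∑ z ∈ range (a + 1), ZZ r tr N τ a Tm i z * ∑ x ∈ range (z + 1),
        tr.st (AA r tr N τ Tm i) z x * (tr.x0 τ x b * tr.bt x b) := by
    unfold EZ
    simp_rw [dalt_ZZ_succ h hr anti i, sum_mul]
    rw [sum_comm]
    refine sum_congr rfl fun z hz => ?_
    rw [mul_sum]
    have hsub : range (z + 1) ⊆ range (a + 1) := range_subset_range.2 (mem_range.1 hz)
    rw [← sum_subset hsub]
    · exact sum_congr rfl fun x _ => by ring
    · intro x _ hx
      rw [dalt_st_of_lt tr _ (by rw [mem_range] at hx; omega)]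
      ring
  have h2 := dalt_ZZ_kap (r := r) (N := N) (τ := τ) (a := a) (Tm := Tm) h i
  rw [h1]
  unfold EZ
  refine le_trans ?_ (add_le_add_right h2 _)
  rw [← sum_add_distrib, ← sum_add_distrib]
  refine sum_le_sum fun z _ => ?_
  have h3 := mul_le_mul_of_nonneg_left
    (dalt_node h (dalt_AA_gt (r := r) (tr := tr) (N := N) (τ := τ) (Tm := Tm) i) z b)
    (dalt_ZZ_nonneg (r := r) (N := N) (τ := τ) (a := a) (Tm := Tm) h i z)
  beta_reduce
  linarith

/-- `EP = U_(i+1)` at the level `i + 1`. -/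
lemma dalt_EP (lo : ∀ i, τ ≤ Tm i) (i : ℕ) (b : Fin n) :
    (EZ r tr N τ a Tm (i + 1) b fun z => tr.x1 (Tm i) z b) =
      EZ r tr N τ a Tm (i + 1) b fun z => tr.bt z b := by
  unfold EZ
  refine sum_congr rfl fun z _ => ?_
  by_cases hz : z ≤ Tm i
  · simp only [tr.x1_top hz b]
  · have hA : AA r tr N τ Tm i z := ⟨lt_of_le_of_lt (lo i) (not_le.1 hz), Or.inl (not_le.1 hz)⟩
    simp [ZZ, Tr.st, hA]

/-- At a trivial level `U` vanishes. -/
lemma dalt_U_zero {i : ℕ} (hi : Tm i = τ) (b : Fin n) :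
    (EZ r tr N τ a Tm (i + 1) b fun z => tr.bt z b) = 0 := by
  unfold EZ
  refine sum_eq_zero fun z _ => ?_
  by_cases hz : z ≤ τ
  · have h1 := tr.bt_mul_one_sub z b
    simp only [tr.x0_top hz b]
    linear_combination ZZ r tr N τ a Tm (i + 1) z * h1
  · have hA : AA r tr N τ Tm i z := ⟨not_le.1 hz, Or.inl (by rw [hi]; exact not_le.1 hz)⟩
    simp [ZZ, Tr.st, hA]

lemma dalt_sw_nonneg (tr : Tr n) (b : Fin n) (x : Option (ℕ × ℕ)) : 0 ≤ sw tr b x := by
  cases x with
  | none => rw [sw]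
  | some x => rw [sw]; exact sub_nonneg.2 (tr.bt_le_one _ b)

lemma dalt_sw_le (tr : Tr n) (b : Fin n) (x : Option (ℕ × ℕ)) : sw tr b x ≤ so x := by
  cases x with
  | none => rw [sw, so]
  | some x => rw [sw, so]; have := tr.bt_nonneg x.2 b; linarith

/-- The averaged pair inequality. -/
lemma dalt_pair {m : ℕ} (h : tr.WF) (lo : ∀ i, τ ≤ Tm i) (i : ℕ) (s : Fin m → Option (ℕ × ℕ))
    (b : Fin n) :
    Yh tr (Tm i) s b ≤ Gh tr (AA r tr N τ Tm i) s b +
      tr.XX (qL r tr N τ Tm i s b) b τ (Tm i) + kh tr τ s := by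
  have h1 : tr.XX (qL r tr N τ Tm i s b) b τ (Tm i) =
      (∑ j, sw tr b (s j) * tr.XX (fun w => if AA r tr N τ Tm i w then
        tr.gr (AA r tr N τ Tm i) (sz (s j)) w else 0) b τ (Tm i)) / m := by
    unfold Tr.XX qL
    simp_rw [mul_sum]
    rw [sum_comm, sum_div]
    refine sum_congr rfl fun w hw => ?_
    rw [div_mul_eq_mul_div, sum_mul]
    congr 1
    refine sum_congr rfl fun j _ => ?_
    have hw' := mem_Ioc.1 hw
    have hiff : AA r tr N τ Tm i w ↔ rp r (3 * 4 ^ i) < tr.vv N τ w :=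
      ⟨fun hA => hA.2.resolve_left (not_lt.2 hw'.2), fun hv => ⟨hw'.1, Or.inr hv⟩⟩
    by_cases hv : rp r (3 * 4 ^ i) < tr.vv N τ w
    · rw [if_pos hv, if_pos (hiff.2 hv)]; ring
    · rw [if_neg hv, if_neg (fun hA => hv (hiff.1 hA))]; ring
  rw [h1]
  unfold Yh Gh kh
  rw [← add_div, ← add_div, ← sum_add_distrib, ← sum_add_distrib]
  refine div_le_div_of_nonneg_right (sum_le_sum fun j _ => ?_) (Nat.cast_nonneg m)
  have h2 := Tr.pair_id h (A := AA r tr N τ Tm i) (lo i) (dalt_AA_gt i)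
    (fun w hw => ⟨lt_of_le_of_lt (lo i) hw, Or.inl hw⟩) (sz (s j)) b
  have h3 := mul_le_mul_of_nonneg_left h2 (dalt_sw_nonneg tr b (s j))
  have h4 := mul_le_mul_of_nonneg_right (dalt_sw_le tr b (s j)) (Tr.kap_nonneg h τ (sz (s j)))
  unfold Gz
  linarith

lemma dalt_dev {m : ℕ} {i : ℕ} {s : Fin m → Option (ℕ × ℕ)} {b : Fin n} {e : ℝ} (he : 0 ≤ e)
    (hd : dev r tr N τ a Tm i s b ≤ e ^ 2) :
    (EZ r tr N τ a Tm i b fun z => tr.x1 (Tm (i - 1)) z b) - e ≤ Yh tr (Tm (i - 1)) s b ∧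
      Gh tr (AA r tr N τ Tm i) s b ≤
        (EZ r tr N τ a Tm i b fun z => Gz tr (AA r tr N τ Tm i) z b) + e := by
  unfold dev at hd
  have h1 := abs_le_of_sq_le_sq' (le_trans (le_add_of_nonneg_right (sq_nonneg _)) hd) he
  have h2 := abs_le_of_sq_le_sq' (le_trans (le_add_of_nonneg_left (sq_nonneg _)) hd) he
  constructor
  · linarith [h1.1]
  · linarith [h2.2]

/-- A total rise of `2 s_i` gives the late or the early alternative. -/
lemma dalt_split {m k : ℕ} {W : Fin (pL r) → Fin n} (hr : 0 < r) (h : Ctx r tr N W τ a k Tm)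
    (i : ℕ) (s : Fin m → Option (ℕ × ℕ)) (b : Fin n)
    (hb : 2 * rp r (4 ^ i) ≤ tr.XX (qL r tr N τ Tm i s b) b τ (Tm i)) :
    Alt r tr N τ k Tm s i b := by
  have h1 : tr.XX (qL r tr N τ Tm i s b) b τ (Tm i) =
      tr.XX (qL r tr N τ Tm i s b) b τ (Tm (i + 1)) +
        tr.XX (qL r tr N τ Tm i s b) b (Tm (i + 1)) (Tm i) := by
    unfold Tr.XX
    rw [sum_Ioc_consecutive _ (h.lo (i + 1)) (h.anti (Nat.le_succ i))]
  have hp := rp_pos hr (4 ^ i)
  by_cases h2 : rp r (4 ^ i) ≤ tr.XX (qL r tr N τ Tm i s b) b (Tm (i + 1)) (Tm i)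
  · refine Or.inr (Or.inl ⟨?_, h2⟩)
    rcases Nat.eq_zero_or_pos i with hi | hi
    · rw [hi, pow_zero]; exact le_trans h.k1 h.kK
    · by_contra hc
      have h3 : Tm i = τ := h.triv i hi (le_trans h.kK (not_le.1 hc).le)
      have h4 : Ioc (Tm (i + 1)) (Tm i) = ∅ := Ioc_eq_empty (by have := h.lo (i + 1); omega)
      unfold Tr.XX at h2
      rw [h4, sum_empty] at h2
      linarith
  · have h3 : rp r (4 ^ i) ≤ tr.XX (qL r tr N τ Tm i s b) b τ (Tm (i + 1)) := by
      have := not_le.1 h2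
      linarith
    refine Or.inr (Or.inr ⟨?_, h3⟩)
    by_contra hc
    have h4 : Tm (i + 1) = τ := h.triv (i + 1) (Nat.succ_pos i) (not_lt.1 hc)
    unfold Tr.XX at h3
    rw [h4, Ioc_self, sum_empty] at h3
    linarith

/-- A locked particle has risen before the time `t`. -/
lemma dalt_lock (h : tr.WF) {t : ℕ} (h1 : τ ≤ t) (h2 : t ≤ a) {b : Fin n} (hb : tr.c a b = true) :
    1 - rise tr t a b - tr.kap τ a ≤ tr.x1 t a b := by
  have e1 := Tr.evolve h (le_refl t) h2 a b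
  have e2 := (Tr.kill_le h (t := a) (le_refl t) a b).2
  have e3 := Tr.kap_anti h h1 a
  have e4 : tr.x1 a a b = 1 := by rw [tr.x1_top (le_refl a) b, Tr.bt, if_pos hb]
  simp_rw [mul_add (tr.pi t a _), sum_add_distrib] at e1
  unfold rise Tr.XX
  linarith

lemma dalt_rp_le {r : ℕ} (hr : 100 ≤ r) {c : ℕ} (hc : 2 ≤ c) : rp r c ≤ 1 / 10000 := by
  refine le_trans (rp_anti (by omega) hc) ?_
  have h1 : (100 : ℝ) ≤ r := by exact_mod_cast hr
  unfold rp
  rw [one_div]
  exact inv_anti₀ (by norm_num) (by nlinarith)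

lemma dalt_rp_one {r : ℕ} (hr : 100 ≤ r) : rp r 1 ≤ 1 / 100 := by
  have h1 : (100 : ℝ) ≤ r := by exact_mod_cast hr
  unfold rp
  rw [one_div, pow_one]
  exact inv_anti₀ (by norm_num) h1

end

/-- `U (i+1) = EZ (i+1) b (bt · b)`; take the least `i` with `U (i+1) < rp r (4^i)`. -/
theorem alternative : ∃ r0 : ℕ, ∀ r ≥ r0, ∀ {n : ℕ} {tr : Tr n} {N : Finset (Fin n)}
    {W : Fin (pL r) → Fin n} {τ a k : ℕ} {Tm : ℕ → ℕ} {s : ℕ → Fin (pN r) → Option (ℕ × ℕ)},
    Ctx r tr N W τ a k Tm → Smp r tr N W τ a Tm s → ∀ l, GoodP r tr N τ a Tm s (W l) →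
    ∃ i ≤ pK r, Alt r tr N τ k Tm (s i) i (W l) := by
  refine ⟨100, fun r hr n tr N W τ a k Tm s h hs l hg => ?_⟩
  have hr0 : 0 < r := by omega
  have hK : 1 ≤ pK r := le_trans h.k1 h.kK
  have hPK : (EZ r tr N τ a Tm (pK r + 1) (W l) fun z => tr.bt z (W l)) < rp r (4 ^ pK r) := by
    rw [dalt_U_zero (h.triv _ hK (le_trans h.kK (Nat.lt_pow_self (by norm_num)).le))]
    exact rp_pos hr0 _
  have hex : ∃ i, (EZ r tr N τ a Tm (i + 1) (W l) fun z => tr.bt z (W l)) < rp r (4 ^ i) :=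
    ⟨_, hPK⟩
  obtain ⟨i, hiK, hi, hmin⟩ : ∃ i ≤ pK r,
      (EZ r tr N τ a Tm (i + 1) (W l) fun z => tr.bt z (W l)) < rp r (4 ^ i) ∧ ∀ j < i,
        rp r (4 ^ j) ≤ EZ r tr N τ a Tm (j + 1) (W l) fun z => tr.bt z (W l) :=
    ⟨Nat.find hex, Nat.find_min' hex hPK, Nat.find_spec hex,
      fun j hj => not_lt.1 (Nat.find_min hex hj)⟩
  refine ⟨i, hiK, ?_⟩
  have he0 : 0 ≤ rp r (2 * pK r) / 16 := by have := rp_pos hr0 (2 * pK r); positivity
  obtain ⟨d1, d2⟩ := dalt_dev he0 (hg.dev i hiK)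
  have g1 := dalt_EG (N := N) (τ := τ) (a := a) h.wf hr0 h.anti i (W l)
  have g2 := dalt_pair (r := r) (N := N) h.wf h.lo i (s i) (W l)
  have hy : 1 / (pH r : ℝ) ≤ rp r (2 * pK r) / 10000 := by
    rw [inv_pH, show 20 * (pK r + 1) = 2 * pK r + (18 * pK r + 20) by ring, rp_add]
    have e1 := dalt_rp_le hr (c := 18 * pK r + 20) (by omega)
    have e2 := mul_le_mul_of_nonneg_left e1 (rp_pos hr0 (2 * pK r)).le
    linarith
  have k1 : tr.kap τ a ≤ 4 * (rp r (2 * pK r) / 10000) := by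
    have e1 := h.kill
    rw [div_eq_mul_one_div] at e1
    linarith
  have k2 : kh tr τ (s i) ≤ 16 * (rp r (2 * pK r) / 10000) := by
    have e1 := hs.kill i
    rw [div_eq_mul_one_div] at e1
    linarith
  cases i with
  | zero =>
    refine dalt_split hr0 h 0 (s 0) (W l) ?_
    have e1 := dalt_rp_le hr (c := 2 * pK r) (by omega)
    have e2 := dalt_rp_one hr
    have e3 := dalt_lock h.wf (h.lo 0) h.top (h.right l)
    have e4 := hg.lock
    have e5 := hg.start
    have e6 := Tr.mass h.wf τ a (W l)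
    have e7 : ∀ F : ℕ → ℝ, EZ r tr N τ a Tm 0 (W l) F = tr.x0 τ a (W l) * F a := fun F => by
      unfold EZ
      simp_rw [mul_assoc]
      exact dalt_ZZ_zero fun z => tr.x0 τ z (W l) * F z
    rw [e7] at d1 g1
    rw [e7] at g1
    rw [e7] at d2
    simp only [Nat.zero_sub, pow_zero] at d1 hi ⊢
    have e8 : (24 / 100 : ℝ) ≤ tr.x0 τ a (W l) := by linarith
    have e9 : (23 / 100 : ℝ) ≤ tr.x1 (Tm 0) a (W l) - tr.x1 τ a (W l) := by linarith
    have e10 := mul_le_mul e8 e9 (by norm_num) (by linarith)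
    linarith
  | succ i =>
    have m1 := hmin i (Nat.lt_succ_self i)
    have hp := rp_pos hr0 (4 ^ i)
    have h4 : 4 ^ i ≤ pK r := by
      rcases Nat.eq_zero_or_pos i with hi0 | hi0
      · rw [hi0, pow_zero]; exact hK
      · by_contra hc
        rw [dalt_U_zero (h.triv i hi0 (le_trans h.kK (not_le.1 hc).le))] at m1
        linarith
    have e1 : rp r (2 * pK r) ≤ rp r (2 * 4 ^ i) := rp_anti hr0 (by omega)
    have e2 : rp r (2 * 4 ^ i) ≤ rp r (4 ^ i) := rp_anti hr0 (by omega)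
    simp only [Nat.add_sub_cancel] at d1
    rw [dalt_EP h.lo] at d1
    by_cases hc : Yh tr (Tm (i + 1)) (s (i + 1)) (W l) + kh tr τ (s (i + 1)) ≤
        2 * rp r (2 * 4 ^ i)
    · refine Or.inl ⟨Nat.succ_pos i, ?_, ?_, ?_⟩
      · simpa only [Nat.add_sub_cancel] using h4
      · simpa only [Nat.add_sub_cancel] using hc
      · simp only [Nat.add_sub_cancel]
        linarith
    · refine dalt_split hr0 h (i + 1) (s (i + 1)) (W l) ?_
      have e3 := not_le.1 hc
      have e4 := hg.tau i h4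
      have e5 : rp r (4 ^ (i + 1)) ≤ rp r (2 * 4 ^ i) / 10000 := by
        have e6 : 1 ≤ 4 ^ i := Nat.one_le_pow _ _ (by norm_num)
        rw [show 4 ^ (i + 1) = 2 * 4 ^ i + 2 * 4 ^ i by ring, rp_add]
        have e7 := mul_le_mul_of_nonneg_left (dalt_rp_le hr (c := 2 * 4 ^ i) (by omega))
          (rp_pos hr0 (2 * 4 ^ i)).le
        linarith
      have e8 := rp_pos hr0 (2 * 4 ^ i)
      linarith

end Pool.Agent.P.MP_5c258a_lc.Bin
end

-- part Pool.Agent.P.MP_5c258a_lc.Bin.DSmpA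
section

/-! Auxiliary facts for the task DSMP: the measures `ZZ`, the law of a sampled pair, Markov. -/

namespace Pool.Agent.P.MP_5c258a_lc.Bin

open Finset Classical

namespace DS

variable {n : ℕ}

lemma st_range (tr : Tr n) (τ z : ℕ) (F : ℕ → ℝ) :
    ∑ f ∈ range (z + 1), tr.st (fun w => τ < w) z f * F f =
      ∑ f ∈ range (τ + 1), tr.st (fun w => τ < w) z f * F f := by
  have h1 : ∑ f ∈ range (z + 1), tr.st (fun w => τ < w) z f * F f =
      ∑ f ∈ range (z + τ + 1), tr.st (fun w => τ < w) z f * F f := by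
    apply sum_subset
    · intro x hx; simp only [mem_range] at hx ⊢; omega
    · intro x _ hx
      simp only [mem_range, not_lt] at hx
      unfold Tr.st
      rw [Tr.gr_of_lt tr _ (by omega : z < x)]
      simp
  have h2 : ∑ f ∈ range (τ + 1), tr.st (fun w => τ < w) z f * F f =
      ∑ f ∈ range (z + τ + 1), tr.st (fun w => τ < w) z f * F f := by
    apply sum_subset
    · intro x hx; simp only [mem_range] at hx ⊢; omega
    · intro x _ hx
      simp only [mem_range, not_lt] at hx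
      unfold Tr.st
      rw [if_pos (by omega : τ < x)]
      simp
  rw [h1, h2]

lemma st_sum_le' {tr : Tr n} (h : tr.WF) (τ z : ℕ) :
    ∑ f ∈ range (τ + 1), tr.st (fun w => τ < w) z f ≤ 1 := by
  have h1 := st_range tr τ z fun _ => 1
  simp only [mul_one] at h1
  rw [← h1]
  exact Tr.st_sum_le h (by simp) z

lemma x0_eq (tr : Tr n) (τ z : ℕ) (b : Fin n) : tr.x0 τ z b =
    ∑ f ∈ range (τ + 1), tr.st (fun w => τ < w) z f * (1 - tr.bt f b) :=
  st_range tr τ z fun f => 1 - tr.bt f b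

lemma x1_eq (tr : Tr n) (τ z : ℕ) (b : Fin n) : tr.x1 τ z b =
    ∑ f ∈ range (τ + 1), tr.st (fun w => τ < w) z f * tr.bt f b :=
  st_range tr τ z fun f => tr.bt f b

lemma x1_le_one {tr : Tr n} (h : tr.WF) (t z : ℕ) (b : Fin n) : tr.x1 t z b ≤ 1 := by
  have h1 := Tr.mass h t z b
  have h2 := Tr.x0_nonneg h t z b
  have h3 := Tr.kap_nonneg h t z
  linarith

lemma Gz_nonneg {tr : Tr n} (h : tr.WF) (A : ℕ → Prop) (z : ℕ) (b : Fin n) : 0 ≤ Gz tr A z b :=
  sum_nonneg fun x _ => mul_nonneg (Tr.st_nonneg h A z x) (tr.bt_nonneg x b)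

lemma Gz_le_one {tr : Tr n} (h : tr.WF) {A : ℕ → Prop} (h0 : ¬A 0) (z : ℕ) (b : Fin n) :
    Gz tr A z b ≤ 1 := by
  refine le_trans (sum_le_sum fun x _ => ?_) (Tr.st_sum_le h h0 z)
  exact mul_le_of_le_one_right (Tr.st_nonneg h A z x) (tr.bt_le_one x b)

section ZZ

variable {r : ℕ} {tr : Tr n} (N : Finset (Fin n)) (τ a : ℕ) (Tm : ℕ → ℕ)

lemma AA_zero (i : ℕ) : ¬AA r tr N τ Tm i 0 := fun h => absurd h.1 (Nat.not_lt_zero τ)

lemma AA_lt (i w : ℕ) (h : AA r tr N τ Tm i w) : τ < w := h.1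

lemma ZZ_zero_sum (F : ℕ → ℝ) : ∑ z ∈ range (a + 1), ZZ r tr N τ a Tm 0 z * F z = F a := by
  simp [ZZ]

lemma ZZ_nonneg (h : tr.WF) (i z : ℕ) : 0 ≤ ZZ r tr N τ a Tm i z := by
  cases i with
  | zero => simp only [ZZ]; split_ifs <;> norm_num
  | succ i => exact Tr.st_nonneg h _ a z

lemma ZZ_sum_le (h : tr.WF) (i : ℕ) : ∑ z ∈ range (a + 1), ZZ r tr N τ a Tm i z ≤ 1 := by
  cases i with
  | zero => simp [ZZ]
  | succ i => exact Tr.st_sum_le h (AA_zero N τ Tm i) a

lemma ZZ_pi (h : tr.WF) (i w : ℕ) :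
    ∑ z ∈ range (a + 1), ZZ r tr N τ a Tm i z * tr.pi τ z w ≤ tr.pi τ a w := by
  cases i with
  | zero => exact (ZZ_zero_sum N τ a Tm fun z => tr.pi τ z w).le
  | succ i => exact Tr.pi_comp h (AA_lt N τ Tm i) a w

lemma ZZ_kap (h : tr.WF) (i : ℕ) :
    ∑ z ∈ range (a + 1), ZZ r tr N τ a Tm i z * tr.kap τ z ≤ tr.kap τ a := by
  cases i with
  | zero => exact (ZZ_zero_sum N τ a Tm fun z => tr.kap τ z).le
  | succ i => exact Tr.kap_comp h (AA_lt N τ Tm i) a

/-- The nodes that carry `ZZ (i + 1)` have a small variance. -/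
lemma ZZ_vv (hr : 0 < r) {i z : ℕ} (hz : ZZ r tr N τ a Tm (i + 1) z ≠ 0) :
    tr.vv N τ z ≤ rp r (3 * 4 ^ i) := by
  have h1 : ¬AA r tr N τ Tm i z := by
    intro h
    apply hz
    simp only [ZZ, Tr.st]
    rw [if_pos h]
  by_cases h2 : τ < z
  · by_contra h3
    exact h1 ⟨h2, Or.inr (not_le.1 h3)⟩
  · unfold Tr.vv
    rw [Ioc_eq_empty (by omega), sum_empty]
    exact (rp_pos hr _).le

end ZZ

/-- The law of a pair `(z, f)`; the missing mass sits on `none`. -/
noncomputable def PP (tr : Tr n) (τ a : ℕ) (Z : ℕ → ℝ) : Option (ℕ × ℕ) → ℝ := fun x =>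
  Option.elim x
    (1 - ∑ y ∈ range (a + 1) ×ˢ range (τ + 1), Z y.1 * tr.st (fun w => τ < w) y.1 y.2)
    fun y => Z y.1 * tr.st (fun w => τ < w) y.1 y.2

lemma PP_sum (tr : Tr n) (τ a : ℕ) (Z : ℕ → ℝ) :
    ∑ x ∈ insertNone (range (a + 1) ×ˢ range (τ + 1)), PP tr τ a Z x = 1 := by
  rw [sum_insertNone]
  simp [PP]

lemma PP_mean (tr : Tr n) (τ a : ℕ) (Z : ℕ → ℝ) (G : Option (ℕ × ℕ) → ℝ) (hG : G none = 0) :
    ∑ x ∈ insertNone (range (a + 1) ×ˢ range (τ + 1)), PP tr τ a Z x * G x =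
      ∑ z ∈ range (a + 1), Z z *
        ∑ f ∈ range (τ + 1), tr.st (fun w => τ < w) z f * G (some (z, f)) := by
  rw [sum_insertNone, hG, mul_zero, zero_add, sum_product]
  refine sum_congr rfl fun z _ => ?_
  rw [mul_sum]
  refine sum_congr rfl fun f _ => ?_
  simp only [PP, Option.elim]
  ring

lemma PP_nonneg {tr : Tr n} (h : tr.WF) (τ a : ℕ) {Z : ℕ → ℝ} (hZ : ∀ z, 0 ≤ Z z)
    (h1 : ∑ z ∈ range (a + 1), Z z ≤ 1) (x : Option (ℕ × ℕ)) : 0 ≤ PP tr τ a Z x := by
  cases x with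
  | none =>
    simp only [PP, Option.elim]
    rw [sum_product, sub_nonneg]
    refine le_trans (sum_le_sum fun z _ => ?_) h1
    simp only
    rw [← mul_sum]
    exact mul_le_of_le_one_right (hZ z) (st_sum_le' h τ z)
  | some y => exact mul_nonneg (hZ _) (Tr.st_nonneg h _ _ _)

lemma PP_sw (tr : Tr n) (τ a : ℕ) (Z : ℕ → ℝ) (b : Fin n) (F : ℕ → ℝ) :
    ∑ x ∈ insertNone (range (a + 1) ×ˢ range (τ + 1)), PP tr τ a Z x * (sw tr b x * F (sz x)) =
      ∑ z ∈ range (a + 1), Z z * tr.x0 τ z b * F z := by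
  rw [PP_mean tr τ a Z _ (by simp [sw])]
  refine sum_congr rfl fun z _ => ?_
  rw [x0_eq, mul_assoc, sum_mul]
  congr 1
  refine sum_congr rfl fun f _ => ?_
  simp only [sw, sz]
  ring

lemma PP_so {tr : Tr n} (h : tr.WF) (τ a : ℕ) {Z : ℕ → ℝ} (hZ : ∀ z, 0 ≤ Z z) {F : ℕ → ℝ}
    (hF : ∀ z, 0 ≤ F z) :
    ∑ x ∈ insertNone (range (a + 1) ×ˢ range (τ + 1)), PP tr τ a Z x * (so x * F (sz x)) ≤
      ∑ z ∈ range (a + 1), Z z * F z := by
  rw [PP_mean tr τ a Z _ (by simp [so])]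
  refine sum_le_sum fun z _ => mul_le_mul_of_nonneg_left ?_ (hZ z)
  simp only [so, sz, one_mul]
  rw [← sum_mul]
  exact mul_le_of_le_one_left (hF z) (st_sum_le' h τ z)

lemma so_nonneg (x : Option (ℕ × ℕ)) : 0 ≤ so x := by
  cases x <;> simp [so]

lemma sw_nonneg (tr : Tr n) (b : Fin n) (x : Option (ℕ × ℕ)) : 0 ≤ sw tr b x := by
  cases x with
  | none => simp [sw]
  | some y => simp only [sw]; linarith [tr.bt_le_one y.2 b]

lemma sw_le_one (tr : Tr n) (b : Fin n) (x : Option (ℕ × ℕ)) : sw tr b x ≤ 1 := by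
  cases x with
  | none => simp [sw]
  | some y => simp only [sw]; linarith [tr.bt_nonneg y.2 b]

/-- A truncated variance is at most the full one. -/
lemma vv_cut {tr : Tr n} (h : tr.WF) (N : Finset (Fin n)) (τ z t : ℕ) :
    ∑ w ∈ Ioc τ t, tr.pi τ z w ^ 2 * tr.VV N w ≤ tr.vv N τ z := by
  have h1 : tr.vv N τ z = ∑ w ∈ Ioc τ (z + t), tr.pi τ z w ^ 2 * tr.VV N w := by
    unfold Tr.vv
    apply sum_subset
    · intro x hx; simp only [mem_Ioc] at hx ⊢; omega
    · intro x hx hx'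
      simp only [mem_Ioc] at hx hx'
      unfold Tr.pi
      rw [Tr.gr_of_lt tr _ (by omega : z < x)]
      simp
  rw [h1]
  apply sum_le_sum_of_subset_of_nonneg
  · intro x hx; simp only [mem_Ioc] at hx ⊢; omega
  · intro w _ _
    exact mul_nonneg (sq_nonneg _) (Tr.VV_nonneg h N w)

lemma markov {ι : Type} [Fintype ι] (F : ι → ℝ) (hF : ∀ l, 0 ≤ F l) {c B : ℝ} (hc : 0 < c)
    (h : ∑ l, F l ≤ c * B) : ((univ.filter fun l => c < F l).card : ℝ) ≤ B := by
  have h1 : c * ((univ.filter fun l => c < F l).card : ℝ) ≤ ∑ l, F l := by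
    calc c * ((univ.filter fun l => c < F l).card : ℝ)
        = ∑ _l ∈ univ.filter (fun l => c < F l), c := by rw [sum_const, nsmul_eq_mul, mul_comm]
      _ ≤ ∑ l ∈ univ.filter (fun l => c < F l), F l :=
          sum_le_sum fun l hl => (mem_filter.1 hl).2.le
      _ ≤ ∑ l, F l := sum_le_sum_of_subset_of_nonneg (filter_subset _ _) fun l _ _ => hF l
  exact le_of_mul_le_mul_left (h1.trans h) hc

lemma df_eq (tr : Tr n) (f f' : ℕ) (b : Fin n) :
    tr.df f f' b = (1 - tr.bt f b) * tr.bt f' b + (1 - tr.bt f' b) * tr.bt f b := by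
  unfold Tr.df Tr.bt
  cases tr.c f b <;> cases tr.c f' b <;> simp

/-- `x0 * x1` is half the probability that two independent stopping nodes differ. -/
lemma xoxi_eq (tr : Tr n) (τ z : ℕ) (b : Fin n) : 2 * (tr.x0 τ z b * tr.x1 τ z b) =
    ∑ f ∈ range (τ + 1), ∑ f' ∈ range (τ + 1),
      tr.st (fun w => τ < w) z f * tr.st (fun w => τ < w) z f' * tr.df f f' b := by
  rw [x0_eq, x1_eq, two_mul]
  conv_lhs => enter [2]; rw [mul_comm]
  rw [sum_mul_sum, sum_mul_sum, ← sum_add_distrib]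
  refine sum_congr rfl fun f _ => ?_
  rw [← sum_add_distrib]
  refine sum_congr rfl fun f' _ => ?_
  rw [df_eq]
  ring

lemma sum_x1_le {tr : Tr n} (h : tr.WF) {L : ℕ} {W : Fin L → Fin n} {N : Finset (Fin n)} {ε : ℝ}
    {τ : ℕ} (hε : 0 ≤ ε) (ht : tr.Typ W N ε τ) (z : ℕ) :
    ∑ l, tr.x1 τ z (W l) ≤ (1 / 2 + ε) * L := by
  simp only [x1_eq]
  rw [sum_comm]
  calc ∑ f ∈ range (τ + 1), ∑ l, tr.st (fun w => τ < w) z f * tr.bt f (W l)
      ≤ ∑ f ∈ range (τ + 1), tr.st (fun w => τ < w) z f * ((1 / 2 + ε) * L) := by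
        refine sum_le_sum fun f hf => ?_
        rw [← mul_sum]
        exact mul_le_mul_of_nonneg_left (ht.one f (by simpa [Nat.lt_succ_iff] using hf))
          (Tr.st_nonneg h _ _ _)
    _ ≤ (1 / 2 + ε) * L := by
        rw [← sum_mul]
        exact mul_le_of_le_one_left (by positivity) (st_sum_le' h τ z)

lemma sum_xoxi_le {tr : Tr n} (h : tr.WF) {L : ℕ} {W : Fin L → Fin n} {N : Finset (Fin n)} {ε : ℝ}
    {τ : ℕ} (hε : 0 ≤ ε) (ht : tr.Typ W N ε τ) (z : ℕ) :
    ∑ l, tr.x0 τ z (W l) * tr.x1 τ z (W l) ≤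
      ((∑ b ∈ N, tr.x0 τ z b * tr.x1 τ z b) / N.card + ε) * L := by
  set S : ℕ → ℝ := fun f => tr.st (fun w => τ < w) z f with hS
  have hS0 : ∀ f, 0 ≤ S f := fun f => Tr.st_nonneg h _ _ _
  have hS1 : ∑ f ∈ range (τ + 1), S f ≤ 1 := st_sum_le' h τ z
  have hS2 : ∑ f ∈ range (τ + 1), ∑ f' ∈ range (τ + 1), S f * S f' ≤ 1 := by
    rw [← sum_mul_sum]
    exact mul_le_one₀ hS1 (sum_nonneg fun f _ => hS0 f) hS1
  have e1 : ∀ {ι : Type} (s : Finset ι) (c : ι → Fin n),
      2 * ∑ l ∈ s, tr.x0 τ z (c l) * tr.x1 τ z (c l) =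
        ∑ f ∈ range (τ + 1), ∑ f' ∈ range (τ + 1), S f * S f' * ∑ l ∈ s, tr.df f f' (c l) := by
    intro ι s c
    rw [mul_sum]
    simp only [xoxi_eq]
    rw [sum_comm]
    refine sum_congr rfl fun f _ => ?_
    rw [sum_comm]
    refine sum_congr rfl fun f' _ => ?_
    rw [mul_sum]
  have e2 := e1 univ W
  have e3 := e1 N id
  simp only [id] at e3
  have e4 : ∑ f ∈ range (τ + 1), ∑ f' ∈ range (τ + 1), S f * S f' * ∑ l, tr.df f f' (W l) ≤
      ∑ f ∈ range (τ + 1), ∑ f' ∈ range (τ + 1),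
        S f * S f' * (((∑ b ∈ N, tr.df f f' b) / N.card + ε) * L) := by
    refine sum_le_sum fun f hf => sum_le_sum fun f' hf' => ?_
    exact mul_le_mul_of_nonneg_left (ht.two f (by simpa [Nat.lt_succ_iff] using hf) f'
      (by simpa [Nat.lt_succ_iff] using hf')) (mul_nonneg (hS0 f) (hS0 f'))
  have e5 : ∑ f ∈ range (τ + 1), ∑ f' ∈ range (τ + 1),
        S f * S f' * (((∑ b ∈ N, tr.df f f' b) / N.card + ε) * L) =
      (∑ f ∈ range (τ + 1), ∑ f' ∈ range (τ + 1), S f * S f' * ∑ b ∈ N, tr.df f f' b) *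
          (L / N.card) +
        (∑ f ∈ range (τ + 1), ∑ f' ∈ range (τ + 1), S f * S f') * (ε * L) := by
    rw [sum_mul, sum_mul, ← sum_add_distrib]
    refine sum_congr rfl fun f _ => ?_
    rw [sum_mul, sum_mul, ← sum_add_distrib]
    refine sum_congr rfl fun f' _ => ?_
    ring
  rw [e5, ← e3, ← e2] at e4
  have e6 : (∑ f ∈ range (τ + 1), ∑ f' ∈ range (τ + 1), S f * S f') * (ε * L) ≤ ε * L :=
    mul_le_of_le_one_left (by positivity) hS2
  have e7 : 0 ≤ ε * L := by positivity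
  have e8 : ((∑ b ∈ N, tr.x0 τ z b * tr.x1 τ z b) / N.card + ε) * L =
      (∑ b ∈ N, tr.x0 τ z b * tr.x1 τ z b) * (L / N.card) + ε * L := by ring
  rw [e8]
  linarith

end DS

end Pool.Agent.P.MP_5c258a_lc.Bin
end

-- part Pool.Agent.P.MP_5c258a_lc.Bin.Eng
section

/-! The bettor of the engine (paper section 6, STEP): definitions. -/

namespace Pool.Agent.P.MP_5c258a_lc.Bin

open Finset Classical

def eN (H : ℕ) : ℕ := H ^ 70
def eB (H : ℕ) : ℕ := H ^ 83
def eJ (H : ℕ) : ℕ := 300000 * H ^ 47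
def eM (H : ℕ) : ℕ := H ^ 83 * (H ^ 5 + 2)

abbrev ESt (E K : Type) := (ℕ → K → ℝ) × (E → MS)

abbrev EOp (H : ℕ) (K : Type) :=
  Option (K → Fin (eN H + 1)) × Fin (eJ H + 1) × (Bool ⊕ (K → Fin (eM H + 1)))

noncomputable def grid (H j : ℕ) : ℝ := (H : ℝ) ^ 5 / (1 + 1 / 300000) ^ j

namespace Plan

variable {n : ℕ} {E K : Type} [Fintype E] [Fintype K]

def act (P : Plan n E K) (e : E) (w : ℕ) : Prop := w ∈ Ioc (P.lo e) (P.hi e)

noncomputable def gh (P : Plan n E K) (tr : Tr n) (w : ℕ) (d : K → ℝ) (e : E) : ℝ :=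
  ∑ k, P.om e tr w k * d k

def Ok (H : ℕ) (P : Plan n E K) (tr : Tr n) (w : ℕ) (ms : E → MS) (d : K → ℝ) (j : ℕ) : Prop :=
  (∑ e, if P.act e w then pay (grid H j * P.gh tr w d e / (ms e).lam) (tr.pb w (P.col e)) else 0)
    ≤ 1 ∧
  ∀ e, P.act e w → grid H j * P.gh tr w d e * rr (P.ty e) (tr.pb w (P.col e)) ≤ 3 * (ms e).lam

noncomputable def jref (H : ℕ) (P : Plan n E K) (tr : Tr n) (w : ℕ) (ms : E → MS) (d : K → ℝ) :
    ℕ := if h : ∃ j, P.Ok H tr w ms d j then Nat.find h else 0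

/-- The stake of episode `e` for the grid index `j` (`up` says case U) and the mode `m`. -/
noncomputable def stake (H : ℕ) (P : Plan n E K) (tr : Tr n) (w : ℕ) (d : K → ℝ) (j : ℕ)
    (up : Prop) (e : E) : Bool ⊕ (K → Fin (eM H + 1)) → ℝ
  | .inl false => if up then grid H (j + 1) * P.gh tr w d e else 0
  | .inl true => grid H j * P.gh tr w d e
  | .inr B => ∑ k, P.om e tr w k * (((B k : ℕ) : ℝ) / eB H - 1)

noncomputable def Ge (H : ℕ) (P : Plan n E K) (s : ESt E K) (tr : Tr n) (w : ℕ) (o : EOp H K)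
    (e : E) (x : Bool) : ℝ :=
  let d := dnew (eN H) s.1 tr w o.1
  let up := (o.2.1 : ℕ) < P.jref H tr w s.2 d
  let Q := grid H o.2.1 * P.gh tr w d e
  let p := tr.pb w (P.col e)
  let qt := P.stake H tr w d o.2.1 up e o.2.2
  if up then GU (qt / ((pre (P.ty e) (s.2 e) Q p).lam * den (P.ty e) (pre (P.ty e) (s.2 e) Q p))) p x
  else GD (qt / ((s.2 e).lam * den (P.ty e) (s.2 e))) (Q / (s.2 e).lam) p x

noncomputable def nxt (H : ℕ) (P : Plan n E K) (s : ESt E K) (tr : Tr n) (w : ℕ) (o : EOp H K)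
    (e : E) (x : Bool) : MS :=
  let d := dnew (eN H) s.1 tr w o.1
  let up := (o.2.1 : ℕ) < P.jref H tr w s.2 d
  let Q := grid H o.2.1 * P.gh tr w d e
  let p := tr.pb w (P.col e)
  let qt := P.stake H tr w d o.2.1 up e o.2.2
  if up then post (P.ty e) (pre (P.ty e) (s.2 e) Q p) (qt * (bR x - p))
  else post (P.ty e) (s.2 e) (qD (s.2 e) Q qt * (bR x - p))

noncomputable def w1 (H : ℕ) (K : Type) [Fintype K] : Option (K → Fin (eN H + 1)) → ℝ
  | none => 1 / 2
  | some _ => 1 / 2 / (eN H + 1 : ℝ) ^ Fintype.card K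

noncomputable def w2 (jr j : ℕ) : ℝ :=
  if j ≤ jr then 1 / (((jr - j : ℕ) + 1 : ℝ) * ((jr - j : ℕ) + 2)) else 0

noncomputable def w3 (H : ℕ) (K : Type) [Fintype K] : Bool ⊕ (K → Fin (eM H + 1)) → ℝ
  | .inl _ => 1 / 3
  | .inr _ => 1 / 3 / (eM H + 1 : ℝ) ^ Fintype.card K

noncomputable def ewt (H : ℕ) (P : Plan n E K) (s : ESt E K) (tr : Tr n) (w : ℕ) (o : EOp H K) :
    ℝ := w1 H K o.1 * w2 (P.jref H tr w s.2 (dnew (eN H) s.1 tr w o.1)) o.2.1 * w3 H K o.2.2

noncomputable def eG (H : ℕ) (P : Plan n E K) (s : ESt E K) (tr : Tr n) (w : ℕ) (o : EOp H K)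
    (b : Fin n) (x : Bool) : ℝ :=
  if h : ∃ e, P.act e w ∧ P.col e = b then P.Ge H s tr w o h.choose x else 1

noncomputable def eupd (H : ℕ) (P : Plan n E K) (s : ESt E K) (tr : Tr n) (w : ℕ) (o : EOp H K)
    (y : Fin n → Bool) : ESt E K :=
  (Function.update s.1 w (dnew (eN H) s.1 tr w o.1),
    fun e => if P.act e w then P.nxt H s tr w o e (y (P.col e)) else s.2 e)

/-- Potential of episode `e` at time `t` in the machine state `s`. -/
noncomputable def pot (P : Plan n E K) (tr : Tr n) (A : K → ℕ → Prop) (z : K → ℕ) (e : E)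
    (s : MS) (t : ℕ) : ℝ :=
  Phi (P.ty e) s
    (base (P.ty e) (P.lam e) + tr.XX (P.q tr A z e) (P.col e) (P.lo e) (min t (P.hi e)))
    (tr.QQ (P.q tr A z e) (P.col e) (P.lo e) (min t (P.hi e)))

/-- Invariant of the machine states. -/
def SInv (P : Plan n E K) (ms : E → MS) : Prop :=
  ∀ e, MInv (P.ty e) (ms e) ∧ P.lam e ≤ (ms e).lam ∧ (P.ty e = .L → (ms e).lam = P.lam e)

theorem eng_realize : True := by
  have := @stake.eq_1; have := @stake.eq_2; have := @stake.eq_3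
  have := @w1.eq_1; have := @w1.eq_2; have := @w3.eq_1; have := @w3.eq_2
  trivial

end Plan

end Pool.Agent.P.MP_5c258a_lc.Bin
end

-- part Pool.Agent.P.MP_5c258a_lc.Bin.Hyp
section

/-! Task HYP: Lemma H on an orbit, and invariance of operators on orbits (paper section 1). -/

namespace Pool.Agent.P.MP_5c258a_lc.Bin

open Finset Classical

variable {n : ℕ}

/-- Bitwise sum. -/
def xr (u F : Fin n → Bool) : Fin n → Bool := fun b => xor (F b) (u b)

lemma xr_inv (u : Fin n → Bool) : Function.Involutive (xr u) := fun F => by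
  funext b; simp [xr]

lemma ca_xr (u v F : Fin n → Bool) :
    ca u v (xr u F) = (univ.filter fun j => xr u v j = false ∧ F j = true).card := by
  unfold ca
  congr 1
  ext b
  simp only [xr, mem_filter, mem_univ, true_and]
  cases u b <;> cases v b <;> cases F b <;> simp

lemma cb_xr (u v F : Fin n → Bool) :
    cb u v (xr u F) = (univ.filter fun j => xr u v j = true ∧ F j = true).card := by
  unfold cb
  congr 1
  ext b
  simp only [xr, mem_filter, mem_univ, true_and]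
  cases u b <;> cases v b <;> cases F b <;> simp

lemma rt_xr (u v F : Fin n → Bool) (b : Fin n) :
    rt (xr u v) F b = if u b = v b then alf u v (xr u F) else bet u v (xr u F) := by
  unfold rt alf bet
  rw [ca_xr, cb_xr]
  split_ifs with h
  · have : xr u v b = false := by simp [xr, h]
    rw [this]
    congr 3
    ext j
    simp only [xr, mem_filter, mem_univ, true_and]
    cases u j <;> cases v j <;> simp
  · have : xr u v b = true := by
      revert h; unfold xr; cases u b <;> cases v b <;> simp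
    rw [this]
    congr 3
    ext j
    simp only [xr, mem_filter, mem_univ, true_and]
    cases u j <;> cases v j <;> simp

lemma mem_orb {u v y y' : Fin n → Bool} :
    y' ∈ orb u v y ↔ ca u v y' = ca u v y ∧ cb u v y' = cb u v y := by simp [orb]

lemma alf_orb {u v y y' : Fin n → Bool} (h : y' ∈ orb u v y) : alf u v y' = alf u v y := by
  rw [alf, alf, (mem_orb.1 h).1]

lemma bet_orb {u v y y' : Fin n → Bool} (h : y' ∈ orb u v y) : bet u v y' = bet u v y := by
  rw [bet, bet, (mem_orb.1 h).2]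

/-- Lemma H. -/
theorem lemmaH (u v y0 : Fin n → Bool) (G : Fin n → Bool → ℝ) (h0 : ∀ b x, 0 ≤ G b x)
    (h1 : ∀ b, pbf u v (alf u v y0) (bet u v y0) b * G b true +
      (1 - pbf u v (alf u v y0) (bet u v y0) b) * G b false ≤ 1) :
    ∑ y ∈ orb u v y0, √(∏ b, G b (y b)) ≤ (orb u v y0).card := by
  have key := lemH_fix (part := xr u v)
    (μ := fun F => if xr u F ∈ orb u v y0 then 1 else 0)
    (fun F => by split_ifs <;> norm_num)
    (fun b b' h F => by simp only [mem_orb, ca_xr, cb_xr, cnt_swap _ h])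
    (rt (xr u v) (xr u y0)) (rt_nonneg _ _) (rt_le _ _)
    (fun F hF => by
      have h : xr u F ∈ orb u v y0 := by by_contra h; simp [h] at hF
      funext b
      rw [rt_xr, rt_xr, xr_inv u y0, alf_orb h, bet_orb h])
    (fun b x => G b (xor x (u b))) (fun b x => h0 _ _)
    (fun b => by
      have := h1 b
      rw [rt_xr, xr_inv u y0]
      revert this
      unfold pbf
      cases u b <;> cases v b <;> simp <;> exact fun h => by linarith)
  have e : ∀ φ : (Fin n → Bool) → ℝ, ∑ y ∈ orb u v y0, φ y =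
      ∑ F, (if xr u F ∈ orb u v y0 then 1 else 0) * φ (xr u F) := fun φ => by
    rw [← Equiv.sum_comp (xr_inv u).toPerm]
    simp [xr_inv u _]
  rw [card_eq_sum_ones, Nat.cast_sum, e, e]
  simpa [xr] using key

lemma xr_const {x u : Fin n → Bool} (h : u = x ∨ u = cpl x) : ∃ s, ∀ j, x j = xor (u j) s := by
  rcases h with rfl | rfl
  · exact ⟨false, by simp⟩
  · exact ⟨true, by simp [cpl]⟩

/-- An unbiased operator applied to `x 0, x 1` is constant on the orbits of `u, v`, where `u`, `v`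
are `x 0`, `x 1` or their complements. -/
theorem op_orb (D : Op n 2) (x : Fin 2 → Fin n → Bool) (u v : Fin n → Bool)
    (hu : u = x 0 ∨ u = cpl (x 0)) (hv : v = x 1 ∨ v = cpl (x 1)) (y y' : Fin n → Bool)
    (h : y' ∈ orb u v y) : D.p x y' = D.p x y := by
  obtain ⟨F, rfl⟩ := (xr_inv u).surjective y
  obtain ⟨F', rfl⟩ := (xr_inv u).surjective y'
  rw [mem_orb, ca_xr, ca_xr, cb_xr, cb_xr] at h
  have c1 : ∀ s, (univ.filter fun j => xr u v j = s ∧ F j = true).card =
      (univ.filter fun j => xr u v j = s ∧ F' j = true).card := fun s => by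
    cases s
    exacts [h.1.symm, h.2.symm]
  have c2 : ∀ (s : Bool) (F : Fin n → Bool), (univ.filter fun j => xr u v j = s ∧ F j = true).card +
      (univ.filter fun j => xr u v j = s ∧ F j = false).card =
      (univ.filter fun j => xr u v j = s).card := fun s F => by
    simpa [filter_filter] using card_filter_add_card_filter_not
      (s := univ.filter fun j => xr u v j = s) (fun j => F j = true)
  have c3 : ∀ c : Bool × Bool, Fintype.card {j // (xr u v j, F j) = c} =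
      Fintype.card {j // (xr u v j, F' j) = c} := fun ⟨s, t⟩ => by
    rw [Fintype.card_subtype, Fintype.card_subtype]
    simp only [Prod.mk.injEq]
    cases t
    · have := c1 s
      have := c2 s F
      have := c2 s F'
      omega
    · exact c1 s
  let π : Equiv.Perm (Fin n) := Equiv.ofFiberEquiv fun c => Fintype.equivOfCardEq (c3 c)
  have hπ : ∀ j, (xr u v (π j), F' (π j)) = (xr u v j, F j) := fun j =>
    Equiv.ofFiberEquiv_map (fun c => Fintype.equivOfCardEq (c3 c)) j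
  obtain ⟨s, hs⟩ := xr_const hu
  obtain ⟨t, ht⟩ := xr_const hv
  rw [← op_sp D π (fun j => xor (u (π j)) (u j)) x]
  congr 1
  · funext i j
    have := (Prod.mk.inj (hπ j)).1
    revert this
    fin_cases i
    · simp only [sp, Fin.zero_eta, hs]
      cases u (π j) <;> cases u j <;> cases s <;> simp
    · simp only [sp, Fin.mk_one, ht, xr]
      cases u (π j) <;> cases u j <;> cases v (π j) <;> cases v j <;> cases t <;> simp
  · funext j
    simp only [sp, xr, (Prod.mk.inj (hπ j)).2]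
    cases u (π j) <;> cases u j <;> cases F j <;> rfl

lemma cpl_inv : Function.Involutive (cpl (n := n)) := fun y => by
  funext b; simp [cpl]

lemma ca_cpl (u v y : Fin n → Bool) :
    ca u v (cpl y) + ca u v y = (univ.filter fun b => u b = v b).card := by
  rw [← card_filter_add_card_filter_not (fun b => y b = u b), filter_filter, filter_filter, ca, ca]
  congr 2
  ext b
  simp only [cpl, mem_filter, mem_univ, true_and]
  cases y b <;> cases u b <;> simp

lemma cb_cpl (u v y : Fin n → Bool) :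
    cb u v (cpl y) + cb u v y = (univ.filter fun b => u b ≠ v b).card := by
  rw [← card_filter_add_card_filter_not (fun b => y b = u b), filter_filter, filter_filter, cb, cb]
  congr 2
  ext b
  simp only [cpl, mem_filter, mem_univ, true_and]
  cases y b <;> cases u b <;> simp

lemma sum_orb_cpl (u v y0 : Fin n → Bool) (φ : (Fin n → Bool) → ℝ) :
    ∑ y ∈ orb u v y0, φ (cpl y) = ∑ y ∈ orb u v (cpl y0), φ y := by
  refine sum_bijective cpl cpl_inv.bijective (fun y => ?_) fun _ _ => rfl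
  have := ca_cpl u v y
  have := ca_cpl u v y0
  have := cb_cpl u v y
  have := cb_cpl u v y0
  rw [mem_orb, mem_orb]
  omega

/-- One step: orbit averages at most `M` give expectation at most `M` after normalising. -/
theorem step_le (D : Op n 2) (x : Fin 2 → Fin n → Bool) (O : Finset (Fin n)) (u v : Fin n → Bool)
    (hu : u = x 0 ∨ u = cpl (x 0)) (hv : v = x 1 ∨ v = cpl (x 1)) (Ψ : (Fin n → Bool) → ℝ) (M : ℝ)
    (h : ∀ y0, ∑ y ∈ orb u v y0, Ψ y ≤ (orb u v y0).card * M) :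
    ∑ y, D.p x y * Ψ (nz O u v y) ≤ M := by
  have hm : ∀ y ∈ (univ : Finset (Fin n → Bool)), (ca u v y, cb u v y) ∈
      univ.image fun y => (ca u v y, cb u v y) := fun y _ => mem_image_of_mem _ (mem_univ _)
  have e : M = ∑ y, D.p x y * M := by rw [← sum_mul, D.sum_one, one_mul]
  rw [e, ← sum_fiberwise_of_maps_to hm, ← sum_fiberwise_of_maps_to hm fun y => D.p x y * M]
  refine sum_le_sum fun c hc => ?_
  obtain ⟨y0, -, rfl⟩ := mem_image.1 hc
  have ho : (univ.filter fun y => (ca u v y, cb u v y) = (ca u v y0, cb u v y0)) = orb u v y0 := by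
    ext y; simp [orb]
  have hp : ∀ φ : (Fin n → Bool) → ℝ, ∑ y ∈ orb u v y0, D.p x y * φ y =
      D.p x y0 * ∑ y ∈ orb u v y0, φ y := fun φ => by
    rw [mul_sum]
    exact sum_congr rfl fun y hy => by rw [op_orb D x u v hu hv y0 y hy]
  rw [ho, hp, hp]
  refine mul_le_mul_of_nonneg_left ?_ (D.nonneg _ _)
  by_cases hc : (O.card : ℝ) / 2 ≤ ∑ b ∈ O, pbf u v (alf u v y0) (bet u v y0) b
  · rw [sum_congr rfl (g := Ψ) fun y hy => by rw [nz, alf_orb hy, bet_orb hy, if_pos hc]]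
    simpa using h y0
  · rw [sum_congr rfl (g := fun y => Ψ (cpl y)) fun y hy => by
      rw [nz, alf_orb hy, bet_orb hy, if_neg hc], sum_orb_cpl, sum_orb_cpl u v y0 fun _ => M]
    simpa using h (cpl y0)

lemma alf_nonneg (u v y : Fin n → Bool) : 0 ≤ alf u v y := by unfold alf; positivity

lemma alf_le_one (u v y : Fin n → Bool) : alf u v y ≤ 1 := by
  exact div_le_one_of_le₀ (Nat.cast_le.2 ((Nat.le_add_left _ _).trans (ca_cpl u v y).le))
    (by positivity)

lemma bet_nonneg (u v y : Fin n → Bool) : 0 ≤ bet u v y := by unfold bet; positivity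

lemma bet_le_one (u v y : Fin n → Bool) : bet u v y ≤ 1 := by
  exact div_le_one_of_le₀ (Nat.cast_le.2 ((Nat.le_add_left _ _).trans (cb_cpl u v y).le))
    (by positivity)

lemma pbf_cpl (u v y : Fin n → Bool) (b : Fin n) :
    pbf u v (alf u v (cpl y)) (bet u v (cpl y)) b = 1 - pbf u v (alf u v y) (bet u v y) b := by
  unfold pbf
  by_cases h : u b = v b
  · have hp : (0 : ℝ) < (univ.filter fun b => u b = v b).card := by
      exact_mod_cast card_pos.2 ⟨b, by simp [h]⟩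
    have : alf u v (cpl y) = 1 - alf u v y := by
      rw [alf, alf, eq_sub_iff_add_eq, ← add_div, div_eq_one_iff_eq hp.ne']
      exact_mod_cast ca_cpl u v y
    rw [if_pos h, if_pos h, this]
    split_ifs <;> ring
  · have hp : (0 : ℝ) < (univ.filter fun b => u b ≠ v b).card := by
      exact_mod_cast card_pos.2 ⟨b, by simp [h]⟩
    have : bet u v (cpl y) = 1 - bet u v y := by
      rw [bet, bet, eq_sub_iff_add_eq, ← add_div, div_eq_one_iff_eq hp.ne']
      exact_mod_cast cb_cpl u v y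
    rw [if_neg h, if_neg h, this]
    split_ifs <;> ring

theorem nrm_WF (A : BAlg n) (O : Finset (Fin n)) (xs : List (Fin n → Bool)) :
    (nrm A O xs).WF where
  u_lt w hw := lt_of_le_of_lt (min_le_right _ _) (by omega)
  v_lt w hw := lt_of_le_of_lt (min_le_right _ _) (by omega)
  al0 _ := alf_nonneg _ _ _
  al1 _ := alf_le_one _ _ _
  be0 _ := bet_nonneg _ _ _
  be1 _ := bet_le_one _ _ _

lemma half_le {O : Finset (Fin n)} {a a' : Fin n → ℝ} (h : ¬(O.card : ℝ) / 2 ≤ ∑ b ∈ O, a b)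
    (e : ∀ b, a' b = 1 - a b) : (O.card : ℝ) / 2 ≤ ∑ b ∈ O, a' b := by
  simp only [e, sum_sub_distrib, sum_const, nsmul_eq_mul, mul_one]
  linarith [not_le.1 h]

theorem nrm_Norm (A : BAlg n) (O : Finset (Fin n)) (xs : List (Fin n → Bool)) :
    (nrm A O xs).Norm O where
  n0 := by
    simp only [Tr.bt, nrm, nc_zero, nz0]
    by_cases h : (O.card : ℝ) / 2 ≤
        ∑ b ∈ O, (if xs.getD 0 (fun _ => false) b = true then 1 else 0)
    · rwa [if_pos h]
    · rw [if_neg h]
      refine half_le h fun b => ?_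
      generalize xs.getD 0 (fun _ => false) = y
      by_cases hb : y b = true <;> simp [cpl, hb]
  nw w hw := by
    obtain ⟨w, rfl⟩ := Nat.exists_eq_succ_of_ne_zero hw.ne'
    simp only [pb_eq_pbf, nrm, Nat.succ_eq_add_one, nc_succ, nz]
    split_ifs with h
    · exact h
    · exact half_le h (pbf_cpl _ _ _)

theorem nc_cases (A : BAlg n) (O : Finset (Fin n)) (xs : List (Fin n → Bool)) (w : ℕ) :
    nc A O xs w = xs.getD w (fun _ => false) ∨ nc A O xs w = cpl (xs.getD w fun _ => false) := by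
  cases w
  · rw [nc_zero, nz0]; split_ifs <;> simp
  · rw [nc_succ, nz]; split_ifs <;> simp

end Pool.Agent.P.MP_5c258a_lc.Bin
end

-- part Pool.Agent.P.MP_5c258a_lc.Bin.Lock
section

/-! Task LOCK: if the lock fails at some scale, a plan of a small family wins (section 4, LOCK). -/

namespace Pool.Agent.P.MP_5c258a_lc.Bin

open Finset Classical

variable {n : ℕ}

/-- The rise of a column which is right at the end lies in the unit interval. -/
lemma lock_rise {tr : Tr n} (h : tr.WF) {s a : ℕ} (hs : s ≤ a) {b : Fin n}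
    (hb : tr.c a b = true) : 0 ≤ rise tr s a b ∧ rise tr s a b ≤ 1 := by
  have h1 := Tr.evolve h (le_refl s) hs a b
  have h2 := Tr.kill_le h (t := a) (le_refl s) a b
  have h3 := Tr.mass h s a b
  have h4 := Tr.x1_nonneg h s a b
  have h5 := Tr.x0_nonneg h s a b
  have h6 : tr.x1 a a b = 1 := by rw [Tr.x1_top tr (le_refl a)]; simp [Tr.bt, hb]
  have h7 : ∑ w ∈ Ioc s a, tr.pi s a w * (tr.xi w b + tr.al w * tr.kb w b)
      = rise tr s a b + ∑ w ∈ Ioc s a, tr.pi s a w * (tr.al w * tr.kb w b) := by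
    unfold rise Tr.XX
    rw [← sum_add_distrib]
    exact sum_congr rfl fun w _ => by ring
  constructor <;> linarith [h2.1, h2.2]

/-- Each particle runs all its slots as type L or all as type H. -/
lemma lock_pick {S : ℕ} (y Q : Fin S → ℝ) {lam : ℝ} (hlam : 1 ≤ lam) (hy : ∀ s, y s ≤ 1) :
    ∃ β : Bool, cA * (∑ s, y s) / lam - 2 * S / (cH * lam ^ 2) ≤
      ∑ s, gainOf (if β then .L else .H) (if β then lam else 1) (y s) (Q s) := by
  have hH : 0 < cH := by unfold cH; positivity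
  have hl : 0 < lam := by linarith
  by_cases hQ : ∑ s, Q s ≤ 2 * S / cH
  · refine ⟨true, ?_⟩
    simp only [if_true, gainOf]
    rw [sum_sub_distrib, ← sum_div, ← sum_div, ← mul_sum]
    have : (∑ s, Q s) / lam ^ 2 ≤ 2 * S / (cH * lam ^ 2) := by
      rw [← div_div]
      exact div_le_div_of_nonneg_right hQ (by positivity)
    linarith
  · refine ⟨false, ?_⟩
    simp only [Bool.false_eq_true, if_false, gainOf]
    rw [sum_sub_distrib, ← mul_sum]
    simp only [sum_const, card_univ, Fintype.card_fin, nsmul_eq_mul, mul_one]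
    have h1 : 2 * (S : ℝ) < cH * ∑ s, Q s := by
      have := (div_lt_iff₀ hH).1 (not_le.1 hQ)
      linarith
    have h2 : ∑ s, y s ≤ S := by
      have := sum_le_sum (s := univ) fun s _ => hy s
      simpa using this
    have h3 : cA * (∑ s, y s) / lam ≤ S := by
      rw [div_le_iff₀ hl]
      have h4 : (S : ℝ) * 1 ≤ S * lam := mul_le_mul_of_nonneg_left hlam (Nat.cast_nonneg S)
      have h5 : (0 : ℝ) ≤ S := Nat.cast_nonneg S
      unfold cA
      linarith
    have h4 : 0 ≤ 2 * (S : ℝ) / (cH * lam ^ 2) := by positivity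
    linarith

lemma lock_sum_mul (S h : ℕ) (g : ℕ → ℝ) :
    ∑ x ∈ range (S * h), g x = ∑ s ∈ range S, ∑ ρ ∈ range h, g (s * h + ρ) := by
  induction S with
  | zero => simp
  | succ S ih => rw [Nat.succ_mul, sum_range_add, ih, sum_range_succ]

lemma lock_ph_le {r k : ℕ} (hr : 2 ≤ r) (hk : 1 ≤ k) : 0 < ph r k ∧ ph r k ≤ pR r ^ k := by
  have h1 : 0 < pS r := by unfold pS; positivity
  have h2 : 0 < ph r k := by unfold ph pR; positivity
  refine ⟨h2, ?_⟩
  rw [← pS_mul_ph hk]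
  exact Nat.le_mul_of_pos_left _ h1

/-- A residue class of distances with many particles that are not locked. -/
lemma lock_rho {r : ℕ} {tr : Tr n} {col : ℕ → Fin (pL r) → Fin n} {t : ℕ → ℕ} {k : ℕ}
    (hk : 1 ≤ k) (hL : ¬LockOK r tr col t k) :
    ∃ ρ < ph r k, (pJ r : ℝ) * pL r * pS r / r ≤ ∑ j : Fin (pJ r), ∑ s : Fin (pS r),
      (nbad tr (col j) (t (j + (pR r ^ k + ρ) + s * ph r k))
        (t (j + (pR r ^ k + ρ) + s * ph r k + ph r k)) : ℝ) := by
  unfold LockOK at hL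
  push_cast at hL
  have hR : pR r ^ k = pS r * ph r k := (pS_mul_ph hk).symm
  have h1 : ∀ j, ∑ d ∈ Ico (pR r ^ k) (2 * pR r ^ k),
      (nbad tr (col j) (t (j + d)) (t (j + d + ph r k)) : ℝ)
      = ∑ ρ ∈ range (ph r k), ∑ s ∈ range (pS r),
        (nbad tr (col j) (t (j + (pR r ^ k + ρ) + s * ph r k))
          (t (j + (pR r ^ k + ρ) + s * ph r k + ph r k)) : ℝ) := by
    intro j
    rw [sum_Ico_eq_sum_range, show 2 * pR r ^ k - pR r ^ k = pS r * ph r k by omega,
      lock_sum_mul, sum_comm]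
    refine sum_congr rfl fun ρ _ => sum_congr rfl fun s _ => ?_
    rw [show j + (pR r ^ k + (s * ph r k + ρ)) = j + (pR r ^ k + ρ) + s * ph r k by ring]
  simp only [h1] at hL
  rw [sum_comm] at hL
  have h2 : ∑ _ρ ∈ range (ph r k), (pJ r : ℝ) * pL r * pS r / r
      = (pJ r : ℝ) * pL r * (pR r : ℝ) ^ k / r := by
    have : (pR r : ℝ) ^ k = pS r * ph r k := by exact_mod_cast hR
    rw [this]
    simp only [sum_const, card_range, nsmul_eq_mul]
    ring
  rw [← h2] at hL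
  obtain ⟨ρ, hρ, h3⟩ := exists_lt_of_sum_lt (not_le.1 hL)
  refine ⟨ρ, mem_range.1 hρ, h3.le.trans (le_of_eq ?_)⟩
  rw [sum_range]
  exact sum_congr rfl fun j _ => sum_range _

/-- The plans of the family. -/
noncomputable def lockPlan (r : ℕ) (col : ℕ → Fin (pL r) → Fin n) (t : ℕ → ℕ) (o h : ℕ)
    (β : Fin (pJ r) × Fin (pL r) → Bool) :
    Plan n ((Fin (pJ r) × Fin (pL r)) × Fin (pS r)) (Fin (pH r + 1)) where
  t0 := t 0
  te := t (pH r)
  col e := col e.1.1 e.1.2
  ty e := if β e.1 then .L else .H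
  lam e := if β e.1 then (r : ℝ) ^ 2 else 1
  lo e := t (e.1.1 + o + e.2 * h)
  hi e := t (e.1.1 + o + e.2 * h + h)
  om e _ _ κ := if (κ : ℕ) = e.1.1 + o + e.2 * h then 1 else 0

lemma lockPlan_congr {r : ℕ} (col : ℕ → Fin (pL r) → Fin n) {t t' : ℕ → ℕ} {o h : ℕ}
    (β : Fin (pJ r) × Fin (pL r) → Bool) (ht : ∀ m ≤ pH r, t' m = t m)
    (hm : ∀ (j : Fin (pJ r)) (s : Fin (pS r)), j + o + s * h + h ≤ pH r) :
    lockPlan r col t' o h β = lockPlan r col t o h β := by
  unfold lockPlan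
  congr 1
  · exact ht 0 (Nat.zero_le _)
  · exact ht _ le_rfl
  · funext e
    exact ht _ (le_trans (Nat.le_add_right _ _) (hm e.1.1 e.2))
  · funext e
    exact ht _ (hm e.1.1 e.2)

lemma lockPlan_q {r : ℕ} (col : ℕ → Fin (pL r) → Fin n) (t : ℕ → ℕ) {o h : ℕ}
    (β : Fin (pJ r) × Fin (pL r) → Bool) (tr : Tr n)
    (hm : ∀ (j : Fin (pJ r)) (s : Fin (pS r)), j + o + s * h + h ≤ pH r)
    (e : (Fin (pJ r) × Fin (pL r)) × Fin (pS r)) :
    (lockPlan r col t o h β).q tr (fun κ w => t κ < w) (fun κ => t (min (κ + h) (pH r))) e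
      = tr.pi (t (e.1.1 + o + e.2 * h)) (t (e.1.1 + o + e.2 * h + h)) := by
  funext w
  have h1 := hm e.1.1 e.2
  unfold Plan.q
  rw [sum_eq_single (⟨e.1.1 + o + e.2 * h, by omega⟩ : Fin (pH r + 1))]
  · simp only [lockPlan, if_true, one_mul]
    rw [min_eq_left h1]
    rfl
  · intro κ _ hκ
    have : (κ : ℕ) ≠ e.1.1 + o + e.2 * h := fun hc => hκ (Fin.ext hc)
    simp only [lockPlan, this, if_false, zero_mul]
  · intro hc
    exact absurd (mem_univ _) hc

lemma lock_one_le_pH {r : ℕ} (hr : 2 ≤ r) : 1 ≤ pH r := by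
  rw [pH_eq]; exact Nat.one_le_pow _ _ (by omega)

lemma lockPlan_valid {r : ℕ} (hr : 2 ≤ r) {tr : Tr n} {O N : Finset (Fin n)}
    {col : ℕ → Fin (pL r) → Fin n} {t : ℕ → ℕ} {T T' : ℕ} (B : Blk r tr O N col t T T') {o h : ℕ}
    (β : Fin (pJ r) × Fin (pL r) → Bool)
    (hm : ∀ (j : Fin (pJ r)) (s : Fin (pS r)), j + o + s * h + h ≤ pH r) :
    (lockPlan r col t o h β).Valid (pH r) tr (fun κ w => t κ < w)
      (fun κ => t (min (κ + h) (pH r))) := by
  have hH := lock_one_le_pH hr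
  have hJ : pJ r ≤ pH r := Nat.div_le_self _ _
  have hr1 : (1 : ℝ) ≤ (r : ℝ) ^ 2 := one_le_pow₀ (by exact_mod_cast (by omega : 1 ≤ r))
  refine
    { t0_le := B.mono _ _ (Nat.zero_le _) le_rfl
      lo_ge := fun e => B.mono _ _ (Nat.zero_le _) (le_trans (Nat.le_add_right _ _) (hm e.1.1 e.2))
      lo_le := fun e => B.mono _ _ (Nat.le_add_right _ _) (hm e.1.1 e.2)
      hi_le := fun e => B.mono _ _ (hm e.1.1 e.2) le_rfl
      z_le := fun κ => B.mono _ _ (min_le_right _ _) le_rfl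
      cols := ?_
      disj := ?_
      lam_ge := ?_
      om0 := ?_
      om1 := ?_
      cond := ?_ }
  · have h1 : univ.image (lockPlan r col t o h β).col ⊆
        univ.image fun p : Fin (pJ r) × Fin (pL r) => col p.1 p.2 := by
      intro b hb
      obtain ⟨e, -, rfl⟩ := mem_image.1 hb
      exact mem_image.2 ⟨e.1, mem_univ _, rfl⟩
    refine (card_le_card h1).trans (card_image_le.trans ?_)
    simp only [card_univ, Fintype.card_prod, Fintype.card_fin]
    rw [show pH r ^ 81 = pH r * pL r by rw [pL]; ring]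
    exact Nat.mul_le_mul_right _ hJ
  · rintro ⟨⟨j, l⟩, s⟩ ⟨⟨j', l'⟩, s'⟩ hne hc w hw hw'
    obtain ⟨e1, e2⟩ := B.inj j (lt_of_lt_of_le j.2 hJ) j' (lt_of_lt_of_le j'.2 hJ) l l' hc
    obtain rfl : j = j' := Fin.ext e1
    subst e2
    have hs : (s : ℕ) ≠ s' := fun hs => hne (by rw [Fin.ext hs])
    simp only [lockPlan, mem_Ioc] at hw hw'
    rcases lt_or_gt_of_ne hs with h1 | h1
    · have h2 : (s + 1) * h ≤ s' * h := Nat.mul_le_mul_right _ h1
      have h3 := B.mono (j + o + s * h + h) (j + o + s' * h) (by rw [Nat.succ_mul] at h2; omega)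
        (le_trans (Nat.le_add_right _ _) (hm j s'))
      omega
    · have h2 : (s' + 1) * h ≤ s * h := Nat.mul_le_mul_right _ h1
      have h3 := B.mono (j + o + s' * h + h) (j + o + s * h) (by rw [Nat.succ_mul] at h2; omega)
        (le_trans (Nat.le_add_right _ _) (hm j s))
      omega
  · intro e
    have h1 : 1 / (pH r : ℝ) ≤ 1 := by
      rw [div_le_one (by exact_mod_cast hH)]
      exact_mod_cast hH
    simp only [lockPlan]
    split_ifs <;> linarith
  · intro e w _ κ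
    simp only [lockPlan]
    split_ifs <;> norm_num
  · intro e w _
    have h1 := hm e.1.1 e.2
    rw [sum_eq_single (⟨e.1.1 + o + e.2 * h, by omega⟩ : Fin (pH r + 1))]
    · simp only [lockPlan, if_true, le_refl]
    · intro κ _ hκ
      have : (κ : ℕ) ≠ e.1.1 + o + e.2 * h := fun hc => hκ (Fin.ext hc)
      simp only [lockPlan, this, if_false]
    · intro hc
      exact absurd (mem_univ _) hc
  · intro e
    rw [lockPlan_q col t β tr hm e]
    simp only [lockPlan]
    split_ifs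
    · intro w _
      exact (Tr.gr_le_one B.wf _ _ _).trans hr1
    · exact Tr.condH B.wf le_rfl _ _ _

/-- The total gain of the best plan with given offset and step. -/
lemma lockPlan_gain {r : ℕ} (hr : 2 ≤ r) {tr : Tr n} {O N : Finset (Fin n)}
    {col : ℕ → Fin (pL r) → Fin n} {t : ℕ → ℕ} {T T' : ℕ} (B : Blk r tr O N col t T T') {o h : ℕ}
    (hh : 0 < h) (hm : ∀ (j : Fin (pJ r)) (s : Fin (pS r)), j + o + s * h + h ≤ pH r)
    (hb : (pJ r : ℝ) * pL r * pS r / r ≤ ∑ j : Fin (pJ r), ∑ s : Fin (pS r),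
      (nbad tr (col j) (t (j + o + s * h)) (t (j + o + s * h + h)) : ℝ)) :
    ∃ β, (pJ r : ℝ) * pL r * (r : ℝ) ^ 14 * (cA * r / 100 - 2 / cH) ≤
      ∑ e, (lockPlan r col t o h β).gain tr (fun κ w => t κ < w)
        (fun κ => t (min (κ + h) (pH r))) e := by
  have hr0 : (0 : ℝ) < r := by exact_mod_cast (by omega : 0 < r)
  have hr1 : (1 : ℝ) ≤ (r : ℝ) ^ 2 := one_le_pow₀ (by exact_mod_cast (by omega : 1 ≤ r))
  have hA : 0 < cA := by unfold cA; norm_num
  have hH : 0 < cH := by unfold cH; positivity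
  have hy : ∀ (p : Fin (pJ r) × Fin (pL r)) (s : Fin (pS r)),
      0 ≤ rise tr (t (p.1 + o + s * h)) (t (p.1 + o + s * h + h)) (col p.1 p.2) ∧
        rise tr (t (p.1 + o + s * h)) (t (p.1 + o + s * h + h)) (col p.1 p.2) ≤ 1 := fun p s =>
    lock_rise B.wf (B.mono _ _ (Nat.le_add_right _ _) (hm p.1 s))
      (B.rightW _ (hm p.1 s) _ (by omega) _)
  choose β hβ using fun p : Fin (pJ r) × Fin (pL r) => lock_pick
    (fun s : Fin (pS r) => rise tr (t (p.1 + o + s * h)) (t (p.1 + o + s * h + h)) (col p.1 p.2))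
    (fun s : Fin (pS r) => tr.QQ (tr.pi (t (p.1 + o + s * h)) (t (p.1 + o + s * h + h)))
      (col p.1 p.2) (t (p.1 + o + s * h)) (t (p.1 + o + s * h + h))) hr1 fun s => (hy p s).2
  refine ⟨β, ?_⟩
  rw [Fintype.sum_prod_type]
  refine le_trans ?_ ((sum_le_sum (s := univ) fun p _ => hβ p).trans (le_of_eq ?_))
  swap
  · refine sum_congr rfl fun p _ => sum_congr rfl fun s _ => ?_
    unfold Plan.gain
    rw [lockPlan_q col t β tr hm (p, s)]
    rfl
  have h1 : ∑ j : Fin (pJ r), ∑ s : Fin (pS r),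
      (nbad tr (col j) (t (j + o + s * h)) (t (j + o + s * h + h)) : ℝ) ≤
      100 * ∑ p : Fin (pJ r) × Fin (pL r), ∑ s : Fin (pS r),
        rise tr (t (p.1 + o + s * h)) (t (p.1 + o + s * h + h)) (col p.1 p.2) := by
    rw [Fintype.sum_prod_type, mul_sum]
    refine sum_le_sum fun j _ => ?_
    rw [sum_comm, mul_sum]
    refine sum_le_sum fun s _ => ?_
    unfold nbad
    rw [card_filter, mul_sum]
    push_cast
    refine sum_le_sum fun l _ => ?_
    have := (hy (j, l) s).1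
    split_ifs with hc
    · linarith
    · linarith
  rw [sum_sub_distrib, ← sum_div, ← mul_sum]
  simp only [sum_const, card_univ, Fintype.card_prod, Fintype.card_fin, nsmul_eq_mul]
  push_cast
  generalize (∑ p : Fin (pJ r) × Fin (pL r), ∑ s : Fin (pS r),
    rise tr (t (p.1 + o + s * h)) (t (p.1 + o + s * h + h)) (col p.1 p.2)) = Y at h1
  have hS : (pS r : ℝ) = (r : ℝ) ^ 18 := by rw [pS]; push_cast; rfl
  have h2 : (pJ r : ℝ) * pL r * (r : ℝ) ^ 18 / r / 100 ≤ Y := by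
    rw [← hS]; linarith
  have h3 := div_le_div_of_nonneg_right (mul_le_mul_of_nonneg_left h2 hA.le)
    (show (0 : ℝ) ≤ (r : ℝ) ^ 2 by positivity)
  refine le_trans (le_of_eq ?_) (sub_le_sub_right h3 _)
  rw [hS]
  field_simp

/-- The cost of the union over the family. -/
lemma lock_cost {r T : ℕ} (hr : 2 ≤ r) (hT : Real.log (T + 2) ≤ 3 * pH r) :
    Real.log (Fintype.card ((Fin (pH r + 1) → Fin (T + 1)) × Fin (pH r + 1) × Fin (pH r + 1) ×
      (Fin (pJ r) × Fin (pL r) → Bool))) ≤ 9 * (pH r * pL r : ℝ) := by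
  have hH : (1 : ℝ) ≤ pH r := by exact_mod_cast lock_one_le_pH hr
  have hJ : (pJ r : ℝ) ≤ pH r := by exact_mod_cast (Nat.div_le_self _ _ : pJ r ≤ pH r)
  have hL : (pH r : ℝ) ≤ pL r := by
    rw [pL]; push_cast
    exact le_self_pow₀ hH (by norm_num)
  simp only [Fintype.card_prod, Fintype.card_fun, Fintype.card_fin, Fintype.card_bool]
  push_cast
  rw [Real.log_mul (by positivity) (by positivity), Real.log_mul (by positivity) (by positivity),
    Real.log_mul (by positivity) (by positivity), Real.log_pow, Real.log_pow]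
  push_cast
  have h1 : Real.log (T + 1) ≤ 3 * pH r :=
    (Real.log_le_log (by positivity) (by linarith)).trans hT
  have h2 : Real.log (pH r + 1) ≤ pH r := by
    have := Real.log_le_sub_one_of_pos (show (0 : ℝ) < pH r + 1 by positivity)
    linarith
  have h3 : Real.log 2 ≤ 1 := by
    have := Real.log_le_sub_one_of_pos (show (0 : ℝ) < 2 by norm_num)
    linarith
  have h4 := mul_le_mul_of_nonneg_left h1 (show (0 : ℝ) ≤ pH r + 1 by positivity)
  have h5 := mul_le_mul_of_nonneg_left h3 (show (0 : ℝ) ≤ pJ r * pL r by positivity)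
  have h6 := mul_le_mul_of_nonneg_right hJ (show (0 : ℝ) ≤ pL r by positivity)
  have h7 := mul_le_mul_of_nonneg_left hL (show (0 : ℝ) ≤ pH r by positivity)
  have h8 := mul_le_mul_of_nonneg_left hH (show (0 : ℝ) ≤ pH r by positivity)
  linarith

/-- Suggested: `I = (Fin (H+1) → Fin (T+1)) × Fin (K+1) × Fin H × (Fin J × Fin L → Bool)` with the
uniform weight, `E = (Fin J × Fin L) × Fin (pS r)`, `K = Fin (H+1)` (slot `i`: flow from
`t (i + ph r k)` through `(t i, ∞)`), `t0 = t 0`, `te = t H`. -/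
theorem lock_family (A0 : ℝ) : ∃ r0 : ℕ, ∀ r ≥ r0, ∀ (n T : ℕ)
    (col : ℕ → Fin (pL r) → Fin n),
    ∃ (I E K : Type) (_ : Fintype I) (_ : Fintype E) (_ : Fintype K)
      (P : I → Plan n E K) (wt : I → ℝ),
      0 < Fintype.card K ∧ Fintype.card K ≤ pH r ^ 5 ∧ (∀ i, 0 < wt i) ∧ ∑ i, wt i ≤ 1 ∧
      ∀ (tr : Tr n) (O N : Finset (Fin n)) (t : ℕ → ℕ) (T' k : ℕ), Blk r tr O N col t T T' →
        T' ≤ r ^ 14 * pH r * pL r → 1 ≤ k → k ≤ pK r → ¬LockOK r tr col t k →
        ∃ i, (P i).Win A0 (pH r) T tr (3 - Real.log (wt i)) := by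
  obtain ⟨r0, hr0⟩ := exists_nat_ge ((6 * (13 + |A0|) + 2 / cH) * 100 / cA)
  refine ⟨max r0 2, fun r hr n T col => ?_⟩
  have hr2 : 2 ≤ r := le_trans (le_max_right _ _) hr
  have hH2 : 2 ≤ pH r := by
    rw [pH_eq]
    exact hr2.trans (Nat.le_self_pow (by omega) r)
  refine ⟨(Fin (pH r + 1) → Fin (T + 1)) × Fin (pH r + 1) × Fin (pH r + 1) ×
      (Fin (pJ r) × Fin (pL r) → Bool), (Fin (pJ r) × Fin (pL r)) × Fin (pS r), Fin (pH r + 1),
    inferInstance, inferInstance, inferInstance,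
    fun i => lockPlan r col (fun m => i.1 ⟨min m (pH r), by omega⟩) i.2.1 i.2.2.1 i.2.2.2,
    fun _ => (Fintype.card ((Fin (pH r + 1) → Fin (T + 1)) × Fin (pH r + 1) × Fin (pH r + 1) ×
      (Fin (pJ r) × Fin (pL r) → Bool)) : ℝ)⁻¹, by simp, ?_, fun _ => ?_, ?_, ?_⟩
  · rw [Fintype.card_fin]
    have h1 : 2 ^ 4 ≤ pH r ^ 4 := Nat.pow_le_pow_left hH2 4
    have h2 : pH r * 2 ^ 4 ≤ pH r * pH r ^ 4 := Nat.mul_le_mul_left _ h1
    rw [show pH r ^ 5 = pH r * pH r ^ 4 by ring]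
    omega
  · exact inv_pos.2 (Nat.cast_pos.2 Fintype.card_pos)
  · rw [sum_const, card_univ, nsmul_eq_mul, mul_inv_cancel₀ (Nat.cast_pos.2 Fintype.card_pos).ne']
  intro tr O N t T' k B hT' hk1 hkK hL
  obtain ⟨ρ, hρ, hb⟩ := lock_rho hk1 hL
  obtain ⟨hh0, hh1⟩ := lock_ph_le hr2 hk1
  have hJ := pJ_add hr2 hkK
  have hm : ∀ (j : Fin (pJ r)) (s : Fin (pS r)),
      j + (pR r ^ k + ρ) + s * ph r k + ph r k ≤ pH r := by
    intro j s
    have h1 : (s + 1) * ph r k ≤ pS r * ph r k := Nat.mul_le_mul_right _ s.2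
    rw [pS_mul_ph hk1, Nat.succ_mul] at h1
    have := j.2
    omega
  obtain ⟨β, hβ⟩ := lockPlan_gain hr2 B hh0 hm hb
  refine ⟨(fun m => ⟨t m, Nat.lt_succ_of_le ((B.mono _ _ (Nat.le_of_lt_succ m.2) le_rfl).trans
    B.top)⟩, ⟨pR r ^ k + ρ, by omega⟩, ⟨ph r k, by omega⟩, β), ?_⟩
  simp only
  rw [lockPlan_congr col (t := t) β (fun m hm => by rw [min_eq_left hm]) hm]
  refine ⟨B.top, _, _, lockPlan_valid hr2 B β hm, le_trans ?_
    (div_le_div_of_nonneg_right hβ (by norm_num))⟩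
  rw [Real.log_inv]
  have c1 := lock_cost hr2 B.logT
  have hA : 0 < cA := by unfold cA; norm_num
  have hH : (1 : ℝ) ≤ pH r := by exact_mod_cast lock_one_le_pH hr2
  have hLe : (pH r : ℝ) ^ 80 = pL r := by rw [pL]; push_cast; rfl
  have hL1 : (1 : ℝ) ≤ pL r := by rw [← hLe]; exact one_le_pow₀ hH
  have hr14 : (1 : ℝ) ≤ (r : ℝ) ^ 14 := one_le_pow₀ (by exact_mod_cast (by omega : 1 ≤ r))
  have hJ3 : (pH r : ℝ) ≤ 3 * pJ r := by
    have : pH r ≤ 3 * pJ r := by unfold pJ; omega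
    exact_mod_cast this
  have c2 : A0 * ((t (pH r) : ℝ) - t 0) ≤ |A0| * ((r : ℝ) ^ 14 * pH r * pL r) := by
    have a1 : (t 0 : ℝ) ≤ t (pH r) := by exact_mod_cast B.mono _ _ (Nat.zero_le _) le_rfl
    have a2 : (t (pH r) : ℝ) ≤ t 0 + T' := by exact_mod_cast B.fast
    have a3 : (T' : ℝ) ≤ (r : ℝ) ^ 14 * pH r * pL r := by exact_mod_cast hT'
    exact (mul_le_mul_of_nonneg_right (le_abs_self A0) (by linarith)).trans
      (mul_le_mul_of_nonneg_left (by linarith) (abs_nonneg A0))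
  have c3 : 6 * (13 + |A0|) ≤ cA * r / 100 - 2 / cH := by
    have a1 : (r0 : ℝ) ≤ r := by exact_mod_cast le_trans (le_max_left _ _) hr
    have a2 := (div_le_iff₀ hA).1 (hr0.trans a1)
    linarith
  have c4 := mul_le_mul_of_nonneg_left c3
    (show (0 : ℝ) ≤ (pJ r : ℝ) * pL r * (r : ℝ) ^ 14 by positivity)
  have c5 := mul_le_mul_of_nonneg_left hJ3
    (show (0 : ℝ) ≤ (13 + |A0|) * (pL r * (r : ℝ) ^ 14) by positivity)
  have c6 := mul_le_mul_of_nonneg_left hr14 (show (0 : ℝ) ≤ pH r * pL r by positivity)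
  have c7 := mul_le_mul_of_nonneg_left hH (show (0 : ℝ) ≤ pL r by positivity)
  change 3 - -Real.log _ + A0 * ((t (pH r) : ℝ) - t 0) + (pH r : ℝ) ^ 80 ≤ _
  rw [hLe]
  linarith

end Pool.Agent.P.MP_5c258a_lc.Bin
end

-- part Pool.Agent.P.MP_5c258a_lc.Bin.MachAA
section

/-! Task MACHA, auxiliary file: the lag function and the raises of the scale. -/

namespace Pool.Agent.P.MP_5c258a_lc.Bin.MA

open Real

noncomputable def cc : ℝ := 10000

noncomputable def hh (e : ℝ) : ℝ := log (1 + (max e 0) ^ 2)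

noncomputable def PA (x l X : ℝ) : ℝ :=
  (log (cc - 1 + x / l) + log l / cc) / 2 + hh ((X - x) / l) / 256

theorem phi_eq (x l X Q : ℝ) : Phi .A ⟨x, l⟩ X Q = PA x l X := by
  simp only [Phi, PA, hh, cc, max_comm]
  norm_num

theorem log_ge_div {t : ℝ} (ht : -1 < t) : t / (1 + t) ≤ log (1 + t) := by
  have h : 0 < 1 + t := by linarith
  have := Real.one_sub_inv_le_log_of_pos h
  have e : t / (1 + t) = 1 - (1 + t)⁻¹ := by field_simp; ring
  linarith

theorem log_ge_half {t : ℝ} (h0 : 0 ≤ t) (h1 : t ≤ 1) : t / 2 ≤ log (1 + t) := by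
  have := log_ge_div (t := t) (by linarith)
  have h2 : t / 2 ≤ t / (1 + t) := div_le_div_of_nonneg_left h0 (by linarith) (by linarith)
  linarith

theorem log_le_self {t : ℝ} (ht : -1 < t) : log (1 + t) ≤ t := by
  have := Real.log_le_sub_one_of_pos (x := 1 + t) (by linarith)
  linarith

theorem log_add_le {s t : ℝ} (hs : 0 ≤ s) (ht : 0 ≤ t) : log (1 + (s + t)) ≤ log (1 + s) + t := by
  have h1 : log (1 + (s + t)) ≤ log ((1 + s) * (1 + t)) :=
    log_le_log (by linarith) (by nlinarith [mul_nonneg hs ht])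
  rw [log_mul (by linarith) (by linarith)] at h1
  have := log_le_self (t := t) (by linarith)
  linarith

theorem log_bern (n : ℕ) {a : ℝ} (ha : 0 ≤ a) : log (1 + n * a) ≤ n * log (1 + a) := by
  have b := one_add_mul_le_pow (a := a) (by linarith) n
  have := log_le_log (by positivity) b
  rwa [log_pow] at this

theorem hh_mono {e e' : ℝ} (h : e ≤ e') : hh e ≤ hh e' := by
  unfold hh
  refine log_le_log (by positivity) ?_
  have := pow_le_pow_left₀ (le_max_right e 0) (max_le_max_right 0 h) 2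
  linarith

theorem hh_nonneg (e : ℝ) : 0 ≤ hh e := log_nonneg (by nlinarith [sq_nonneg (max e 0)])

theorem hh_big {e d D : ℝ} (hd : d ≤ D) (hD : 1 ≤ D) : hh (e + d) ≤ hh e + 2 * log (1 + D ^ 2) := by
  unfold hh
  set t := max e 0 with ht
  have t0 : 0 ≤ t := le_max_right _ _
  have h1 : max (e + d) 0 ≤ t + D := max_le (by linarith [le_max_left e 0]) (by linarith)
  have h2 := pow_le_pow_left₀ (le_max_right (e + d) 0) h1 2
  have h3 : 1 + (t + D) ^ 2 ≤ (1 + t ^ 2) * (1 + D ^ 2) ^ 2 := by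
    have a1 : (t + D) ^ 2 ≤ (1 + t ^ 2) * (1 + D ^ 2) := by nlinarith [sq_nonneg (1 - t * D)]
    have a2 : 1 ≤ (1 + t ^ 2) * (1 + D ^ 2) := by nlinarith [sq_nonneg t, sq_nonneg D, mul_nonneg (sq_nonneg t) (sq_nonneg D)]
    have a3 : 2 ≤ 1 + D ^ 2 := by nlinarith
    nlinarith
  have h4 := log_le_log (by positivity) (show 1 + (max (e + d) 0) ^ 2 ≤ (1 + t ^ 2) * (1 + D ^ 2) ^ 2 by linarith)
  rw [log_mul (by positivity) (by positivity), log_pow] at h4
  exact_mod_cast h4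

theorem hh_step (e D : ℝ) : ∃ k : ℝ, |k| ≤ 1 ∧ ∀ d, |d| ≤ D →
    hh (e + d) ≤ hh e + k * d + 2 * log (1 + D ^ 2) := by
  by_cases hD : D ≤ 1
  · set t := max e 0 with ht
    have t0 : 0 ≤ t := le_max_right _ _
    refine ⟨2 * t / (1 + t ^ 2), ?_, fun d hd => ?_⟩
    · rw [abs_of_nonneg (by positivity), div_le_one (by positivity)]; nlinarith [sq_nonneg (1 - t)]
    · have D0 : 0 ≤ D := (abs_nonneg d).trans hd
      have h1 : (max (e + d) 0) ^ 2 ≤ (t + d) ^ 2 := by
        rcases le_total (e + d) 0 with h | h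
        · rw [max_eq_right h]; nlinarith [sq_nonneg (t + d)]
        · rw [max_eq_left h]; exact pow_le_pow_left₀ h (by linarith [le_max_left e 0]) 2
      have h2 : hh (e + d) - hh e ≤ (2 * t * d + d ^ 2) / (1 + t ^ 2) := by
        unfold hh
        rw [← ht, ← log_div (by positivity) (by positivity)]
        refine (Real.log_le_sub_one_of_pos (by positivity)).trans ?_
        rw [div_sub_one (by positivity)]
        exact div_le_div_of_nonneg_right (by nlinarith) (by positivity)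
      have h3 : d ^ 2 / (1 + t ^ 2) ≤ d ^ 2 := div_le_self (sq_nonneg d) (by nlinarith [sq_nonneg t])
      have h4 : d ^ 2 ≤ D ^ 2 := by rw [← sq_abs d]; exact pow_le_pow_left₀ (abs_nonneg d) hd 2
      have h5 := log_ge_half (t := D ^ 2) (sq_nonneg D) (by nlinarith)
      have e1 : (2 * t * d + d ^ 2) / (1 + t ^ 2) = 2 * t / (1 + t ^ 2) * d + d ^ 2 / (1 + t ^ 2) := by ring
      linarith
  · refine ⟨0, by simp, fun d hd => ?_⟩
    have := hh_big (e := e) ((le_abs_self d).trans hd) (le_of_not_ge hD)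
    linarith

theorem raise_up {x l X : ℝ} (hl : 0 < l) (hx : l ≤ x) :
    PA x x X ≤ PA x l X := by
  have x0 : 0 < x := by linarith
  simp only [PA]
  have h1 : hh ((X - x) / x) ≤ hh ((X - x) / l) := by
    rcases le_total (X - x) 0 with h | h
    · have : hh ((X - x) / x) = 0 := by
        unfold hh; rw [max_eq_right (div_nonpos_of_nonpos_of_nonneg h x0.le)]; simp
      rw [this]; exact hh_nonneg _
    · exact hh_mono (div_le_div_of_nonneg_left h hl hx)
  set u := x / l with hu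
  have u1 : 1 ≤ u := by rw [hu, le_div_iff₀ hl]; linarith
  have h2 : log x = log u + log l := by rw [hu, log_div x0.ne' hl.ne']; ring
  have h3 : log u ≤ 10000 * log (1 + (u - 1) / 10000) := by
    have b := log_bern 10000 (a := (u - 1) / 10000) (by linarith)
    have e : (1 + ((10000 : ℕ) : ℝ) * ((u - 1) / 10000)) = u := by push_cast; ring
    rw [e] at b
    exact_mod_cast b
  have h4 : log (cc - 1 + u) = log cc + log (1 + (u - 1) / 10000) := by
    rw [← log_mul (by unfold cc; norm_num) (by linarith)]; unfold cc; congr 1; ring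
  rw [div_self x0.ne', h2, h4, show cc - 1 + 1 = cc by ring]
  unfold cc at *
  linarith

theorem raise_lag {x l X r : ℝ} (hl : 0 < l) (hr : 1 ≤ r) (hx : |x| ≤ 30 * l)
    (hlag : r * l ≤ X - x) : PA x (r * l) X ≤ PA x l X - log r / 512 := by
  simp only [PA]
  have r0 : 0 < r := by linarith
  set u := x / l with hu
  set t := (X - x) / l with ht
  have e1 : x / (r * l) = u / r := by rw [hu]; field_simp
  have e2 : (X - x) / (r * l) = t / r := by rw [ht]; field_simp
  have hu30 : |u| ≤ 30 := by rw [hu, abs_div, abs_of_pos hl, div_le_iff₀ hl]; exact hx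
  have htr : r ≤ t := by rw [ht, le_div_iff₀ hl]; exact hlag
  have lr : 0 ≤ log r := log_nonneg hr
  have h1 : hh (t / r) ≤ hh t - log r := by
    unfold hh
    set s := t / r with hs
    have s1 : 1 ≤ s := by rw [hs, le_div_iff₀ r0]; linarith
    have e : t = r * s := by rw [hs]; field_simp
    rw [max_eq_left (by linarith), max_eq_left (by linarith), e]
    have : r * (1 + s ^ 2) ≤ 1 + (r * s) ^ 2 := by
      have : 0 ≤ (r - 1) * (r * s ^ 2 - 1) := mul_nonneg (by linarith) (by nlinarith)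
      nlinarith
    have := log_le_log (by positivity) this
    rw [log_mul r0.ne' (by positivity)] at this
    linarith
  have h2 : log (cc - 1 + u / r) ≤ log (cc - 1 + u) + 30 / 9969 * log r := by
    have a1 : 1 - r⁻¹ ≤ log r := Real.one_sub_inv_le_log_of_pos r0
    have a0 : 0 ≤ 1 - r⁻¹ := by have := inv_le_one_of_one_le₀ hr; linarith
    have a2 : u / r ≤ u + 30 * log r := by
      have := (abs_le.1 hu30).1
      rw [div_eq_mul_inv]; nlinarith
    have d0 : 9969 ≤ cc - 1 + u := by unfold cc; linarith [(abs_le.1 hu30).1]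
    have a3 : 0 < cc - 1 + u / r := by
      have : |u / r| ≤ 30 := by
        rw [abs_div, abs_of_pos r0]; exact (div_le_self (abs_nonneg u) hr).trans hu30
      unfold cc; linarith [(abs_le.1 this).1]
    have a4 : cc - 1 + u / r ≤ (cc - 1 + u) * (1 + 30 / 9969 * log r) := by nlinarith
    have := log_le_log a3 a4
    rw [log_mul (by linarith) (by positivity)] at this
    have := log_le_self (t := 30 / 9969 * log r) (by linarith [mul_nonneg (show (0:ℝ) ≤ 30 / 9969 by norm_num) lr])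
    linarith
  rw [e1, e2, log_mul r0.ne' hl.ne']
  unfold cc at *
  linarith

theorem raise_post {x l X : ℝ} (hl : 0 < l) (hx : -30 * l ≤ x) (hX : 0 ≤ X) :
    PA x (max l |x|) X ≤ PA x l X := by
  rcases le_total |x| l with h | h
  · rw [max_eq_left h]
  · rw [max_eq_right h]
    rcases abs_cases x with h1 | h1
    · rw [h1.1] at h ⊢; exact raise_up hl h
    · have e : |x| = (|x| / l) * l := by field_simp
      have r1 : 1 ≤ |x| / l := by rw [le_div_iff₀ hl]; linarith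
      have := raise_lag (x := x) (X := X) hl r1 (by linarith [h1.1]) (by linarith [h1.1])
      rw [← e] at this
      linarith [log_nonneg r1]

theorem PA_move {x l X q qt e : ℝ} (hl : 0 < l) (hx : |x| ≤ l) (hX : 0 ≤ X + q * e)
    (hlow : -29 * l ≤ qt * e) :
    PA (x + qt * e) (max l |x + qt * e|) (X + q * e) ≤
      PA x l X + log (1 + qt / (l * (9999 + x / l)) * e) / 2 +
        (hh ((X - x) / l + (q - qt) * e / l) - hh ((X - x) / l)) / 256 := by
  have hx1 := abs_le.1 hx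
  refine (raise_post hl (by linarith) hX).trans (le_of_eq ?_)
  have hu : -1 ≤ x / l := by rw [le_div_iff₀ hl]; linarith
  have hv : -29 ≤ qt * e / l := by rw [le_div_iff₀ hl]; linarith
  have d0 : 0 < 9999 + x / l := by linarith
  have e1 : cc - 1 + (x + qt * e) / l = (9999 + x / l) * (1 + qt / (l * (9999 + x / l)) * e) := by
    have : (9999 + x / l) * (qt / (l * (9999 + x / l)) * e) = qt * e / l := by
      generalize 9999 + x / l = D at d0
      field_simp
    rw [mul_add, this]; unfold cc; ring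
  have e0 : cc - 1 + x / l = 9999 + x / l := by unfold cc; ring
  have p1 : 0 < 1 + qt / (l * (9999 + x / l)) * e := by
    have : 0 < cc - 1 + (x + qt * e) / l := by rw [add_div]; unfold cc; linarith
    rw [e1] at this
    exact (pos_iff_pos_of_mul_pos this).1 d0
  have e2 : (X + q * e - (x + qt * e)) / l = (X - x) / l + (q - qt) * e / l := by ring
  simp only [PA]
  rw [e1, e2, e0, log_mul d0.ne' p1.ne']
  ring

theorem xi_abs {p : ℝ} (h0 : 0 ≤ p) (h1 : p ≤ 1) (x : Bool) : |bR x - p| ≤ 1 := by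
  cases x <;> simp only [bR] <;> rw [abs_le] <;> constructor <;> norm_num <;> linarith

theorem after_nonneg {p q X : ℝ} (q0 : 0 ≤ q) (h : q * p ≤ X) (x : Bool) :
    0 ≤ X + q * (bR x - p) := by
  cases x <;> simp only [bR] <;> norm_num <;> nlinarith

end Pool.Agent.P.MP_5c258a_lc.Bin.MA
end
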