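import Pool.Agent.K.MP_5c258a_lc.C3
import Pool.Agent.K.MP_5c258a_lc.C4
import Pool.Agent.K.MP_5c258a_lc.C5

-- part Pool.Agent.P.MP_5c258a_lc.Bin.MachH
section

/-! Task MACHH: the machine of type H (paper section 6). -/

namespace Pool.Agent.P.MP_5c258a_lc.Bin

lemma H_clamp {y Z : ℝ} (hy : -20 ≤ y) (h0 : 0 ≤ Z) (h3 : Z ≤ 3) :
    Real.log (10000 + max (-1) (min 4 y)) / 2 + (max (-1) (min 4 y) - Z) ^ 2 / 1000 ≤
      Real.log (10000 + y) / 2 + (y - Z) ^ 2 / 1000 := by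
  rcases le_total y (-1) with h | h
  · have e : max (-1 : ℝ) (min 4 y) = -1 := by
      rw [min_eq_right (by linarith), max_eq_left h]
    rw [e]
    have hp : 0 < 10000 + y := by linarith
    have h1 : Real.log ((10000 + -1) / (10000 + y)) ≤ (10000 + -1) / (10000 + y) - 1 :=
      Real.log_le_sub_one_of_pos (by positivity)
    rw [Real.log_div (by norm_num) hp.ne'] at h1
    have h2 : (10000 + -1) / (10000 + y) ≤ 1 + (-1 - y) / 1000 := by
      rw [div_le_iff₀ hp]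
      nlinarith [mul_nonneg (sub_nonneg.2 h) (sub_nonneg.2 hy)]
    nlinarith [mul_nonneg (sub_nonneg.2 h) h0, sq_nonneg (y + 1)]
  · rcases le_total y 4 with h' | h'
    · rw [min_eq_right h', max_eq_right h]
    · have e : max (-1 : ℝ) (min 4 y) = 4 := by
        rw [min_eq_left h', max_eq_right (by norm_num)]
      rw [e]
      have h1 : Real.log (10000 + 4) ≤ Real.log (10000 + y) :=
        Real.log_le_log (by norm_num) (by linarith)
      have h2 : (4 - Z) ^ 2 ≤ (y - Z) ^ 2 := pow_le_pow_left₀ (by linarith) (by linarith) 2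
      exact add_le_add (div_le_div_of_nonneg_right h1 (by norm_num))
        (div_le_div_of_nonneg_right h2 (by norm_num))

/-- The change of the potential in one step. -/
lemma H_core {s : MS} (hs : MInv .H s) {X QV q qt ξ w : ℝ} (h0 : 0 ≤ X + q * ξ)
    (h3 : X + q * ξ ≤ 3) (hd : -19 ≤ qt * ξ) :
    Phi .H (post .H s (qt * ξ)) (X + q * ξ) (QV + w) ≤
      Phi .H s X QV + Real.log (1 + qt / (s.lam * den .H s) * ξ) / 2 +
        (2 * ((s.x - X) * ξ) * (qt - q) + (qt - q) ^ 2 * ξ ^ 2) / 1000 + cH * w := by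
  obtain ⟨hl, h1, h4⟩ := hs
  have hc := H_clamp (y := s.x + qt * ξ) (by linarith) h0 h3
  have hp : 0 < 10000 + s.x := by linarith
  have e : 1 + qt / (s.lam * den .H s) * ξ = (10000 + (s.x + qt * ξ)) / (10000 + s.x) := by
    simp only [den, hl]
    field_simp
    ring
  rw [e, Real.log_div (by linarith) hp.ne']
  simp only [Phi, post]
  linarith [hc]

lemma H_xi_abs {p : ℝ} (h0 : 0 ≤ p) (h1 : p ≤ 1) (x : Bool) : |bR x - p| ≤ 1 := by
  rw [abs_le]
  cases x <;> simp [bR] <;> constructor <;> linarith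

lemma H_log_ge {t B : ℝ} (h0 : 0 ≤ t) (hB : t ≤ B) : t / (1 + B) ≤ Real.log (1 + t) := by
  have h := Real.one_sub_inv_le_log_of_pos (x := 1 + t) (by linarith)
  have e : 1 - (1 + t)⁻¹ = t / (1 + t) := by
    field_simp
    ring
  rw [e] at h
  exact le_trans (div_le_div_of_nonneg_left h0 (by linarith) (by linarith)) h

lemma H_bias {π qt : Fin 3 → ℝ} {q D θ' c : ℝ} (hM : Modes π qt q D θ') (hc : |c| ≤ 4) :
    ∑ m, π m * (c * (qt m - q)) ≤ 4 * θ' := by
  have e : ∑ m, π m * (c * (qt m - q)) = c * (∑ m, π m * qt m - q) := by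
    have := hM.one
    simp only [Fin.sum_univ_three] at this ⊢
    linear_combination (-(c * q)) * this
  rw [e]
  refine (le_abs_self _).trans ?_
  rw [abs_mul]
  exact mul_le_mul hc hM.bias (abs_nonneg _) (by norm_num)

lemma H_c {x X ξ : ℝ} (h1 : -1 ≤ x) (h4 : x ≤ 4) (h0 : 0 ≤ X) (h3 : X ≤ 3) (hξ : |ξ| ≤ 1) :
    |(x - X) * ξ| ≤ 4 := by
  rw [abs_mul]
  have : |x - X| ≤ 4 := abs_le.2 ⟨by linarith, by linarith⟩
  nlinarith [abs_nonneg ξ, abs_nonneg (x - X)]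

lemma H_sq1 {ξ : ℝ} (h : |ξ| ≤ 1) : ξ ^ 2 ≤ 1 := (sq_le_one_iff_abs_le_one ξ).2 h

lemma H_var1 {p : ℝ} : p * (1 - p) ≤ 1 := by nlinarith [sq_nonneg (p - 1 / 2)]

lemma H_low {a ξ : ℝ} (ha : |a| ≤ 15) (hξ : |ξ| ≤ 1) : -19 ≤ a * ξ := by
  have : |a * ξ| ≤ 15 * 1 := by
    rw [abs_mul]
    exact mul_le_mul ha hξ (abs_nonneg _) (by norm_num)
  linarith [(abs_le.1 this).1]

lemma H_half {v c : ℝ} (hv : |v| ≤ 1 / 2) (hc : |c| ≤ 1) : -1 / 2 ≤ v * c := by
  have : |v * c| ≤ 1 / 2 * 1 := by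
    rw [abs_mul]
    exact mul_le_mul hv hc (abs_nonneg _) (by norm_num)
  linarith [(abs_le.1 this).1]

lemma H_sq_add {a b c : ℝ} (h : |c| ≤ a + b) : c ^ 2 ≤ 2 * a ^ 2 + 2 * b ^ 2 := by
  have : c ^ 2 ≤ (a + b) ^ 2 := by
    rw [← sq_abs]
    exact pow_le_pow_left₀ (abs_nonneg _) h 2
  nlinarith [sq_nonneg (a - b)]

lemma H_quarter {Q a : ℝ} (h0 : 0 ≤ Q) (h : Q / 2 ≤ a) : Q ^ 2 / 4 ≤ a ^ 2 := by
  have : (Q / 2) ^ 2 ≤ a ^ 2 := pow_le_pow_left₀ (by linarith) h 2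
  linarith

/-- One mode of case U. -/
lemma H_modeU {s : MS} {Q p X QV q θ θ' : ℝ} {x : Bool} (h : Sit .H s Q p X q θ θ' x) {qt : ℝ}
    (hQ : |Q - q| ≤ Q / 100000 + θ) (hn : |qt - q| ≤ Q / 100000 + θ) :
    qt ^ 2 * ((bR x - p) ^ 2 + p * (1 - p)) / (13 * 10 ^ 9)
      - 2 / 1000 * ((s.x - X) * (bR x - p) * (qt - q))
      - (5 / 10 ^ 13 * (Q ^ 2 * ((bR x - p) ^ 2 + p * (1 - p))) + θ ^ 2) ≤
      valU .H s Q p X QV q qt x + Phi .H s X QV := by
  obtain ⟨hl, h1, h4⟩ := h.inv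
  obtain ⟨hq1, -, -, hX0, hX3⟩ := h.tok
  have hξ := H_xi_abs h.p0 h.p1 x
  have hθ : θ ≤ 1 / 1000 := by simpa [hl] using h.t1
  have t0 := h.t0
  have Q0 := h.Q0
  have q0 := h.q0
  have p0 := h.p0
  have p1 := h.p1
  obtain ⟨hQa, hQb⟩ := abs_le.1 hQ
  obtain ⟨hna, hnb⟩ := abs_le.1 hn
  have hQ2 : Q ≤ 2 := by linarith
  have hqt : |qt| ≤ 2 := abs_le.2 ⟨by linarith, by linarith⟩
  set ξ := bR x - p with hξd
  set vt := qt / (s.lam * den .H s) with hvt
  have hden : s.lam * den .H s = 10000 + s.x := by simp [den, hl]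
  have hp : 0 < 10000 + s.x := by linarith
  have hv : |vt| ≤ 1 / 2 := by
    rw [hvt, hden, abs_div, abs_of_pos hp, div_le_iff₀ hp]
    linarith
  have hG := log_GU (vt := vt) p0 p1 (H_half hv (abs_le.2 ⟨by linarith, by linarith⟩))
    (H_half hv (abs_le.2 ⟨by linarith, by linarith⟩)) x
  have hd : -19 ≤ qt * ξ := H_low (by linarith) hξ
  have hC := H_core (QV := QV) (w := q ^ 2 * (ξ ^ 2 + p * (1 - p))) h.inv hX0 hX3 hd
  rw [min_eq_left (by linarith), ← sq, sq_abs] at hG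
  have hξ2 : ξ ^ 2 ≤ 1 := H_sq1 hξ
  have hvar : 0 ≤ p * (1 - p) := mul_nonneg p0 (by linarith)
  have hvar1 : p * (1 - p) ≤ 1 := H_var1
  have hv2 : vt ^ 2 ≤ 1 := H_sq1 (by linarith)
  have hL := H_log_ge (t := (vt * ξ) ^ 2) (B := 1) (sq_nonneg _) (by
    rw [mul_pow]
    exact mul_le_one₀ hv2 (sq_nonneg _) hξ2)
  have hvq : qt ^ 2 / (101 * 10 ^ 6) ≤ vt ^ 2 := by
    rw [hvt, hden, div_pow]
    refine div_le_div_of_nonneg_left (sq_nonneg _) (by positivity) ?_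
    have : (10000 + s.x) ^ 2 ≤ (10004 : ℝ) ^ 2 := pow_le_pow_left₀ hp.le (by linarith) 2
    linarith
  have a1 : qt ^ 2 / (101 * 10 ^ 6) * ξ ^ 2 ≤ (vt * ξ) ^ 2 := by
    rw [mul_pow]
    exact mul_le_mul_of_nonneg_right hvq (sq_nonneg _)
  have a2 : p * (1 - p) * (qt ^ 2 / (101 * 10 ^ 6)) ≤ p * (1 - p) * vt ^ 2 :=
    mul_le_mul_of_nonneg_left hvq hvar
  have a3 : (qt - q) ^ 2 ≤ 2 * Q ^ 2 / 10 ^ 10 + 2 * θ ^ 2 := by
    linarith [H_sq_add hn]
  have a4 : q ^ 2 ≤ 3 * Q ^ 2 + 2 * θ ^ 2 := by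
    have := H_sq_add (a := Q + Q / 100000) (b := θ) (c := q) (by rw [abs_of_nonneg q0]; linarith)
    linarith [sq_nonneg Q]
  have a5 : (qt - q) ^ 2 * ξ ^ 2 ≤ (2 * Q ^ 2 / 10 ^ 10 + 2 * θ ^ 2) * ξ ^ 2 :=
    mul_le_mul_of_nonneg_right a3 (sq_nonneg _)
  have a6 : q ^ 2 * (ξ ^ 2 + p * (1 - p)) ≤ (3 * Q ^ 2 + 2 * θ ^ 2) * (ξ ^ 2 + p * (1 - p)) :=
    mul_le_mul_of_nonneg_right a4 (by positivity)
  have a7 : θ ^ 2 * ξ ^ 2 ≤ θ ^ 2 := mul_le_of_le_one_right (sq_nonneg _) hξ2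
  have a8 : θ ^ 2 * (p * (1 - p)) ≤ θ ^ 2 := mul_le_of_le_one_right (sq_nonneg _) hvar1
  have a9 : 0 ≤ Q ^ 2 * (p * (1 - p)) := by positivity
  have a10 : 0 ≤ qt ^ 2 * (p * (1 - p)) := by positivity
  have a11 : 0 ≤ qt ^ 2 * ξ ^ 2 := by positivity
  have a12 : 0 ≤ θ ^ 2 := sq_nonneg _
  unfold valU
  simp only [pre]
  rw [← hξd, ← hvt]
  rw [← hvt] at hC
  rw [← hξd] at hG
  unfold cH at hC
  linarith [hC, hG, hL, a1, a2, a5, a6, a7, a8, a9, a10, a11, a12]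

theorem stepU_H : StepU .H := by
  intro s Q p X QV q θ θ' x π qt h hM hQ hπ h0 h1
  obtain ⟨hl, hx1, hx4⟩ := h.inv
  obtain ⟨hq1, hX0, hX3, -, -⟩ := h.tok
  have hξ := H_xi_abs h.p0 h.p1 x
  have hθ : θ ≤ 1 / 1000 := by simpa [hl] using h.t1
  have hb := H_bias hM (H_c hx1 hx4 hX0 hX3 hξ)
  have m0 := mul_le_mul_of_nonneg_left (H_modeU (QV := QV) h hQ (hM.near 0)) (hM.nn 0)
  have m1 := mul_le_mul_of_nonneg_left (H_modeU (QV := QV) h hQ (hM.near 1)) (hM.nn 1)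
  have m2 := mul_le_mul_of_nonneg_left (H_modeU (QV := QV) h hQ (hM.near 2)) (hM.nn 2)
  have hone := hM.one
  have Q0 := h.Q0
  have hQ2 : Q ≤ 6 := by linarith [(abs_le.1 hQ).2, h.t0]
  have hvar : 0 ≤ p * (1 - p) := mul_nonneg h.p0 (by linarith [h.p1])
  simp only [Fin.sum_univ_three] at hone hb ⊢
  simp only [pre, hl, div_one, Real.log_one, add_zero, pay, min_eq_left hQ2]
  set W := (bR x - p) ^ 2 + p * (1 - p) with hW
  have hW0 : 0 ≤ W := by positivity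
  have b0 : π 0 * (Q ^ 2 / 4 * W) ≤ π 0 * (qt 0 ^ 2 * W) :=
    mul_le_mul_of_nonneg_left (mul_le_mul_of_nonneg_right (H_quarter Q0 h0) hW0) (hM.nn 0)
  have b1 : π 1 * (Q ^ 2 / 4 * W) ≤ π 1 * (qt 1 ^ 2 * W) :=
    mul_le_mul_of_nonneg_left (mul_le_mul_of_nonneg_right (H_quarter Q0 h1) hW0) (hM.nn 1)
  have b2 : 0 ≤ π 2 * (qt 2 ^ 2 * W) := mul_nonneg (hM.nn 2) (by positivity)
  have b3 : 1 / 2 * (Q ^ 2 / 4 * W) ≤ (π 0 + π 1) * (Q ^ 2 / 4 * W) :=
    mul_le_mul_of_nonneg_right hπ (by positivity)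
  have b4 : p * (1 - p) * (Q * Q) ≤ Q ^ 2 * W := by
    rw [hW]
    linarith [mul_nonneg (sq_nonneg Q) (sq_nonneg (bR x - p))]
  have b5 : 0 ≤ Q ^ 2 * W := by positivity
  have e1 : (π 0 + π 1 + π 2) * Phi .H s X QV = Phi .H s X QV := by rw [hone, one_mul]
  have e2 : (π 0 + π 1 + π 2) * (5 / 10 ^ 13 * (Q ^ 2 * W) + θ ^ 2) =
      5 / 10 ^ 13 * (Q ^ 2 * W) + θ ^ 2 := by rw [hone, one_mul]
  have t2 := h.t2
  have t3 := sq_nonneg θ
  linarith [m0, m1, m2, hb, b0, b1, b2, b3, b4, b5, e1, e2, t2, t3]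

/-- One mode of case D. -/
lemma H_modeD {s : MS} {Q p X QV q θ θ' : ℝ} {x : Bool} (h : Sit .H s Q p X q θ θ' x) {qt : ℝ}
    (hQ : q ≤ 2 * Q + θ) (hn : |qt - q| ≤ 2 * Q + θ) (h6 : Q ≤ 6) :
    - 2 / 1000 * ((s.x - X) * (bR x - p) * (qt - q))
      - (11 * (p * (1 - p) * (Q * Q)) + θ ^ 2) ≤
      valD .H s Q p X QV q qt x + Phi .H s X QV := by
  obtain ⟨hl, h1, h4⟩ := h.inv
  obtain ⟨hq1, -, -, hX0, hX3⟩ := h.tok
  have hξ := H_xi_abs h.p0 h.p1 x
  have hθ : θ ≤ 1 / 1000 := by simpa [hl] using h.t1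
  have t0 := h.t0
  have Q0 := h.Q0
  have q0 := h.q0
  have p0 := h.p0
  have p1 := h.p1
  obtain ⟨hna, hnb⟩ := abs_le.1 hn
  have hqt : |qt| ≤ 15 := abs_le.2 ⟨by linarith, by linarith⟩
  set ξ := bR x - p with hξd
  set vt := qt / (s.lam * den .H s) with hvt
  have hden : s.lam * den .H s = 10000 + s.x := by simp [den, hl]
  have hp : 0 < 10000 + s.x := by linarith
  have hv : |vt| ≤ 1 / 2 := by
    rw [hvt, hden, abs_div, abs_of_pos hp, div_le_iff₀ hp]
    linarith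
  have hG := log_GD_small (vt := vt) p0 p1 h6 hv x
  have hd : -19 ≤ qt * ξ := H_low hqt hξ
  have hC := H_core (QV := QV) (w := q ^ 2 * (ξ ^ 2 + p * (1 - p))) h.inv hX0 hX3 hd
  have hξ2 : ξ ^ 2 ≤ 1 := H_sq1 hξ
  have hvar : 0 ≤ p * (1 - p) := mul_nonneg p0 (by linarith)
  have hvar1 : p * (1 - p) ≤ 1 := H_var1
  have hL := H_log_ge (t := 8 * Q ^ 2 * ξ ^ 2) (B := 288) (by positivity) (by
    have h36 : Q ^ 2 ≤ 6 ^ 2 := pow_le_pow_left₀ Q0 h6 2
    have := mul_le_of_le_one_right (sq_nonneg Q) hξ2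
    linarith)
  have a3 : (qt - q) ^ 2 ≤ 8 * Q ^ 2 + 2 * θ ^ 2 := by
    linarith [H_sq_add hn]
  have a4 : q ^ 2 ≤ 8 * Q ^ 2 + 2 * θ ^ 2 := by
    linarith [H_sq_add (c := q) (by rw [abs_of_nonneg q0]; exact hQ)]
  have a5 : (qt - q) ^ 2 * ξ ^ 2 ≤ (8 * Q ^ 2 + 2 * θ ^ 2) * ξ ^ 2 :=
    mul_le_mul_of_nonneg_right a3 (sq_nonneg _)
  have a6 : q ^ 2 * (ξ ^ 2 + p * (1 - p)) ≤ (8 * Q ^ 2 + 2 * θ ^ 2) * (ξ ^ 2 + p * (1 - p)) :=
    mul_le_mul_of_nonneg_right a4 (by positivity)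
  have a7 : θ ^ 2 * ξ ^ 2 ≤ θ ^ 2 := mul_le_of_le_one_right (sq_nonneg _) hξ2
  have a8 : θ ^ 2 * (p * (1 - p)) ≤ θ ^ 2 := mul_le_of_le_one_right (sq_nonneg _) hvar1
  have a9 : 0 ≤ Q ^ 2 * (p * (1 - p)) := by positivity
  have a11 : 0 ≤ Q ^ 2 * ξ ^ 2 := by positivity
  have a12 : 0 ≤ θ ^ 2 := sq_nonneg _
  have eQ : Q / s.lam = Q := by rw [hl, div_one]
  have eD : qD s Q qt = qt := by simp [qD, eQ, h6]
  unfold valD
  rw [eQ, eD, ← hξd, ← hvt]
  rw [← hvt] at hC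
  rw [← hξd] at hG
  unfold cH at hC
  linarith [hC, hG, hL, a5, a6, a7, a8, a9, a11, a12]

theorem stepD_H : StepD .H := by
  intro s Q p X QV q θ θ' x π qt h hM hQ hc
  obtain ⟨hl, hx1, hx4⟩ := h.inv
  obtain ⟨hq1, hX0, hX3, -, -⟩ := h.tok
  have hξ := H_xi_abs h.p0 h.p1 x
  have hb := H_bias hM (H_c hx1 hx4 hX0 hX3 hξ)
  have h6 : Q ≤ 6 := by
    simp only [rr, hl] at hc
    linarith
  have m0 := mul_le_mul_of_nonneg_left (H_modeD (QV := QV) h hQ (hM.near 0) h6) (hM.nn 0)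
  have m1 := mul_le_mul_of_nonneg_left (H_modeD (QV := QV) h hQ (hM.near 1) h6) (hM.nn 1)
  have m2 := mul_le_mul_of_nonneg_left (H_modeD (QV := QV) h hQ (hM.near 2) h6) (hM.nn 2)
  have hone := hM.one
  simp only [Fin.sum_univ_three] at hone hb ⊢
  simp only [hl, div_one, pay, min_eq_left h6]
  have e1 : (π 0 + π 1 + π 2) * Phi .H s X QV = Phi .H s X QV := by rw [hone, one_mul]
  have e2 : (π 0 + π 1 + π 2) * (11 * (p * (1 - p) * (Q * Q)) + θ ^ 2) =
      11 * (p * (1 - p) * (Q * Q)) + θ ^ 2 := by rw [hone, one_mul]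
  have t2 := h.t2
  have t3 := sq_nonneg θ
  linarith [m0, m1, m2, hb, e1, e2, t2, t3]

end Pool.Agent.P.MP_5c258a_lc.Bin
end

-- part Pool.Agent.P.MP_5c258a_lc.Bin.MainA
section

/-! The main family of plans: definitions, weights, the true weights of its episodes. -/

namespace Pool.Agent.P.MP_5c258a_lc.Bin

open Finset Classical

variable {n : ℕ}

abbrev ME (r : ℕ) := (Fin (pJ r) × Fin (pL r)) × Fin (pK r + 1)
abbrev MK (r : ℕ) := (Fin (pJ r) × Fin (pK r + 1) × Fin (pK r + 1)) × (Fin (pN r) × Bool ⊕ Fin 5)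
abbrev MLab (r : ℕ) := Option (Fin 5 × Fin (pK r + 1))

noncomputable def swf (tr : Tr n) (b : Fin n) : Option ℕ → ℝ
  | none => 0
  | some f => 1 - tr.bt f b

noncomputable def omA {m : ℕ} (tr : Tr n) (b : Fin n) (f : Fin m → Option ℕ) (side : Bool)
    (c : Prop) : Fin m × Bool ⊕ Fin 5 → ℝ
  | .inl x => if x.2 = side ∧ c then swf tr b (f x.1) / m else 0
  | .inr _ => 0

noncomputable def omH {m : ℕ} (κ : Fin 5) : Fin m × Bool ⊕ Fin 5 → ℝ
  | .inl _ => 0
  | .inr κ' => if κ' = κ then 1 else 0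

noncomputable def omK {m : ℕ} (r : ℕ) (tr : Tr n) (N : Finset (Fin n)) (τ : ℕ) (b : Fin n)
    (f : Fin m → Option ℕ) (w : ℕ) (κ : Fin 5) (i : ℕ) : Fin m × Bool ⊕ Fin 5 → ℝ :=
  ![omA tr b f false True, omA tr b f true (rp r (3 * 4 ^ i) < tr.vv N τ w), omH 2,
    omA tr b f true (rp r (3 * 4 ^ i) < tr.vv N τ w), omH 4] κ

noncomputable def mkPlan (r : ℕ) (N : Finset (Fin n)) (col : ℕ → Fin (pL r) → Fin n) (t0 te : ℕ)
    (τ : Fin (pJ r) → ℕ) (Tm : Fin (pJ r) → Fin (pK r + 1) → ℕ → ℕ)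
    (ff : Fin (pJ r) × Fin (pK r + 1) × Fin (pK r + 1) → Fin (pN r) → Option ℕ)
    (sch : ME r → MLab r) : Plan n (ME r) (MK r) where
  t0 := t0
  te := te
  col := fun e => col e.1.1 e.1.2
  ty := fun e => (sch e).elim .L fun x => lTy x.1
  lam := fun e => (sch e).elim 1 fun x => lLam r x.1 x.2
  lo := fun e => (sch e).elim t0 fun x => lLo (τ e.1.1) (Tm e.1.1 e.2) x.1 x.2
  hi := fun e => (sch e).elim t0 fun x => lHi (Tm e.1.1 e.2) x.1 x.2
  om := fun e tr w kk => (sch e).elim 0 fun x => if kk.1 = (e.1.1, e.2, x.2) then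
    omK r tr N (τ e.1.1) (col e.1.1 e.1.2) (ff kk.1) w x.1 x.2 kk.2 else 0

/-- Allowed sets and sources of the flows. -/
def flA {m : ℕ} (r : ℕ) (tr : Tr n) (N : Finset (Fin n)) (τ : ℕ) (Tm : ℕ → ℕ) (i : ℕ) :
    Fin m × Bool ⊕ Fin 5 → ℕ → Prop
  | .inl x => if x.2 = true then AA r tr N τ Tm i else fun w => τ < w
  | .inr _ => fun w => τ < w

def flZ {m : ℕ} (s : Fin m → Option (ℕ × ℕ)) (w0 : Fin 5 → ℕ) : Fin m × Bool ⊕ Fin 5 → ℕ
  | .inl x => sz (s x.1)
  | .inr κ => w0 κ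

lemma swf_nonneg (tr : Tr n) (b : Fin n) (o : Option ℕ) : 0 ≤ swf tr b o := by
  cases o with
  | none => exact le_rfl
  | some f => exact sub_nonneg.2 (tr.bt_le_one f b)

lemma swf_le (tr : Tr n) (b : Fin n) (o : Option ℕ) : swf tr b o ≤ 1 := by
  cases o with
  | none => exact zero_le_one
  | some f => exact sub_le_self _ (tr.bt_nonneg f b)

lemma omA_nonneg {m : ℕ} (tr : Tr n) (b : Fin n) (f : Fin m → Option ℕ) (side : Bool) (c : Prop)
    (x : Fin m × Bool ⊕ Fin 5) : 0 ≤ omA tr b f side c x := by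
  rcases x with x | x
  · simp only [omA]
    split_ifs
    · exact div_nonneg (swf_nonneg _ _ _) (Nat.cast_nonneg _)
    · exact le_rfl
  · exact le_rfl

lemma omH_nonneg {m : ℕ} (κ : Fin 5) (x : Fin m × Bool ⊕ Fin 5) : 0 ≤ omH κ x := by
  rcases x with x | x
  · exact le_rfl
  · simp only [omH]; split_ifs <;> norm_num

lemma omK_nonneg {m : ℕ} (r : ℕ) (tr : Tr n) (N : Finset (Fin n)) (τ : ℕ) (b : Fin n)
    (f : Fin m → Option ℕ) (w : ℕ) (κ : Fin 5) (i : ℕ) (x : Fin m × Bool ⊕ Fin 5) :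
    0 ≤ omK r tr N τ b f w κ i x := by
  fin_cases κ <;> simp only [omK] <;> first | exact omA_nonneg _ _ _ _ _ _ | exact omH_nonneg _ _

lemma omA_dot {m : ℕ} (tr : Tr n) (b : Fin n) (f : Fin m → Option ℕ) (side : Bool) (c : Prop)
    (F : Fin m × Bool ⊕ Fin 5 → ℝ) : ∑ x, omA tr b f side c x * F x =
      (∑ j, swf tr b (f j) * if c then F (.inl (j, side)) else 0) / m := by
  rw [Fintype.sum_sum_type, Fintype.sum_prod_type, sum_div]
  simp only [omA, zero_mul, sum_const_zero, add_zero]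
  refine sum_congr rfl fun j _ => ?_
  by_cases hc : c <;> cases side <;> simp [hc] <;> ring

lemma omH_dot {m : ℕ} (κ : Fin 5) (F : Fin m × Bool ⊕ Fin 5 → ℝ) :
    ∑ x, omH κ x * F x = F (.inr κ) := by
  rw [Fintype.sum_sum_type]
  simp [omH]

lemma omK_sum {m : ℕ} (r : ℕ) (tr : Tr n) (N : Finset (Fin n)) (τ : ℕ) (b : Fin n)
    (f : Fin m → Option ℕ) (w : ℕ) (κ : Fin 5) (i : ℕ) : ∑ x, omK r tr N τ b f w κ i x ≤ 1 := by
  have hA : ∀ side c, ∑ x, omA tr b f side c x ≤ 1 := fun side c => by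
    have := omA_dot tr b f side c fun _ => 1
    simp only [mul_one] at this
    rw [this]
    refine div_le_one_of_le₀ ?_ (Nat.cast_nonneg _)
    refine le_trans (sum_le_sum (g := fun _ => (1 : ℝ)) fun j _ => ?_) (by simp)
    split_ifs
    · simpa using swf_le tr b _
    · simp
  have hH : ∀ κ, ∑ x : Fin m × Bool ⊕ Fin 5, omH κ x ≤ 1 := fun κ => by
    have := omH_dot (m := m) κ fun _ => 1
    simp only [mul_one] at this
    exact this.le
  fin_cases κ <;> simp only [omK] <;> first | exact hA _ _ | exact hH _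

lemma omK_dot {m : ℕ} (r : ℕ) {tr : Tr n} (h : tr.WF) (N : Finset (Fin n)) (τ : ℕ) (Tm : ℕ → ℕ)
    (b : Fin n) (s : Fin m → Option (ℕ × ℕ)) (hs : ∀ j x, s j = some x → x.2 ≤ τ) (w0 : Fin 5 → ℕ)
    {w : ℕ} (hw : τ < w) (κ : Fin 5) (i : ℕ) :
    ∑ x, omK r (tr.cut w) N τ b (fun j => (s j).map Prod.snd) w κ i x *
      tr.gr (flA r tr N τ Tm i x) (flZ s w0 x) w = lQ r tr N τ Tm s (w0 κ) κ i b w := by
  have e : ∀ j, swf (tr.cut w) b ((s j).map Prod.snd) = sw tr b (s j) := fun j => by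
    cases hj : s j with
    | none => rfl
    | some x =>
      simp only [Option.map_some, swf, sw]
      rw [Tr.cut_bt tr (lt_of_le_of_lt (hs j x hj) hw)]
  have hA : ∑ x, omA (tr.cut w) b (fun j => (s j).map Prod.snd) false True x *
      tr.gr (flA r tr N τ Tm i x) (flZ s w0 x) w = qA tr τ s b w := by
    rw [omA_dot]
    simp only [e, if_true]
    rfl
  have hL : ∑ x, omA (tr.cut w) b (fun j => (s j).map Prod.snd) true
      (rp r (3 * 4 ^ i) < (tr.cut w).vv N τ w) x *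
      tr.gr (flA r tr N τ Tm i x) (flZ s w0 x) w = qL r tr N τ Tm i s b w := by
    rw [omA_dot]
    simp only [e, Tr.cut_vv h]
    rfl
  have hH : ∀ κ, ∑ x, omH κ x * tr.gr (flA r tr N τ Tm i x) (flZ s w0 x) w = tr.pi τ (w0 κ) w :=
    fun κ => by rw [omH_dot]; rfl
  fin_cases κ
  exacts [hA, hL, hH 2, hL, hH 4]

lemma XX_congr (tr : Tr n) {q q' : ℕ → ℝ} (b : Fin n) {lo hi t : ℕ} (ht : t ≤ hi)
    (h : ∀ w ∈ Ioc lo hi, q w = q' w) : tr.XX q b lo t = tr.XX q' b lo t :=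
  sum_congr rfl fun w hw => by rw [h w (Ioc_subset_Ioc_right ht hw)]

lemma QQ_congr (tr : Tr n) {q q' : ℕ → ℝ} (b : Fin n) {lo hi : ℕ}
    (h : ∀ w ∈ Ioc lo hi, q w = q' w) : tr.QQ q b lo hi = tr.QQ q' b lo hi :=
  sum_congr rfl fun w hw => by rw [h w hw]

lemma Cond_congr (tr : Tr n) {q q' : ℕ → ℝ} (b : Fin n) {lo hi : ℕ} (lam : ℝ) (ty : Ty)
    (h : ∀ w ∈ Ioc lo hi, q w = q' w) (hc : Cond tr q' b lo hi lam ty) :
    Cond tr q b lo hi lam ty := by
  cases ty with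
  | A =>
    intro w hw
    rw [h w hw, XX_congr tr b (by have := mem_Ioc.1 hw; omega) h]
    exact hc w hw
  | H =>
    refine ⟨hc.1, fun w hw => ?_⟩
    rw [h w hw, XX_congr tr b (mem_Ioc.1 hw).2 h]
    exact hc.2 w hw
  | L =>
    intro w hw
    rw [h w hw]
    exact hc w hw

noncomputable def labW (r : ℕ) : MLab r → ℝ
  | none => 1 / 2
  | some x => 1 / 10 * (1 / 2) ^ ((x.2 : ℕ) + 1)

lemma labW_pos (r : ℕ) (x : MLab r) : 0 < labW r x := by
  cases x <;> simp only [labW] <;> positivity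

lemma labW_sum (r : ℕ) : ∑ x, labW r x ≤ 1 := by
  rw [Fintype.sum_option, Fintype.sum_prod_type]
  simp only [labW, sum_const, card_univ, Fintype.card_fin, nsmul_eq_mul]
  rw [← mul_sum, Fin.sum_univ_eq_sum_range (fun i => (1 / 2 : ℝ) ^ (i + 1))]
  have : ∀ m : ℕ, ∑ i ∈ range m, (1 / 2 : ℝ) ^ (i + 1) = 1 - (1 / 2) ^ m := fun m => by
    induction m with
    | zero => simp
    | succ m ih => rw [sum_range_succ, ih]; ring
  rw [this]
  have : (0 : ℝ) ≤ (1 / 2) ^ (pK r + 1) := by positivity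
  push_cast
  linarith

lemma labW_log (r : ℕ) (x : Fin 5 × Fin (pK r + 1)) :
    -(((x.2 : ℕ) : ℝ) + 4) ≤ Real.log (labW r (some x)) := by
  simp only [labW]
  rw [Real.log_mul (by norm_num) (by positivity), Real.log_pow, one_div, one_div, Real.log_inv,
    Real.log_inv]
  have h2 := Real.log_two_lt_d9
  have h10 : Real.log 10 ≤ 4 * Real.log 2 := by
    have := Real.log_le_log (by norm_num : (0 : ℝ) < 10) (by norm_num : (10 : ℝ) ≤ 2 ^ 4)
    rw [Real.log_pow] at this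
    exact_mod_cast this
  have : (0 : ℝ) ≤ (x.2 : ℕ) := Nat.cast_nonneg _
  push_cast
  nlinarith

end Pool.Agent.P.MP_5c258a_lc.Bin
end

-- part Pool.Agent.P.MP_5c258a_lc.Bin.Bet
section

/-! Task BET: the betting lemma and GOOD (paper section 1). -/

namespace Pool.Agent.P.MP_5c258a_lc.Bin

open Finset Classical

lemma ExL_add {X : Type} [Fintype X] {st : List X → X → ℝ} (a b : ℕ) (xs : List X)
    (φ : List X → ℝ) : Ex st (a + b) xs φ = Ex st a xs fun l => Ex st b l φ := by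
  induction a generalizing xs with
  | zero => simp
  | succ a ih =>
    rw [Nat.add_right_comm, Ex_succ, Ex_succ]
    simp only [ih]

lemma ExL_sum {X ι : Type} [Fintype X] {st : List X → X → ℝ} (s : Finset ι) (t : ℕ) (xs : List X)
    (a : ι → ℝ) (φ : ι → List X → ℝ) :
    Ex st t xs (fun l => ∑ i ∈ s, a i * φ i l) = ∑ i ∈ s, a i * Ex st t xs (φ i) := by
  have : (fun l => ∑ i ∈ s, a i * φ i l) = ∑ i ∈ s, a i • φ i := by
    funext l; simp
  rw [this, map_sum]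
  simp

variable {n : ℕ}

section app

variable (A : BAlg n) (O : Finset (Fin n)) (xs zs : List (Fin n → Bool))

lemma parW_le (i : Fin 2) (w : ℕ) : parW A xs i w ≤ w - 1 := min_le_right _ _

lemma parW_app (i : Fin 2) {w : ℕ} (h : w ≤ xs.length) :
    parW A (xs ++ zs) i w = parW A xs i w := by
  simp only [parW, List.take_append_of_le_length h]

lemma nc_app (w : ℕ) : w < xs.length → nc A O (xs ++ zs) w = nc A O xs w := by
  induction w using Nat.strong_induction_on with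
  | _ w ih =>
    intro h
    cases w with
    | zero => rw [nc_zero, nc_zero, List.getD_append _ _ _ _ h]
    | succ w =>
      have h0 := parW_le A xs 0 (w + 1)
      have h1 := parW_le A xs 1 (w + 1)
      rw [nc_succ, nc_succ, List.getD_append _ _ _ _ h, parW_app A xs zs 0 h.le,
        parW_app A xs zs 1 h.le, ih _ (by omega) (by omega), ih _ (by omega) (by omega)]

lemma nc_par_app (i : Fin 2) {w : ℕ} (h : w ≤ xs.length) (h0 : 0 < xs.length) :
    nc A O (xs ++ zs) (parW A (xs ++ zs) i w) = nc A O xs (parW A xs i w) := by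
  have := parW_le A xs i w
  rw [parW_app A xs zs i h, nc_app A O xs zs _ (by omega)]

/-- The cut trajectory at the next step when the next normalised string is `y`. -/
noncomputable def cutAt (y : Fin n → Bool) : Tr n where
  c := fun i => if i < xs.length then nc A O xs i else fun _ => false
  u := fun i => if i ≤ xs.length then parW A xs 0 i else 0
  v := fun i => if i ≤ xs.length then parW A xs 1 i else 0
  al := fun i => if i < xs.length then (nrm A O xs).al i else if i = xs.length then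
    alf (nc A O xs (parW A xs 0 i)) (nc A O xs (parW A xs 1 i)) y else 0
  be := fun i => if i < xs.length then (nrm A O xs).be i else if i = xs.length then
    bet (nc A O xs (parW A xs 0 i)) (nc A O xs (parW A xs 1 i)) y else 0

lemma cut_app (h0 : 0 < xs.length) :
    (nrm A O (xs ++ zs)).cut xs.length = cutAt A O xs (nc A O (xs ++ zs) xs.length) := by
  simp only [Tr.cut, cutAt, nrm, Tr.mk.injEq]
  refine ⟨?_, ?_, ?_, ?_, ?_⟩ <;> funext i
  · split_ifs with h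
    exacts [nc_app A O xs zs i h, rfl]
  · split_ifs with h
    exacts [parW_app A xs zs 0 h, rfl]
  · split_ifs with h
    exacts [parW_app A xs zs 1 h, rfl]
  all_goals
    rcases lt_trichotomy i xs.length with h | rfl | h
    · rw [if_pos h.le, if_pos h, nc_par_app A O xs zs 0 h.le h0, nc_par_app A O xs zs 1 h.le h0,
        nc_app A O xs zs i h]
    · rw [if_pos le_rfl, if_neg (lt_irrefl _), if_pos rfl, nc_par_app A O xs zs 0 le_rfl h0,
        nc_par_app A O xs zs 1 le_rfl h0]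
    · rw [if_neg (by omega), if_neg (by omega), if_neg (by omega)]

lemma nc_last (h0 : 0 < xs.length) (y : Fin n → Bool) :
    nc A O (xs ++ [y] ++ zs) xs.length = nz O (nc A O xs (parW A xs 0 xs.length))
      (nc A O xs (parW A xs 1 xs.length)) y := by
  obtain ⟨w, hw⟩ := Nat.exists_eq_succ_of_ne_zero h0.ne'
  rw [nc_app A O _ zs _ (by simp), hw, nc_succ, ← Nat.succ_eq_add_one, ← hw,
    nc_par_app A O xs _ 0 le_rfl h0, nc_par_app A O xs _ 1 le_rfl h0]
  simp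

lemma cutAt_pb (h0 : 0 < xs.length) (y : Fin n → Bool) (b : Fin n) :
    (cutAt A O xs y).pb xs.length b =
      pbf (nc A O xs (parW A xs 0 xs.length)) (nc A O xs (parW A xs 1 xs.length))
        (alf (nc A O xs (parW A xs 0 xs.length)) (nc A O xs (parW A xs 1 xs.length)) y)
        (bet (nc A O xs (parW A xs 0 xs.length)) (nc A O xs (parW A xs 1 xs.length)) y) b := by
  have h1 : parW A xs 0 xs.length < xs.length := by have := parW_le A xs 0 xs.length; omega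
  have h2 : parW A xs 1 xs.length < xs.length := by have := parW_le A xs 1 xs.length; omega
  rw [pb_eq_pbf]
  simp [cutAt, h1, h2]

lemma cutAt_orb {y y' : Fin n → Bool} (h : y' ∈ orb (nc A O xs (parW A xs 0 xs.length))
    (nc A O xs (parW A xs 1 xs.length)) y) : cutAt A O xs y' = cutAt A O xs y := by
  simp only [cutAt, Tr.mk.injEq, true_and]
  refine ⟨?_, ?_⟩ <;> funext i <;> split_ifs with h1 h2 <;> try rfl
  · rw [h2, alf_orb h]
  · rw [h2, bet_orb h]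

end app

lemma pbf_mem (u v y : Fin n → Bool) (b : Fin n) :
    0 ≤ pbf u v (alf u v y) (bet u v y) b ∧ pbf u v (alf u v y) (bet u v y) b ≤ 1 := by
  unfold pbf
  split_ifs <;> constructor <;>
    linarith [alf_nonneg u v y, alf_le_one u v y, bet_nonneg u v y, bet_le_one u v y]

namespace Bettor

variable {St Opt : Type} [Fintype Opt] (B : Bettor n St Opt)

/-- The wealth summed over all option sequences. -/
noncomputable def tot (tr : Tr n) : ℕ → ℕ → St → ℝ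
  | 0, _, _ => 1
  | m + 1, t, s => ∑ o, B.fac tr s (t + 1) o *
      tot tr m (t + 1) (B.upd s (tr.cut (t + 1)) (t + 1) o (tr.c (t + 1)))

theorem tot_realize : True := by have := @tot.eq_def; trivial

lemma fac_nonneg (tr : Tr n) (s : St) (w : ℕ) (o : Opt) : 0 ≤ B.fac tr s w o :=
  mul_nonneg (B.wt0 _ _ _ _) (Real.sqrt_nonneg _)

lemma tot_nonneg (tr : Tr n) : ∀ m t s, 0 ≤ B.tot tr m t s
  | 0, _, _ => zero_le_one
  | m + 1, _, _ => sum_nonneg fun _ _ => mul_nonneg (B.fac_nonneg _ _ _ _) (tot_nonneg tr m _ _)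

lemma wealth_mul_le (tr : Tr n) (t0 : ℕ) (o : ℕ → Opt) : ∀ r m,
    B.wealth tr t0 o r * B.tot tr m (t0 + r) (B.run tr t0 o r) ≤ B.tot tr (r + m) t0 B.init
  | 0, m => by simp [wealth, run_zero]
  | r + 1, m => by
    refine le_trans ?_ ((wealth_mul_le tr t0 o r (m + 1)).trans (le_of_eq (by congr 1; omega)))
    rw [wealth, prod_range_succ, mul_assoc]
    refine mul_le_mul_of_nonneg_left ?_ (prod_nonneg fun _ _ => B.fac_nonneg _ _ _ _)
    exact single_le_sum (f := fun o' => B.fac tr (B.run tr t0 o r) (t0 + r + 1) o' *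
      B.tot tr m (t0 + r + 1) (B.upd (B.run tr t0 o r) (tr.cut (t0 + r + 1)) (t0 + r + 1) o'
        (tr.c (t0 + r + 1))))
      (fun _ _ => mul_nonneg (B.fac_nonneg _ _ _ _) (B.tot_nonneg _ _ _ _)) (mem_univ (o r))

lemma tot_mean (A : BAlg n) (O : Finset (Fin n)) (k : ℕ) :
    ∀ (m t : ℕ) (s : St) (xs : List (Fin n → Bool)), xs.length = t + 1 →
      Ex (bstep A f0) (m + k) xs (fun l => B.tot (nrm A O l) m t s) ≤ 1
  | 0, _, _, _, _ => (Ex_const (bstep_sum A f0) _ _ _).le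
  | m + 1, t, s, xs, hl => by
    have h0 : 0 < xs.length := by omega
    have hx : xs ≠ [] := List.length_pos_iff.1 h0
    set u := nc A O xs (parW A xs 0 xs.length) with hu
    set v := nc A O xs (parW A xs 1 xs.length) with hv
    let Ψ : (Fin n → Bool) → ℝ := fun y => ∑ o, B.wt s (cutAt A O xs y) xs.length o *
      √(∏ b, B.G s (cutAt A O xs y) xs.length o b (y b))
    have h1 : ∀ y, Ex (bstep A f0) (m + k) (xs ++ [y])
        (fun l => B.tot (nrm A O l) (m + 1) t s) ≤ Ψ (nz O u v y) := fun y => by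
      refine le_trans (Ex_mono' (bstep_nonneg A f0) _ _ _ (fun l =>
        ∑ o, (B.wt s (cutAt A O xs (nz O u v y)) xs.length o *
          √(∏ b, B.G s (cutAt A O xs (nz O u v y)) xs.length o b (nz O u v y b))) *
          B.tot (nrm A O l) m (t + 1) (B.upd s (cutAt A O xs (nz O u v y)) xs.length o (nz O u v y)))
        fun zs _ => le_of_eq ?_) ?_
      · have e1 : (nrm A O (xs ++ [y] ++ zs)).c (t + 1) = nz O u v y := hl ▸ nc_last A O xs zs h0 y
        have e2 : (nrm A O (xs ++ [y] ++ zs)).cut (t + 1) = cutAt A O xs (nz O u v y) := by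
          rw [← nc_last A O xs zs h0 y, List.append_assoc, ← cut_app A O xs _ h0, hl]
        simp only [tot, fac, e1, e2, hl]
      · rw [ExL_sum]
        exact sum_le_sum fun o _ => mul_le_of_le_one_right
          (mul_nonneg (B.wt0 _ _ _ _) (Real.sqrt_nonneg _))
          (tot_mean A O k m (t + 1) _ _ (by simp [hl]))
    rw [Nat.add_right_comm, Ex_succ]
    refine (sum_le_sum fun y _ => mul_le_mul_of_nonneg_left (h1 y) (bstep_nonneg A f0 _ _)).trans ?_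
    have hp : ∀ i, parW A xs i xs.length = A.par (xs.map f0) i := fun i => by
      have := A.par_lt (xs.map f0) i (by simpa using hx)
      simp only [parW, List.take_length, List.length_map] at this ⊢
      omega
    simp only [bstep, if_neg hx]
    refine step_le _ _ O u v (by rw [hu, hp]; exact nc_cases _ _ _ _)
      (by rw [hv, hp]; exact nc_cases _ _ _ _) Ψ 1 fun y0 => ?_
    rw [sum_congr rfl (g := fun y => ∑ o, B.wt s (cutAt A O xs y0) xs.length o *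
      √(∏ b, B.G s (cutAt A O xs y0) xs.length o b (y b))) fun y hy => by
        simp only [Ψ, cutAt_orb A O xs hy], sum_comm]
    have hb := fun b => pbf_mem u v y0 b
    simp only [hu, hv, ← cutAt_pb A O xs h0] at hb
    refine le_trans (sum_le_sum fun o _ => ?_) (le_trans (mul_sum _ _ _).ge
      (mul_le_mul_of_nonneg_left (B.wt1 s (cutAt A O xs y0) xs.length) (Nat.cast_nonneg _)))
    rw [← mul_sum, mul_comm]
    refine mul_le_mul_of_nonneg_right (lemmaH u v y0 _ (fun b x => B.G0 _ _ _ _ _ _ (hb b).1 (hb b).2)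
      fun b => ?_) (B.wt0 _ _ _ _)
    rw [hu, hv, ← cutAt_pb A O xs h0]
    exact B.G1 _ _ _ _ _ (hb b).1 (hb b).2

end Bettor

/-- Betting lemma. -/
theorem bet_bound {St Opt : Type} [Fintype Opt] (B : Bettor n St Opt) (A : BAlg n)
    (O : Finset (Fin n)) (t0 m T : ℕ) (h : t0 + m ≤ T) (g : ℝ) :
    Pr A (T + 1) (fun xs => ∃ o, Real.exp g ≤ B.wealth (nrm A O xs) t0 o m) ≤ Real.exp (-g) := by
  obtain ⟨k, rfl⟩ := Nat.exists_eq_add_of_le h
  have h1 : Ex (bstep A f0) (t0 + m + k + 1) [] (fun l => B.tot (nrm A O l) m t0 B.init) ≤ 1 := by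
    rw [show t0 + m + k + 1 = t0 + 1 + (m + k) by omega, ExL_add]
    refine le_trans (Ex_mono' (bstep_nonneg A f0) _ _ _ (fun _ => 1) fun zs hz => ?_)
      (Ex_const (bstep_sum A f0) _ _ _).le
    exact B.tot_mean A O k m t0 _ _ (by simpa using hz)
  have h2 := (Ex (bstep A f0) (t0 + m + k + 1) []).map_smul (Real.exp (-g))
    fun l => B.tot (nrm A O l) m t0 B.init
  refine le_trans (Ex_mono (bstep_nonneg A f0) _ _ _ _ fun xs => ?_)
    (h2.le.trans (mul_le_of_le_one_right (Real.exp_pos _).le h1))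
  simp only [Pi.smul_apply, smul_eq_mul]
  split_ifs with h3
  · obtain ⟨o, h3⟩ := h3
    have := B.wealth_mul_le (nrm A O xs) t0 o m 0
    simp only [Bettor.tot, mul_one, add_zero] at this
    calc (1 : ℝ) = Real.exp (-g) * Real.exp g := by rw [← Real.exp_add]; simp
      _ ≤ _ := mul_le_mul_of_nonneg_left (h3.trans this) (Real.exp_pos _).le
  · exact mul_nonneg (Real.exp_pos _).le (B.tot_nonneg _ _ _ _)

lemma bet_hoeff {p s δ : ℝ} (h0 : 0 ≤ p) (h1 : p ≤ 1) (hs : |s| ≤ 2 * δ) (hδ : δ ≤ 1 / 2) :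
    p * Real.exp (s * (1 - p) - δ ^ 2) + (1 - p) * Real.exp (s * (0 - p) - δ ^ 2) ≤ 1 := by
  have e : ∀ x : ℝ, |x| ≤ 1 → Real.exp (s * x) ≤ 1 + s * x + (s * x) ^ 2 := fun x hx => by
    have := Real.abs_exp_sub_one_sub_id_le (x := s * x)
      (by rw [abs_mul]; exact mul_le_one₀ (by linarith) (abs_nonneg _) hx)
    linarith [(abs_le.1 this).2]
  have a1 := mul_le_mul_of_nonneg_left (e (1 - p) (abs_le.2 ⟨by linarith, by linarith⟩)) h0
  have a2 := mul_le_mul_of_nonneg_left (e (0 - p) (abs_le.2 ⟨by linarith, by linarith⟩))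
    (sub_nonneg.2 h1)
  have a3 : s ^ 2 ≤ (2 * δ) ^ 2 := sq_le_sq' (abs_le.1 hs).1 (abs_le.1 hs).2
  have a4 : s ^ 2 * (p * (1 - p)) ≤ δ ^ 2 := by nlinarith [sq_nonneg (p - 1 / 2), sq_nonneg s]
  rw [Real.exp_sub, Real.exp_sub, ← mul_div_assoc, ← mul_div_assoc, ← add_div,
    div_le_one (Real.exp_pos _)]
  nlinarith [Real.add_one_le_exp (δ ^ 2)]

lemma bet_cut_pb {tr : Tr n} (h : tr.WF) {w : ℕ} (hw : 0 < w) (b : Fin n) :
    (tr.cut w).pb w b = tr.pb w b := by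
  simp [pb_eq_pbf, Tr.cut, h.u_lt w hw, h.v_lt w hw]

lemma dev_prob (A : BAlg n) (O N : Finset (Fin n)) {T w : ℕ} (hw : 0 < w) (hT : w ≤ T)
    (om : Tr n → Fin n → ℝ) (ho : ∀ tr b, |om tr b| ≤ 1) {δ : ℝ} (h0 : 0 ≤ δ) (h1 : δ ≤ 1 / 2)
    {m : ℕ} (hN : m ≤ N.card) :
    Pr A (T + 1) (fun xs => δ * N.card <
      ∑ b ∈ N, (nrm A O xs).xi w b * om ((nrm A O xs).cut w) b) ≤
      Real.exp (-(δ ^ 2 * m / 2)) := by
  let B : Bettor n Unit Unit :=
    { init := ()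
      wt := fun _ _ _ _ => 1
      G := fun _ tr w _ b x => if b ∈ N then
        Real.exp (2 * δ * om tr b * ((if x = true then 1 else 0) - tr.pb w b) - δ ^ 2) else 1
      upd := fun _ _ _ _ _ => ()
      wt0 := fun _ _ _ _ => zero_le_one
      wt1 := fun _ _ _ => by simp
      G0 := fun _ _ _ _ _ _ _ _ => by split_ifs <;> positivity
      G1 := fun _ tr w _ b p0 p1 => by
        by_cases hb : b ∈ N
        · simp only [hb, if_true, Bool.false_eq_true, if_false]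
          refine bet_hoeff p0 p1 ?_ h1
          rw [abs_mul, abs_of_nonneg (by linarith : 0 ≤ 2 * δ)]
          exact mul_le_of_le_one_right (by linarith) (ho _ _)
        · simp [hb] }
  refine (Pr_mono A _ fun xs _ h => ⟨fun _ => (), ?_⟩).trans
    (bet_bound B A O (w - 1) 1 T (by omega) (δ ^ 2 * m / 2))
  have e : w - 1 + 0 + 1 = w := by omega
  simp only [Bettor.wealth, range_one, prod_singleton, Bettor.fac, B, e, one_mul,
    bet_cut_pb (nrm_WF A O xs) hw]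
  refine Real.le_sqrt_of_sq_le ?_
  rw [prod_ite_mem, univ_inter, ← Real.exp_nat_mul, ← Real.exp_sum, Real.exp_le_exp,
    sum_sub_distrib, sum_const, nsmul_eq_mul]
  have h2 := mul_le_mul_of_nonneg_left h.le (by linarith : 0 ≤ 2 * δ)
  have h3 : (m : ℝ) * δ ^ 2 ≤ N.card * δ ^ 2 :=
    mul_le_mul_of_nonneg_right (Nat.cast_le.2 hN) (sq_nonneg _)
  rw [mul_sum] at h2
  rw [sum_congr rfl (g := fun b => 2 * δ * ((nrm A O xs).xi w b * om ((nrm A O xs).cut w) b))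
    fun b _ => by simp only [Tr.xi, Tr.bt]; ring]
  push_cast
  nlinarith

/-- GOOD. -/
theorem good_prob (A : BAlg n) (O N : Finset (Fin n)) (T : ℕ) (δ : ℝ) (h0 : 0 ≤ δ)
    (h1 : δ ≤ 1 / 2) (m : ℕ) (hO : m ≤ O.card) (hN : m ≤ N.card) :
    Pr A (T + 1) (fun xs => ¬(nrm A O xs).Good O N δ T) ≤
      4 * (T + 1) ^ 2 * Real.exp (-(δ ^ 2 * m / 2)) := by
  have hs : ∀ s : Bool, |(if s = true then 1 else -1 : ℝ)| = 1 := fun s => by cases s <;> simp
  have := Pr_exists A (T + 1) (Icc 1 T ×ˢ range (T + 1) ×ˢ (univ : Finset Bool)) fun i xs =>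
    δ * N.card < ∑ b ∈ N, (nrm A O xs).xi i.1 b * ((if i.2.2 = true then 1 else -1) *
      (((nrm A O xs).cut i.1).bt i.2.1 b - 1 / 2)) ∨
    δ * O.card < ∑ b ∈ O, (nrm A O xs).xi i.1 b * if i.2.2 = true then 1 else -1
  refine (Pr_mono A _ fun xs _ h => ?_).trans (this.trans ((sum_le_card_nsmul _ _
    (2 * Real.exp (-(δ ^ 2 * m / 2))) fun ⟨w, x, s⟩ hi => ?_).trans ?_))
  · by_contra hc
    simp only [not_exists, not_and, not_or, not_lt, Prod.forall, mem_product, mem_Icc, mem_range,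
      mem_univ, and_true, and_imp, Bool.forall_bool, if_true, Bool.false_eq_true, if_false,
      one_mul, mul_one, neg_mul, mul_neg, sum_neg_distrib] at hc
    refine h ⟨fun w hw hT x hx => ?_, fun w hw hT => ?_⟩
    · have a := hc w x
      have e : ∀ b, ((nrm A O xs).cut w).bt x b = (nrm A O xs).bt x b := fun b => by
        simp [Tr.bt, Tr.cut, hx]
      simp only [e] at a
      exact abs_le.2 ⟨by linarith [(a.1 hw hT (by omega)).1], (a.2 hw hT (by omega)).1⟩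
    · have a := hc w 0
      exact abs_le.2 ⟨by linarith [(a.1 hw hT (by omega)).2], (a.2 hw hT (by omega)).2⟩
  · rw [nsmul_eq_mul, ← mul_assoc]
    refine mul_le_mul_of_nonneg_right ?_ (Real.exp_pos _).le
    simp only [card_product, Nat.card_Icc, card_range, card_univ, Fintype.card_bool,
      add_tsub_cancel_right]
    push_cast
    nlinarith [(Nat.cast_nonneg T : (0 : ℝ) ≤ T)]
  · have hw := mem_Icc.1 (mem_product.1 hi).1
    refine (Pr_or A _ _ _).trans ?_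
    rw [two_mul]
    refine add_le_add (dev_prob A O N hw.1 hw.2
      (fun tr b => (if s = true then 1 else -1) * (tr.bt x b - 1 / 2)) (fun tr b => ?_) h0 h1 hN)
      (dev_prob A O O hw.1 hw.2 (fun _ _ => if s = true then 1 else -1) (fun _ _ => (hs s).le)
        h0 h1 hO)
    rw [abs_mul, hs, one_mul, Tr.bt]
    split_ifs <;> norm_num [abs_le]

end Pool.Agent.P.MP_5c258a_lc.Bin
end

-- part Pool.Agent.P.MP_5c258a_lc.Bin.DSmp
section

/-! Task DSMP: samples of all levels, and the number of bad particles (paper section 4). -/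

namespace Pool.Agent.P.MP_5c258a_lc.Bin

open Finset Classical

variable {n : ℕ}

namespace DS

lemma pH_pos {r : ℕ} (hr : 0 < r) : 0 < pH r := by rw [pH_eq]; positivity

lemma samples_one {r : ℕ} (hr : 2 ≤ r) {tr : Tr n} {N : Finset (Fin n)} {W : Fin (pL r) → Fin n}
    {τ a k : ℕ} {Tm : ℕ → ℕ} (h : Ctx r tr N W τ a k Tm) (i : ℕ) :
    ∃ s : Fin (pN r) → Option (ℕ × ℕ), (∀ j x, s j = some x → x.1 ≤ a ∧ x.2 ≤ τ) ∧
      ∑ w ∈ Ioc τ (Tm i), pih tr τ s w ^ 2 * tr.VV N w ≤ 4 * (rp r (12 * 4 ^ i) + 2 / pN r) ∧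
      ∑ w ∈ Ioc τ (Tm (i + 1)), pih tr τ s w ^ 2 * tr.VV N w ≤
        4 * (rp r (12 * 4 ^ (i + 1)) + 2 / pN r) ∧
      kh tr τ s ≤ 16 / pH r ∧ ∑ l, dev r tr N τ a Tm i s (W l) ≤ 8 * pL r / pN r := by
  have hw := h.wf
  have hH : 0 < pH r := pH_pos (by omega)
  have hH' : (0 : ℝ) < pH r := by exact_mod_cast hH
  have hN : 0 < pN r := by unfold pN; positivity
  set Z : ℕ → ℝ := ZZ r tr N τ a Tm i with hZ
  have hZ0 : ∀ z, 0 ≤ Z z := ZZ_nonneg N τ a Tm hw i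
  have hP := PP_nonneg hw τ a hZ0 (ZZ_sum_le N τ a Tm hw i)
  have hpi : ∀ w z, 0 ≤ tr.pi τ z w := fun w z => Tr.gr_nonneg hw _ z w
  have hbud : ∀ t, ∑ w ∈ Ioc τ t, (∑ x ∈ insertNone (range (a + 1) ×ˢ range (τ + 1)),
      PP tr τ a Z x * (so x * tr.pi τ (sz x) w)) ^ 2 * tr.VV N w ≤
      ∑ w ∈ Ioc τ t, tr.pi τ a w ^ 2 * tr.VV N w := by
    intro t
    refine sum_le_sum fun w _ => mul_le_mul_of_nonneg_right ?_ (Tr.VV_nonneg hw N w)
    refine pow_le_pow_left₀ (sum_nonneg fun x _ => mul_nonneg (hP x)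
      (mul_nonneg (so_nonneg x) (hpi w _))) ?_ 2
    exact (PP_so hw τ a hZ0 (F := fun z => tr.pi τ z w) (hpi w)).trans (ZZ_pi N τ a Tm hw i w)
  have hone : ∀ t, ∀ x ∈ insertNone (range (a + 1) ×ˢ range (τ + 1)),
      ∑ w ∈ Ioc τ t, (so x * tr.pi τ (sz x) w) ^ 2 * tr.VV N w ≤ 2 := by
    intro t x hx
    cases x with
    | none => simp [so]
    | some y =>
      simp only [so, sz, one_mul]
      have hy : y.1 ≤ a := by
        have := mem_product.1 (some_mem_insertNone.1 hx)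
        simpa [Nat.lt_succ_iff] using this.1
      exact (vv_cut hw N τ y.1 t).trans (h.g2 _ hy)
  obtain ⟨s, hs, h1, h2, h3, h4⟩ := sampling (I := Fin (pL r) × Bool)
    (insertNone (range (a + 1) ×ˢ range (τ + 1))) (PP tr τ a Z) (fun x _ => hP x)
    (PP_sum tr τ a Z) (pN r) hN
    (fun p x => sw tr (W p.1) x * (bif p.2 then tr.x1 (Tm (i - 1)) (sz x) (W p.1)
      else Gz tr (AA r tr N τ Tm i) (sz x) (W p.1)))
    (by
      rintro ⟨l, c⟩ x _
      cases c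
      · exact ⟨mul_nonneg (sw_nonneg _ _ _) (Gz_nonneg hw _ _ _),
          mul_le_one₀ (sw_le_one _ _ _) (Gz_nonneg hw _ _ _)
            (Gz_le_one hw (AA_zero N τ Tm i) _ _)⟩
      · exact ⟨mul_nonneg (sw_nonneg _ _ _) (Tr.x1_nonneg hw _ _ _),
          mul_le_one₀ (sw_le_one _ _ _) (Tr.x1_nonneg hw _ _ _) (x1_le_one hw _ _ _)⟩)
    (fun w x => so x * tr.pi τ (sz x) w) (tr.VV N) (Tr.VV_nonneg hw N)
    (Ioc τ (Tm i)) (Ioc τ (Tm (i + 1))) (rp r (12 * 4 ^ i)) (rp r (12 * 4 ^ (i + 1)))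
    ((hbud _).trans (h.bud i)) ((hbud _).trans (h.bud (i + 1))) (hone _) (hone _)
    (fun x => so x * tr.kap τ (sz x))
    (fun x _ => mul_nonneg (so_nonneg x) (Tr.kap_nonneg hw _ _)) (4 / pH r) (by positivity)
    (((PP_so hw τ a hZ0 (F := fun z => tr.kap τ z) (Tr.kap_nonneg hw τ)).trans
      (ZZ_kap N τ a Tm hw i)).trans h.kill)
  refine ⟨s, ?_, h2, h3, ?_, ?_⟩
  · intro j x hx
    have h5 := hs j
    rw [hx] at h5
    have := mem_product.1 (some_mem_insertNone.1 h5)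
    simpa [Nat.lt_succ_iff] using this
  · refine h4.trans (le_of_eq ?_)
    ring
  · rw [Fintype.sum_prod_type] at h1
    refine le_trans (le_of_eq ?_) (h1.trans (le_of_eq ?_))
    · refine sum_congr rfl fun l _ => ?_
      rw [Fintype.sum_bool]
      simp only [cond_true, cond_false]
      rw [PP_sw tr τ a Z (W l) fun z => tr.x1 (Tm (i - 1)) z (W l),
        PP_sw tr τ a Z (W l) fun z => Gz tr (AA r tr N τ Tm i) z (W l)]
      rfl
    · simp only [Fintype.card_prod, Fintype.card_fin, Fintype.card_bool]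
      push_cast
      ring

lemma inv_pH_le {r : ℕ} (hr : 2 ≤ r) {m : ℕ} (hm : m ≤ 20 * pK r) :
    1 / (pH r : ℝ) ≤ rp r m / 400 := by
  have hr0 : 0 < r := by omega
  have h1 : rp r 20 ≤ 1 / 400 := by
    unfold rp
    have : (2 : ℝ) ≤ r := by exact_mod_cast hr
    have h2 : (2 : ℝ) ^ 20 ≤ (r : ℝ) ^ 20 := pow_le_pow_left₀ (by norm_num) this 20
    rw [one_div]
    exact inv_anti₀ (by norm_num) (le_trans (by norm_num) h2)
  have h2 : rp r (20 * pK r) ≤ rp r m := rp_anti hr0 hm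
  rw [inv_pH, mul_add, mul_one, rp_add]
  calc rp r (20 * pK r) * rp r 20 ≤ rp r m * (1 / 400) :=
        mul_le_mul h2 h1 (rp_pos hr0 _).le (rp_pos hr0 _).le
    _ = rp r m / 400 := by ring

lemma count_start {r : ℕ} (hr : 2 ≤ r) {tr : Tr n} {N : Finset (Fin n)}
    {W : Fin (pL r) → Fin n} {τ a k : ℕ} {Tm : ℕ → ℕ} (h : Ctx r tr N W τ a k Tm) :
    ((univ.filter fun l => 3 / 4 < tr.x1 τ a (W l)).card : ℝ) ≤ 67 / 100 * pL r := by
  refine markov (fun l => tr.x1 τ a (W l)) (fun l => Tr.x1_nonneg h.wf _ _ _) (by norm_num) ?_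
  refine (sum_x1_le h.wf (by positivity) h.typ a).trans ?_
  have h1 := inv_pH_le hr (Nat.zero_le _)
  have h2 : rp r 0 = 1 := by simp [rp]
  rw [h2] at h1
  have h3 : (0 : ℝ) ≤ pL r := Nat.cast_nonneg _
  nlinarith

lemma count_tau {r : ℕ} (hr : 2 ≤ r) {tr : Tr n} {N : Finset (Fin n)}
    {W : Fin (pL r) → Fin n} {τ a k : ℕ} {Tm : ℕ → ℕ} (h : Ctx r tr N W τ a k Tm) {i : ℕ}
    (hi : 4 ^ i ≤ pK r) :
    ((univ.filter fun l => rp r (2 * 4 ^ i) / 4 <
      EZ r tr N τ a Tm (i + 1) (W l) fun z => tr.x1 τ z (W l)).card : ℝ) ≤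
      8 * rp r (4 ^ i) * pL r := by
  have hw := h.wf
  have hr0 : 0 < r := by omega
  have hZ0 := ZZ_nonneg (r := r) N τ a Tm hw (i + 1)
  have hL : (0 : ℝ) ≤ pL r := Nat.cast_nonneg _
  have hε : (0 : ℝ) ≤ 1 / pH r := by positivity
  refine markov (fun l => EZ r tr N τ a Tm (i + 1) (W l) fun z => tr.x1 τ z (W l))
    (fun l => sum_nonneg fun z _ => mul_nonneg (mul_nonneg (hZ0 z) (Tr.x0_nonneg hw _ _ _))
      (Tr.x1_nonneg hw _ _ _)) (by have := rp_pos hr0 (2 * 4 ^ i); positivity) ?_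
  have e1 : rp r (2 * 4 ^ i) / 4 * (8 * rp r (4 ^ i) * pL r) = 2 * rp r (3 * 4 ^ i) * pL r := by
    rw [show 3 * 4 ^ i = 2 * 4 ^ i + 4 ^ i by ring, rp_add]
    ring
  rw [e1]
  unfold EZ
  rw [sum_comm]
  have e2 : ∀ z ∈ range (a + 1),
      ∑ l, ZZ r tr N τ a Tm (i + 1) z * tr.x0 τ z (W l) * tr.x1 τ z (W l) ≤
        ZZ r tr N τ a Tm (i + 1) z * ((rp r (3 * 4 ^ i) + 11 * (1 / pH r)) * pL r) +
          ZZ r tr N τ a Tm (i + 1) z * tr.kap τ z * (2 * pL r) := by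
    intro z hz
    by_cases h0 : ZZ r tr N τ a Tm (i + 1) z = 0
    · simp [h0]
    have h1 := ZZ_vv N τ a Tm hr0 h0
    have h2 := h.g3 z (by simpa [Nat.lt_succ_iff] using hz)
    have h3 := sum_xoxi_le hw hε h.typ z
    have h4 : ∑ l, tr.x0 τ z (W l) * tr.x1 τ z (W l) ≤
        (rp r (3 * 4 ^ i) + 11 * (1 / pH r) + 2 * tr.kap τ z) * pL r := by
      refine h3.trans (mul_le_mul_of_nonneg_right ?_ hL)
      have : (10 : ℝ) / pH r = 10 * (1 / pH r) := by ring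
      linarith
    simp only [mul_assoc]
    rw [← mul_sum, ← mul_add]
    refine mul_le_mul_of_nonneg_left (h4.trans (le_of_eq ?_)) (hZ0 z)
    ring
  refine (sum_le_sum e2).trans ?_
  rw [sum_add_distrib, ← sum_mul, ← sum_mul]
  have h1 := ZZ_sum_le (r := r) N τ a Tm hw (i + 1)
  have h2 := (ZZ_kap (r := r) N τ a Tm hw (i + 1)).trans h.kill
  have h3 : 1 / (pH r : ℝ) ≤ rp r (3 * 4 ^ i) / 400 := inv_pH_le hr (by omega)
  have h4 := rp_pos hr0 (3 * 4 ^ i)
  have h5 : (∑ z ∈ range (a + 1), ZZ r tr N τ a Tm (i + 1) z) *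
      ((rp r (3 * 4 ^ i) + 11 * (1 / pH r)) * pL r) ≤
      (rp r (3 * 4 ^ i) + 11 * (1 / pH r)) * pL r :=
    mul_le_of_le_one_left (by positivity) h1
  have h6 : (∑ z ∈ range (a + 1), ZZ r tr N τ a Tm (i + 1) z * tr.kap τ z) * (2 * pL r) ≤
      4 / pH r * (2 * pL r) := mul_le_mul_of_nonneg_right h2 (by positivity)
  have h7 : (4 : ℝ) / pH r = 4 * (1 / pH r) := by ring
  rw [h7] at h6
  nlinarith

lemma sum_rp_le {r : ℕ} (hr : 2 ≤ r) (m : ℕ) : ∑ i ∈ range m, rp r (4 ^ i) ≤ 2 / r := by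
  have hr0 : 0 < r := by omega
  have hr2 : (2 : ℝ) ≤ r := by exact_mod_cast hr
  have h1 : ∀ i ∈ range m, rp r (4 ^ i) ≤ 1 / r * (1 / 2) ^ i := by
    intro i _
    have h2 : i + 1 ≤ 4 ^ i := Nat.lt_pow_self (by norm_num)
    refine (rp_anti hr0 h2).trans ?_
    unfold rp
    rw [one_div, one_div, inv_pow, ← mul_inv, pow_succ, mul_comm]
    refine inv_anti₀ (by positivity) (mul_le_mul_of_nonneg_left ?_ (by positivity))
    exact pow_le_pow_left₀ (by norm_num) hr2 i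
  refine (sum_le_sum h1).trans ?_
  rw [← mul_sum]
  calc 1 / (r : ℝ) * ∑ i ∈ range m, (1 / 2 : ℝ) ^ i ≤ 1 / r * 2 :=
        mul_le_mul_of_nonneg_left (sum_geometric_two_le m) (by positivity)
    _ = 2 / r := by ring

lemma dev_small {r : ℕ} (hr : 2 ≤ r) :
    ((pK r + 1 : ℕ) : ℝ) * (2048 * rp r (36 * pK r + 40)) ≤ 1 / 200 := by
  have hr2 : (2 : ℝ) ≤ r := by exact_mod_cast hr
  have h1 : ((pK r + 1 : ℕ) : ℝ) ≤ (r : ℝ) ^ (36 * pK r) := by
    have h2 : pK r + 1 ≤ r ^ pK r := Nat.lt_pow_self (by omega)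
    have h3 : r ^ pK r ≤ r ^ (36 * pK r) := Nat.pow_le_pow_right (by omega) (by omega)
    exact_mod_cast h2.trans h3
  have h2 : (409600 : ℝ) ≤ (r : ℝ) ^ 40 :=
    le_trans (by norm_num) (pow_le_pow_left₀ (by norm_num) hr2 40)
  have h3 := rp_mul_pow (r := r) (by omega) (36 * pK r + 40)
  have h4 := rp_pos (r := r) (by omega) (36 * pK r + 40)
  have h5 : ((pK r + 1 : ℕ) : ℝ) * 409600 ≤ (r : ℝ) ^ (36 * pK r + 40) := by
    rw [pow_add]
    exact mul_le_mul h1 h2 (by norm_num) (by positivity)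
  nlinarith

lemma count_dev {r : ℕ} (hr : 2 ≤ r) {tr : Tr n} {N : Finset (Fin n)}
    {W : Fin (pL r) → Fin n} {τ a : ℕ} {Tm : ℕ → ℕ} {s : ℕ → Fin (pN r) → Option (ℕ × ℕ)}
    (h : Smp r tr N W τ a Tm s) (i : ℕ) :
    ((univ.filter fun l => (rp r (2 * pK r) / 16) ^ 2 < dev r tr N τ a Tm i (s i) (W l)).card : ℝ)
      ≤ 2048 * rp r (36 * pK r + 40) * pL r := by
  have hr0 : 0 < r := by omega
  refine markov (fun l => dev r tr N τ a Tm i (s i) (W l))
    (fun l => add_nonneg (sq_nonneg _) (sq_nonneg _))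
    (by have := rp_pos hr0 (2 * pK r); positivity) ((h.dev i).trans (le_of_eq ?_))
  have e1 : (1 / (pH r : ℝ)) * (1 / pH r) =
      rp r (2 * pK r) * rp r (2 * pK r) * rp r (36 * pK r + 40) := by
    rw [inv_pH, ← rp_add, ← rp_add, ← rp_add]
    congr 1
    ring
  have e2 : (8 : ℝ) * pL r / pN r = 8 * pL r * ((1 / (pH r : ℝ)) * (1 / pH r)) := by
    unfold pN
    push_cast
    ring
  rw [e2, e1]
  ring

end DS

open DS

/-- Apply `sampling` for each level `i` with `X = Option (ℕ × ℕ)`,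
`s = insertNone (range (a+1) ×ˢ range (τ+1))`, `P (some (z,f)) = ZZ i z * st (τ < ·) z f`, the rest
on `none`; `I = Fin (pL r) × Bool`; `a w x = so x * pi τ (sz x) w`, whose mean is at most
`pi τ a w` (`pi_comp`, `st_sum_le`); `κ x = so x * kap τ (sz x)` (`kap_comp`). -/
theorem samples {r : ℕ} (hr : 2 ≤ r) {tr : Tr n} {N : Finset (Fin n)} {W : Fin (pL r) → Fin n}
    {τ a k : ℕ} {Tm : ℕ → ℕ} (h : Ctx r tr N W τ a k Tm) : ∃ s, Smp r tr N W τ a Tm s := by
  choose s h1 h2 h3 h4 h5 using samples_one hr h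
  exact ⟨s, h1, h2, h3, h4, h5⟩

/-- Markov: `start` fails for at most `0.67 L` (`Typ.one`), `tau i` for at most `8 r^(-4^i) L`
(`Typ.two`, `g3`, `kap_comp`; nodes `z ≤ τ` have `x0 * x1 = 0`, the other nodes carrying
`ZZ (i+1)` have `vv ≤ rp r (3 * 4^i)`), `dev` for a tiny part. -/
theorem count_bad : ∃ r0 : ℕ, ∀ r ≥ r0, ∀ {n : ℕ} {tr : Tr n} {N : Finset (Fin n)}
    {W : Fin (pL r) → Fin n} {τ a k : ℕ} {Tm : ℕ → ℕ} {s : ℕ → Fin (pN r) → Option (ℕ × ℕ)},
    Ctx r tr N W τ a k Tm → Smp r tr N W τ a Tm s →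
    ((univ.filter fun l => ¬GoodP r tr N τ a Tm s (W l)).card : ℝ) ≤
      68 / 100 * pL r + nbad tr W (Tm 0) a := by
  refine ⟨3200, fun r hr n tr N W τ a k Tm s h hs => ?_⟩
  have hr2 : 2 ≤ r := by omega
  have hr0 : 0 < r := by omega
  have hL : (0 : ℝ) ≤ pL r := Nat.cast_nonneg _
  set B1 := univ.filter fun l => 1 / 100 < rise tr (Tm 0) a (W l) with hB1
  set B2 := univ.filter fun l => 3 / 4 < tr.x1 τ a (W l) with hB2
  set B3 : ℕ → Finset (Fin (pL r)) := fun i => univ.filter fun l => rp r (2 * 4 ^ i) / 4 <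
      EZ r tr N τ a Tm (i + 1) (W l) fun z => tr.x1 τ z (W l) with hB3
  set B4 : ℕ → Finset (Fin (pL r)) := fun i => univ.filter fun l =>
      (rp r (2 * pK r) / 16) ^ 2 < dev r tr N τ a Tm i (s i) (W l) with hB4
  set I3 := (range (pK r)).filter fun i => 4 ^ i ≤ pK r with hI3
  have hsub : (univ.filter fun l => ¬GoodP r tr N τ a Tm s (W l)) ⊆
      B1 ∪ B2 ∪ I3.biUnion B3 ∪ (range (pK r + 1)).biUnion B4 := by
    intro l hl
    by_contra hc
    simp only [mem_union, not_or, mem_biUnion, not_exists, not_and] at hc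
    obtain ⟨⟨⟨c1, c2⟩, c3⟩, c4⟩ := hc
    apply (mem_filter.1 hl).2
    refine ⟨?_, ?_, fun i hi => ?_, fun i hi => ?_⟩
    · exact not_lt.1 fun h' => c1 (mem_filter.2 ⟨mem_univ _, h'⟩)
    · exact not_lt.1 fun h' => c2 (mem_filter.2 ⟨mem_univ _, h'⟩)
    · have h2 : i < 4 ^ i := Nat.lt_pow_self (by norm_num)
      exact not_lt.1 fun h' => c3 i (mem_filter.2 ⟨mem_range.2 (by omega), hi⟩)
        (mem_filter.2 ⟨mem_univ _, h'⟩)
    · exact not_lt.1 fun h' => c4 i (mem_range.2 (by omega)) (mem_filter.2 ⟨mem_univ _, h'⟩)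
  have hcard : (univ.filter fun l => ¬GoodP r tr N τ a Tm s (W l)).card ≤
      B1.card + B2.card + ∑ i ∈ I3, (B3 i).card + ∑ i ∈ range (pK r + 1), (B4 i).card := by
    refine (card_le_card hsub).trans ((card_union_le _ _).trans ?_)
    refine Nat.add_le_add ((card_union_le _ _).trans ?_) card_biUnion_le
    exact Nat.add_le_add (card_union_le _ _) card_biUnion_le
  have hcard' : ((univ.filter fun l => ¬GoodP r tr N τ a Tm s (W l)).card : ℝ) ≤
      B1.card + B2.card + ∑ i ∈ I3, ((B3 i).card : ℝ) +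
        ∑ i ∈ range (pK r + 1), ((B4 i).card : ℝ) := by exact_mod_cast hcard
  have h1 : (B1.card : ℝ) = nbad tr W (Tm 0) a := rfl
  have h2 : (B2.card : ℝ) ≤ 67 / 100 * pL r := count_start hr2 h
  have h3 : ∑ i ∈ I3, ((B3 i).card : ℝ) ≤ 1 / 200 * pL r := by
    calc ∑ i ∈ I3, ((B3 i).card : ℝ) ≤ ∑ i ∈ I3, 8 * rp r (4 ^ i) * pL r :=
          sum_le_sum fun i hi => count_tau hr2 h (mem_filter.1 hi).2
      _ ≤ ∑ i ∈ range (pK r), 8 * rp r (4 ^ i) * pL r :=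
          sum_le_sum_of_subset_of_nonneg (filter_subset _ _) fun i _ _ => by
            have := rp_pos hr0 (4 ^ i); positivity
      _ = 8 * (∑ i ∈ range (pK r), rp r (4 ^ i)) * pL r := by rw [mul_sum, sum_mul]
      _ ≤ 1 / 200 * pL r := by
          refine mul_le_mul_of_nonneg_right ?_ hL
          have e1 := sum_rp_le hr2 (pK r)
          have e2 : (3200 : ℝ) ≤ r := by exact_mod_cast hr
          have e3 : (2 : ℝ) / r ≤ 2 / 3200 := div_le_div_of_nonneg_left (by norm_num) (by norm_num) e2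
          linarith
  have h4 : ∑ i ∈ range (pK r + 1), ((B4 i).card : ℝ) ≤ 1 / 200 * pL r := by
    calc ∑ i ∈ range (pK r + 1), ((B4 i).card : ℝ)
        ≤ ∑ _i ∈ range (pK r + 1), 2048 * rp r (36 * pK r + 40) * pL r :=
          sum_le_sum fun i _ => count_dev hr2 hs i
      _ = ((pK r + 1 : ℕ) : ℝ) * (2048 * rp r (36 * pK r + 40)) * pL r := by
          rw [sum_const, card_range, nsmul_eq_mul]; ring
      _ ≤ 1 / 200 * pL r := mul_le_mul_of_nonneg_right (dev_small hr2) hL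
  linarith

end Pool.Agent.P.MP_5c258a_lc.Bin
end
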