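import Pool.Agent.K.MP_5c258a_lc.C8
import Pool.Agent.K.MP_5c258a_lc.C7
import Pool.Agent.K.MP_5c258a_lc.C6

/-! Task STEP: one step of the engine (paper section 6, STEP). -/

namespace Pool.Agent.P.MP_5c258a_lc.Bin

open Finset Classical

namespace SB

variable {n : ℕ} {E K : Type} [Fintype E] [Fintype K]

/-- The three modes. -/
def md {H : ℕ} (B : K → Fin (eM H + 1)) : Fin 3 → Bool ⊕ (K → Fin (eM H + 1)) :=
  ![.inl false, .inl true, .inr B]

noncomputable def valo (H : ℕ) (P : Plan n E K) (tr : Tr n) (A : K → ℕ → Prop) (z : K → ℕ) (w : ℕ)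
    (s : ESt E K) (o : EOp H K) (e : E) : ℝ :=
  Real.log (P.Ge H s (tr.cut w) w o e (tr.c w (P.col e))) -
    P.pot tr A z e (P.nxt H s (tr.cut w) w o e (tr.c w (P.col e))) w + P.pot tr A z e (s.2 e) (w - 1)

theorem w3_avg {H : ℕ} (hH : 20 ≤ H) (hK : Fintype.card K ≤ H ^ 5) (B : K → Fin (eM H + 1))
    {π : Fin 3 → ℝ} (h1 : ∑ m, π m = 1) (h2 : π 2 = 1 / (H : ℝ) ^ 6) :
    -91 ≤ ∑ m, π m * Real.log (Plan.w3 H K (md B m)) := by
  have h20 : (20 : ℝ) ≤ H := by exact_mod_cast hH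
  have H0 : (0 : ℝ) < H := by linarith
  have l3 : Real.log (1 / 3) ≥ -2 := by
    have := Real.log_le_sub_one_of_pos (show (0 : ℝ) < 3 by norm_num)
    rw [one_div, Real.log_inv]; linarith
  have hM : (eM H + 1 : ℝ) ≤ (H : ℝ) ^ 89 := by
    unfold eM; push_cast
    have a1 : (1 : ℝ) ≤ (H : ℝ) ^ 83 := one_le_pow₀ (by linarith)
    have a2 : (3 : ℝ) ≤ (H : ℝ) ^ 5 := le_trans (by norm_num) (pow_le_pow_left₀ (by norm_num) h20 5)
    have e : (H : ℝ) ^ 89 = H ^ 83 * (H ^ 5 * H) := by ring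
    rw [e]
    generalize (H : ℝ) ^ 83 = X at a1
    generalize (H : ℝ) ^ 5 = Y at a2
    nlinarith [mul_le_mul_of_nonneg_left (show Y + 3 ≤ Y * H by nlinarith) (show 0 ≤ X by linarith)]
  have lM : Real.log (eM H + 1 : ℝ) ≤ 89 * H := by
    have := Real.log_le_log (by positivity) hM
    rw [Real.log_pow] at this
    have := Real.log_le_sub_one_of_pos H0
    push_cast at *
    linarith
  have l0 : 0 ≤ Real.log (eM H + 1 : ℝ) := Real.log_nonneg (by linarith [(Nat.cast_nonneg (eM H) : (0 : ℝ) ≤ _)])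
  have cK : (Fintype.card K : ℝ) ≤ (H : ℝ) ^ 5 := by exact_mod_cast hK
  have a3 : 1 / (H : ℝ) ^ 6 * (Fintype.card K * Real.log (eM H + 1 : ℝ)) ≤ 89 := by
    rw [one_div, inv_mul_le_iff₀ (by positivity)]
    have := mul_le_mul cK lM l0 (by positivity)
    linarith [show (H : ℝ) ^ 5 * (89 * H) = H ^ 6 * 89 by ring]
  simp only [Fin.sum_univ_three, md, Matrix.cons_val_zero, Matrix.cons_val_one, Matrix.cons_val,
    Plan.w3] at h1 ⊢
  rw [Real.log_div (x := 1 / 3) (by norm_num) (by positivity), Real.log_pow]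
  have e : π 0 = 1 - π 1 - π 2 := by linarith
  rw [e, h2]
  linarith

theorem avg_add {π f g : Fin 3 → ℝ} {c : ℝ} (h1 : ∑ m, π m = 1) (h : ∀ m, g m = f m + c) :
    ∑ m, π m * f m + c = ∑ m, π m * g m := by
  simp only [h, mul_add, sum_add_distrib, ← sum_mul, h1, one_mul]

theorem w3_pos {H : ℕ} (x : Bool ⊕ (K → Fin (eM H + 1))) : 0 < Plan.w3 H K x := by
  cases x <;> simp only [Plan.w3] <;> positivity

theorem w1_pos {H : ℕ} (x : Option (K → Fin (eN H + 1))) : 0 < Plan.w1 H K x := by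
  cases x <;> simp only [Plan.w1] <;> positivity

theorem assemble {H : ℕ} (hH : 20 ≤ H) (hK : Fintype.card K ≤ H ^ 5) (P : Plan n E K) (tr : Tr n)
    (A : K → ℕ → Prop) (z : K → ℕ) (w : ℕ) (s : ESt E K) (ρ : Option (K → Fin (eN H + 1)))
    (j : Fin (eJ H + 1)) (B : K → Fin (eM H + 1)) {π : Fin 3 → ℝ} (h0 : ∀ m, 0 ≤ π m)
    (h1 : ∑ m, π m = 1) (h2 : π 2 = 1 / (H : ℝ) ^ 6)
    (hj : (j : ℕ) ≤ P.jref H (tr.cut w) w s.2 (dnew (eN H) s.1 (tr.cut w) w ρ)) {A1 : ℝ}
    (hb : -A1 ≤ Real.log (Plan.w2 (P.jref H (tr.cut w) w s.2 (dnew (eN H) s.1 (tr.cut w) w ρ)) j) - 91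
      + (∑ e ∈ univ.filter fun e => P.act e w, ∑ m, π m * valo H P tr A z w s (ρ, j, md B m) e) / 2) :
    ∃ o : EOp H K, o.1 = ρ ∧ 0 < P.ewt H s (tr.cut w) w o ∧
      Real.log (Plan.w1 H K ρ) - A1 +
        (∑ e, (P.pot tr A z e ((P.eupd H s (tr.cut w) w o (tr.c w)).2 e) w -
          P.pot tr A z e (s.2 e) (w - 1))) / 2 ≤
      Real.log (P.ewt H s (tr.cut w) w o) +
        (∑ e, if P.act e w then Real.log (P.Ge H s (tr.cut w) w o e (tr.c w (P.col e))) else 0) / 2 := by
  obtain ⟨m, hm⟩ := exists_ge_avg (f := fun m => Real.log (Plan.w3 H K (md B m)) +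
    (∑ e ∈ univ.filter fun e => P.act e w, valo H P tr A z w s (ρ, j, md B m) e) / 2) h0 h1
  have hw2 : 0 < Plan.w2 (P.jref H (tr.cut w) w s.2 (dnew (eN H) s.1 (tr.cut w) w ρ)) j := by
    simp only [Plan.w2, if_pos hj]; positivity
  have a3 := w3_avg hH hK B h1 h2
  have e1 : ∑ m, π m * (Real.log (Plan.w3 H K (md B m)) +
      (∑ e ∈ univ.filter fun e => P.act e w, valo H P tr A z w s (ρ, j, md B m) e) / 2) =
      ∑ m, π m * Real.log (Plan.w3 H K (md B m)) +
      (∑ e ∈ univ.filter fun e => P.act e w, ∑ m, π m * valo H P tr A z w s (ρ, j, md B m) e) / 2 := by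
    rw [sum_comm, sum_div, ← sum_add_distrib]
    refine sum_congr rfl fun m _ => ?_
    rw [← mul_sum]; ring
  rw [e1] at hm
  refine ⟨(ρ, j, md B m), rfl, mul_pos (mul_pos (w1_pos _) hw2) (w3_pos _), ?_⟩
  have e2 : Real.log (P.ewt H s (tr.cut w) w (ρ, j, md B m)) = Real.log (Plan.w1 H K ρ) +
      Real.log (Plan.w2 (P.jref H (tr.cut w) w s.2 (dnew (eN H) s.1 (tr.cut w) w ρ)) j) +
      Real.log (Plan.w3 H K (md B m)) := by
    simp only [Plan.ewt]
    rw [Real.log_mul (mul_pos (w1_pos _) hw2).ne' (w3_pos _).ne', Real.log_mul (w1_pos _).ne' hw2.ne']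
  have e3 : ∑ e ∈ univ.filter fun e => P.act e w, valo H P tr A z w s (ρ, j, md B m) e =
      (∑ e, if P.act e w then
        Real.log (P.Ge H s (tr.cut w) w (ρ, j, md B m) e (tr.c w (P.col e))) else 0) -
      ∑ e, (P.pot tr A z e ((P.eupd H s (tr.cut w) w (ρ, j, md B m) (tr.c w)).2 e) w -
          P.pot tr A z e (s.2 e) (w - 1)) := by
    rw [sum_filter, ← sum_sub_distrib]
    refine sum_congr rfl fun e _ => ?_
    by_cases h : P.act e w
    · simp only [Plan.eupd, if_pos h, valo]; ring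
    · simp only [Plan.eupd, if_neg h, pot_idle h]; ring
  rw [e3] at hm
  rw [e2]
  linarith

theorem err_sum {H : ℕ} (hH : 20 ≤ H) {P : Plan n E K} {tr : Tr n} {A : K → ℕ → Prop} {z : K → ℕ}
    (hV : P.Valid H tr A z) (w : ℕ) {ms : E → MS} (hs : P.SInv ms) :
    ∑ e ∈ univ.filter fun e => P.act e w,
      (10 * (7 * (1 / (H : ℝ) ^ 44) / (ms e).lam) ^ 2 + 10 * (1 / (H : ℝ) ^ 83 / (ms e).lam)) ≤ 1 := by
  have h20 : (20 : ℝ) ≤ H := by exact_mod_cast hH
  have H0 : (0 : ℝ) < H := by linarith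
  have hone : ∀ e ∈ univ.filter fun e => P.act e w,
      10 * (7 * (1 / (H : ℝ) ^ 44) / (ms e).lam) ^ 2 + 10 * (1 / (H : ℝ) ^ 83 / (ms e).lam) ≤
      1 / (H : ℝ) ^ 81 := by
    intro e _
    have hl : 1 / (H : ℝ) ≤ (ms e).lam := (hV.lam_ge e).trans (hs e).2.1
    have a1 : 7 * (1 / (H : ℝ) ^ 44) / (ms e).lam ≤ 7 * (1 / (H : ℝ) ^ 44) / (1 / H) :=
      div_le_div_of_nonneg_left (by positivity) (by positivity) hl
    have a2 : 1 / (H : ℝ) ^ 83 / (ms e).lam ≤ 1 / (H : ℝ) ^ 83 / (1 / H) :=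
      div_le_div_of_nonneg_left (by positivity) (by positivity) hl
    have a3 := pow_le_pow_left₀ (div_nonneg (by positivity) (le_trans (by positivity) hl)) a1 2
    have e1 : 10 * (7 * (1 / (H : ℝ) ^ 44) / (1 / H)) ^ 2 + 10 * (1 / (H : ℝ) ^ 83 / (1 / H)) =
        1 / (H : ℝ) ^ 81 * (490 / H ^ 5 + 10 / H) := by field_simp; ring
    have b1 : 490 / (H : ℝ) ^ 5 ≤ 1 / 2 := by
      rw [div_le_iff₀ (by positivity)]
      linarith [le_trans (by norm_num : (980 : ℝ) ≤ 20 ^ 5) (pow_le_pow_left₀ (by norm_num) h20 5)]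
    have b2 : 10 / (H : ℝ) ≤ 1 / 2 := by rw [div_le_iff₀ H0]; linarith
    have b3 := mul_le_mul_of_nonneg_left (show 490 / (H : ℝ) ^ 5 + 10 / H ≤ 1 by linarith)
      (show 0 ≤ 1 / (H : ℝ) ^ 81 by positivity)
    linarith
  refine (sum_le_card_nsmul _ _ _ hone).trans ?_
  rw [nsmul_eq_mul, mul_one_div, div_le_one (by positivity)]
  exact_mod_cast card_act hV w

theorem ok_last {H : ℕ} (hH : 20 ≤ H) {P : Plan n E K} {tr : Tr n} {A : K → ℕ → Prop} {z : K → ℕ}
    (hW : tr.WF) (hV : P.Valid H tr A z) (w : ℕ) {ms : E → MS} (hs : P.SInv ms) {d : K → ℝ}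
    (hg : ∀ e, P.act e w → 0 ≤ P.gh (tr.cut w) w d e ∧ P.gh (tr.cut w) w d e ≤ 1) :
    P.Ok H (tr.cut w) w ms d (eJ H) := by
  have h20 : (20 : ℝ) ≤ H := by exact_mod_cast hH
  have H0 : (0 : ℝ) < H := by linarith
  have g1 := grid_last (H := H) (by omega)
  have g0 := grid_pos (H := H) (by omega) (eJ H)
  have hc := Tr.cut_WF hW w
  have hQ : ∀ e, P.act e w → grid H (eJ H) * P.gh (tr.cut w) w d e ≤ 1 / (H : ℝ) ^ 42 :=
    fun e he => by nlinarith [hg e he]
  have hl : ∀ e, 1 / (H : ℝ) ≤ (ms e).lam := fun e => (hV.lam_ge e).trans (hs e).2.1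
  constructor
  · rw [← sum_filter]
    have hone : ∀ e ∈ univ.filter fun e => P.act e w,
        pay (grid H (eJ H) * P.gh (tr.cut w) w d e / (ms e).lam) ((tr.cut w).pb w (P.col e)) ≤
          1 / (H : ℝ) ^ 81 := by
      intro e he
      have he := (mem_filter.1 he).2
      have l0 : 0 < (ms e).lam := lt_of_lt_of_le (by positivity) (hl e)
      have F0 : 0 ≤ grid H (eJ H) * P.gh (tr.cut w) w d e / (ms e).lam :=
        div_nonneg (mul_nonneg g0.le (hg e he).1) l0.le
      refine (pay_le_sq F0 (Tr.pb_nonneg hc _ _) (Tr.pb_le_one hc _ _)).trans ?_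
      have a1 : grid H (eJ H) * P.gh (tr.cut w) w d e / (ms e).lam ≤ 1 / (H : ℝ) ^ 42 / (1 / H) :=
        div_le_div₀ (by positivity) (hQ e he) (by positivity) (hl e)
      refine (pow_le_pow_left₀ F0 a1 2).trans ?_
      have e1 : (1 / (H : ℝ) ^ 42 / (1 / H)) ^ 2 = 1 / (H : ℝ) ^ 82 := by field_simp
      rw [e1]
      exact one_div_le_one_div_of_le (by positivity) (pow_le_pow_right₀ (by linarith) (by norm_num))
    refine (sum_le_card_nsmul _ _ _ hone).trans ?_
    rw [nsmul_eq_mul, mul_one_div, div_le_one (by positivity)]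
    exact_mod_cast card_act hV w
  · intro e he
    have r1 : rr (P.ty e) ((tr.cut w).pb w (P.col e)) ≤ 1 := by
      cases P.ty e <;> simp only [rr]
      exacts [Tr.pb_le_one hc _ _, by norm_num, by norm_num]
    have a1 : 1 / (H : ℝ) ^ 42 ≤ 1 / H :=
      one_div_le_one_div_of_le H0 (le_self_pow₀ (by linarith) (by norm_num))
    have a2 := mul_le_mul_of_nonneg_left r1 (mul_nonneg g0.le (hg e he).1)
    have : 0 ≤ 1 / (H : ℝ) := by positivity
    linarith [hQ e he, hl e]

end SB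

open SB

/-- `κ0 = H^-6`, `ε = κ0 / 300000`, `θL = H^-50`, `θ = 7 θL / κ0`, `θ' = 1 / eB H`. The modes are
`inl false`, `inl true`, `inr B` with probabilities `(1-κ0)(1-π)`, `(1-κ0)π`, `κ0`. At most `H^81`
episodes are active (`cols`, `disj`). -/
theorem step_exists : ∃ A1 : ℝ, 0 < A1 ∧ ∃ H0 : ℕ, ∀ H ≥ H0, ∀ {n : ℕ} {E K : Type} [Fintype E]
    [Fintype K] (P : Plan n E K) (tr : Tr n) (A : K → ℕ → Prop) (z : K → ℕ), tr.WF →
    Fintype.card K ≤ H ^ 5 → P.Valid H tr A z → ∀ w ∈ Ioc P.t0 P.te, ∀ s : ESt E K,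
    P.SInv s.2 → ∀ ρ : Option (K → Fin (eN H + 1)),
    (∀ k, 0 ≤ dnew (eN H) s.1 (tr.cut w) w ρ k ∧ dnew (eN H) s.1 (tr.cut w) w ρ k ≤ 1) →
    (∀ k, |tr.gr (A k) (z k) w - (∑ k', tr.gr (A k') (z k') w) * dnew (eN H) s.1 (tr.cut w) w ρ k|
      ≤ 1 / 300000 / (H : ℝ) ^ 6 * tr.gr (A k) (z k) w + 2 * (1 / (H : ℝ) ^ 50)) →
    ∃ o : EOp H K, o.1 = ρ ∧ 0 < P.ewt H s (tr.cut w) w o ∧
      Real.log (Plan.w1 H K ρ) - A1 +
        (∑ e, (P.pot tr A z e ((P.eupd H s (tr.cut w) w o (tr.c w)).2 e) w -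
          P.pot tr A z e (s.2 e) (w - 1))) / 2 ≤
      Real.log (P.ewt H s (tr.cut w) w o) +
        (∑ e, if P.act e w then Real.log (P.Ge H s (tr.cut w) w o e (tr.c w (P.col e))) else 0) / 2 :=
  by
  obtain ⟨A2, A20, hA2⟩ := index_cost (γ := 1 / 10 ^ 12 / 3600000) (by norm_num)
  refine ⟨A2 + 100, by linarith, 20, ?_⟩
  intro H hH n E K _ _ P tr A z hW hK hV w hw s hs ρ hd acc
  have h20 : (20 : ℝ) ≤ H := by exact_mod_cast hH
  have H0 : (0 : ℝ) < H := by linarith
  have w0 : 0 < w := by have := (mem_Ioc.1 hw).1; omega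
  set d := dnew (eN H) s.1 (tr.cut w) w ρ with hdd
  set b : K → ℝ := fun k => tr.gr (A k) (z k) w with hb
  set S := ∑ k, b k with hS
  set κ : ℝ := 1 / (H : ℝ) ^ 6 with hκ
  set η : ℝ := 1 / (H : ℝ) ^ 44 with hη
  set θ' : ℝ := 1 / (H : ℝ) ^ 83 with hθ'
  have b0 : ∀ k, 0 ≤ b k := fun k => Tr.gr_nonneg hW _ _ _
  have b1 : ∀ k, b k ≤ 1 := fun k => Tr.gr_le_one hW _ _ _
  have S0 : 0 ≤ S := sum_nonneg fun k _ => b0 k
  have S1 : S ≤ (H : ℝ) ^ 5 := by
    refine (sum_le_card_nsmul _ _ 1 fun k _ => b1 k).trans ?_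
    rw [nsmul_eq_mul, mul_one]; exact_mod_cast hK
  have κ0 : 0 < κ := by positivity
  have η0 : 0 < η := by positivity
  have θ0 : 0 < θ' := by positivity
  have κ1 : κ ≤ 1 / 2 := one_div_le_one_div_of_le (by norm_num)
    (le_trans (by norm_num) (pow_le_pow_left₀ (by norm_num) h20 6))
  have θη : θ' ≤ η := one_div_le_one_div_of_le (by positivity)
    (pow_le_pow_right₀ (by linarith) (by norm_num))
  have ηH : 7 * η ≤ 1 / (H : ℝ) / 1000 := by
    have a : (7000 : ℝ) ≤ (H : ℝ) ^ 43 :=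
      le_trans (by norm_num) (pow_le_pow_left₀ (by norm_num) h20 43)
    have e : η = 1 / (H : ℝ) / H ^ 43 := by rw [hη]; field_simp
    have := div_le_div_of_nonneg_left (show 0 ≤ 1 / (H : ℝ) by positivity) (by norm_num) a
    rw [e]; linarith
  have η1 : η ≤ 1 / 4 := by
    have : 1 / (H : ℝ) ≤ 1 := by rw [div_le_one H0]; linarith
    linarith
  have acc' : ∀ k, |b k - S * d k| ≤ 1 / 300000 * κ * b k + 2 * (η * κ) := by
    intro k
    have e : 1 / 300000 * κ * b k + 2 * (η * κ) =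
        1 / 300000 / (H : ℝ) ^ 6 * b k + 2 * (1 / (H : ℝ) ^ 50) := by
      rw [hκ, hη]; field_simp
    rw [e]; exact acc k
  have hB : ∀ k, ∃ B : Fin (eM H + 1),
      |((B : ℕ) : ℝ) / eB H - 1 - (S * d k + (b k - S * d k) / κ)| ≤ θ' := by
    intro k
    have a1 : |(b k - S * d k) / κ| ≤ 1 := by
      rw [abs_div, abs_of_pos κ0, div_le_one κ0]
      nlinarith [acc' k, mul_le_mul_of_nonneg_left (b1 k) κ0.le]
    have a2 := abs_le.1 a1
    have a3 : 0 ≤ S * d k := mul_nonneg S0 (hd k).1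
    have a4 : S * d k ≤ (H : ℝ) ^ 5 := by nlinarith [(hd k).2]
    have eB0 : 0 < eB H := by unfold eB; positivity
    obtain ⟨B, hB⟩ := exists_round (eB H) (eM H) eB0 (y := S * d k + (b k - S * d k) / κ)
      (by linarith) (by
        have : ((eM H : ℕ) : ℝ) = ((H : ℝ) ^ 5 + 2) * (eB H : ℕ) := by
          unfold eM eB; push_cast; ring
        rw [this]
        exact mul_le_mul_of_nonneg_right (by linarith) (Nat.cast_nonneg _))
    refine ⟨B, hB.trans (le_of_eq ?_)⟩
    rw [hθ']; unfold eB; push_cast; rfl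
  choose B hB using hB
  have hg : ∀ e, P.act e w → 0 ≤ P.gh (tr.cut w) w d e ∧ P.gh (tr.cut w) w d e ≤ 1 := by
    intro e he
    refine ⟨sum_nonneg fun k _ => mul_nonneg (hV.om0 e w he k) (hd k).1, le_trans ?_ (hV.om1 e w he)⟩
    exact sum_le_sum fun k _ => by nlinarith [hV.om0 e w he k, (hd k).2]
  have hex : ∃ j, P.Ok H (tr.cut w) w s.2 d j := ⟨_, ok_last hH hW hV w hs hg⟩
  have hjr : P.jref H (tr.cut w) w s.2 d = Nat.find hex := by simp only [Plan.jref, dif_pos hex]
  have jle : Nat.find hex ≤ eJ H := Nat.find_min' hex (ok_last hH hW hV w hs hg)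
  have pe : ∀ e, (tr.cut w).pb w (P.col e) = tr.pb w (P.col e) := fun e => Tr.cut_pb hW w0 le_rfl _
  have q0 : ∀ e, P.act e w → 0 ≤ P.q tr A z e w := fun e he =>
    sum_nonneg fun k _ => mul_nonneg (hV.om0 e w he k) (b0 k)
  have sit : ∀ e, P.act e w → ∀ j, Sit (P.ty e) (s.2 e) (grid H j * P.gh (tr.cut w) w d e)
      (tr.pb w (P.col e))
      (base (P.ty e) (P.lam e) + tr.XX (P.q tr A z e) (P.col e) (P.lo e) (w - 1))
      (P.q tr A z e w) (7 * η) θ' (tr.c w (P.col e)) := fun e he j =>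
    ⟨(hs e).1, Tr.pb_nonneg hW _ _, Tr.pb_le_one hW _ _,
      mul_nonneg (grid_pos (by omega) j).le (hg e he).1, q0 e he, by positivity,
      by linarith [hV.lam_ge e, (hs e).2.1], θ0.le, tok_of hV he (hs e).2.2⟩
  have potn : ∀ e, P.act e w → ∀ m : MS, P.pot tr A z e m w = Phi (P.ty e) m
      (base (P.ty e) (P.lam e) + tr.XX (P.q tr A z e) (P.col e) (P.lo e) (w - 1) +
        P.q tr A z e w * (bR (tr.c w (P.col e)) - tr.pb w (P.col e)))
      (tr.QQ (P.q tr A z e) (P.col e) (P.lo e) (w - 1) + P.q tr A z e w ^ 2 *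
        ((bR (tr.c w (P.col e)) - tr.pb w (P.col e)) ^ 2 +
          tr.pb w (P.col e) * (1 - tr.pb w (P.col e)))) := by
    intro e he m
    have h1 := mem_Ioc.1 he
    simp only [Plan.pot, min_eq_left h1.2]
    rw [XX_succ _ _ _ h1.1, QQ_succ _ _ _ h1.1, add_assoc]
  have poto : ∀ e, P.act e w → P.pot tr A z e (s.2 e) (w - 1) = Phi (P.ty e) (s.2 e)
      (base (P.ty e) (P.lam e) + tr.XX (P.q tr A z e) (P.col e) (P.lo e) (w - 1))
      (tr.QQ (P.q tr A z e) (P.col e) (P.lo e) (w - 1)) := by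
    intro e he
    have h1 := mem_Ioc.1 he
    simp only [Plan.pot, min_eq_left (show w - 1 ≤ P.hi e by omega)]
  have err := err_sum hH hV w hs
  have hπ : ∀ t : ℝ, 0 ≤ t → t ≤ 1 → (∀ m, 0 ≤ (![(1 - κ) * (1 - t), (1 - κ) * t, κ] : Fin 3 → ℝ) m) ∧
      ∑ m, (![(1 - κ) * (1 - t), (1 - κ) * t, κ] : Fin 3 → ℝ) m = 1 := by
    intro t t0 t1
    refine ⟨fun m => ?_, ?_⟩
    · fin_cases m
      · exact mul_nonneg (by linarith) (by linarith)
      · exact mul_nonneg (by linarith) t0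
      · exact κ0.le
    · simp only [Fin.sum_univ_three, Matrix.cons_val_zero, Matrix.cons_val_one, Matrix.cons_val]; ring
  have gen : ∀ e, P.act e w → ∀ a g t : ℝ, (1 - t) * a + t * g = S →
      |P.q tr A z e w - S * P.gh (tr.cut w) w d e| ≤ 1 / 300000 * P.q tr A z e w + 2 * η ∧
      |∑ k, P.om e (tr.cut w) w k * (((B k : ℕ) : ℝ) / eB H - 1) - P.q tr A z e w| ≤
        1 / 300000 * P.q tr A z e w + (θ' + 2 * η) ∧
      |(1 - κ) * (1 - t) * (a * P.gh (tr.cut w) w d e) + (1 - κ) * t * (g * P.gh (tr.cut w) w d e) +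
        κ * ∑ k, P.om e (tr.cut w) w k * (((B k : ℕ) : ℝ) / eB H - 1) - P.q tr A z e w| ≤ θ' :=
    fun e he a g t ht => modes_gen (hV.om0 e w he) (hV.om1 e w he) b0 κ0 (by linarith) (by norm_num)
      η0.le θ0.le acc' hB ht
  by_cases hD : S ≤ grid H (Nat.find hex)
  · -- case D
    have ok := Nat.find_spec hex
    set j := Nat.find hex with hj
    have g0 := grid_pos (H := H) (by omega) j
    have t0 : 0 ≤ S / grid H j := by positivity
    have t1 : S / grid H j ≤ 1 := by rw [div_le_one g0]; exact hD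
    obtain ⟨π0, π1⟩ := hπ _ t0 t1
    refine assemble hH hK P tr A z w s ρ ⟨j, by omega⟩ B π0 π1 rfl (by rw [← hdd, hjr]) ?_
    have one : ∀ e ∈ univ.filter fun e => P.act e w,
        -11 * pay (grid H j * P.gh (tr.cut w) w d e / (s.2 e).lam) ((tr.cut w).pb w (P.col e)) -
          (10 * (7 * η / (s.2 e).lam) ^ 2 + 10 * (θ' / (s.2 e).lam)) ≤
        ∑ m, (![(1 - κ) * (1 - S / grid H j), (1 - κ) * (S / grid H j), κ] : Fin 3 → ℝ) m *
          valo H P tr A z w s (ρ, ⟨j, by omega⟩, md B m) e := by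
      intro e he
      have he := (mem_filter.1 he).2
      obtain ⟨g1, g2, g3⟩ := gen e he 0 (grid H j) (S / grid H j) (by field_simp; ring)
      have g1' := abs_le.1 g1
      have gh0 := (hg e he).1
      have hq0 := q0 e he
      have hSQ := mul_le_mul_of_nonneg_right hD gh0
      have hQ0 := mul_nonneg g0.le gh0
      have hq : P.q tr A z e w ≤ 2 * (grid H j * P.gh (tr.cut w) w d e) + 4 * η := by linarith
      have := stepD (P.ty e) stepD_A stepD_H (s.2 e) _ _ _
        (tr.QQ (P.q tr A z e) (P.col e) (P.lo e) (w - 1)) _ _ _ _ _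
        ![0, grid H j * P.gh (tr.cut w) w d e,
          ∑ k, P.om e (tr.cut w) w k * (((B k : ℕ) : ℝ) / eB H - 1)] (sit e he j)
        ⟨π0, π1, fun m => ?_, ?_⟩ (by linarith) (by rw [← pe]; exact ok.2 e he)
      · rw [pe]
        refine le_trans (by linarith) (this.trans (le_of_eq ?_))
        have hnot : ¬ j < P.jref H (tr.cut w) w s.2 d := by rw [hjr]; exact lt_irrefl _
        refine avg_add π1 fun m => ?_
        fin_cases m <;>
        simp only [valo, md, Fin.zero_eta, Fin.mk_one, Fin.reduceFinMk, Matrix.cons_val_zero,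
          Matrix.cons_val_one, Matrix.cons_val, Plan.Ge, Plan.nxt, ← hdd, if_neg hnot, Plan.stake,
          potn e he, poto e he, valD, pe]
      · fin_cases m
        · simp only [Fin.zero_eta, Matrix.cons_val_zero]
          rw [abs_le]; constructor <;> linarith
        · simp only [Fin.mk_one, Matrix.cons_val_one, Matrix.cons_val_zero]
          rw [abs_le]; constructor <;> linarith
        · simp only [Fin.reduceFinMk, Matrix.cons_val]
          linarith
      · simp only [Fin.sum_univ_three, Matrix.cons_val_zero, Matrix.cons_val_one, Matrix.cons_val]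
        rw [zero_mul] at g3
        exact g3
    have tot := sum_le_sum one
    rw [sum_sub_distrib, ← mul_sum] at tot
    have ok1 := ok.1
    rw [← sum_filter] at ok1
    have l2 : Real.log (Plan.w2 (P.jref H (tr.cut w) w s.2 d) j) ≥ -1 := by
      rw [hjr]
      simp only [Plan.w2, le_refl, if_true, Nat.sub_self]
      have := Real.log_le_sub_one_of_pos (show (0 : ℝ) < 2 by norm_num)
      norm_num
      rw [one_div, Real.log_inv]; linarith
    simp only [← hdd]
    linarith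
  · -- case U
    replace hD := lt_of_not_ge hD
    have g00 : grid H 0 = (H : ℝ) ^ 5 := by simp [grid]
    have jr0 : Nat.find hex ≠ 0 := fun h => by rw [h, g00] at hD; linarith
    have hex2 : ∃ j, grid H (j + 1) < S := ⟨Nat.find hex - 1, by rwa [Nat.sub_add_cancel (by omega)]⟩
    have j1 := Nat.find_spec hex2
    have j2 : Nat.find hex2 ≤ Nat.find hex - 1 :=
      Nat.find_min' hex2 (by rwa [Nat.sub_add_cancel (by omega)])
    have j3 : S ≤ grid H (Nat.find hex2) := by
      rcases Nat.eq_zero_or_pos (Nat.find hex2) with h | h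
      · rw [h, g00]; exact S1
      · have := Nat.find_min hex2 (show Nat.find hex2 - 1 < Nat.find hex2 by omega)
        rw [Nat.sub_add_cancel h] at this
        exact le_of_not_gt this
    have nok := Nat.find_min hex (show Nat.find hex - 1 < Nat.find hex by omega)
    set j := Nat.find hex2 with hj
    obtain ⟨i, hi⟩ : ∃ i, Nat.find hex = j + i + 1 := ⟨Nat.find hex - 1 - j, by omega⟩
    rw [hi, Nat.add_sub_cancel] at nok
    have g0 := grid_pos (H := H) (by omega) (j + 1)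
    have gs : grid H j = (1 + 1 / 300000) * grid H (j + 1) := by rw [grid_add H j 1, pow_one]
    have gd : 0 < grid H j - grid H (j + 1) := by linarith
    set t := (S - grid H (j + 1)) / (grid H j - grid H (j + 1)) with ht
    have t0 : 0 ≤ t := div_nonneg (by linarith) gd.le
    have t1 : t ≤ 1 := by rw [ht, div_le_one gd]; linarith
    obtain ⟨π0, π1⟩ := hπ _ t0 t1
    have hup : j < P.jref H (tr.cut w) w s.2 d := by rw [hjr]; omega
    refine assemble hH hK P tr A z w s ρ ⟨j, by omega⟩ B π0 π1 rfl (by rw [← hdd]; exact hup.le) ?_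
    have near : ∀ e, P.act e w → |grid H j * P.gh (tr.cut w) w d e - P.q tr A z e w| ≤
        grid H j * P.gh (tr.cut w) w d e / 100000 + 7 * η ∧
        |grid H (j + 1) * P.gh (tr.cut w) w d e - P.q tr A z e w| ≤
        grid H j * P.gh (tr.cut w) w d e / 100000 + 7 * η ∧
        P.q tr A z e w ≤ 2 * (grid H j * P.gh (tr.cut w) w d e) + 4 * η ∧
        grid H j * P.gh (tr.cut w) w d e / 2 ≤ grid H (j + 1) * P.gh (tr.cut w) w d e := by
      intro e he
      have g1' := abs_le.1 (gen e he S S 0 (by ring)).1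
      have gh0 := (hg e he).1
      have hq0 := q0 e he
      have a1 := mul_le_mul_of_nonneg_right j3 gh0
      have a2 := mul_le_mul_of_nonneg_right j1.le gh0
      have a3 := mul_nonneg g0.le gh0
      have a4 : grid H j * P.gh (tr.cut w) w d e =
          (1 + 1 / 300000) * (grid H (j + 1) * P.gh (tr.cut w) w d e) := by rw [gs]; ring
      refine ⟨?_, ?_, ?_, ?_⟩
      · rw [abs_le]; constructor <;> linarith
      · rw [abs_le]; constructor <;> linarith
      · linarith
      · linarith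
    have one : ∀ e ∈ univ.filter fun e => P.act e w,
        1 / 10 ^ 12 * (pay (grid H j * P.gh (tr.cut w) w d e /
          (pre (P.ty e) (s.2 e) (grid H j * P.gh (tr.cut w) w d e) (tr.pb w (P.col e))).lam)
            (tr.pb w (P.col e)) +
          Real.log ((pre (P.ty e) (s.2 e) (grid H j * P.gh (tr.cut w) w d e) (tr.pb w (P.col e))).lam /
            (s.2 e).lam)) - (10 * (7 * η / (s.2 e).lam) ^ 2 + 10 * (θ' / (s.2 e).lam)) ≤
        ∑ m, (![(1 - κ) * (1 - t), (1 - κ) * t, κ] : Fin 3 → ℝ) m *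
          valo H P tr A z w s (ρ, ⟨j, by omega⟩, md B m) e := by
      intro e he
      have he := (mem_filter.1 he).2
      obtain ⟨-, g2, g3⟩ := gen e he (grid H (j + 1)) (grid H j) t (by rw [ht]; field_simp; ring)
      obtain ⟨n1, n2, n3, n4⟩ := near e he
      have hQ0 := mul_nonneg (grid_pos (H := H) (by omega) j).le (hg e he).1
      have := stepU (P.ty e) stepU_A stepU_H (s.2 e) _ _ _
        (tr.QQ (P.q tr A z e) (P.col e) (P.lo e) (w - 1)) _ _ _ _ _
        ![grid H (j + 1) * P.gh (tr.cut w) w d e, grid H j * P.gh (tr.cut w) w d e,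
          ∑ k, P.om e (tr.cut w) w k * (((B k : ℕ) : ℝ) / eB H - 1)] (sit e he j)
        ⟨π0, π1, fun m => ?_, ?_⟩ n1 ?_ n4 ?_
      · refine le_trans (by linarith) (this.trans (le_of_eq ?_))
        refine avg_add π1 fun m => ?_
        fin_cases m <;>
        simp only [valo, md, Fin.zero_eta, Fin.mk_one, Fin.reduceFinMk, Matrix.cons_val_zero,
          Matrix.cons_val_one, Matrix.cons_val, Plan.Ge, Plan.nxt, ← hdd, if_pos hup, Plan.stake,
          potn e he, poto e he, valU, pe]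
      · fin_cases m
        · exact n2
        · exact n1
        · simp only [Fin.reduceFinMk, Matrix.cons_val]
          linarith
      · simp only [Fin.sum_univ_three, Matrix.cons_val_zero, Matrix.cons_val_one, Matrix.cons_val]
        exact g3
      · simp only [Matrix.cons_val_zero, Matrix.cons_val_one]
        linarith
      · simp only [Matrix.cons_val_zero, Matrix.cons_val_one]
        linarith
    have tot := sum_le_sum one
    rw [sum_sub_distrib, ← mul_sum] at tot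
    have gi : ∀ e, grid H j * P.gh (tr.cut w) w d e =
        (1 + 1 / 300000) ^ i * (grid H (j + i) * P.gh (tr.cut w) w d e) := fun e => by
      rw [grid_add H j i]; ring
    have pay1 := index_pay (univ.filter fun e => P.act e w)
      (fun e => grid H (j + i) * P.gh (tr.cut w) w d e) (fun e => tr.pb w (P.col e))
      (fun e => (s.2 e).lam)
      (fun e => (pre (P.ty e) (s.2 e) (grid H j * P.gh (tr.cut w) w d e) (tr.pb w (P.col e))).lam)
      (fun e => rr (P.ty e) (tr.pb w (P.col e))) (r := (1 + 1 / 300000) ^ i)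
      (one_le_pow₀ (by norm_num))
      (fun e he => mul_nonneg (grid_pos (by omega) _).le (hg e (mem_filter.1 he).2).1)
      (fun e _ => Tr.pb_nonneg hW _ _) (fun e _ => Tr.pb_le_one hW _ _)
      (fun e _ => lam_pos (hs e).1) (fun e _ => lam_pre _ _ _ _)
      (fun e he => by
        rw [← gi]; exact pre_cap (sit e (mem_filter.1 he).2 j) (near e (mem_filter.1 he).2).1)
      (by
        simp only [Plan.Ok, not_and_or, not_le, not_forall, pe] at nok
        rcases nok with h | ⟨e, he, h⟩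
        · left; rwa [← sum_filter] at h
        · right; exact ⟨e, mem_filter.2 ⟨mem_univ _, he⟩, h⟩)
    simp only [← gi] at pay1
    have lg : (i : ℝ) / 600000 ≤ Real.log ((1 + 1 / 300000) ^ i) := by
      rw [Real.log_pow]
      have := MA.log_ge_half (t := 1 / 300000) (by norm_num) (by norm_num)
      nlinarith [(Nat.cast_nonneg i : (0 : ℝ) ≤ i)]
    have l2 : Real.log (Plan.w2 (P.jref H (tr.cut w) w s.2 d) j) =
        -Real.log ((i + 1 + 1 : ℝ) * (i + 1 + 2)) := by
      rw [hjr, hi]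
      simp only [Plan.w2, if_pos (show j ≤ j + i + 1 by omega), show j + i + 1 - j = i + 1 by omega]
      rw [one_div, Real.log_inv]; push_cast; rfl
    have := hA2 i
    simp only [← hdd]
    linarith

end Pool.Agent.P.MP_5c258a_lc.Bin
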