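import Pool.Agent.K.MP_5c258a_lc.C8
import Pool.Agent.K.MP_5c258a_lc.C9
import Pool.Agent.K.MP_5c258a_lc.C6
import Pool.Agent.K.MP_5c258a_lc.C4
import Pool.Agent.K.MP_5c258a_lc.C5

-- part Pool.Agent.P.MP_5c258a_lc.Bin.DLoc
section

/-! Task DLOC: labels and gains for one window and one scale (end of DICHOTOMY). -/

namespace Pool.Agent.P.MP_5c258a_lc.Bin

open Finset Classical

namespace DL

variable {n m : ℕ}

/-- What a label says about a particle. -/
def Lab (r : ℕ) (tr : Tr n) (N : Finset (Fin n)) (τ k : ℕ) (Tm : ℕ → ℕ)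
    (s : Fin m → Option (ℕ × ℕ)) (κ : Fin 5) (i : ℕ) (b : Fin n) : Prop :=
  (κ = 0 ∧ 1 ≤ i ∧ 4 ^ (i - 1) ≤ pK r ∧
    Yh tr (Tm i) s b + kh tr τ s ≤ 2 * rp r (2 * 4 ^ (i - 1)) ∧
    rp r (4 ^ (i - 1)) / 2 ≤ Yh tr (Tm (i - 1)) s b) ∨
  (κ = 1 ∧ 4 ^ i ≤ pK r ∧ rp r (4 ^ i) ≤ tr.XX (qL r tr N τ Tm i s b) b (Tm (i + 1)) (Tm i) ∧
    SS r tr N τ i (Tm (i + 1)) (Tm i) s b ≤ rp r (4 * 4 ^ i)) ∨
  (κ = 2 ∧ 4 ^ i ≤ pK r ∧ rp r (4 * 4 ^ i) < SS r tr N τ i (Tm (i + 1)) (Tm i) s b) ∨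
  (κ = 3 ∧ 4 ^ (i + 1) < k ∧ rp r (4 ^ i) ≤ tr.XX (qL r tr N τ Tm i s b) b τ (Tm (i + 1)) ∧
    SS r tr N τ i τ (Tm (i + 1)) s b ≤ rp r (30 * 4 ^ i)) ∨
  (κ = 4 ∧ 4 ^ (i + 1) < k ∧ rp r (30 * 4 ^ i) < SS r tr N τ i τ (Tm (i + 1)) s b)

lemma lab_of_alt {r : ℕ} {tr : Tr n} {N : Finset (Fin n)} {τ k : ℕ} {Tm : ℕ → ℕ}
    {s : Fin m → Option (ℕ × ℕ)} {i : ℕ} {b : Fin n} (h : Alt r tr N τ k Tm s i b) :
    ∃ κ, Lab r tr N τ k Tm s κ i b := by
  rcases h with h | h | h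
  · exact ⟨0, Or.inl ⟨rfl, h⟩⟩
  · rcases le_or_gt (SS r tr N τ i (Tm (i + 1)) (Tm i) s b) (rp r (4 * 4 ^ i)) with h1 | h1
    · exact ⟨1, Or.inr (Or.inl ⟨rfl, h.1, h.2, h1⟩)⟩
    · exact ⟨2, Or.inr (Or.inr (Or.inl ⟨rfl, h.1, h1⟩))⟩
  · rcases le_or_gt (SS r tr N τ i τ (Tm (i + 1)) s b) (rp r (30 * 4 ^ i)) with h1 | h1
    · exact ⟨3, Or.inr (Or.inr (Or.inr (Or.inl ⟨rfl, h.1, h.2, h1⟩)))⟩
    · exact ⟨4, Or.inr (Or.inr (Or.inr (Or.inr ⟨rfl, h.1, h1⟩)))⟩

/-- The gain of a linear episode. -/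
lemma gainL {r : ℕ} (hr : 0 < r) {X Q : ℝ} {e c : ℕ} (hX : rp r e ≤ X)
    (hQ : Q ≤ rp r (2 * (e + c))) :
    cA * (r : ℝ) ^ c - 1 ≤ cA * X / rp r (e + c) - Q / rp r (e + c) ^ 2 := by
  have h0 := rp_pos hr (e + c)
  have h1 : Q / rp r (e + c) ^ 2 ≤ 1 := by
    rw [div_le_one (by positivity), rp_two]; exact hQ
  have h2 : cA * (r : ℝ) ^ c ≤ cA * X / rp r (e + c) := by
    rw [le_div_iff₀ h0, mul_assoc]
    refine mul_le_mul_of_nonneg_left (le_trans (le_of_eq ?_) hX) (by unfold cA; norm_num)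
    rw [rp_add]
    linear_combination rp r e * rp_mul_pow hr c
  linarith

/-- The total gain of a class of harvest episodes. -/
lemma gainH {r : ℕ} (hr : 0 < r) {ι : Type} (C : Finset ι) (Q : ι → ℝ) {e c : ℕ} {T : ℝ}
    (hQ : C.card * rp r e ≤ rp r (e + c) * ∑ l ∈ C, Q l) (hT : T ≤ cH * (r : ℝ) ^ c - 1) :
    C.card * T ≤ ∑ l ∈ C, (cH * Q l - 1) := by
  have h0 := rp_pos hr (e + c)
  have h1 : C.card * (r : ℝ) ^ c ≤ ∑ l ∈ C, Q l := by
    refine le_of_mul_le_mul_left (le_trans (le_of_eq ?_) hQ) h0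
    rw [rp_add]
    linear_combination C.card * rp r e * rp_mul_pow hr c
  rw [sum_sub_distrib, ← mul_sum, sum_const, nsmul_eq_mul, mul_one]
  have h2 := mul_le_mul_of_nonneg_left hT (Nat.cast_nonneg (α := ℝ) C.card)
  have h3 := mul_le_mul_of_nonneg_left h1 (show (0 : ℝ) ≤ cH by unfold cH; norm_num)
  linarith

lemma card_mul_le {ι : Type} (C : Finset ι) {T : ℝ} {g : ι → ℝ} (h : ∀ l ∈ C, T ≤ g l) :
    C.card * T ≤ ∑ l ∈ C, g l := by
  rw [← nsmul_eq_mul, ← sum_const]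
  exact sum_le_sum h

end DL

open DL in
/-- Label a good particle by its alternative: kind 0 (`condA_one`, `endA_one` averaged over the
sample); for the late/early alternatives let `S_b = ∑_{f ∈ F} pih^2 (xi^2 + vr)` with
`F = {f ∈ Ioc lo hi | rp r (3*4^i) < vv f}`: linear kind if `S_b ≤ lam^2`, harvest kind otherwise
(`meeting` applied to `pih`, `pi_super`, `condH`). -/
theorem local_exists : ∃ r0 : ℕ, ∀ r ≥ r0, ∀ {n : ℕ} {tr : Tr n} {N : Finset (Fin n)}
    {W : Fin (pL r) → Fin n} {τ a k : ℕ} {Tm : ℕ → ℕ},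
    Ctx r tr N W τ a k Tm → ∃ s lab, Loc r tr N W τ a k Tm s lab := by
  obtain ⟨r1, hr1⟩ := count_bad
  obtain ⟨r2, hr2⟩ := alternative
  refine ⟨max (max r1 r2) (max 8 ⌈Real.exp (10 ^ 14)⌉₊), fun r hr n tr N W τ a k Tm h => ?_⟩
  have g1 : r1 ≤ r := le_trans (le_trans (le_max_left _ _) (le_max_left _ _)) hr
  have g2 : r2 ≤ r := le_trans (le_trans (le_max_right _ _) (le_max_left _ _)) hr
  have g8 : 8 ≤ r := le_trans (le_trans (le_max_left _ _) (le_max_right _ _)) hr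
  have g0 : 0 < r := by omega
  have hl : 10 ^ 14 ≤ Real.log r := by
    have g3 : ⌈Real.exp (10 ^ 14)⌉₊ ≤ r :=
      le_trans (le_trans (le_max_right _ _) (le_max_right _ _)) hr
    exact (Real.le_log_iff_exp_le (by exact_mod_cast g0)).2 (Nat.ceil_le.1 g3)
  obtain ⟨s, hs⟩ := samples (by omega) h
  have hex : ∀ l, ∃ o : Option (Fin 5 × ℕ), (o = none → ¬GoodP r tr N τ a Tm s (W l)) ∧
      ∀ κ i, o = some (κ, i) → i ≤ pK r ∧ Lab r tr N τ k Tm (s i) κ i (W l) := by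
    intro l
    by_cases hg : GoodP r tr N τ a Tm s (W l)
    · obtain ⟨i, hi, ha⟩ := hr2 r g2 h hs l hg
      obtain ⟨κ, hκ⟩ := lab_of_alt ha
      refine ⟨some (κ, i), fun e => absurd e (Option.some_ne_none _), fun κ' i' e => ?_⟩
      obtain ⟨rfl, rfl⟩ := Prod.mk.inj (Option.some.inj e)
      exact ⟨hi, hκ⟩
    · exact ⟨none, fun _ => hg, fun κ i e => absurd e.symm (Option.some_ne_none _)⟩
  choose lab hnone hlab using hex
  have hp : ∀ i, 1 ≤ 4 ^ i := fun i => Nat.one_le_pow i 4 (by norm_num)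
  have hk := h.kK
  have late := fun i (hi : 4 ^ i ≤ pK r) => meet_use h.wf g0 i (h.lo (i + 1)) (s i) (hs.bud1 i)
    (bud_le (d := 8 * 4 ^ i) g8 (by omega) (by have := hp i; omega))
  have early := fun i (hi : 4 ^ (i + 1) < k) => meet_use h.wf g0 i (le_refl τ) (s i) (hs.bud2 i)
    (bud_le (d := 44 * 4 ^ i) g8 (by omega) (by have := hp i; rw [pow_succ]; omega))
  have hTa : ∀ i, Tm i ≤ a := fun i => (h.anti (Nat.zero_le i)).trans h.top
  refine ⟨s, lab, hs.le, ?_, ?_, ?_, ?_⟩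
  · refine le_trans ?_ (hr1 r g1 h hs)
    exact_mod_cast card_le_card fun l hl => mem_filter.2 ⟨mem_univ _, hnone l (mem_filter.1 hl).2⟩
  · intro l κ i e
    obtain ⟨hi, hL⟩ := hlab l κ i e
    have one : 1 / (pH r : ℝ) ≤ 1 := by
      rw [inv_pH]
      refine (rp_anti g0 (Nat.zero_le _)).trans (le_of_eq ?_)
      simp [rp]
    refine ⟨hi, ?_⟩
    rcases hL with ⟨rfl, h1, h2, -⟩ | ⟨rfl, h1, -⟩ | ⟨rfl, -⟩ | ⟨rfl, h1, -⟩ | ⟨rfl, -⟩
    · refine ⟨?_, fun _ => h1⟩
      show _ ≤ 2 * rp r (2 * 4 ^ (i - 1))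
      have := rp_anti g0 (show 2 * 4 ^ (i - 1) ≤ 20 * (pK r + 1) by omega)
      have := rp_pos g0 (2 * 4 ^ (i - 1))
      rw [inv_pH]; linarith
    · refine ⟨?_, fun e => absurd e (by decide)⟩
      show _ ≤ rp r (2 * 4 ^ i)
      rw [inv_pH]; exact rp_anti g0 (by omega)
    · exact ⟨one, fun e => absurd e (by decide)⟩
    · refine ⟨?_, fun e => absurd e (by decide)⟩
      show _ ≤ rp r (15 * 4 ^ i)
      rw [pow_succ] at h1
      rw [inv_pH]; exact rp_anti g0 (by omega)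
    · exact ⟨one, fun e => absurd e (by decide)⟩
  · intro l κ i w0 e
    obtain ⟨-, hL⟩ := hlab l κ i e
    rcases hL with ⟨rfl, -, -, h3, -⟩ | ⟨rfl, h1, -⟩ | ⟨rfl, -⟩ | ⟨rfl, h1, -⟩ | ⟨rfl, -⟩
    · exact condA h.wf (s i) (W l) (h.lo i) (Tm (i - 1)) h3
    · refine condL h.wf i (Tm (i + 1)) (Tm i) (s i) (W l) (rp_pos g0 (2 * 4 ^ i)).le
        fun f hf => ((late i h1).1 f hf).trans ?_
      show _ ≤ rp r (2 * 4 ^ i) ^ 2
      rw [rp_two]; exact rp_anti g0 (by omega)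
    · exact Tr.condH h.wf (h.lo (i + 1)) (Tm i) w0 (W l)
    · refine condL h.wf i τ (Tm (i + 1)) (s i) (W l) (rp_pos g0 (15 * 4 ^ i)).le
        fun f hf => ((early i h1).1 f hf).trans ?_
      show _ ≤ rp r (15 * 4 ^ i) ^ 2
      rw [rp_two]; exact rp_anti g0 (by omega)
    · exact Tr.condH h.wf (le_refl τ) (Tm (i + 1)) w0 (W l)
  · intro κ i C hC
    rcases C.eq_empty_or_nonempty with rfl | ⟨l0, hl0⟩
    · exact ⟨0, Nat.zero_le _, by simp⟩
    have hL := fun l hl => (hlab l κ i (hC l hl)).2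
    rcases hL l0 hl0 with ⟨rfl, h1, -⟩ | ⟨rfl, -⟩ | ⟨rfl, h1, -⟩ | ⟨rfl, h1, -⟩ | ⟨rfl, h1, -⟩
    · refine ⟨0, Nat.zero_le _, card_mul_le C fun l hl' => ?_⟩
      rcases hL l hl' with ⟨-, -, -, h3, h4⟩ | ⟨e, -⟩ | ⟨e, -⟩ | ⟨e, -⟩ | ⟨e, -⟩ <;>
        try exact absurd e (by decide)
      obtain ⟨j, rfl⟩ : ∃ j, i = j + 1 := ⟨i - 1, by omega⟩
      exact num0 g0 hl j rfl
        (h4.trans (endA h.wf (s (j + 1)) (W l) (h.lo (j + 1)) (h.anti (Nat.sub_le _ _)) h3))
    · refine ⟨0, Nat.zero_le _, card_mul_le C fun l hl' => ?_⟩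
      rcases hL l hl' with ⟨e, -⟩ | ⟨-, -, h3, h4⟩ | ⟨e, -⟩ | ⟨e, -⟩ | ⟨e, -⟩ <;>
        try exact absurd e (by decide)
      have h5 := gainL g0 (c := 4 ^ i) h3 (((QQ_qL (Tm := Tm) h.wf i _ _ (s i) (W l)).trans h4).trans
        (le_of_eq (by congr 1; ring)))
      rw [← two_mul] at h5
      exact (num1 g0 hl i).trans h5
    · obtain ⟨w0, hw0, hw⟩ := (late i h1).2 C W _ (rp_pos g0 (4 * 4 ^ i)).le fun l hl' => by
        rcases hL l hl' with ⟨e, -⟩ | ⟨e, -⟩ | ⟨-, -, h3⟩ | ⟨e, -⟩ | ⟨e, -⟩ <;>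
          first | exact h3 | exact absurd e (by decide)
      refine ⟨w0, hw0.trans (hTa i), ?_⟩
      rw [show 8 * 4 ^ i = 4 * 4 ^ i + 4 * 4 ^ i by ring] at hw
      exact gainH g0 C _ hw (num2 g0 hl i)
    · refine ⟨0, Nat.zero_le _, card_mul_le C fun l hl' => ?_⟩
      rcases hL l hl' with ⟨e, -⟩ | ⟨e, -⟩ | ⟨e, -⟩ | ⟨-, -, h3, h4⟩ | ⟨e, -⟩ <;>
        try exact absurd e (by decide)
      have h5 := gainL g0 (c := 14 * 4 ^ i) h3
        (((QQ_qL (Tm := Tm) h.wf i _ _ (s i) (W l)).trans h4).trans (le_of_eq (by congr 1; ring)))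
      rw [show 4 ^ i + 14 * 4 ^ i = 15 * 4 ^ i by ring] at h5
      have h6 : cH * (r : ℝ) ^ (14 * 4 ^ i) ≤ cA * (r : ℝ) ^ (14 * 4 ^ i) :=
        mul_le_mul_of_nonneg_right (by unfold cH cA; norm_num) (by positivity)
      exact ((num4 g0 hl i hk).trans (sub_le_sub_right h6 1)).trans h5
    · obtain ⟨w0, hw0, hw⟩ := (early i h1).2 C W _ (rp_pos g0 (30 * 4 ^ i)).le fun l hl' => by
        rcases hL l hl' with ⟨e, -⟩ | ⟨e, -⟩ | ⟨e, -⟩ | ⟨e, -⟩ | ⟨-, -, h3⟩ <;>
          first | exact h3 | exact absurd e (by decide)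
      refine ⟨w0, hw0.trans (hTa (i + 1)), ?_⟩
      rw [show 44 * 4 ^ i = 30 * 4 ^ i + 14 * 4 ^ i by ring] at hw
      exact gainH g0 C _ hw (num4 g0 hl i hk)

end Pool.Agent.P.MP_5c258a_lc.Bin
end

-- part Pool.Agent.P.MP_5c258a_lc.Bin.Run
section

/-! Task RUN: the engine (paper section 3). -/

namespace Pool.Agent.P.MP_5c258a_lc.Bin

open Finset Classical

namespace RunX

variable {n H : ℕ} {E K : Type} [Fintype E] [Fintype K]

lemma w1_pos (x : Option (K → Fin (eN H + 1))) : 0 < Plan.w1 H K x := by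
  cases x <;> simp only [Plan.w1] <;> positivity

lemma w2_nonneg (a j : ℕ) : 0 ≤ Plan.w2 a j := by
  unfold Plan.w2; split_ifs <;> positivity

lemma w3_pos (x : Bool ⊕ (K → Fin (eM H + 1))) : 0 < Plan.w3 H K x := by
  cases x <;> simp only [Plan.w3] <;> positivity

lemma w1_sum : ∑ x, Plan.w1 H K x = 1 := by
  rw [Fintype.sum_option]
  simp only [Plan.w1, sum_const, card_univ, Fintype.card_fun, Fintype.card_fin, nsmul_eq_mul]
  push_cast
  field_simp
  norm_num

lemma w3_sum : ∑ x, Plan.w3 H K x = 1 := by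
  rw [Fintype.sum_sum_type]
  simp only [Plan.w3, sum_const, card_univ, Fintype.card_fun, Fintype.card_fin, nsmul_eq_mul,
    Fintype.card_bool]
  push_cast
  field_simp
  norm_num

lemma w2_sum (a m : ℕ) : ∑ j : Fin m, Plan.w2 a j ≤ 1 := by
  have h1 : ∀ k : ℕ, ∑ i ∈ range k, 1 / (((i : ℝ) + 1) * (i + 2)) = 1 - 1 / (k + 1) := fun k => by
    induction k with
    | zero => simp
    | succ k ih => rw [sum_range_succ, ih]; push_cast; field_simp; ring
  rw [Fin.sum_univ_eq_sum_range (Plan.w2 a) m]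
  calc ∑ j ∈ range m, Plan.w2 a j
      = ∑ j ∈ (range m).filter (· ≤ a), Plan.w2 a j :=
        (sum_filter_of_ne fun j _ hj => by by_contra h; exact hj (if_neg h)).symm
    _ ≤ ∑ j ∈ range (a + 1), Plan.w2 a j :=
        sum_le_sum_of_subset_of_nonneg
          (fun j hj => mem_range.2 (Nat.lt_succ_of_le (mem_filter.1 hj).2))
          fun j _ _ => w2_nonneg a j
    _ = ∑ i ∈ range (a + 1), 1 / (((i : ℝ) + 1) * (i + 2)) := by
        rw [← sum_range_reflect (fun i => 1 / (((i : ℝ) + 1) * (i + 2)))]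
        exact sum_congr rfl fun j hj => if_pos (Nat.le_of_lt_succ (mem_range.1 hj))
    _ ≤ 1 := by
        rw [h1]
        exact sub_le_self _ (by positivity)

omit [Fintype E] in
lemma log_w1 (x : Option (K → Fin (eN H + 1))) :
    -1 - (if x ≠ none then Fintype.card K * Real.log (eN H + 1 : ℝ) else 0) ≤
      Real.log (Plan.w1 H K x) := by
  have : -1 ≤ Real.log (1 / 2) := by
    linarith [Real.one_sub_inv_le_log_of_pos (x := 1 / 2) (by norm_num)]
  cases x
  · simpa [Plan.w1] using this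
  · simp only [Plan.w1, ne_eq, reduceCtorEq, not_false_eq_true, if_true]
    rw [Real.log_div (x := 1 / 2) (by norm_num) (by positivity), Real.log_pow]
    linarith

lemma Ge_pos (P : Plan n E K) (s : ESt E K) (tr : Tr n) (w : ℕ) (o : EOp H K) (e : E) (x : Bool)
    (h0 : 0 ≤ tr.pb w (P.col e)) (h1 : tr.pb w (P.col e) ≤ 1) : 0 < P.Ge H s tr w o e x := by
  simp only [Plan.Ge]
  split_ifs
  exacts [GU_pos _ h0 h1 _, GD_pos _ _ h0 h1 _]

lemma eG_pos (P : Plan n E K) (s : ESt E K) (tr : Tr n) (w : ℕ) (o : EOp H K) (b : Fin n)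
    (x : Bool) (h0 : 0 ≤ tr.pb w b) (h1 : tr.pb w b ≤ 1) : 0 < P.eG H s tr w o b x := by
  unfold Plan.eG
  split_ifs with h
  · exact Ge_pos P s tr w o _ x (h.choose_spec.2.symm ▸ h0) (h.choose_spec.2.symm ▸ h1)
  · exact one_pos

lemma run_congr {St Opt : Type} [Fintype Opt] (B : Bettor n St Opt) (tr : Tr n) (t0 : ℕ)
    {o o' : ℕ → Opt} : ∀ m, (∀ r < m, o r = o' r) → B.run tr t0 o m = B.run tr t0 o' m
  | 0, _ => rfl
  | m + 1, h => by
    rw [Bettor.run_succ, Bettor.run_succ, run_congr B tr t0 m fun r hr => h r (by omega),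
      h m (by omega)]

variable {P : Plan n E K} {tr : Tr n} {A : K → ℕ → Prop} {z : K → ℕ}

lemma log_eG (hV : P.Valid H tr A z) (s : ESt E K) (tr' : Tr n) (w : ℕ) (o : EOp H K)
    (y : Fin n → Bool) : ∑ b, Real.log (P.eG H s tr' w o b (y b)) =
      ∑ e, if P.act e w then Real.log (P.Ge H s tr' w o e (y (P.col e))) else 0 := by
  have inj : ∀ e e', P.act e w → P.act e' w → P.col e = P.col e' → e = e' := fun e e' h h' hc => by
    by_contra hne
    exact hV.disj e e' hne hc w h h'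
  rw [← sum_filter, ← sum_subset (subset_univ ((univ.filter fun e => P.act e w).image P.col)),
    sum_image fun e he e' he' => inj e e' (mem_filter.1 he).2 (mem_filter.1 he').2]
  · refine sum_congr rfl fun e he => ?_
    have h : ∃ e', P.act e' w ∧ P.col e' = P.col e := ⟨e, (mem_filter.1 he).2, rfl⟩
    rw [Plan.eG, dif_pos h, inj _ e h.choose_spec.1 (mem_filter.1 he).2 h.choose_spec.2]
  · intro b _ hb
    rw [Plan.eG, dif_neg (by simpa using hb), Real.log_one]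

lemma sinv_upd {s : ESt E K} (hs : P.SInv s.2) (tr' : Tr n) (w : ℕ) (o : EOp H K)
    (y : Fin n → Bool) : P.SInv (P.eupd H s tr' w o y).2 := fun e => by
  obtain ⟨h1, h2, h3⟩ := hs e
  simp only [Plan.eupd, Plan.nxt]
  split_ifs
  · refine ⟨inv_post (inv_pre h1 _ _) _, h2.trans ((lam_pre _ _ _ _).trans (lam_post _ _ _)),
      fun h => ?_⟩
    rw [h, lam_post_L, lam_pre_L, h3 h]
  · refine ⟨inv_post h1 _, h2.trans (lam_post _ _ _), fun h => ?_⟩
    rw [h, lam_post_L, h3 h]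
  · exact ⟨h1, h2, h3⟩

lemma lam_pos' (hH : 0 < H) (hV : P.Valid H tr A z) (e : E) : 0 < P.lam e :=
  lt_of_lt_of_le (by positivity) (hV.lam_ge e)

lemma sinv_ini (hH : 0 < H) (hV : P.Valid H tr A z) : P.SInv fun e => ini (P.ty e) (P.lam e) :=
  fun e => ⟨inv_ini _ (lam_pos' hH hV e) fun h => by
    have := hV.cond e
    rw [h] at this
    exact this.1, (ini_lam _ _).ge, fun _ => ini_lam _ _⟩

lemma gain_le (hH : 0 < H) (h : tr.WF) (hV : P.Valid H tr A z) {ms : E → MS} (hs : P.SInv ms)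
    (e : E) : P.gain tr A z e ≤
      P.pot tr A z e (ms e) P.te - P.pot tr A z e (ini (P.ty e) (P.lam e)) P.t0 := by
  have h0 : Ioc (P.lo e) (min P.t0 (P.hi e)) = ∅ :=
    Ioc_eq_empty (not_lt.2 ((min_le_left _ _).trans (hV.lo_ge e)))
  have := phi_end (P.ty e) (lam_pos' hH hV e) (hs e).1 (hs e).2.1 (hs e).2.2
    (tr.XX (P.q tr A z e) (P.col e) (P.lo e) (P.hi e))
    (tr.QQ (P.q tr A z e) (P.col e) (P.lo e) (P.hi e)) fun hA => by
      rcases (hV.lo_le e).lt_or_eq with hl | hl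
      · have hc := hV.cond e
        rw [hA] at hc
        have hw : P.hi e ∈ Ioc (P.lo e) (P.hi e) := mem_Ioc.2 ⟨hl, le_rfl⟩
        have a1 := hc _ hw
        have a2 : 0 ≤ P.q tr A z e (P.hi e) :=
          sum_nonneg fun k _ => mul_nonneg (hV.om0 e _ hw k) (Tr.gr_nonneg h _ _ _)
        obtain ⟨v, hv⟩ : ∃ v, P.hi e = v + 1 := ⟨P.hi e - 1, by omega⟩
        rw [hv] at a1 a2 ⊢
        rw [Tr.XX, sum_Ioc_succ_top (by omega), Tr.xi]
        rw [Nat.add_sub_cancel, Tr.XX] at a1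
        nlinarith [mul_nonneg a2 (tr.bt_nonneg (v + 1) (P.col e))]
      · simpa [Tr.XX, hl] using (lam_pos' hH hV e).le
  rw [Plan.pot, Plan.pot, min_eq_right (hV.hi_le e)]
  simpa only [Tr.XX, Tr.QQ, h0, sum_empty, add_zero, Plan.gain] using this

lemma resync_cost (hH : 40 ≤ H) {k c : ℕ} (hk : k ≤ H ^ 5) (k0 : 0 < k)
    (hc : (c : ℝ) * (1 / 300000 / (H : ℝ) ^ 6 * (1 / (H : ℝ) ^ 50) / 8) ≤
      k * Real.log (eN H + k : ℝ)) : c * (k * Real.log (eN H + 1 : ℝ)) ≤ (H : ℝ) ^ 80 := by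
  have h1 : (40 : ℝ) ≤ H := by exact_mod_cast hH
  have h0 : (0 : ℝ) < H := by linarith
  have k1 : (k : ℝ) ≤ (H : ℝ) ^ 5 := by exact_mod_cast hk
  have k2 : (1 : ℝ) ≤ k := by exact_mod_cast k0
  have e1 : (eN H : ℝ) = (H : ℝ) ^ 70 := by simp [eN]
  have l1 : Real.log (eN H + k : ℝ) ≤ 71 * H := by
    have a1 : (H : ℝ) ^ 5 ≤ (H : ℝ) ^ 70 := pow_le_pow_right₀ (by linarith) (by norm_num)
    have a2 := mul_le_mul_of_nonneg_left h1 (pow_pos h0 70).le
    have := Real.log_le_log (by rw [e1]; positivity)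
      (show (eN H + k : ℝ) ≤ (H : ℝ) ^ 71 by rw [e1, pow_succ _ 70]; linarith [pow_pos h0 70])
    rw [Real.log_pow] at this
    push_cast at this
    linarith [Real.log_le_sub_one_of_pos h0]
  have l2 : Real.log (eN H + 1 : ℝ) ≤ 71 * H :=
    (Real.log_le_log (by positivity) (by linarith)).trans l1
  have l3 : ∀ x : ℝ, x ≤ 71 * H → k * x ≤ 71 * (H : ℝ) ^ 6 := fun x hx =>
    (mul_le_mul_of_nonneg_left hx (by linarith)).trans
      ((mul_le_mul_of_nonneg_right k1 (by linarith)).trans (le_of_eq (by ring)))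
  have c1 : (c : ℝ) ≤ 2400000 * 71 * (H : ℝ) ^ 62 := by
    have := hc.trans (l3 _ l1)
    rw [show (1 / 300000 / (H : ℝ) ^ 6 * (1 / (H : ℝ) ^ 50) / 8) = 1 / (2400000 * (H : ℝ) ^ 56) by
      field_simp; norm_num, mul_one_div, div_le_iff₀ (by positivity)] at this
    exact this.trans (le_of_eq (by ring))
  refine (mul_le_mul c1 (l3 _ l2) (mul_nonneg (by linarith) (Real.log_nonneg (by simp)))
    (by positivity)).trans ?_
  have a3 := mul_le_mul_of_nonneg_right (pow_le_pow_left₀ (by norm_num) h1 12) (pow_pos h0 68).le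
  rw [show (H : ℝ) ^ 80 = (H : ℝ) ^ 12 * (H : ℝ) ^ 68 by ring,
    show 2400000 * 71 * (H : ℝ) ^ 62 * (71 * (H : ℝ) ^ 6) = 2400000 * 71 * 71 * (H : ℝ) ^ 68 by ring]
  linarith [pow_pos h0 68]

end RunX

open RunX

/-- The bettor of a plan. -/
noncomputable def engine {n : ℕ} {E K : Type} [Fintype E] [Fintype K] (H : ℕ) (P : Plan n E K) :
    Bettor n (ESt E K) (EOp H K) where
  init := (fun _ _ => 1 / (Fintype.card K : ℝ), fun e => ini (P.ty e) (P.lam e))
  wt := P.ewt H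
  G := P.eG H
  upd := P.eupd H
  wt0 s tr w o := mul_nonneg (mul_nonneg (w1_pos _).le (w2_nonneg _ _)) (w3_pos _).le
  wt1 s tr w := by
    simp only [Plan.ewt, Fintype.sum_prod_type, ← mul_sum, w3_sum, mul_one]
    exact (sum_le_sum fun x _ => mul_le_of_le_one_right (w1_pos x).le (w2_sum _ _)).trans w1_sum.le
  G0 s tr w o b x h0 h1 := (eG_pos P s tr w o b x h0 h1).le
  G1 s tr w o b h0 h1 := by
    unfold Plan.eG
    split_ifs with h
    · simp only [Plan.Ge, h.choose_spec.2]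
      split_ifs
      exacts [GU_mean _ h0 h1, GD_mean _ _ h0 h1]
    · exact le_of_eq (by ring)

theorem engine_wins : ∃ A0 : ℝ, 0 < A0 ∧ ∃ H0 : ℕ, ∀ H ≥ H0, ∀ {n : ℕ} {E K : Type} [Fintype E]
    [Fintype K] (P : Plan n E K) (tr : Tr n) (T : ℕ) (g : ℝ), tr.WF → 0 < Fintype.card K →
    Fintype.card K ≤ H ^ 5 → P.Win A0 H T tr g →
    ∃ o, Real.exp g ≤ (engine H P).wealth tr P.t0 o (P.te - P.t0) := by
  obtain ⟨A1, hA1, H0, hstep⟩ := step_exists
  refine ⟨A1 + 1, by linarith, max H0 40, fun H hH n E K _ _ P tr T g h k0 hK hW => ?_⟩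
  obtain ⟨-, A, z, hV, hg⟩ := hW
  have h40 : 40 ≤ H := le_of_max_le_right hH
  have h1 : (40 : ℝ) ≤ H := by exact_mod_cast h40
  have h0 : (0 : ℝ) < H := by linarith
  obtain ⟨ρ, dh, d0, d1, d2, d3, d4⟩ := directions h k0 A z P.t0 P.te (eN H) hV.z_le
    (1 / 300000 / (H : ℝ) ^ 6) (1 / (H : ℝ) ^ 50) (by positivity)
    (by
      rw [div_le_one (by positivity)]
      linarith [one_le_pow₀ (n := 6) (show (1 : ℝ) ≤ H by linarith)])
    (by positivity)
    (by
      have a1 : (Fintype.card K : ℝ) ≤ (H : ℝ) ^ 5 := by exact_mod_cast hK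
      have a2 := mul_le_mul_of_nonneg_right (pow_le_pow_left₀ (by norm_num) h1 4) (pow_pos h0 10).le
      refine (pow_le_pow_left₀ (by positivity) a1 2).trans ?_
      rw [eN, Nat.cast_pow, show 1 / 300000 / (H : ℝ) ^ 6 * (1 / (H : ℝ) ^ 50) / 8 * (H : ℝ) ^ 70 =
        (H : ℝ) ^ 4 * (H : ℝ) ^ 10 / 2400000 by field_simp; norm_num, ← pow_mul]
      linarith [pow_pos h0 10])
  have key : ∀ m, P.t0 + m ≤ P.te → ∃ o : ℕ → EOp H K,
      (∀ x ≤ P.t0 + m, ((engine H P).run tr P.t0 o m).1 x = dh x) ∧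
      P.SInv ((engine H P).run tr P.t0 o m).2 ∧ 0 < (engine H P).wealth tr P.t0 o m ∧
      ∑ w ∈ Ioc P.t0 (P.t0 + m), (Real.log (Plan.w1 H K (ρ w)) - A1) +
        (∑ e, (P.pot tr A z e (((engine H P).run tr P.t0 o m).2 e) (P.t0 + m) -
          P.pot tr A z e (ini (P.ty e) (P.lam e)) P.t0)) / 2 ≤
        Real.log ((engine H P).wealth tr P.t0 o m) := fun m => by
    induction m with
    | zero =>
      exact fun _ => ⟨fun _ => (none, 0, .inl false), fun x hx => (d0 x hx).symm,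
        sinv_ini (by omega) hV, by simp [Bettor.wealth],
        by simp [Bettor.wealth, Bettor.run_zero, engine]⟩
    | succ m ih =>
      intro hm
      obtain ⟨o, i1, i2, i3, i4⟩ := ih (by omega)
      set s := (engine H P).run tr P.t0 o m with hs
      have hw : P.t0 + m + 1 ∈ Ioc P.t0 P.te := mem_Ioc.2 ⟨by omega, hm⟩
      have hd : dnew (eN H) s.1 (tr.cut (P.t0 + m + 1)) (P.t0 + m + 1) (ρ (P.t0 + m + 1)) =
          dh (P.t0 + m + 1) := by
        rw [d1 _ hw]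
        cases ρ (P.t0 + m + 1)
        · simp only [dnew, Tr.cut, le_refl, if_true,
            i1 _ (Nat.le_of_lt_succ (h.u_lt _ (Nat.succ_pos _))),
            i1 _ (Nat.le_of_lt_succ (h.v_lt _ (Nat.succ_pos _)))]
        · rfl
      obtain ⟨o', e1, e2, e3⟩ := hstep H (le_of_max_le_left hH) P tr A z h hK hV _ hw s i2
        (ρ (P.t0 + m + 1)) (hd ▸ d2 _ hm) (hd ▸ d3 _ hw)
      have hr : ∀ r ≤ m, (engine H P).run tr P.t0 (Function.update o m o') r =
          (engine H P).run tr P.t0 o r := fun r hr =>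
        run_congr _ _ _ r fun i hi => Function.update_of_ne (by omega) _ _
      have hrun : (engine H P).run tr P.t0 (Function.update o m o') (m + 1) =
          P.eupd H s (tr.cut (P.t0 + m + 1)) (P.t0 + m + 1) o' (tr.c (P.t0 + m + 1)) := by
        rw [Bettor.run_succ, hr m le_rfl, Function.update_self]; rfl
      have hG := fun b => eG_pos P s (tr.cut (P.t0 + m + 1)) (P.t0 + m + 1) o' b
        (tr.c (P.t0 + m + 1) b) (Tr.pb_nonneg (Tr.cut_WF h _) _ _) (Tr.pb_le_one (Tr.cut_WF h _) _ _)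
      have hp := prod_pos fun b (_ : b ∈ univ) => hG b
      have hwe : (engine H P).wealth tr P.t0 (Function.update o m o') (m + 1) =
          (engine H P).wealth tr P.t0 o m * (P.ewt H s (tr.cut (P.t0 + m + 1)) (P.t0 + m + 1) o' *
            √(∏ b, P.eG H s (tr.cut (P.t0 + m + 1)) (P.t0 + m + 1) o' b
              (tr.c (P.t0 + m + 1) b))) := by
        rw [Bettor.wealth, prod_range_succ, hr m le_rfl, Function.update_self, Bettor.wealth]
        congr 1
        exact prod_congr rfl fun r hr' => by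
          rw [hr r (mem_range.1 hr').le, Function.update_of_ne (mem_range.1 hr').ne]
      refine ⟨Function.update o m o', fun x hx => ?_, hrun ▸ sinv_upd i2 _ _ _ _,
        hwe ▸ mul_pos i3 (mul_pos e2 (Real.sqrt_pos.2 hp)), ?_⟩
      · rw [hrun]
        simp only [Plan.eupd, e1, hd]
        rcases hx.lt_or_eq with hx | rfl
        · rw [Function.update_of_ne (by omega), i1 x (Nat.le_of_lt_succ hx)]
        · exact Function.update_self _ _ _
      · rw [hwe, hrun, Real.log_mul i3.ne' (mul_pos e2 (Real.sqrt_pos.2 hp)).ne',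
          Real.log_mul e2.ne' (Real.sqrt_pos.2 hp).ne', Real.log_sqrt hp.le,
          Real.log_prod fun b _ => (hG b).ne', log_eG hV, ← add_assoc P.t0,
          sum_Ioc_succ_top (by omega)]
        simp only [sum_sub_distrib, Nat.add_sub_cancel] at i4 e3 ⊢
        linarith
  have ht := Nat.add_sub_cancel' hV.t0_le
  obtain ⟨o, -, i2, i3, i4⟩ := key (P.te - P.t0) ht.le
  refine ⟨o, (Real.le_log_iff_exp_le i3).1 (le_trans ?_ i4)⟩
  rw [ht]
  have a1 := sum_le_sum fun e (_ : e ∈ univ) => gain_le (by omega) h hV i2 e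
  have a2 := sum_le_sum fun w (_ : w ∈ Ioc P.t0 P.te) => log_w1 (ρ w)
  rw [sum_sub_distrib, ← sum_filter, sum_const, sum_const, nsmul_eq_mul, nsmul_eq_mul] at a2
  have a3 := resync_cost h40 hK k0 d4
  rw [sum_sub_distrib (f := fun w => Real.log (Plan.w1 H K (ρ w))), sum_const, nsmul_eq_mul]
  rw [Nat.card_Ioc, Nat.cast_sub hV.t0_le] at a2 ⊢
  linarith

theorem family_prob : ∃ A0 : ℝ, 0 < A0 ∧ ∃ H0 : ℕ, ∀ H ≥ H0, ∀ {n : ℕ} {I E K : Type} [Fintype I]
    [Fintype E] [Fintype K] (P : I → Plan n E K) (wt : I → ℝ), 0 < Fintype.card K →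
    Fintype.card K ≤ H ^ 5 → (∀ i, 0 < wt i) → ∑ i, wt i ≤ 1 →
    ∀ (A : BAlg n) (O : Finset (Fin n)) (T : ℕ) (g : ℝ),
      Pr A (T + 1) (fun xs => ∃ i, (P i).Win A0 H T (nrm A O xs) (g - Real.log (wt i))) ≤
        Real.exp (-g) := by
  obtain ⟨A0, hA, H0, hw⟩ := engine_wins
  refine ⟨A0, hA, H0, fun H hH n I E K _ _ _ P wt k0 hK w0 w1 A O T g => ?_⟩
  refine (Pr_mono A _ fun xs _ ⟨i, h⟩ => ⟨i, mem_univ i, h⟩).trans ((Pr_exists A _ univ _).trans
    ((sum_le_sum (g := fun i => wt i * Real.exp (-g)) fun i _ => ?_).trans ?_))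
  · rw [← Real.exp_log (w0 i), ← Real.exp_add, Real.log_exp,
      show Real.log (wt i) + -g = -(g - Real.log (wt i)) by ring]
    by_cases h : (P i).t0 + ((P i).te - (P i).t0) ≤ T
    · exact (Pr_mono A _ fun xs _ hx => hw H hH (P i) _ T _ (nrm_WF A O xs) k0 hK hx).trans
        (bet_bound (engine H (P i)) A O _ _ T h _)
    · refine (Pr_mono A _ fun xs _ hx => ?_).trans
        (bet_bound (engine H (P i)) A O 0 0 T (Nat.zero_le _) _)
      obtain ⟨h1, _, _, hV, -⟩ := hx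
      have := hV.t0_le
      omega
  · rw [← sum_mul]
    exact mul_le_of_le_one_left (Real.exp_pos _).le w1

end Pool.Agent.P.MP_5c258a_lc.Bin
end

-- part Pool.Agent.P.MP_5c258a_lc.Bin.Main
section

/-! If all locks hold, a plan of the main family wins (paper section 4, GREEDY). -/

namespace Pool.Agent.P.MP_5c258a_lc.Bin

open Finset Classical

lemma sum_elim {L X : Type} [Fintype L] [Fintype X] [DecidableEq X] (s : L → Option X)
    (f : L → X → ℝ) :
    ∑ l, (s l).elim 0 (f l) = ∑ x, ∑ l ∈ univ.filter fun l => s l = some x, f l x := by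
  simp only [sum_filter]
  rw [sum_comm]
  refine sum_congr rfl fun l _ => ?_
  cases s l <;> simp

lemma lev_congr {r : ℕ} (hr : 2 ≤ r) {t t' : ℕ → ℕ} (h : ∀ i ≤ pH r, t' i = t i) {j k d : ℕ}
    (hj : j < pJ r) (hk : k ≤ pK r) (hd : d < 2 * pR r ^ k) : lev r t' j k d = lev r t j k d := by
  funext i
  have h1 := pJ_add hr hk
  have h2 : pR r ^ (k - 4 ^ i) ≤ pR r ^ k :=
    Nat.pow_le_pow_right (by unfold pR; positivity) (Nat.sub_le _ _)
  unfold lev
  rw [h (j + d) (by omega), h j (by omega), h (j + 2 * pR r ^ (k - 4 ^ i)) (by omega)]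

lemma lev_disj {r : ℕ} (hr : 2 ≤ r) {t : ℕ → ℕ} (hm : ∀ i j, i ≤ j → j ≤ pH r → t i ≤ t j)
    {j k k' d d' : ℕ} (hj : j < pJ r) (hk : k ≤ pK r) (k1 : 1 ≤ k') (hd : d' < 2 * pR r ^ k')
    {κ : Fin 5} {i : ℕ} (hi : κ = 0 → 1 ≤ i) (hl : k' + lLen k κ i ≤ k) :
    lev r t j k' d' 0 ≤ lLo (t j) (lev r t j k d) κ i := by
  have h1 := pJ_add hr hk
  have key : ∀ i, 1 ≤ i → k' + 4 ^ i ≤ k → lev r t j k' d' 0 ≤ lev r t j k d i := fun i i1 h => by
    have h2 : pR r ^ (k - 4 ^ i) ≤ pR r ^ k :=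
      Nat.pow_le_pow_right (by unfold pR; positivity) (Nat.sub_le _ _)
    have h3 : pR r ^ k' ≤ pR r ^ (k - 4 ^ i) :=
      Nat.pow_le_pow_right (by unfold pR; positivity) (by omega)
    unfold lev
    rw [if_pos rfl, if_neg (by omega), if_neg (by omega)]
    exact hm _ _ (by omega) (by omega)
  fin_cases κ
  · exact key i (hi rfl) hl
  · exact key (i + 1) (by omega) hl
  · exact key (i + 1) (by omega) hl
  · exact absurd hl (by change ¬k' + k ≤ k; omega)
  · exact absurd hl (by change ¬k' + k ≤ k; omega)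

lemma one_le_lLen {k : ℕ} (hk : 1 ≤ k) (κ : Fin 5) (i : ℕ) : 1 ≤ lLen k κ i := by
  fin_cases κ
  exacts [Nat.one_le_pow _ _ (by norm_num), Nat.one_le_pow _ _ (by norm_num),
    Nat.one_le_pow _ _ (by norm_num), hk, hk]

lemma K_sq_le {r : ℕ} (hr : 2 ≤ r) : (pK r + 1) ^ 2 ≤ pH r := by
  rw [pH_eq]
  calc (pK r + 1) ^ 2 ≤ (r ^ (pK r + 1)) ^ 2 :=
        Nat.pow_le_pow_left (Nat.lt_pow_self (by omega)).le 2
    _ ≤ _ := by rw [← pow_mul]; exact Nat.pow_le_pow_right (by omega) (by omega)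

lemma six_le_pH {r : ℕ} (hr : 2 ≤ r) : 6 ≤ pH r := by
  have h1 := pJ_add hr (Nat.zero_le (pK r))
  have h2 : 1 ≤ pK r := Nat.one_le_pow _ _ (by omega)
  have h3 := pJ_add hr h2
  have h4 : 2 ≤ pR r := le_trans hr (Nat.le_self_pow (by norm_num) r)
  simp only [pow_one] at h3
  omega

/-- The schedule: labels, greedy choice and harvest nodes. -/
theorem main_core : ∃ r0 : ℕ, ∀ r ≥ r0, 2 ≤ r ∧ ∀ {n : ℕ} {tr : Tr n} {O N : Finset (Fin n)}
    {col : ℕ → Fin (pL r) → Fin n} {t : ℕ → ℕ} {T T' : ℕ}, Blk r tr O N col t T T' →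
    (∀ k, 1 ≤ k → k ≤ pK r → LockOK r tr col t k) →
    ∃ (d : ℕ → ℕ → ℕ) (smp : ℕ → ℕ → ℕ → Fin (pN r) → Option (ℕ × ℕ)) (sch : ME r → MLab r),
      (∀ j k, d j k < 2 * pR r ^ k) ∧
      (∀ j < pJ r, ∀ k ≤ pK r, ∀ i jj x, smp j k i jj = some x → x.2 ≤ T) ∧
      ∃ A z, (mkPlan r N col (t 0) (t (pH r)) (fun j => t j) (fun j k => lev r t j k (d j k))
          (fun y jj => (smp y.1 y.2.1 y.2.2 jj).map Prod.snd) sch).Valid (pH r) tr A z ∧
        cA / 16 * Real.log r * (31 / 100 * pJ r * pK r * pL r) -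
          pJ r * pL r * (pK r + 1) * Real.log 2 ≤
        (∑ e, (mkPlan r N col (t 0) (t (pH r)) (fun j => t j) (fun j k => lev r t j k (d j k))
          (fun y jj => (smp y.1 y.2.1 y.2.2 jj).map Prod.snd) sch).gain tr A z e) / 2 +
          ∑ e, Real.log (labW r (sch e)) := by
  obtain ⟨r1, h1⟩ := local_exists
  obtain ⟨r2, h2⟩ := choose_d
  refine ⟨max 2 (max r1 r2), fun r hr => ?_⟩
  have hr2 : 2 ≤ r := le_trans (le_max_left _ _) hr
  refine ⟨hr2, fun {n tr O N col t T T'} hB hL => ?_⟩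
  obtain ⟨d, hd, hbad⟩ := h2 r (by omega) hB hL
  set ok : ℕ → ℕ → Prop := fun j k => j < pJ r ∧ 1 ≤ k ∧ k ≤ pK r ∧
    BudOK r tr N (t j) (t (j + d j k + ph r k)) (lev r t j k (d j k)) with hok
  have hctx : ∀ j k, ok j k →
      Ctx r tr N (col j) (t j) (t (j + d j k + ph r k)) k (lev r t j k (d j k)) :=
    fun j k h => ctx_of_blk hr2 hB h.1 h.2.1 h.2.2.1 (hd j k).1 (hd j k).2 h.2.2.2
  have hex : ∀ j k, ∃ s lab, (ok j k → Loc r tr N (col j) (t j) (t (j + d j k + ph r k)) k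
      (lev r t j k (d j k)) s lab) ∧ (¬ok j k → (∀ l, lab l = none) ∧ ∀ i jj, s i jj = none) := by
    intro j k
    by_cases h : ok j k
    · obtain ⟨s, lab, hs⟩ := h1 r (by omega) (hctx j k h)
      exact ⟨s, lab, fun _ => hs, fun h' => absurd h h'⟩
    · exact ⟨fun _ _ => none, fun _ => none, fun h' => absurd h' h, fun _ => ⟨fun _ => rfl, fun _ _ => rfl⟩⟩
  choose smp lab hloc hno using hex
  have hlab : ∀ j k l x, lab j k l = some x → ok j k := fun j k l x h => by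
    by_contra h'
    rw [(hno j k h').1 l] at h
    cases h
  have hph : ∀ k, 1 ≤ k → ph r k ≤ pR r ^ k := fun k hk => by
    rw [← pS_mul_ph hk]
    exact Nat.le_mul_of_pos_left _ (by unfold pS; positivity)
  have hle : ∀ j < pJ r, ∀ k ≤ pK r, 1 ≤ k → j + d j k + ph r k ≤ pH r := fun j hj k hk k1 => by
    have := pJ_add hr2 hk
    have := hph k k1
    have := (hd j k).2
    omega
  have hgr : ∀ b : Fin (pJ r) × Fin (pL r), _ := fun b =>
    greedy ((Icc 1 (pK r)).filter fun k => lab b.1 k b.2 ≠ none)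
      (fun k => (lab b.1 k b.2).elim 1 fun x => lLen k x.1 x.2) fun k hk => by
        cases lab b.1 k b.2 with
        | none => exact le_rfl
        | some x => exact one_le_lLen (mem_Icc.1 (mem_filter.1 hk).1).1 _ _
  choose S hS hS1 hS2 using hgr
  set sch : ME r → MLab r := fun e => if (e.2 : ℕ) ∈ S e.1 then
    (lab e.1.1 e.2 e.1.2).bind fun x => if h : x.2 < pK r + 1 then some (x.1, ⟨x.2, h⟩) else none
    else none with hsch
  have s1 : ∀ e x, sch e = some x →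
      (e.2 : ℕ) ∈ S e.1 ∧ lab e.1.1 e.2 e.1.2 = some (x.1, (x.2 : ℕ)) := fun e x h => by
    simp only [hsch] at h
    split_ifs at h with h'
    refine ⟨h', ?_⟩
    cases hy : lab e.1.1 e.2 e.1.2 with
    | none => simp [hy] at h
    | some y =>
      simp only [hy, Option.bind_some] at h
      split_ifs at h
      cases h
      rfl
  have s2 : ∀ e : ME r, ((sch e).elim 0 fun x => (lLen e.2 x.1 x.2 : ℝ)) = if (e.2 : ℕ) ∈ S e.1 then
      (((lab e.1.1 e.2 e.1.2).elim 1 fun x => lLen e.2 x.1 x.2 : ℕ) : ℝ) else 0 := fun e => by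
    simp only [hsch]
    split_ifs with h'
    · cases hy : lab e.1.1 e.2 e.1.2 with
      | none => exact absurd hy (mem_filter.1 (hS _ h')).2
      | some y =>
        have := ((hloc _ _ (hlab _ _ _ _ hy)).lev _ y.1 y.2 hy).1
        simp [this]
    · rfl
  clear hsch
  clear_value sch
  have hw : ∀ (y : Fin (pJ r) × Fin (pK r + 1) × Fin (pK r + 1)) (κ : Fin 5), ∃ w0 ≤ t (pH r),
      ∑ l ∈ univ.filter fun l => sch ((y.1, l), y.2.1) = some (κ, y.2.2), lTarget r y.2.1 κ y.2.2 ≤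
      ∑ l ∈ univ.filter fun l => sch ((y.1, l), y.2.1) = some (κ, y.2.2),
        lGain r tr N (t y.1) (lev r t y.1 y.2.1 (d y.1 y.2.1)) (smp y.1 y.2.1 y.2.2) w0 κ y.2.2
          (col y.1 l) := fun y κ => by
    by_cases h : ok y.1 y.2.1
    · obtain ⟨w0, h3, h4⟩ := (hloc _ _ h).gain κ y.2.2
        (univ.filter fun l => sch ((y.1, l), y.2.1) = some (κ, y.2.2))
        fun l hl => (s1 _ _ (mem_filter.1 hl).2).2
      refine ⟨w0, h3.trans (hB.mono _ _ (hle _ h.1 _ h.2.2.1 h.2.1) le_rfl), ?_⟩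
      rwa [sum_const, nsmul_eq_mul]
    · have : (univ.filter fun l => sch ((y.1, l), y.2.1) = some (κ, y.2.2)) = ∅ :=
        filter_eq_empty_iff.2 fun l _ hl => h (hlab _ _ _ _ (s1 _ _ hl).2)
      exact ⟨0, Nat.zero_le _, by simp [this]⟩
  choose w0 hw0 hw1 using hw
  have hJ : ∀ j < pJ r, j ≤ pH r := fun j hj => by have := pJ_add hr2 (Nat.zero_le _); omega
  obtain ⟨hV, hG⟩ := mk_valid (N := N) (col := col) (t0 := t 0) (te := t (pH r))
    (τ := fun j => t j) (Tm := fun j k => lev r t j k (d j k))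
    (a := fun j k => if ok j k then t (j + d j k + ph r k) else 0) (smp := fun j k => smp j k)
    (lab := fun j k => lab j k) (sch := sch) (w0 := w0) (by omega) hB.wf
    (hB.mono _ _ (Nat.zero_le _) le_rfl) (fun j => hB.mono _ _ (Nat.zero_le _) (hJ j j.2))
    (fun j k => by
      split_ifs with h
      · exact hB.mono _ _ (hle _ h.1 _ h.2.2.1 h.2.1) le_rfl
      · exact Nat.zero_le _)
    (fun j k i jj => by
      cases hx : smp j k i jj with
      | none => exact Nat.zero_le _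
      | some x =>
        by_cases h : ok j k
        · exact ((hloc _ _ h).le _ _ _ hx).1.trans (hB.mono _ _ (hle _ h.1 _ h.2.2.1 h.2.1) le_rfl)
        · rw [(hno _ _ h).2] at hx; cases hx) hw0
    (fun e x he => by
      have h := hlab _ _ _ _ (s1 e x he).2
      simp only [if_pos h]
      exact ⟨hctx _ _ h, hloc _ _ h, (s1 e x he).2⟩)
    (fun b b' h => by
      have := hB.inj _ (lt_of_lt_of_le b.1.2 (Nat.div_le_self _ _)) _
        (lt_of_lt_of_le b'.1.2 (Nat.div_le_self _ _)) _ _ h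
      exact Prod.ext (Fin.ext this.1) this.2)
    (fun b k k' x x' hk he he' => by
      have h := hlab _ _ _ _ (s1 _ _ he).2
      have h' := hlab _ _ _ _ (s1 _ _ he').2
      have h3 := hS1 b _ (s1 _ _ he).1 _ (s1 _ _ he').1 hk
      rw [(s1 _ _ he).2] at h3
      exact ((hctx _ _ h').lHi_le _ _).trans (lev_disj hr2 hB.mono h.1 h.2.2.1 h'.2.1 (hd _ _).2
        ((hloc _ _ h).lev _ _ _ (s1 _ _ he).2).2.2 h3))
  refine ⟨d, smp, sch, fun j k => (hd j k).2, fun j hj k hk i jj x hx => ?_, _, _, hV, ?_⟩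
  · by_cases h : ok j k
    · exact ((hloc _ _ h).le _ _ _ hx).2.trans ((hB.mono _ _ (hJ j hj) le_rfl).trans hB.top)
    · rw [(hno _ _ h).2] at hx; cases hx
  simp only [hG]
  have g1 : ∑ e : ME r, ((sch e).elim 0 fun x => lTarget r e.2 x.1 x.2) ≤
      ∑ e : ME r, (sch e).elim 0 fun x => lGain r tr N (t e.1.1) (lev r t e.1.1 e.2 (d e.1.1 e.2))
        (smp e.1.1 e.2 x.2) (w0 (e.1.1, e.2, x.2) x.1) x.1 x.2 (col e.1.1 e.1.2) := by
    simp only [Fintype.sum_prod_type]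
    refine sum_le_sum fun j _ => ?_
    rw [sum_comm, sum_comm (s := (univ : Finset (Fin (pL r))))]
    refine sum_le_sum fun k _ => ?_
    rw [sum_elim fun l => sch ((j, l), k), sum_elim fun l => sch ((j, l), k)]
    exact sum_le_sum fun x _ => hw1 (j, k, x.2) x.1
  have hlog : 0 ≤ Real.log r := Real.log_natCast_nonneg r
  have g2 : ∀ e : ME r, cA / 16 * Real.log r * ((sch e).elim 0 fun x => (lLen e.2 x.1 x.2 : ℝ))
      - Real.log 2 ≤ ((sch e).elim 0 fun x => lTarget r e.2 x.1 x.2) / 2 +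
        Real.log (labW r (sch e)) := fun e => by
    cases sch e with
    | none => simp [labW]
    | some x =>
      have := labW_log r x
      have := Real.log_nonneg (by norm_num : (1 : ℝ) ≤ 2)
      simp only [Option.elim, lTarget]
      linarith
  have g3 : 31 / 100 * (pJ r : ℝ) * pK r * pL r ≤
      ∑ e : ME r, (sch e).elim 0 fun x => (lLen e.2 x.1 x.2 : ℝ) := by
    have a1 : ∀ b : Fin (pJ r) × Fin (pL r),
        ∑ k ∈ Icc 1 (pK r), (if lab b.1 k b.2 = none then (0 : ℝ) else 1) ≤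
        ∑ k : Fin (pK r + 1), (sch (b, k)).elim 0 fun x => (lLen k x.1 x.2 : ℝ) := fun b => by
      simp only [s2]
      rw [Fin.sum_univ_eq_sum_range (fun k => if k ∈ S b then
        (((lab b.1 k b.2).elim 1 fun x => lLen k x.1 x.2 : ℕ) : ℝ) else 0), ← sum_filter,
        filter_mem_eq_inter, inter_eq_right.2 fun k hk => mem_range.2
          (Nat.lt_succ_of_le (mem_Icc.1 (mem_filter.1 (hS b hk)).1).2), ← Nat.cast_sum]
      refine le_trans (le_of_eq ?_) (Nat.cast_le.2 (hS2 b))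
      rw [card_filter]
      push_cast
      refine sum_congr rfl fun k _ => ?_
      by_cases hk : lab b.1 k b.2 = none
      · rw [if_pos hk, if_neg (not_not.2 hk)]
      · rw [if_neg hk, if_pos hk]
    have a2 : ∀ j ∈ range (pJ r), ∀ k ∈ Icc 1 (pK r), 32 / 100 * (pL r : ℝ) -
        (if BudOK r tr N (t j) (t (j + d j k + ph r k)) (lev r t j k (d j k))
          then (nbad tr (col j) (t (j + d j k)) (t (j + d j k + ph r k)) : ℝ) else pL r) ≤
        ∑ l, (if lab j k l = none then (0 : ℝ) else 1) := fun j hj k hk => by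
      split_ifs with h
      · have h3 := (hloc j k ⟨mem_range.1 hj, (mem_Icc.1 hk).1, (mem_Icc.1 hk).2, h⟩).few
        rw [card_filter] at h3
        have h4 : ∑ l, (if lab j k l = none then (0 : ℝ) else 1) =
            pL r - ∑ l, (if lab j k l = none then (1 : ℝ) else 0) := by
          rw [eq_sub_iff_add_eq, ← sum_add_distrib]
          refine (sum_congr rfl fun l _ => (?_ : _ = (1 : ℝ))).trans (by simp)
          split_ifs <;> simp
        push_cast at h3
        have h5 : lev r t j k (d j k) 0 = t (j + d j k) := rfl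
        rw [h5] at h3
        linarith
      · have : 0 ≤ ∑ l, (if lab j k l = none then (0 : ℝ) else 1) :=
          sum_nonneg fun l _ => by split_ifs <;> norm_num
        have : (0 : ℝ) ≤ pL r := Nat.cast_nonneg _
        linarith
    rw [Fintype.sum_prod_type]
    refine le_trans ?_ (sum_le_sum fun b _ => a1 b)
    rw [Fintype.sum_prod_type, Fin.sum_univ_eq_sum_range fun j =>
      ∑ l, ∑ k ∈ Icc 1 (pK r), (if lab j k l = none then (0 : ℝ) else 1)]
    refine le_trans ?_ (sum_le_sum fun j hj => (sum_le_sum (a2 j hj)).trans (sum_comm).le)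
    simp only [sum_sub_distrib, sum_const, card_range, Nat.card_Icc, nsmul_eq_mul,
      Nat.add_sub_cancel]
    linarith
  have g4 := sum_le_sum fun e (_ : e ∈ (univ : Finset (ME r))) => g2 e
  rw [sum_sub_distrib, ← mul_sum, sum_add_distrib, ← sum_div, sum_const, card_univ] at g4
  simp only [Fintype.card_prod, Fintype.card_fin, nsmul_eq_mul] at g4
  push_cast at g4
  have := mul_le_mul_of_nonneg_left g3 (show 0 ≤ cA / 16 * Real.log r by unfold cA; positivity)
  linarith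

abbrev MG (r T : ℕ) := (Fin (pH r + 1) → Fin (T + 1)) × (Fin (pJ r) × Fin (pK r + 1) → Fin (pH r)) ×
  (Fin (pJ r) × Fin (pK r + 1) × Fin (pK r + 1) → Fin (pN r) → Option (Fin (T + 1)))

def tf {r T : ℕ} (g : MG r T) (i : ℕ) : ℕ := if h : i < pH r + 1 then g.1 ⟨i, h⟩ else 0

lemma log_MG {r T : ℕ} (hr : 2 ≤ r) (hT : Real.log (T + 2) ≤ 3 * pH r) :
    Real.log (Fintype.card (MG r T)) ≤ pL r := by
  have h6 : (6 : ℝ) ≤ pH r := by exact_mod_cast six_le_pH hr
  have hK : ((pK r : ℝ) + 1) ^ 2 ≤ pH r := by exact_mod_cast K_sq_le hr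
  have hJ : (pJ r : ℝ) ≤ pH r := by exact_mod_cast Nat.div_le_self _ _
  have h1 : Real.log (T + 1) ≤ 3 * pH r :=
    le_trans (Real.log_le_log (by positivity) (by linarith)) hT
  have h2 : Real.log (pH r) ≤ pH r := (Real.log_le_sub_one_of_pos (by linarith)).trans (by linarith)
  simp only [Fintype.card_prod, Fintype.card_fun, Fintype.card_fin, Fintype.card_option]
  simp only [pL, pN]
  push_cast
  rw [Real.log_mul (by positivity) (by positivity), Real.log_mul (by positivity) (by positivity),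
    Real.log_pow, Real.log_pow, Real.log_pow, Real.log_pow, add_assoc (T : ℝ), one_add_one_eq_two]
  push_cast
  generalize (pH r : ℝ) = H at *
  have k0 : (0 : ℝ) ≤ pK r := Nat.cast_nonneg _
  have j0 : (0 : ℝ) ≤ pJ r := Nat.cast_nonneg _
  have k1 : (pK r : ℝ) + 1 ≤ H := by nlinarith
  have l0 : 0 ≤ Real.log (T + 2) := Real.log_nonneg (by linarith [Nat.cast_nonneg (α := ℝ) T])
  have l1 : 0 ≤ Real.log H := Real.log_nonneg (by linarith)
  have a1 : (H + 1) * Real.log (T + 1) ≤ (H * H) * (H * H) := by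
    calc _ ≤ (H + 1) * (3 * H) := by gcongr
      _ ≤ _ := by gcongr <;> nlinarith
  have a2 : pJ r * (pK r + 1) * Real.log H ≤ H * H * (H * H) := by
    calc _ ≤ H * H * H := by gcongr
      _ ≤ _ := by gcongr; nlinarith
  have a3 : pJ r * ((pK r + 1) * (pK r + 1)) * (H ^ 2 * Real.log (T + 2)) ≤
      H * H * (H ^ 2 * (H * H)) := by
    gcongr
    · nlinarith
    · nlinarith
  have a4 : H * H * (H * H) ≤ H ^ 6 := by
    calc _ = H ^ 4 := by ring
      _ ≤ _ := pow_le_pow_right₀ (by linarith) (by norm_num)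
  have a5 : 3 * H ^ 6 ≤ H ^ 80 := by
    calc _ ≤ H * H ^ 6 := by gcongr; linarith
      _ = H ^ 7 := by ring
      _ ≤ _ := pow_le_pow_right₀ (by linarith) (by norm_num)
  have a6 : H * H * (H ^ 2 * (H * H)) = H ^ 6 := by ring
  linarith

theorem main_family (A0 : ℝ) (hA : 0 < A0) : ∃ c0 : ℝ, 0 < c0 ∧ c0 ≤ 1 ∧ ∃ r0 : ℕ, ∀ r ≥ r0,
    ∀ (n T : ℕ) (N : Finset (Fin n)) (col : ℕ → Fin (pL r) → Fin n),
    ∃ (I E K : Type) (_ : Fintype I) (_ : Fintype E) (_ : Fintype K)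
      (P : I → Plan n E K) (wt : I → ℝ),
      0 < Fintype.card K ∧ Fintype.card K ≤ pH r ^ 5 ∧ (∀ i, 0 < wt i) ∧ ∑ i, wt i ≤ 1 ∧
      ∀ (tr : Tr n) (O : Finset (Fin n)) (t : ℕ → ℕ) (T' : ℕ), Blk r tr O N col t T T' →
        (T' : ℝ) ≤ c0 * pK r * pH r * pL r * Real.log r →
        (∀ k, 1 ≤ k → k ≤ pK r → LockOK r tr col t k) →
        ∃ i, (P i).Win A0 (pH r) T tr (3 - Real.log (wt i)) := by
  obtain ⟨r1, h1⟩ := main_core
  have hc : 0 < cA := by unfold cA; norm_num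
  refine ⟨min 1 (cA / (500 * A0)), lt_min one_pos (by positivity), min_le_left _ _,
    max r1 ⌈Real.exp (1000 / cA)⌉₊, fun r hr n T N col => ?_⟩
  obtain ⟨hr2, h2⟩ := h1 r (le_trans (le_max_left _ _) hr)
  have h6 := six_le_pH hr2
  have hJ : 3 ≤ pJ r := by unfold pJ; omega
  have : Nonempty (Fin (pH r)) := ⟨⟨0, by omega⟩⟩
  have hG : (0 : ℝ) < Fintype.card (MG r T) := by exact_mod_cast Fintype.card_pos
  refine ⟨MG r T × (ME r → MLab r), ME r, MK r, inferInstance, inferInstance, inferInstance,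
    fun i => mkPlan r N col (tf i.1 0) (tf i.1 (pH r)) (fun j => tf i.1 j)
      (fun j k => lev r (tf i.1) j k (i.1.2.1 (j, k)))
      (fun y jj => (i.1.2.2 y jj).map Fin.val) i.2,
    fun i => 1 / Fintype.card (MG r T) * ∏ e, labW r (i.2 e), ?_, ?_, fun i => ?_, ?_, ?_⟩
  · simp only [Fintype.card_prod, Fintype.card_sum, Fintype.card_fin]
    positivity
  · simp only [Fintype.card_prod, Fintype.card_sum, Fintype.card_fin, Fintype.card_bool]
    rw [pN]
    have a1 := K_sq_le hr2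
    have a2 : pJ r ≤ pH r := Nat.div_le_self _ _
    have a3 : pH r ^ 2 * 2 + 5 ≤ pH r ^ 3 := by
      have : 6 * pH r ^ 2 ≤ pH r ^ 3 := by rw [pow_succ' _ 2]; exact Nat.mul_le_mul_right _ h6
      have : 2 ≤ pH r ^ 2 := le_trans (by omega) (Nat.le_self_pow (by norm_num) _)
      omega
    calc _ ≤ pH r * pH r * pH r ^ 3 := by
          rw [← sq (pK r + 1)]
          exact Nat.mul_le_mul (Nat.mul_le_mul a2 a1) a3
      _ = _ := by ring
  · exact mul_pos (by positivity) (prod_pos fun e _ => labW_pos r _)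
  · rw [Fintype.sum_prod_type]
    simp only [← mul_sum]
    rw [sum_const, card_univ, nsmul_eq_mul, ← mul_assoc, one_div_mul_cancel hG.ne', one_mul,
      ← Fintype.piFinset_univ, ← prod_univ_sum fun (_ : ME r) => (univ : Finset (MLab r))]
    exact prod_le_one (fun e _ => sum_nonneg fun x _ => (labW_pos r x).le) fun e _ => labW_sum r
  intro tr O t T' hB hT hL
  obtain ⟨d, smp, sch, hd, hs, A, z, hV, hW⟩ := h2 hB hL
  have hdH : ∀ (j : ℕ) (k : Fin (pK r + 1)), d j k < pH r := fun j k => by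
    have := pJ_add hr2 (Nat.le_of_lt_succ k.2)
    have := hd j k
    omega
  set g : MG r T := (fun i => ⟨t i, Nat.lt_succ_of_le
      ((hB.mono _ _ (Nat.le_of_lt_succ i.2) le_rfl).trans hB.top)⟩,
    fun y => ⟨d y.1 y.2, hdH _ _⟩,
    fun y jj => (smp y.1 y.2.1 y.2.2 jj).bind fun x =>
      if h : x.2 < T + 1 then some ⟨x.2, h⟩ else none) with hg
  have e1 : ∀ i ≤ pH r, tf g i = t i := fun i hi => by
    unfold tf
    rw [dif_pos (Nat.lt_succ_of_le hi)]
  have e2 : (fun j : Fin (pJ r) => tf g j) = fun j : Fin (pJ r) => t j :=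
    funext fun j => e1 _ (j.2.le.trans (Nat.div_le_self _ _))
  have e3 : (fun (j : Fin (pJ r)) (k : Fin (pK r + 1)) => lev r (tf g) j k (g.2.1 (j, k))) =
      fun (j : Fin (pJ r)) (k : Fin (pK r + 1)) => lev r t j k (d j k) :=
    funext fun j => funext fun k => lev_congr hr2 e1 j.2 (Nat.le_of_lt_succ k.2) (hd j k)
  have e4 : (fun y jj => (g.2.2 y jj).map Fin.val) =
      fun (y : Fin (pJ r) × Fin (pK r + 1) × Fin (pK r + 1)) jj =>
        (smp y.1 y.2.1 y.2.2 jj).map Prod.snd := by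
    funext y jj
    cases hx : smp y.1 y.2.1 y.2.2 jj with
    | none => simp [hg, hx]
    | some x => simp [hg, hx, hs _ y.1.2 _ (Nat.le_of_lt_succ y.2.1.2) _ _ _ hx]
  refine ⟨(g, sch), ?_⟩
  simp only [e1 0 (Nat.zero_le _), e1 _ le_rfl, e2, e3, e4]
  refine ⟨hB.top, A, z, hV, ?_⟩
  rw [Real.log_mul (by positivity) (prod_pos fun e _ => labW_pos r _).ne',
    Real.log_prod fun e _ => (labW_pos r _).ne', one_div, Real.log_inv]
  have l1 := log_MG hr2 hB.logT
  have l2 : 1000 / cA ≤ Real.log r := by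
    rw [Real.le_log_iff_exp_le (by positivity)]
    exact (Nat.le_ceil _).trans (by exact_mod_cast le_trans (le_max_right _ _) hr)
  have l3 : (1000 : ℝ) ≤ cA * Real.log r := by rwa [div_le_iff₀' hc] at l2
  have l4 : ((t (pH r) : ℝ) - t 0) ≤ T' := by
    have : (t (pH r) : ℝ) ≤ t 0 + T' := by exact_mod_cast hB.fast
    linarith
  have l5 : (pH r : ℝ) ≤ 3 * pJ r := by
    have : pH r ≤ 3 * pJ r := by unfold pJ; omega
    exact_mod_cast this
  have l6 : (pL r : ℝ) = (pH r : ℝ) ^ 80 := by simp [pL]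
  have l7 : (1 : ℝ) ≤ pK r := by exact_mod_cast Nat.one_le_pow _ _ (by omega)
  have l8 : (3 : ℝ) ≤ pL r := by
    exact_mod_cast le_trans (by omega : 3 ≤ pH r) (Nat.le_self_pow (by norm_num) _)
  have l9 : (3 : ℝ) ≤ pJ r := by exact_mod_cast hJ
  have m0 : 0 ≤ Real.log r := Real.log_natCast_nonneg r
  have m1 : A0 * T' ≤ cA * Real.log r * (6 / 1000 * (pJ r * pK r * pL r)) := by
    calc A0 * T' ≤ A0 * (cA / (500 * A0) * pK r * (3 * pJ r) * pL r * Real.log r) := by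
          refine mul_le_mul_of_nonneg_left (hT.trans ?_) hA.le
          gcongr
          exact min_le_right _ _
      _ = _ := by field_simp; ring
  have m2 := Real.log_two_lt_d9
  have m3 : (3 : ℝ) * pL r ≤ pJ r * pK r * pL r := by gcongr; nlinarith
  have m4 : (pJ r : ℝ) * pL r * (pK r + 1) * Real.log 2 ≤ 2 * (pJ r * pK r * pL r) := by
    calc _ ≤ (pJ r : ℝ) * pL r * (2 * pK r) * 1 := by gcongr <;> linarith
      _ = _ := by ring
  have m5 : 1000 * ((pJ r : ℝ) * pK r * pL r) ≤ cA * Real.log r * (pJ r * pK r * pL r) := by gcongr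
  have m6 := mul_le_mul_of_nonneg_left l4 hA.le
  change _ + A0 * ((t (pH r) : ℝ) - t 0) + _ ≤ _
  rw [← l6]
  linarith

end Pool.Agent.P.MP_5c258a_lc.Bin
end

-- part Pool.Agent.P.MP_5c258a_lc.Bin.FinalA
section

/-! From histories to blocks (paper section 5). -/

namespace Pool.Agent.P.MP_5c258a_lc.Bin

open Finset Classical

variable {n : ℕ}

lemma bmiss_eq (A : BAlg n) (z : Fin n → Bool) (σ : Equiv.Perm (Fin n)) :
    ∀ (t : ℕ) (xs : List (Fin n → Bool)),
      bmiss A (LO z σ) t xs = bmiss A f0 t (xs.map (sp σ fun j => !z (σ j)))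
  | 0, _ => rfl
  | t + 1, xs => by
    have hb := sp_bijective σ (fun j => !z (σ j))
    simp only [bmiss]
    refine Eq.trans ?_ (hb.sum_comp _)
    refine sum_congr rfl fun y _ => ?_
    rw [bstep_sp A (LO z σ) f0 σ _ xs y fun l _ => LO_eq z σ l, bmiss_eq A z σ t]
    have : (∀ x, LO z σ x ≤ LO z σ y) ↔
        ∀ x : Fin n → Bool, f0 x ≤ f0 (sp σ (fun j => !z (σ j)) y) := by
      symm
      rw [hb.2.forall]
      simp only [LO_eq]
    simp only [this, List.map_append, List.map_cons, List.map_nil]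

lemma bmiss_ge (A : BAlg n) (s : ℕ) : ∀ (t : ℕ) (xs : List (Fin n → Bool)),
    1 - Ex (bstep A f0) (t + s) xs (fun zs => if hit n zs then 1 else 0) ≤ bmiss A f0 t xs
  | 0, xs => by
    have := Ex_mono (bstep_nonneg A f0) (0 + s) xs (fun _ => 0)
      (fun zs => if hit n zs then 1 else 0) fun zs => by split_ifs <;> norm_num
    rw [Ex_const (bstep_sum A f0)] at this
    simp only [bmiss]
    linarith
  | t + 1, xs => by
    rw [Nat.add_right_comm, Ex_succ, bmiss]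
    refine le_trans (le_of_eq ?_) (sum_le_sum (f := fun y => bstep A f0 xs y *
      (1 - Ex (bstep A f0) (t + s) (xs ++ [y]) (fun zs => if hit n zs then 1 else 0))) fun y _ => ?_)
    · simp only [mul_sub, sum_sub_distrib, mul_one, bstep_sum]
    refine mul_le_mul_of_nonneg_left ?_ (bstep_nonneg _ _ _ _)
    split_ifs with h
    · have hy : n ≤ f0 y := le_trans ((le_f0 le_rfl fun _ => true).2 fun _ _ => rfl) (h _)
      rw [Ex_frozen (bstep_sum A f0) _ _ _ 1 fun zs => by simp [hy]]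
      simp
    · exact bmiss_ge A s t _

lemma btime_ge (A : BAlg n) (z : Fin n → Bool) (σ : Equiv.Perm (Fin n)) (T : ℕ)
    (h : Pr A (T + 1) (hit n) ≤ 1 / 2) : ENNReal.ofReal ((T + 2) / 2) ≤ btime A (LO z σ) := by
  refine le_trans ?_ (ENNReal.sum_le_tsum (range (T + 2)))
  refine le_trans (le_of_eq ?_) (sum_le_sum (f := fun _ => ENNReal.ofReal (1 / 2)) fun t ht => ?_)
  · rw [← ENNReal.ofReal_sum_of_nonneg fun _ _ => by norm_num]
    simp [div_eq_mul_inv]
  · refine ENNReal.ofReal_le_ofReal ?_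
    rw [bmiss_eq, List.map_nil]
    refine le_trans ?_ (bmiss_ge A (T + 1 - t) t [])
    rw [Nat.add_sub_cancel' (Nat.le_of_lt_succ (mem_range.1 ht))]
    unfold Pr at h
    linarith

lemma Pr_count (A : BAlg n) (t N : ℕ) (hN : 0 < N) (p : List (Fin n → Bool) → Prop)
    (q : ℕ → List (Fin n → Bool) → Prop) (ε : ℝ) (hq : ∀ β < N, Pr A t (q β) ≤ ε)
    (h : ∀ xs, xs.length = t → p xs → N ≤ 2 * ((range N).filter fun β => q β xs).card) :
    Pr A t p ≤ 2 * ε := by
  have hN' : (0 : ℝ) < N := by exact_mod_cast hN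
  have h1 : Pr A t p ≤ 2 / N * ∑ β ∈ range N, Pr A t (q β) := by
    unfold Pr
    rw [← map_sum, ← smul_eq_mul, ← map_smul]
    refine Ex_mono' (bstep_nonneg A f0) t [] _ _ fun zs hz => ?_
    simp only [List.nil_append, Pi.smul_apply, Finset.sum_apply, smul_eq_mul, sum_boole]
    split_ifs with hp
    · rw [div_mul_eq_mul_div, le_div_iff₀ hN', one_mul]
      exact_mod_cast h zs hz hp
    · positivity
  refine h1.trans ?_
  refine (mul_le_mul_of_nonneg_left (sum_le_sum fun β hβ => hq β (mem_range.1 hβ))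
    (by positivity)).trans (le_of_eq ?_)
  rw [sum_const, card_range, nsmul_eq_mul]
  field_simp

lemma many_fast (u : ℕ → ℕ) (N T T' : ℕ) (hu : ∀ β < N, u β ≤ u (β + 1)) (hT : u N ≤ T)
    (h : 2 * T ≤ N * T') : N ≤ 2 * ((range N).filter fun β => u (β + 1) ≤ u β + T').card := by
  have h1 : ∀ M ≤ N, ((range M).filter fun β => ¬u (β + 1) ≤ u β + T').card * (T' + 1) ≤ u M := by
    intro M
    induction M with
    | zero => simp
    | succ M ih =>
      intro hM
      have := ih (by omega)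
      have := hu M (by omega)
      rw [range_add_one, filter_insert]
      split_ifs with h'
      · omega
      · rw [card_insert_of_notMem (by simp), add_mul]
        omega
  have h2 := h1 N le_rfl
  have h3 := card_filter_add_card_filter_not (s := range N) fun β => u (β + 1) ≤ u β + T'
  rw [card_range] at h3
  generalize ((range N).filter fun β => ¬u (β + 1) ≤ u β + T').card = s at *
  by_contra h4
  have h5 : N + 1 ≤ 2 * s := by omega
  have h6 := Nat.mul_le_mul_right (T' + 1) h5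
  nlinarith

/-- First time at which the fitness reaches `m`. -/
noncomputable def tt (xs : List (Fin n → Bool)) (m : ℕ) : ℕ :=
  if h : ∃ s, s < xs.length ∧ m ≤ f0 (xs.getD s fun _ => false) then Nat.find h else 0

lemma tt_spec {xs : List (Fin n → Bool)} (h : hit n xs) {m : ℕ} (hm : m ≤ n) :
    tt xs m < xs.length ∧ m ≤ f0 (xs.getD (tt xs m) fun _ => false) ∧
      ∀ s < tt xs m, f0 (xs.getD s fun _ => false) < m := by
  have h' : ∃ s, s < xs.length ∧ m ≤ f0 (xs.getD s fun _ => false) := by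
    obtain ⟨y, hy, hy'⟩ := h
    obtain ⟨s, hs, rfl⟩ := List.getElem_of_mem hy
    exact ⟨s, hs, by rw [List.getD_eq_getElem _ _ hs]; exact hm.trans hy'⟩
  unfold tt
  rw [dif_pos h']
  refine ⟨(Nat.find_spec h').1, (Nat.find_spec h').2, fun s hs => ?_⟩
  have := Nat.find_min h' hs
  have h2 := (Nat.find_spec h').1
  by_contra h3
  exact this ⟨by omega, by omega⟩

lemma tt_mono {xs : List (Fin n → Bool)} (h : hit n xs) {m m' : ℕ} (h1 : m ≤ m') (hm : m' ≤ n) :
    tt xs m ≤ tt xs m' := by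
  by_contra h2
  have := (tt_spec h (h1.trans hm)).2.2 _ (not_le.1 h2)
  have := (tt_spec h hm).2.1
  omega

lemma nc_raw (A : BAlg n) {O N : Finset (Fin n)} (xs : List (Fin n → Bool)) {δ : ℝ} {T w : ℕ}
    (hO : O.Nonempty) (hG : (nrm A O xs).Good O N δ T) (hδ : δ < 1 / 2) (hw : w ≤ T)
    (h : ∀ b ∈ O, xs.getD w (fun _ => false) b = true) :
    (nrm A O xs).c w = xs.getD w fun _ => false := by
  refine (nc_cases A O xs w).resolve_right fun h' => ?_
  have h0 : ∑ b ∈ O, (nrm A O xs).bt w b = 0 := sum_eq_zero fun b hb => by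
    have : (nrm A O xs).c w b = false := by
      change nc A O xs w b = false
      rw [h', cpl, h b hb]; rfl
    simp [Tr.bt, this]
  have hc : (0 : ℝ) < O.card := by exact_mod_cast hO.card_pos
  rcases Nat.eq_zero_or_pos w with rfl | hw0
  · have := (nrm_Norm A O xs).n0
    linarith
  · have h1 := (nrm_Norm A O xs).nw w hw0
    have h2 := (abs_le.1 (hG.gO w hw0 hw)).1
    simp only [Tr.xi, sum_sub_distrib, h0] at h2
    nlinarith

def colF (hn : 0 < n) (L B : ℕ) (j : ℕ) (l : Fin L) : Fin n :=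
  if h : B + j * L + l < n then ⟨B + j * L + l, h⟩ else ⟨0, hn⟩

lemma colF_val (hn : 0 < n) {L B H j : ℕ} (h : B + H * L ≤ n) (hj : j < H) (l : Fin L) :
    (colF hn L B j l : ℕ) = B + j * L + l := by
  have h1 : (j + 1) * L ≤ H * L := Nat.mul_le_mul_right _ hj
  have := l.2
  unfold colF
  rw [dif_pos (by rw [add_mul] at h1; omega)]

lemma colF_inj (hn : 0 < n) {L B H j j' : ℕ} (h : B + H * L ≤ n) (hj : j < H) (hj' : j' < H)
    {l l' : Fin L} (e : colF hn L B j l = colF hn L B j' l') : j = j' ∧ l = l' := by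
  have e' := congrArg Fin.val e
  rw [colF_val hn h hj, colF_val hn h hj'] at e'
  have h1 : j * L + l = j' * L + l' := by omega
  have h2 := congrArg (· / L) h1
  have hL : 0 < L := l.pos
  simp only [mul_comm _ L, Nat.mul_add_div hL, Nat.div_eq_of_lt l.2, Nat.div_eq_of_lt l'.2,
    add_zero] at h2
  subst h2
  exact ⟨rfl, Fin.ext (by omega)⟩

lemma blk_of {r : ℕ} (hr : 2 ≤ r) (hn : 0 < n) (A : BAlg n) {O N : Finset (Fin n)} {B T T' : ℕ}
    {xs : List (Fin n → Bool)} (hl : xs.length = T + 1) (hh : hit n xs)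
    (hB : B + pH r * pL r ≤ n) (hOB : ∀ b ∈ O, b.val < B) (hO : O.Nonempty) (hN : N.Nonempty)
    (hf : tt xs (B + pH r * pL r) ≤ tt xs B + T') (h1 : T' ≤ pH r ^ 82)
    (h2 : Real.log (T + 2) ≤ 3 * pH r) (hG : (nrm A O xs).Good O N ((pH r : ℝ) ^ 83)⁻¹ T)
    (hT : ∀ j < pH r, ∀ τ ≤ T, (∀ s < τ, f0 (xs.getD s fun _ => false) < B + j * pL r) →
      (nrm A O xs).Typ (colF hn (pL r) B j) N (1 / pH r) τ) :
    Blk r (nrm A O xs) O N (colF hn (pL r) B) (fun i => tt xs (B + i * pL r)) T T' := by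
  have hm : ∀ i ≤ pH r, B + i * pL r ≤ n := fun i hi =>
    le_trans (Nat.add_le_add_left (Nat.mul_le_mul_right _ hi) _) hB
  have ht : ∀ i ≤ pH r, tt xs (B + i * pL r) ≤ T := fun i hi => by
    have := (tt_spec hh (hm i hi)).1
    omega
  have hδ : ((pH r : ℝ) ^ 83)⁻¹ < 1 / 2 := by
    have : (6 : ℝ) ≤ pH r := by exact_mod_cast six_le_pH hr
    rw [one_div]
    exact inv_strictAnti₀ (by norm_num)
      (lt_of_lt_of_le (by linarith) (le_self_pow₀ (by linarith) (by norm_num)))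
  have hO' : ∀ i ≤ pH r, ∀ b ∈ O, xs.getD (tt xs (B + i * pL r)) (fun _ => false) b = true :=
    fun i hi b hb => f0_true (tt_spec hh (hm i hi)).2.1 b (by have := hOB b hb; omega)
  refine ⟨nrm_WF A O xs, fun i j hij hj => tt_mono hh
    (Nat.add_le_add_left (Nat.mul_le_mul_right _ hij) _) (hm j hj), ht _ le_rfl, by simpa using hf,
    h1, h2, hG, nrm_Norm A O xs, hO, hN,
    fun j hj => hT j hj _ (ht j hj.le) (tt_spec hh (hm j hj.le)).2.2, fun i hi b hb => ?_,
    fun i hi j hj l => ?_, fun j hj j' hj' l l' e => colF_inj hn hB hj hj' e⟩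
  · rw [nc_raw A xs hO hG hδ (ht i hi) (hO' i hi)]
    exact hO' i hi b hb
  · rw [nc_raw A xs hO hG hδ (ht i hi) (hO' i hi)]
    refine f0_true (tt_spec hh (hm i hi)).2.1 _ ?_
    rw [colF_val hn hB (lt_of_lt_of_le hj hi)]
    have h1 : (j + 1) * pL r ≤ i * pL r := Nat.mul_le_mul_right _ hj
    have := l.2
    rw [add_mul] at h1
    omega

/-- A block is fast with small probability. -/
theorem blk_prob : ∃ c0 : ℝ, 0 < c0 ∧ c0 ≤ 1 ∧ ∃ r0 : ℕ, ∀ r ≥ r0, ∀ {n : ℕ} (A : BAlg n)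
    (O N : Finset (Fin n)) (col : ℕ → Fin (pL r) → Fin n) (t : List (Fin n → Bool) → ℕ → ℕ)
    (T T' : ℕ), (T' : ℝ) ≤ c0 * pK r * pH r * pL r * Real.log r → T' ≤ r ^ 14 * pH r * pL r →
    Pr A (T + 1) (fun xs => Blk r (nrm A O xs) O N col (t xs) T T') ≤ 2 * Real.exp (-3) := by
  obtain ⟨A0, hA, H0, h0⟩ := family_prob
  obtain ⟨r1, h1⟩ := lock_family A0
  obtain ⟨c0, hc, hc', r2, h2⟩ := main_family A0 hA
  refine ⟨c0, hc, hc', max (max 2 H0) (max r1 r2), fun r hr n A O N col t T T' a1 a2 => ?_⟩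
  have hH : H0 ≤ pH r := by
    rw [pH_eq]
    exact le_trans (by omega) (Nat.le_self_pow (by omega) r)
  obtain ⟨I, E, K, _, _, _, P, wt, b1, b2, b3, b4, b5⟩ := h1 r (by omega) n T col
  obtain ⟨I', E', K', _, _, _, P', wt', c1, c2, c3, c4, c5⟩ := h2 r (by omega) n T N col
  have e1 := h0 _ hH P wt b1 b2 b3 b4 A O T 3
  have e2 := h0 _ hH P' wt' c1 c2 c3 c4 A O T 3
  refine le_trans (Pr_mono A _ fun xs _ hB => ?_) ((Pr_or A _ _ _).trans
    ((add_le_add e1 e2).trans (by linarith)))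
  by_cases h : ∀ k, 1 ≤ k → k ≤ pK r → LockOK r (nrm A O xs) col (t xs) k
  · exact Or.inr (c5 _ O _ _ hB a1 h)
  · push Not at h
    obtain ⟨k, k1, k2, k3⟩ := h
    exact Or.inl (b5 _ O N _ _ k hB a2 k1 k2 k3)

end Pool.Agent.P.MP_5c258a_lc.Bin
end
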