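import Mathlib
import Pool.Agent.K.MP_5c258a_lc.C0

-- part Pool.Agent.P.MP_5c258a_lc.Pot
section

namespace Pool.Agent.P.MP_5c258a_lc

open Finset

variable {P Λ Λ' Ω : Type} [DecidableEq Λ] [DecidableEq Λ']

/-- Size of the class of `b` inside `S`. -/
noncomputable def cnt (S : Finset P) (κ : P → Λ) (b : P) : ℝ :=
  ((S.filter fun p => κ p = κ b).card : ℝ)

/-- The potential. -/
noncomputable def Psi (W V : Finset P) (κ : P → Λ) : ℝ :=
  ∑ b ∈ W, Real.log (cnt W κ b / cnt V κ b)

lemma cnt_nonneg (S : Finset P) (κ : P → Λ) (b : P) : 0 ≤ cnt S κ b := Nat.cast_nonneg _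

lemma cnt_pos {S : Finset P} (κ : P → Λ) {b : P} (hb : b ∈ S) : 0 < cnt S κ b := by
  unfold cnt
  exact_mod_cast card_pos.2 ⟨b, by simp [hb]⟩

lemma cnt_eq_sum (S : Finset P) (κ : P → Λ) (b : P) :
    cnt S κ b = ∑ p ∈ S, if κ p = κ b then (1 : ℝ) else 0 := by
  unfold cnt
  rw [card_filter]; push_cast; rfl

lemma cnt_congr (S : Finset P) (κ : P → Λ) {b b' : P} (h : κ b = κ b') :
    cnt S κ b = cnt S κ b' := by
  unfold cnt; rw [h]

lemma sum_class_le (S : Finset P) (κ : P → Λ) (p : P) (g : ℝ) (hg : 0 ≤ g) :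
    ∑ b ∈ S, (if κ b = κ p then g / cnt S κ b else 0) ≤ g := by
  have : ∑ b ∈ S, (if κ b = κ p then g / cnt S κ b else 0)
      = ∑ b ∈ S, (if κ b = κ p then (1 : ℝ) else 0) * (g / cnt S κ p) := by
    refine sum_congr rfl fun b _ => ?_
    split_ifs with h
    · rw [cnt_congr S κ h]; ring
    · simp
  rw [this, ← sum_mul, ← cnt_eq_sum]
  rcases (cnt_nonneg S κ p).eq_or_lt with h | h
  · rw [← h]; simpa using hg
  · rw [mul_div_cancel₀ _ h.ne']

lemma psi_refine {W V : Finset P} (hWV : W ⊆ V) (κ : P → Λ) (κ' : P → Λ')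
    (h : ∀ p ∈ V, ∀ q ∈ V, κ' p = κ' q → κ p = κ q) : Psi W V κ ≤ Psi W V κ' := by
  have key : ∑ b ∈ W, cnt W κ b / cnt V κ b * (cnt V κ' b / cnt W κ' b) ≤ W.card := by
    calc ∑ b ∈ W, cnt W κ b / cnt V κ b * (cnt V κ' b / cnt W κ' b)
        = ∑ b ∈ W, ∑ p ∈ V, (if κ' b = κ' p then (cnt W κ p / cnt V κ p) / cnt W κ' b else 0) := by
          refine sum_congr rfl fun b hb => ?_
          rw [cnt_eq_sum V κ' b, sum_div, mul_sum]
          refine sum_congr rfl fun p hp => ?_
          by_cases hh : κ' p = κ' b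
          · have := h p hp b (hWV hb) hh
            rw [if_pos hh, if_pos hh.symm, cnt_congr W κ this, cnt_congr V κ this]; ring
          · rw [if_neg hh, if_neg (fun e => hh e.symm)]; simp
      _ = ∑ p ∈ V, ∑ b ∈ W, (if κ' b = κ' p then (cnt W κ p / cnt V κ p) / cnt W κ' b else 0) :=
          sum_comm
      _ ≤ ∑ p ∈ V, cnt W κ p / cnt V κ p :=
          sum_le_sum fun p _ => sum_class_le W κ' p _
            (div_nonneg (cnt_nonneg _ _ _) (cnt_nonneg _ _ _))
      _ = ∑ p ∈ V, ∑ b ∈ W, (if κ p = κ b then 1 / cnt V κ p else 0) := by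
          refine sum_congr rfl fun p _ => ?_
          rw [cnt_eq_sum W κ p, sum_div]
          refine sum_congr rfl fun b _ => ?_
          by_cases hh : κ b = κ p
          · rw [if_pos hh, if_pos hh.symm]
          · rw [if_neg hh, if_neg (fun e => hh e.symm)]; simp
      _ = ∑ b ∈ W, ∑ p ∈ V, (if κ p = κ b then 1 / cnt V κ p else 0) := sum_comm
      _ ≤ ∑ b ∈ W, (1 : ℝ) := sum_le_sum fun b _ => sum_class_le V κ b 1 zero_le_one
      _ = W.card := by simp
  have each : ∀ b ∈ W, Real.log (cnt W κ b / cnt V κ b) + 1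
      - cnt W κ b / cnt V κ b * (cnt V κ' b / cnt W κ' b) ≤ Real.log (cnt W κ' b / cnt V κ' b) := by
    intro b hb
    have h1 := cnt_pos κ hb
    have h2 := cnt_pos κ (hWV hb)
    have h3 := cnt_pos κ' hb
    have h4 := cnt_pos κ' (hWV hb)
    have h5 := Real.log_le_sub_one_of_pos
      (show 0 < cnt W κ b / cnt V κ b * (cnt V κ' b / cnt W κ' b) by positivity)
    rw [Real.log_mul (by positivity) (by positivity), Real.log_div h4.ne' h3.ne'] at h5
    rw [Real.log_div h3.ne' h4.ne']
    linarith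
  have := sum_le_sum each
  rw [sum_sub_distrib, sum_add_distrib] at this
  simp only [sum_const, nsmul_eq_mul, mul_one] at this
  unfold Psi
  linarith

lemma psi_unit (W V : Finset P) :
    Psi W V (fun _ => ()) = W.card * Real.log (W.card / V.card) := by
  simp [Psi, cnt]

lemma psi_lower {W V : Finset P} (hWV : W ⊆ V) (κ : P → Λ) :
    W.card * Real.log (W.card / V.card) ≤ Psi W V κ := by
  rw [← psi_unit]
  exact psi_refine hWV _ _ fun _ _ _ _ _ => rfl

lemma psi_remove {W V V' : Finset P} (hV : V' ⊆ V) (κ : P → Λ)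
    (h : ∀ p ∈ V, ∀ b ∈ W, κ p = κ b → p ∈ V') : Psi W V' κ = Psi W V κ := by
  unfold Psi
  refine sum_congr rfl fun b hb => ?_
  congr 2
  unfold cnt
  congr 2
  ext p
  simp only [mem_filter]
  exact ⟨fun hp => ⟨hV hp.1, hp.2⟩, fun hp => ⟨h p hp.1 b hb hp.2, hp.2⟩⟩

lemma sum_inv_cnt (C : Finset P) (L : P → Λ) :
    ∑ p ∈ C, 1 / cnt C L p = ((C.image L).card : ℝ) := by
  rw [← sum_fiberwise_of_maps_to (s := C) (t := C.image L) (g := L)
    (fun p hp => mem_image_of_mem L hp)]
  rw [card_eq_sum_ones, Nat.cast_sum]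
  refine sum_congr rfl fun l hl => ?_
  obtain ⟨q, hq, rfl⟩ := mem_image.1 hl
  rw [sum_congr rfl (g := fun _ => 1 / cnt C L q)
    (fun p hp => by rw [cnt_congr C L (mem_filter.1 hp).2])]
  have := cnt_pos L hq
  rw [sum_const, nsmul_eq_mul]
  unfold cnt at *
  field_simp
  simp

variable [DecidableEq P]

lemma cnt_swap {C : Finset P} {p q : P} (hp : p ∈ C) (hq : q ∈ C) (l : P → Λ) (b : P) :
    cnt C (l ∘ Equiv.swap p q) b = cnt C l (Equiv.swap p q b) := by
  have hm : ∀ x ∈ C, Equiv.swap p q x ∈ C := by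
    intro x hx
    rw [Equiv.swap_apply_def]
    split_ifs <;> assumption
  unfold cnt
  congr 1
  refine card_nbij' (Equiv.swap p q) (Equiv.swap p q) ?_ ?_ ?_ ?_
  · intro x hx
    simp only [coe_filter, Set.mem_ofPred_eq, Function.comp] at hx ⊢
    exact ⟨hm x hx.1, hx.2⟩
  · intro x hx
    simp only [coe_filter, Set.mem_ofPred_eq, Function.comp] at hx ⊢
    exact ⟨hm x hx.1, by simpa using hx.2⟩
  · intro x _; simp
  · intro x _; simp

lemma exch_core (E : (Ω → ℝ) →ₗ[ℝ] ℝ) (hmono : ∀ φ ψ : Ω → ℝ, (∀ ω, φ ω ≤ ψ ω) → E φ ≤ E ψ)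
    (hconst : ∀ c : ℝ, E (fun _ => c) = c) (L : Ω → P → Λ) {C Cw : Finset P} (hC : Cw ⊆ C)
    {b : P} (hb : b ∈ Cw) (K : ℝ) (hK : ∀ ω, ((C.image (L ω)).card : ℝ) ≤ K)
    (hsw : ∀ p ∈ C, ∀ q ∈ C, ∀ g : (P → Λ) → ℝ,
      E (fun ω => g (L ω ∘ Equiv.swap p q)) = E (fun ω => g (L ω))) :
    E (fun ω => cnt Cw (L ω) b / cnt C (L ω) b) ≤ (K + Cw.card) / C.card := by
  have hbC := hC hb
  have hN : (0 : ℝ) < C.card := by exact_mod_cast card_pos.2 ⟨b, hbC⟩
  set a : P → ℝ := fun q => E (fun ω => (if L ω q = L ω b then 1 else 0) / cnt C (L ω) b) with ha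
  have hsum : ∀ S : Finset P, E (fun ω => cnt S (L ω) b / cnt C (L ω) b) = ∑ q ∈ S, a q := by
    intro S
    simp only [ha]
    rw [← map_sum]
    congr 1
    ext ω
    rw [cnt_eq_sum S, sum_div, Finset.sum_apply]
  have h1 : ∑ q ∈ C, a q = 1 := by
    rw [← hsum, ← hconst 1]
    congr 1
    ext ω
    exact div_self (cnt_pos _ hbC).ne'
  have hab : ∀ q, a q ≤ a b := by
    intro q
    refine hmono _ _ fun ω => ?_
    have := cnt_pos (L ω) hbC
    gcongr
    split_ifs <;> simp_all
  have hsame : ∀ q ∈ C, ∀ q' ∈ C, q ≠ b → q' ≠ b → a q = a q' := by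
    intro q hq q' hq' h h'
    have := hsw q hq q' hq' (fun l => (if l q' = l b then 1 else 0) / cnt C l b)
    simp only [ha]
    rw [← this]
    congr 1
    ext ω
    rw [cnt_swap hq hq']
    simp [Equiv.swap_apply_of_ne_of_ne h.symm h'.symm]
  have ha1 : ∀ q ∈ C, q ≠ b → a q ≤ 1 / C.card := by
    intro q hq h
    rw [le_div_iff₀ hN, ← h1, mul_comm, ← nsmul_eq_mul, ← sum_const]
    refine sum_le_sum fun q' hq' => ?_
    by_cases h' : q' = b
    · rw [h']; exact hab q
    · exact (hsame q hq q' hq' h h').le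
  have ha2 : a b ≤ K / C.card := by
    have e1 : ∀ p ∈ C, E (fun ω => 1 / cnt C (L ω) p) = a b := by
      intro p hp
      have := hsw b hbC p hp (fun l => 1 / cnt C l b)
      simp only [ha, if_true]
      rw [← this]
      congr 1
      ext ω
      rw [cnt_swap hbC hp]
      simp
    rw [le_div_iff₀ hN, mul_comm, ← nsmul_eq_mul, ← sum_const, ← sum_congr rfl e1, ← map_sum,
      ← hconst K]
    refine hmono _ _ fun ω => ?_
    rw [Finset.sum_apply, sum_inv_cnt]
    exact hK ω
  rw [hsum, ← add_sum_erase _ _ hb, add_div]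
  refine add_le_add ha2 ?_
  calc ∑ q ∈ Cw.erase b, a q ≤ ∑ q ∈ Cw.erase b, (1 : ℝ) / C.card :=
        sum_le_sum fun q hq => ha1 q (hC (mem_of_mem_erase hq)) (ne_of_mem_erase hq)
    _ ≤ ∑ q ∈ Cw, (1 : ℝ) / C.card :=
        sum_le_sum_of_subset_of_nonneg (erase_subset _ _) fun _ _ _ => by positivity
    _ = Cw.card / C.card := by rw [sum_const, nsmul_eq_mul]; ring

lemma exch (E : (Ω → ℝ) →ₗ[ℝ] ℝ) (hmono : ∀ φ ψ : Ω → ℝ, (∀ ω, φ ω ≤ ψ ω) → E φ ≤ E ψ)
    (hconst : ∀ c : ℝ, E (fun _ => c) = c) (L : Ω → P → Λ) (κ : P → Λ') {W V : Finset P}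
    (hWV : W ⊆ V) (K : ℝ) (hK : ∀ ω, ((V.image (L ω)).card : ℝ) ≤ K)
    (hsw : ∀ p ∈ V, ∀ q ∈ V, κ p = κ q → ∀ g : (P → Λ) → ℝ,
      E (fun ω => g (L ω ∘ Equiv.swap p q)) = E (fun ω => g (L ω))) :
    E (fun ω => Psi W V fun p => (κ p, L ω p)) ≤ Psi W V κ + K * (W.image κ).card := by
  have hc : ∀ (S : Finset P) ω b, cnt S (fun p => (κ p, L ω p)) b
      = cnt (S.filter fun p => κ p = κ b) (L ω) b := by
    intro S ω b
    unfold cnt
    rw [filter_filter]
    congr 2
    ext p; simp
  have each : ∀ b ∈ W, E (fun ω => Real.log (cnt W (fun p => (κ p, L ω p)) b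
      / cnt V (fun p => (κ p, L ω p)) b)) ≤ Real.log (cnt W κ b / cnt V κ b) + K * (1 / cnt W κ b) := by
    intro b hb
    have h1 := cnt_pos κ hb
    have h2 := cnt_pos κ (hWV hb)
    have hcore := exch_core E hmono hconst L (C := V.filter fun p => κ p = κ b)
      (Cw := W.filter fun p => κ p = κ b) (filter_subset_filter _ hWV) (b := b) (by simp [hb]) K
      (fun ω => le_trans (by exact_mod_cast card_le_card (image_subset_image (filter_subset _ _)))
        (hK ω))
      (fun p hp q hq => hsw p (mem_filter.1 hp).1 q (mem_filter.1 hq).1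
        ((mem_filter.1 hp).2.trans (mem_filter.1 hq).2.symm))
    have hle := hmono (fun ω => Real.log (cnt W (fun p => (κ p, L ω p)) b
      / cnt V (fun p => (κ p, L ω p)) b))
      ((fun _ => Real.log (cnt W κ b / cnt V κ b) - 1) + (cnt V κ b / cnt W κ b) •
        fun ω => cnt (W.filter fun p => κ p = κ b) (L ω) b
          / cnt (V.filter fun p => κ p = κ b) (L ω) b) (fun ω => by
        simp only [Pi.add_apply, Pi.smul_apply, smul_eq_mul]
        rw [← hc, ← hc]
        have h3 := cnt_pos (fun p => (κ p, L ω p)) hb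
        have h4 := cnt_pos (fun p => (κ p, L ω p)) (hWV hb)
        have h5 := Real.log_le_sub_one_of_pos (show 0 < cnt V κ b / cnt W κ b *
          (cnt W (fun p => (κ p, L ω p)) b / cnt V (fun p => (κ p, L ω p)) b) by positivity)
        rw [Real.log_mul (by positivity) (by positivity), Real.log_div h2.ne' h1.ne'] at h5
        rw [Real.log_div h1.ne' h2.ne']
        linarith)
    rw [map_add, map_smul, hconst, smul_eq_mul] at hle
    have h6 : cnt V κ b / cnt W κ b * ((K + cnt W κ b) / cnt V κ b) = K * (1 / cnt W κ b) + 1 := by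
      field_simp
    have h7 := mul_le_mul_of_nonneg_left hcore (show 0 ≤ cnt V κ b / cnt W κ b by positivity)
    change _ ≤ cnt V κ b / cnt W κ b * ((K + cnt W κ b) / cnt V κ b) at h7
    linarith
  have := sum_le_sum each
  rw [sum_add_distrib, ← mul_sum, sum_inv_cnt, ← map_sum] at this
  refine le_trans (le_of_eq ?_) this
  congr 1
  ext ω
  rw [Finset.sum_apply]; rfl

end Pool.Agent.P.MP_5c258a_lc
end

-- part Pool.Agent.P.MP_5c258a_lc.Unc
section

namespace Pool.Agent.P.MP_5c258a_lc

open Finset Classical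

variable {n a k : ℕ}

lemma couple (A : Alg n a k) (N : ℕ) (π : Equiv.Perm (Fin n)) (w : Fin n → Bool)
    (hτ : Function.Involutive (sp π w)) (ψ : List (Fin n → Bool) → ℝ)
    (hψ : ∀ ls, (∃ l ∈ ls, f0 (sp π w l) ≠ f0 l) → ∀ zs, ψ (ls ++ zs) = ψ ls) :
    Ex (step A f0) N [] (fun zs => ψ (zs.map (sp π w))) = Ex (step A f0) N [] ψ :=
  Ex_couple (step_sum A f0) f0 _ hτ (fun xs y h => step_sp A f0 f0 π w xs y h) ψ hψ N []

/-- Level `i` is reached, and until then bit `j` is `false` in all queries of level `≥ c`. -/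
def unc (c i : ℕ) (j : Fin n) : List (Fin n → Bool) → Prop
  | [] => False
  | y :: ys => (c ≤ f0 y → y j = false) ∧ (i ≤ f0 y ∨ unc c i j ys)

/-- Exchange of two coordinates. -/
def sw (p q : Fin n) : (Fin n → Bool) → Fin n → Bool := sp (Equiv.swap p q) fun _ => false

lemma sw_apply (p q : Fin n) (x : Fin n → Bool) (j : Fin n) : sw p q x j = x (Equiv.swap p q j) := by
  simp [sw, sp]

lemma sw_invol (p q : Fin n) : Function.Involutive (sw p q) := by
  intro x; funext j; simp [sw_apply]

lemma sw_low {p q : Fin n} {i : ℕ} (hp : i ≤ p.val) (hq : i ≤ q.val) (x : Fin n → Bool)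
    (j : Fin n) (hj : j.val < i) : sw p q x j = x j := by
  rw [sw_apply, Equiv.swap_apply_of_ne_of_ne]
  · intro h; subst h; omega
  · intro h; subst h; omega

lemma unc_succ {c i : ℕ} {j : Fin n} : ∀ {xs : List (Fin n → Bool)},
    unc c (i + 1) j xs → unc c i j xs
  | [], h => h
  | _ :: _, h => ⟨h.1, h.2.imp (fun h => by omega) unc_succ⟩

lemma unc_hit {c i : ℕ} {j : Fin n} : ∀ {xs : List (Fin n → Bool)}, unc c i j xs → hit i xs
  | [], h => h.elim
  | _ :: _, h => (hit_cons _ _ _).2 (h.2.imp id unc_hit)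

lemma unc_frozen {c i : ℕ} {j : Fin n} (zs : List (Fin n → Bool)) :
    ∀ {xs : List (Fin n → Bool)}, hit i xs → (unc c i j (xs ++ zs) ↔ unc c i j xs)
  | [], h => (hit_nil _ h).elim
  | y :: ys, h => by
    simp only [List.cons_append, unc]
    by_cases hy : i ≤ f0 y
    · simp [hy]
    · rw [unc_frozen zs (((hit_cons _ _ _).1 h).resolve_left hy)]

lemma unc_frozen' {c i : ℕ} {j : Fin n} (zs : List (Fin n → Bool)) {l : Fin n → Bool}
    (hc : c ≤ f0 l) (hl : l j = true) :
    ∀ {xs : List (Fin n → Bool)}, l ∈ xs → (unc c i j (xs ++ zs) ↔ unc c i j xs)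
  | [], h => by simp at h
  | y :: ys, h => by
    simp only [List.cons_append, unc]
    rcases List.mem_cons.1 h with h | h
    · subst h; simp [hc, hl]
    · rw [unc_frozen' zs hc hl h]

lemma unc_map {c i : ℕ} (hci : c ≤ i) {p q : Fin n} (hp : i ≤ p.val) (hq : i ≤ q.val) (j : Fin n) :
    ∀ xs : List (Fin n → Bool), unc c i j (xs.map (sw p q)) ↔ unc c i (Equiv.swap p q j) xs
  | [] => Iff.rfl
  | y :: ys => by
    simp only [List.map_cons, unc]
    rw [unc_map hci hp hq j ys, le_f0_congr (sw_low hp hq y),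
      le_f0_congr (sw_low (hci.trans hp) (hci.trans hq) y), sw_apply]

lemma unc_disj {c : ℕ} {i j : Fin n} (hci : c ≤ i.val) (hij : i.val ≤ j.val) :
    ∀ xs : List (Fin n → Bool), unc c (i.val + 1) j xs → ¬unc c (i.val + 1) j (xs.map (sw i j))
  | [], h, _ => h
  | y :: ys, h, h' => by
    simp only [List.map_cons, unc] at h h'
    have e := le_f0_congr (sw_low hci (hci.trans hij) y)
    rcases h.2 with h2 | h2
    · have := f0_true h2 i (by omega)
      have h3 := h'.1 (e.2 (by omega))
      rw [sw_apply, Equiv.swap_apply_right] at h3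
      simp [this] at h3
    rcases h'.2 with h3 | h3
    · have := f0_true h3 i (by omega)
      rw [sw_apply, Equiv.swap_apply_left] at this
      have h4 := h.1 (e.1 (by omega))
      simp [this] at h4
    · exact unc_disj hci hij ys h2 h3

lemma sw_ne {i j : Fin n} (hij : i.val ≤ j.val) {l : Fin n → Bool} (h : f0 (sw i j l) ≠ f0 l) :
    i.val ≤ f0 l ∧ (l i = true ∨ l j = true) := by
  refine ⟨?_, ?_⟩
  · by_contra h'
    exact h (f0_congr (sw_low le_rfl hij l) (by omega))
  · by_contra h'
    apply h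
    congr 1
    funext p
    rw [sw_apply, Equiv.swap_apply_def]
    split_ifs with h1 h2
    · subst h1; simp_all
    · subst h2; simp_all
    · rfl

/-- Indicator of a proposition. -/
noncomputable def ind (p : Prop) : ℝ := if p then 1 else 0

lemma ind_nonneg (p : Prop) : 0 ≤ ind p := by unfold ind; split_ifs <;> norm_num

lemma ind_le_one (p : Prop) : ind p ≤ 1 := by unfold ind; split_ifs <;> norm_num

/-- The number of uncovered positions of `F`. -/
noncomputable def ucnt (c i : ℕ) (F : Finset (Fin n)) (xs : List (Fin n → Bool)) : ℝ :=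
  ∑ j ∈ F, ind (unc c i j xs)

lemma half_step (A : Alg n a k) (N : ℕ) {c : ℕ} {i j : Fin n} (hci : c ≤ i.val)
    (hij : i.val ≤ j.val) :
    Ex (step A f0) N [] (fun xs => ind (unc c (i.val + 1) j xs)) ≤
      Ex (step A f0) N [] (fun xs => ind (unc c i.val j xs)) -
        1 / 2 * Ex (step A f0) N [] (fun xs => ind (unc c i.val j xs ∧ unc c i.val i xs)) := by
  set ψ : List (Fin n → Bool) → ℝ := fun xs => ind (unc c (i.val + 1) j xs ∧ unc c i.val i xs)
    with hψ
  have h1 := couple A N (Equiv.swap i j) (fun _ => false) (sw_invol i j) ψ (by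
    rintro ls ⟨l, hl, hne⟩ zs
    obtain ⟨h1, h2⟩ := sw_ne hij hne
    simp only [hψ]
    rw [unc_frozen zs ⟨l, hl, h1⟩]
    rcases h2 with h2 | h2
    · rw [unc_frozen zs ⟨l, hl, succ_le_f0 h1 h2⟩]
    · rw [unc_frozen' zs (hci.trans h1) h2 hl])
  have h2 := Ex_mono (step_nonneg A f0) N [] (ψ + fun zs => ψ (zs.map (sw i j)))
    (fun xs => ind (unc c i.val j xs ∧ unc c i.val i xs)) (fun xs => by
      simp only [hψ, Pi.add_apply]
      have e1 := unc_map hci le_rfl hij i xs
      have e2 := unc_map hci le_rfl hij j xs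
      rw [Equiv.swap_apply_left] at e1
      rw [Equiv.swap_apply_right] at e2
      have e3 := unc_disj hci hij xs
      have e4 := unc_succ (c := c) (i := i.val) (j := j) (xs := xs)
      have e5 := unc_succ (c := c) (i := i.val) (j := j) (xs := xs.map (sw i j))
      unfold ind
      split_ifs <;> first | (exfalso; tauto) | norm_num)
  have h3 := Ex_mono (step_nonneg A f0) N []
    ((fun xs => ind (unc c (i.val + 1) j xs)) + fun xs => ind (unc c i.val j xs ∧ unc c i.val i xs))
    ((fun xs => ind (unc c i.val j xs)) + ψ) (fun xs => by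
      simp only [hψ, Pi.add_apply]
      have e4 := unc_succ (c := c) (i := i.val) (j := j) (xs := xs)
      unfold ind
      split_ifs <;> first | (exfalso; tauto) | norm_num)
  rw [map_add] at h2
  rw [map_add, map_add] at h3
  change Ex (step A f0) N [] (fun zs => ψ (zs.map (sw i j))) = _ at h1
  linarith

lemma pair_sym (A : Alg n a k) (N : ℕ) {c : ℕ} {i j j' : Fin n} (hci : c ≤ i.val)
    (hij : i.val < j.val) (hij' : i.val ≤ j'.val) (hne : j ≠ j') :
    Ex (step A f0) N [] (fun xs => ind (unc c i.val j xs ∧ unc c i.val j' xs)) =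
      Ex (step A f0) N [] (fun xs => ind (unc c i.val j xs ∧ unc c i.val i xs)) := by
  rw [← couple A N (Equiv.swap i j') (fun _ => false) (sw_invol i j')
    (fun xs => ind (unc c i.val j xs ∧ unc c i.val j' xs)) (by
    rintro ls ⟨l, hl, hne⟩ zs
    obtain ⟨h1, _⟩ := sw_ne hij' hne
    rw [unc_frozen zs ⟨l, hl, h1⟩, unc_frozen zs ⟨l, hl, h1⟩])]
  congr 1
  funext xs
  have e1 := unc_map hci le_rfl hij' j xs
  have e2 := unc_map hci le_rfl hij' j' xs
  rw [Equiv.swap_apply_of_ne_of_ne (by intro h; subst h; omega) hne] at e1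
  rw [Equiv.swap_apply_right] at e2
  change ind (unc c i.val j (xs.map (sw i j')) ∧ unc c i.val j' (xs.map (sw i j'))) = _
  rw [e1, e2]

lemma ucnt_step (A : Alg n a k) (N : ℕ) {c : ℕ} {i : Fin n} (hci : c ≤ i.val) (F : Finset (Fin n))
    (hF : ∀ j ∈ F, i.val < j.val) :
    2 * F.card * Ex (step A f0) N [] (ucnt c (i.val + 1) F) ≤
      2 * F.card * Ex (step A f0) N [] (ucnt c i.val F) -
        (Ex (step A f0) N [] (ucnt c i.val F) ^ 2 - Ex (step A f0) N [] (ucnt c i.val F)) := by
  set E := Ex (step A f0) N [] with hE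
  have hs : ∀ i, E (ucnt c i F) = ∑ j ∈ F, E (fun xs => ind (unc c i j xs)) := by
    intro i
    rw [← map_sum]; congr 1; funext xs; rw [Finset.sum_apply]; rfl
  set g : Fin n → ℝ := fun j => E (fun xs => ind (unc c i.val j xs ∧ unc c i.val i xs)) with hg
  have h1 : E (ucnt c (i.val + 1) F) ≤ E (ucnt c i.val F) - 1 / 2 * ∑ j ∈ F, g j := by
    rw [hs, hs, mul_sum, ← sum_sub_distrib]
    exact sum_le_sum fun j hj => half_step A N hci (hF j hj).le
  have hg0 : ∀ j, 0 ≤ g j := fun j => by
    rw [← Ex_const (step_sum A f0) N [] 0]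
    exact Ex_mono (step_nonneg A f0) N [] _ _ fun _ => ind_nonneg _
  have h2 : E (fun xs => ucnt c i.val F xs ^ 2) ≤ E (ucnt c i.val F) + F.card * ∑ j ∈ F, g j := by
    have : (fun xs => ucnt c i.val F xs ^ 2) = ∑ j ∈ F, ∑ j' ∈ F,
        fun xs => ind (unc c i.val j xs ∧ unc c i.val j' xs) := by
      funext xs
      simp only [Finset.sum_apply, ucnt, sq, sum_mul_sum]
      refine sum_congr rfl fun j _ => sum_congr rfl fun j' _ => ?_
      unfold ind
      split_ifs <;> first | (exfalso; tauto) | norm_num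
    rw [this, map_sum, hs, mul_sum, ← sum_add_distrib]
    refine sum_le_sum fun j hj => ?_
    rw [map_sum, ← add_sum_erase _ _ hj]
    refine add_le_add (by simp) ?_
    calc ∑ j' ∈ F.erase j, E (fun xs => ind (unc c i.val j xs ∧ unc c i.val j' xs))
        = ∑ j' ∈ F.erase j, g j := sum_congr rfl fun j' hj' =>
          pair_sym A N hci (hF j hj) (hF j' (mem_of_mem_erase hj')).le (ne_of_mem_erase hj').symm
      _ ≤ ∑ j' ∈ F, g j := sum_le_sum_of_subset_of_nonneg (erase_subset _ _) fun _ _ _ => hg0 j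
      _ = F.card * g j := by rw [sum_const, nsmul_eq_mul]
  have h3 : E (ucnt c i.val F) ^ 2 ≤ E (fun xs => ucnt c i.val F xs ^ 2) := by
    have := Ex_mono (step_nonneg A f0) N []
      ((2 * E (ucnt c i.val F)) • ucnt c i.val F - fun _ => E (ucnt c i.val F) ^ 2)
      (fun xs => ucnt c i.val F xs ^ 2) (fun xs => by
        simp only [Pi.sub_apply, Pi.smul_apply, smul_eq_mul]
        nlinarith [sq_nonneg (ucnt c i.val F xs - E (ucnt c i.val F))])
    rw [map_sub, map_smul, Ex_const (step_sum A f0), smul_eq_mul, ← hE] at this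
    nlinarith
  have h4 := mul_le_mul_of_nonneg_left h1 (show (0 : ℝ) ≤ 2 * F.card by positivity)
  nlinarith

lemma ucnt_bound (A : Alg n a k) (N c : ℕ) (F : Finset (Fin n)) (hF0 : 0 < F.card) :
    ∀ t : ℕ, (∀ j ∈ F, c + t ≤ j.val) →
      Ex (step A f0) N [] (ucnt c (c + t) F) ≤ 2 ∨
        Ex (step A f0) N [] (ucnt c (c + t) F) ≤ 4 * F.card / (t + 4)
  | 0, _ => by
    right
    rw [← Ex_const (step_sum A f0) N [] (4 * F.card / (((0 : ℕ) : ℝ) + 4))]
    refine Ex_mono (step_nonneg A f0) N [] _ _ fun xs => ?_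
    refine le_trans (sum_le_sum fun j _ => ind_le_one _) ?_
    simp
  | t + 1, h => by
    obtain ⟨j0, hj0⟩ := card_pos.1 hF0
    have hlt : c + t < n := by have := h j0 hj0; have := j0.2; omega
    have hs := ucnt_step A N (c := c) (i := ⟨c + t, hlt⟩) (by simp) F fun j hj => by
      have := h j hj; simp only; omega
    have hm : Ex (step A f0) N [] (ucnt c (c + t + 1) F) ≤ Ex (step A f0) N [] (ucnt c (c + t) F) :=
      Ex_mono (step_nonneg A f0) N [] _ _ fun xs => sum_le_sum fun j _ => by
        have := unc_succ (c := c) (i := c + t) (j := j) (xs := xs)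
        unfold ind
        split_ifs <;> first | (exfalso; tauto) | norm_num
    have ih := ucnt_bound A N c F hF0 t fun j hj => by have := h j hj; omega
    simp only at hs
    rw [← add_assoc]
    set u := Ex (step A f0) N [] (ucnt c (c + t) F)
    set v := Ex (step A f0) N [] (ucnt c (c + t + 1) F)
    have hM : (0 : ℝ) < F.card := by exact_mod_cast hF0
    generalize (F.card : ℝ) = M at *
    by_cases hu : u ≤ 2
    · exact Or.inl (hm.trans hu)
    right
    have ih' := ih.resolve_left hu
    have ht : (0 : ℝ) ≤ t := Nat.cast_nonneg t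
    rw [le_div_iff₀ (by positivity)] at ih'
    push_cast
    rw [le_div_iff₀ (by positivity)]
    push Not at hu
    have h5 : 4 * M * v ≤ 4 * M * u - u ^ 2 := by nlinarith
    have h6 : (4 * M * u - u ^ 2) * (t + 1 + 4) ≤ 4 * M * (4 * M) := by
      have h7 : 0 ≤ 4 * M - u * (t + 4) := by linarith
      nlinarith [mul_nonneg h7 h7, mul_nonneg h7 hM.le, mul_nonneg h7 (by linarith : 0 ≤ u),
        sq_nonneg u, mul_nonneg (mul_nonneg h7 (by linarith : 0 ≤ u)) ht]
    have h8 : 4 * M * (v * (t + 1 + 4)) ≤ 4 * M * (4 * M) := by nlinarith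
    exact le_of_mul_le_mul_left h8 (by positivity)

end Pool.Agent.P.MP_5c258a_lc
end

-- part Pool.Agent.P.MP_5c258a_lc.Win
section

namespace Pool.Agent.P.MP_5c258a_lc

open Finset Classical

variable {n a k : ℕ}

/-- The bit at `p`, negated at the positions `≥ m`. -/
def tb (m : ℕ) (x : Fin n → Bool) (p : Fin n) : Bool := xor (x p) (decide (m ≤ p.val))

/-- Exchange of two coordinates that respects `tb`. -/
def ts (m : ℕ) (p q : Fin n) : (Fin n → Bool) → Fin n → Bool :=
  sp (Equiv.swap p q) fun j => xor (decide (m ≤ (Equiv.swap p q j).val)) (decide (m ≤ j.val))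

lemma tb_ts (m : ℕ) (p q : Fin n) (x : Fin n → Bool) (j : Fin n) :
    tb m (ts m p q x) j = tb m x (Equiv.swap p q j) := by
  simp only [tb, ts, sp]
  cases x (Equiv.swap p q j) <;> cases decide (m ≤ (Equiv.swap p q j).val) <;>
    cases decide (m ≤ j.val) <;> rfl

lemma tb_inj {m : ℕ} {x y : Fin n → Bool} (h : ∀ j, tb m x j = tb m y j) : x = y := by
  funext j
  simpa [tb] using h j

lemma ts_invol (m : ℕ) (p q : Fin n) : Function.Involutive (ts m p q) := fun x =>
  tb_inj (m := m) fun j => by rw [tb_ts, tb_ts, Equiv.swap_apply_self]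

lemma ts_fix {m : ℕ} {p q : Fin n} {x : Fin n → Bool} (h : tb m x p = tb m x q) :
    ts m p q x = x :=
  tb_inj (m := m) fun j => by
    rw [tb_ts, Equiv.swap_apply_def]
    split_ifs with h1 h2
    · rw [h1, h]
    · rw [h2, h]
    · rfl

lemma ts_low {m : ℕ} {p q : Fin n} {i : ℕ} (hp : i ≤ p.val) (hq : i ≤ q.val) (x : Fin n → Bool)
    (j : Fin n) (hj : j.val < i) : ts m p q x j = x j := by
  have : Equiv.swap p q j = j := by
    apply Equiv.swap_apply_of_ne_of_ne
    · intro h; subst h; omega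
    · intro h; subst h; omega
  simp [ts, sp, this]

/-- The pattern of position `p` in the queries with numbers in `S`. -/
noncomputable def label (m : ℕ) (xs : List (Fin n → Bool)) (S : Finset ℕ) (p : Fin n) : Finset ℕ :=
  S.filter fun s => (xs[s]?.map fun x => tb m x p) = some true

lemma label_eq_iff {m : ℕ} {xs : List (Fin n → Bool)} {S : Finset ℕ} {p q : Fin n} :
    label m xs S p = label m xs S q ↔ ∀ s ∈ S, ∀ l, xs[s]? = some l → tb m l p = tb m l q := by
  constructor
  · intro h s hs l hl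
    have := Finset.ext_iff.1 h s
    simp only [label, mem_filter, hs, true_and, hl, Option.map_some, Option.some.injEq] at this
    exact Bool.eq_iff_iff.2 this
  · intro h
    refine filter_congr fun s hs => ?_
    cases hl : xs[s]? with
    | none => simp
    | some l => simp [h s hs l hl]

lemma label_map (m : ℕ) (p q : Fin n) (xs : List (Fin n → Bool)) (S : Finset ℕ) :
    label m (xs.map (ts m p q)) S = label m xs S ∘ Equiv.swap p q := by
  funext j
  simp only [label, Function.comp, List.getElem?_map, Option.map_map]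
  congr 1
  funext s
  congr 2
  funext x
  exact tb_ts m p q x j

lemma label_card (m : ℕ) (xs : List (Fin n → Bool)) {S : Finset ℕ} {r : ℕ} (h : S.card ≤ r)
    (V : Finset (Fin n)) : ((V.image (label m xs S)).card : ℝ) ≤ 2 ^ r := by
  have : V.image (label m xs S) ⊆ S.powerset := by
    intro l hl
    obtain ⟨p, _, rfl⟩ := mem_image.1 hl
    exact mem_powerset.2 (filter_subset _ _)
  have h2 := card_le_card this
  rw [card_powerset] at h2
  exact_mod_cast h2.trans (Nat.pow_le_pow_right two_pos h)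

/-- The window. -/
def Wn (n w T : ℕ) : Finset (Fin n) := univ.filter fun j => w ≤ j.val ∧ j.val < w + T

/-- The far positions. -/
def Fn (n m : ℕ) : Finset (Fin n) := univ.filter fun j => m ≤ j.val

/-- The window and the far positions not yet told apart from it. -/
noncomputable def Vn (m w T : ℕ) (xs : List (Fin n → Bool)) : Finset (Fin n) :=
  Wn n w T ∪ (Fn n m).filter fun j => ∀ y ∈ xs, w + T ≤ f0 y → y j = false

/-- The potential of a history. -/
noncomputable def Phi (A : Alg n a k) (m w T : ℕ) (xs : List (Fin n → Bool)) : ℝ :=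
  Psi (Wn n w T) (Vn m w T xs) (label m xs (A.mem (xs.map f0)))

/-- The patterns in the stored queries and the last one. -/
noncomputable def Lab (A : Alg n a k) (m : ℕ) (ys : List (Fin n → Bool)) : Fin n → Finset ℕ :=
  label m ys (insert (ys.length - 1) (A.mem (ys.dropLast.map f0)))

lemma Lab_snoc (A : Alg n a k) (m : ℕ) (xs : List (Fin n → Bool)) (y : Fin n → Bool) :
    Lab A m (xs ++ [y]) = label m (xs ++ [y]) (insert xs.length (A.mem (xs.map f0))) := by
  simp [Lab]

lemma phi_le (A : Alg n a k) {m w T : ℕ} (hm : w + T ≤ m) (xs : List (Fin n → Bool))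
    (y : Fin n → Bool) :
    Phi A m w T (xs ++ [y]) ≤ Psi (Wn n w T) (Vn m w T xs) (Lab A m (xs ++ [y])) := by
  rw [← psi_remove (V' := Vn m w T (xs ++ [y]))]
  · refine psi_refine subset_union_left _ _ fun p _ q _ h => ?_
    rw [Lab_snoc, label_eq_iff] at h
    rw [label_eq_iff]
    intro s hs
    apply h s
    have := A.mem_step (xs.map f0) (f0 y)
    simp only [List.map_append, List.map_cons, List.map_nil] at hs
    simpa using this hs
  · refine union_subset_union_right fun j hj => ?_
    simp only [mem_filter] at hj ⊢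
    exact ⟨hj.1, fun y hy => hj.2 y (by simp [hy])⟩
  · intro p hp b hb h
    rw [Lab_snoc, label_eq_iff] at h
    have h1 := h xs.length (by simp) y (by simp)
    rcases mem_union.1 hp with hp | hp
    · exact mem_union_left _ hp
    refine mem_union_right _ ?_
    simp only [mem_filter, Wn, Fn, mem_univ, true_and] at hp hb ⊢
    refine ⟨hp.1, fun l hl hc => ?_⟩
    rcases List.mem_append.1 hl with hl | hl
    · exact hp.2 l hl hc
    · rw [List.mem_singleton.1 hl] at hc ⊢
      have h2 := f0_true hc b hb.2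
      have h3 : ¬m ≤ b.val := by omega
      simpa [tb, h2, h3, hp.1] using h1

/-- The expectation over one step. -/
noncomputable def E1 (A : Alg n a k) (xs : List (Fin n → Bool)) : ((Fin n → Bool) → ℝ) →ₗ[ℝ] ℝ :=
  ∑ y, step A f0 xs y • LinearMap.proj y

lemma E1_apply (A : Alg n a k) (xs : List (Fin n → Bool)) (φ : (Fin n → Bool) → ℝ) :
    E1 A xs φ = ∑ y, step A f0 xs y * φ y := by
  simp [E1, LinearMap.sum_apply]

lemma phi_step (A : Alg n a k) {m w T : ℕ} (hm : w + T ≤ m) (xs : List (Fin n → Bool)) :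
    ∑ y, step A f0 xs y * Phi A m w T (xs ++ [y]) ≤ Phi A m w T xs + 2 * 2 ^ k := by
  have h := exch (E1 A xs)
    (fun φ ψ h => by
      rw [E1_apply, E1_apply]
      exact sum_le_sum fun y _ => mul_le_mul_of_nonneg_left (h y) (step_nonneg _ _ _ _))
    (fun c => by rw [E1_apply, ← sum_mul, step_sum, one_mul])
    (fun y p => tb m y p) (label m xs (A.mem (xs.map f0))) (W := Wn n w T) (V := Vn m w T xs)
    subset_union_left 2
    (fun y => by exact_mod_cast (card_le_univ _).trans (by simp))
    (fun p _ q _ hpq g => by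
      rw [E1_apply, E1_apply, ← Equiv.sum_comp (ts_invol m p q).toPerm
        (fun y => step A f0 xs y * g fun p => tb m y p)]
      refine sum_congr rfl fun y _ => ?_
      rw [label_eq_iff] at hpq
      have := step_fix A f0 _ _ xs y fun s hs l hl => ts_fix (hpq s hs l hl)
      simp only [Function.Involutive.coe_toPerm, tb_ts]
      exact congrArg₂ _ this.symm rfl)
  rw [E1_apply] at h
  have h2 := label_card m xs (A.mem_card (xs.map f0)) (Wn n w T)
  refine le_trans (sum_le_sum fun y _ => mul_le_mul_of_nonneg_left ((phi_le A hm xs y).trans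
    (psi_refine subset_union_left _ _ fun p _ q _ hpq => ?_)) (step_nonneg _ _ _ _))
    (h.trans (by unfold Phi; linarith))
  rw [Prod.mk.injEq, label_eq_iff] at hpq
  rw [Lab_snoc, label_eq_iff]
  intro s hs l hl
  rcases mem_insert.1 hs with rfl | hs
  · have : y = l := by simpa using hl
    rw [← this]; exact hpq.2
  · have := A.mem_lt _ _ hs
    rw [List.length_map] at this
    rw [List.getElem?_append_left this] at hl
    exact hpq.1 s hs l hl

/-- The history up to the first query of level `≥ i`. -/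
def cut (i : ℕ) : List (Fin n → Bool) → List (Fin n → Bool)
  | [] => []
  | y :: ys => if i ≤ f0 y then [y] else y :: cut i ys

lemma cut_frozen {i : ℕ} (zs : List (Fin n → Bool)) :
    ∀ {xs : List (Fin n → Bool)}, hit i xs → cut i (xs ++ zs) = cut i xs
  | [], h => (hit_nil _ h).elim
  | y :: ys, h => by
    simp only [List.cons_append, cut]
    split_ifs with hy
    · rfl
    · rw [cut_frozen zs (((hit_cons _ _ _).1 h).resolve_left hy)]

lemma cut_not {i : ℕ} : ∀ {xs : List (Fin n → Bool)}, ¬hit i xs → cut i xs = xs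
  | [], _ => rfl
  | y :: ys, h => by
    rw [hit_cons, not_or] at h
    rw [cut, if_neg h.1, cut_not h.2]

lemma cut_snoc {i : ℕ} (y : Fin n → Bool) :
    ∀ {xs : List (Fin n → Bool)}, ¬hit i xs → cut i (xs ++ [y]) = xs ++ [y]
  | [], _ => by simp [cut]
  | l :: ys, h => by
    rw [hit_cons, not_or] at h
    rw [List.cons_append, cut, if_neg h.1, cut_snoc y h.2]

lemma cut_low {i : ℕ} : ∀ (xs : List (Fin n → Bool)), ∀ l ∈ (cut i xs).dropLast, f0 l < i
  | [], l, h => by simp [cut] at h
  | y :: ys, l, h => by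
    rw [cut] at h
    split_ifs at h with hy
    · simp at h
    · by_cases he : cut i ys = []
      · simp [he] at h
      · rw [List.dropLast_cons_of_ne_nil he] at h
        rcases List.mem_cons.1 h with h | h
        · rw [h]; omega
        · exact cut_low ys l h

lemma cut_map {i : ℕ} {τ : (Fin n → Bool) → Fin n → Bool} (h : ∀ l, i ≤ f0 (τ l) ↔ i ≤ f0 l) :
    ∀ xs : List (Fin n → Bool), cut i (xs.map τ) = (cut i xs).map τ
  | [] => rfl
  | y :: ys => by
    simp only [List.map_cons, cut, h]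
    split_ifs
    · rfl
    · rw [cut_map h ys, List.map_cons]

lemma unc_of_cut {c i : ℕ} {j : Fin n} : ∀ {xs : List (Fin n → Bool)}, hit i xs →
    (∀ y ∈ cut i xs, c ≤ f0 y → y j = false) → unc c i j xs
  | [], h, _ => hit_nil _ h
  | y :: ys, h, h' => by
    rw [cut] at h'
    split_ifs at h' with hy
    · exact ⟨h' y (by simp), Or.inl hy⟩
    · exact ⟨h' y (by simp), Or.inr (unc_of_cut (((hit_cons _ _ _).1 h).resolve_left hy)
        fun l hl => h' l (by simp [hl]))⟩

/-- The potential when the window is entered. -/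
noncomputable def Ini (A : Alg n a k) (m w T : ℕ) (xs : List (Fin n → Bool)) : ℝ :=
  Psi (Wn n w T) (Wn n w T ∪ Fn n m) (Lab A m (cut w xs))

lemma ini_le (A : Alg n a k) {m w T : ℕ} (hm : w + T ≤ m) (N : ℕ) :
    Ex (step A f0) N [] (Ini A m w T) ≤ (Wn n w T).card *
      Real.log ((Wn n w T).card / (Wn n w T ∪ Fn n m).card) + 2 * 2 ^ k := by
  have hlow : ∀ p ∈ Wn n w T ∪ Fn n m, w ≤ p.val := by
    intro p hp
    simp only [Wn, Fn, mem_union, mem_filter, mem_univ, true_and] at hp
    omega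
  have h := exch (Ex (step A f0) N []) (Ex_mono (step_nonneg A f0) N [])
    (Ex_const (step_sum A f0) N []) (fun xs => Lab A m (cut w xs)) (fun _ => ())
    (W := Wn n w T) (V := Wn n w T ∪ Fn n m) subset_union_left (2 ^ (k + 1))
    (fun xs => label_card m _ ((card_insert_le _ _).trans (Nat.succ_le_succ (A.mem_card _))) _)
    (fun p hp q hq _ g => by
      have hl := ts_low (m := m) (hlow p hp) (hlow q hq)
      rw [← couple A N _ _ (ts_invol m p q) (fun xs => g (Lab A m (cut w xs)))]
      · congr 1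
        funext xs
        congr 1
        change _ = Lab A m (cut w (xs.map (ts m p q)))
        rw [cut_map fun l => le_f0_congr (hl l)]
        unfold Lab
        rw [label_map, List.length_map, ← List.map_dropLast, List.map_map]
        congr 4
        exact List.map_congr_left fun l h => (f0_congr (hl l) (cut_low xs l h)).symm
      · rintro ls ⟨l, hl', hne⟩ zs
        rw [cut_frozen zs ⟨l, hl', not_lt.1 fun h => hne (f0_congr (hl l) h)⟩])
  rw [psi_unit] at h
  have h1 : (((Wn n w T).image fun _ => ()).card : ℝ) ≤ 1 := by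
    exact_mod_cast (card_le_univ _).trans (by simp)
  have h2 := Ex_mono (step_nonneg A f0) N [] (Ini A m w T) _ fun xs =>
    psi_refine (W := Wn n w T) (V := Wn n w T ∪ Fn n m) subset_union_left (Lab A m (cut w xs))
      (fun p => ((), Lab A m (cut w xs) p)) fun p _ q _ h => (Prod.mk.inj h).2
  have h3 : (0 : ℝ) < 2 ^ k := by positivity
  rw [pow_succ] at h
  nlinarith

/-- The number of queries made after level `w` and before level `e` was reached. -/
noncomputable def steps (w e : ℕ) (xs : List (Fin n → Bool)) : ℝ :=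
  ∑ s ∈ range xs.length, ind (hit w (xs.take s) ∧ ¬hit e (xs.take s))

lemma steps_snoc (w e : ℕ) (xs : List (Fin n → Bool)) (y : Fin n → Bool) :
    steps w e (xs ++ [y]) = steps w e xs + ind (hit w xs ∧ ¬hit e xs) := by
  unfold steps
  rw [List.length_append, List.length_singleton, sum_range_succ, List.take_left']
  · congr 1
    refine sum_congr rfl fun s hs => ?_
    rw [List.take_append_of_le_length (mem_range.1 hs).le]
  · rfl

lemma drift (A : Alg n a k) {m w T e : ℕ} (hm : w + T ≤ m) (he : w ≤ e) (N : ℕ) :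
    Ex (step A f0) N [] (fun xs => ind (hit w xs) * (Phi A m w T (cut e xs) - Ini A m w T xs))
      ≤ 2 * 2 ^ k * Ex (step A f0) N [] (steps w e) := by
  have h := Ex_super (step_nonneg A f0)
    ((fun xs => ind (hit w xs) * (Phi A m w T (cut e xs) - Ini A m w T xs))
      - (2 * 2 ^ k : ℝ) • steps w e) (fun xs => ?_) N []
  · rw [map_sub, map_smul] at h
    simp only [Pi.sub_apply, Pi.smul_apply, smul_eq_mul, ind, steps, hit_nil, if_false] at h
    simp only [ind]
    simpa using h
  simp only [Pi.sub_apply, Pi.smul_apply, smul_eq_mul, steps_snoc]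
  have hc : ∀ c : ℝ, ∑ y, step A f0 xs y * c = c := fun c => by rw [← sum_mul, step_sum, one_mul]
  by_cases h1 : hit w xs
  · have hI : ∀ y, Ini A m w T (xs ++ [y]) = Ini A m w T xs := fun y => by
      unfold Ini; rw [cut_frozen _ h1]
    by_cases h2 : hit e xs
    · simp only [hI, cut_frozen _ h2, ind, hit_append, h1, h2, true_or, not_true, and_false,
        if_true, if_false, add_zero, hc, le_refl]
    · simp only [hI, cut_snoc _ h2, cut_not h2, ind, hit_append, h1, h2, true_or, not_false_iff,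
        and_true, if_true, one_mul, mul_sub, sum_sub_distrib, hc]
      linarith [phi_step A hm xs]
  · have h2 : ¬hit e xs := fun h => h1 (hit_mono he h)
    rw [← hc (_ - _)]
    refine sum_le_sum fun y _ => mul_le_mul_of_nonneg_left ?_ (step_nonneg _ _ _ _)
    have h3 := phi_le A hm xs y
    have h4 : Vn m w T xs = Wn n w T ∪ Fn n m := by
      unfold Vn
      rw [filter_true_of_mem fun j _ l hl hc => (h1 ⟨l, hl, by omega⟩).elim]
    rw [h4] at h3
    have h5 := mul_nonpos_of_nonneg_of_nonpos (ind_nonneg (hit w (xs ++ [y]))) (sub_nonpos.2 h3)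
    unfold Ini
    rw [cut_snoc _ h2, cut_snoc _ h1]
    simp only [ind, h1, false_and, if_false] at h5 ⊢
    linarith

end Pool.Agent.P.MP_5c258a_lc
end

-- part Pool.Agent.P.MP_5c258a_lc.Main
section

namespace Pool.Agent.P.MP_5c258a_lc

open Finset Classical

variable {n a k : ℕ}

lemma card_Wn {w T : ℕ} (h : w + T ≤ n) : (Wn n w T).card = T := by
  rw [← card_map Fin.valEmbedding]
  have : (Wn n w T).map Fin.valEmbedding = Ico w (w + T) := by
    ext j
    simp only [Wn, mem_map, mem_filter, mem_univ, true_and, Fin.valEmbedding_apply, mem_Ico]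
    exact ⟨fun ⟨i, hi, e⟩ => e ▸ hi, fun hj => ⟨⟨j, by omega⟩, hj, rfl⟩⟩
  rw [this]; simp

lemma card_Fn (m : ℕ) : (Fn n m).card = n - m := by
  rw [← card_map Fin.valEmbedding]
  have : (Fn n m).map Fin.valEmbedding = Ico m n := by
    ext j
    simp only [Fn, mem_map, mem_filter, mem_univ, true_and, Fin.valEmbedding_apply, mem_Ico]
    exact ⟨fun ⟨i, hi, e⟩ => e ▸ ⟨hi, i.2⟩, fun hj => ⟨⟨j, hj.2⟩, hj.1, rfl⟩⟩
  rw [this]; simp

lemma gain_ge (A : Alg n a k) {m w T : ℕ} (hm : w + T ≤ n) (hT : 10 ≤ T)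
    (hM : T * T ≤ (Fn n m).card) (xs : List (Fin n → Bool)) :
    T * Real.log (T / (Wn n w T ∪ Fn n m).card) - Ini A m w T xs +
      T * ((Real.log (T / 10) + 1) * ind (hit (w + T + T) xs) -
        (T + ucnt (w + T) (w + T + T) (Fn n m) xs) / (10 * (Fn n m).card / T)) ≤
      ind (hit w xs) * (Phi A m w T (cut (w + T + T) xs) - Ini A m w T xs) := by
  have hT' : (10 : ℝ) ≤ T := by exact_mod_cast hT
  have hM' : (T : ℝ) * T ≤ (Fn n m).card := by exact_mod_cast hM
  have hU : ((Fn n m).card : ℝ) ≤ (Wn n w T ∪ Fn n m).card := by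
    exact_mod_cast card_le_card subset_union_right
  have hX : 0 ≤ ucnt (w + T) (w + T + T) (Fn n m) xs := sum_nonneg fun _ _ => ind_nonneg _
  have hV : ∀ ys, (T : ℝ) ≤ (Vn m w T ys).card := fun ys => by
    have : (Wn n w T).card ≤ (Vn m w T ys).card := card_le_card subset_union_left
    rw [card_Wn hm] at this
    exact_mod_cast this
  have hP : ∀ ys, T * Real.log (T / (Vn m w T ys).card) ≤ Phi A m w T ys := fun ys => by
    have := psi_lower (W := Wn n w T) (V := Vn m w T ys) subset_union_left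
      (label m ys (A.mem (ys.map f0)))
    rwa [card_Wn hm] at this
  have hM0 : (0 : ℝ) < (Fn n m).card := by nlinarith
  have hq : 0 ≤ (T : ℝ) * ((T + ucnt (w + T) (w + T + T) (Fn n m) xs) / (10 * (Fn n m).card / T)) := by
    positivity
  by_cases h2 : hit (w + T + T) xs
  · have h1 : hit w xs := hit_mono (by omega) h2
    have h3 : ((Vn m w T (cut (w + T + T) xs)).card : ℝ)
        ≤ T + ucnt (w + T) (w + T + T) (Fn n m) xs := by
      have h4 := card_union_le (Wn n w T) ((Fn n m).filter fun j =>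
        ∀ y ∈ cut (w + T + T) xs, w + T ≤ f0 y → y j = false)
      rw [card_Wn hm, card_filter] at h4
      refine le_trans (b := ((_ : ℕ) : ℝ)) (by exact_mod_cast h4) ?_
      push_cast
      refine add_le_add le_rfl (sum_le_sum fun j _ => ?_)
      split_ifs with h5
      · simp [ind, unc_of_cut h2 h5]
      · exact ind_nonneg _
    have h4 := hP (cut (w + T + T) xs)
    have h5 := hV (cut (w + T + T) xs)
    simp only [ind, h1, h2, if_true, one_mul, mul_one]
    generalize ucnt (w + T) (w + T + T) (Fn n m) xs = X at *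
    generalize ((Vn m w T (cut (w + T + T) xs)).card : ℝ) = v at *
    generalize ((Wn n w T ∪ Fn n m).card : ℝ) = U at *
    generalize ((Fn n m).card : ℝ) = M at *
    have hT0 : (0 : ℝ) < T := by linarith
    have hv : 0 < v := by linarith
    have hU0 : 0 < U := by linarith
    have h6 := Real.log_le_sub_one_of_pos (show 0 < (T + X) / (10 * M / T) by positivity)
    have h7 : Real.log (T / U) + Real.log (T / 10) ≤
        Real.log (T / v) + Real.log ((T + X) / (10 * M / T)) := by
      rw [← Real.log_mul (by positivity) (by positivity),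
        ← Real.log_mul (by positivity) (by positivity)]
      refine Real.log_le_log (by positivity) ?_
      calc T / U * (T / 10) ≤ T / M * (T / 10) := by gcongr
        _ = T / v * (v / (10 * M / T)) := by field_simp
        _ ≤ _ := by gcongr
    nlinarith
  by_cases h1 : hit w xs
  · have h3 : ((Vn m w T (cut (w + T + T) xs)).card : ℝ) ≤ (Wn n w T ∪ Fn n m).card := by
      exact_mod_cast card_le_card (union_subset_union_right (filter_subset _ _))
    have h4 := hP (cut (w + T + T) xs)
    have h5 := hV (cut (w + T + T) xs)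
    have h6 : Real.log (T / (Wn n w T ∪ Fn n m).card)
        ≤ Real.log (T / (Vn m w T (cut (w + T + T) xs)).card) := by
      refine Real.log_le_log (div_pos (by linarith) (by linarith)) ?_
      exact div_le_div_of_nonneg_left (by linarith) (by linarith) h3
    simp only [ind, h1, h2, if_true, if_false, one_mul, mul_zero]
    nlinarith
  · have h3 := psi_lower (W := Wn n w T) (V := Wn n w T ∪ Fn n m) subset_union_left
      (Lab A m (cut w xs))
    rw [card_Wn hm] at h3
    simp only [ind, h1, h2, if_false, zero_mul, mul_zero]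
    unfold Ini
    nlinarith

lemma window (A : Alg n a k) {m w T : ℕ} (hm : w + T + T ≤ m) (hn : m ≤ n) (hT : 10 ≤ T)
    (hM : T * T ≤ (Fn n m).card) (N : ℕ)
    (hq : 1 / 2 ≤ Ex (step A f0) N [] fun xs => ind (hit n xs)) :
    T / 2 * Real.log (T / 10) - 2 * 2 ^ k ≤
      2 * 2 ^ k * Ex (step A f0) N [] (steps w (w + T + T)) := by
  have hT' : (10 : ℝ) ≤ T := by exact_mod_cast hT
  have hM' : (T : ℝ) * T ≤ (Fn n m).card := by exact_mod_cast hM
  have h1 := drift A (m := m) (w := w) (T := T) (e := w + T + T) (by omega) (by omega) N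
  have h2 := ini_le A (m := m) (w := w) (T := T) (by omega) N
  rw [card_Wn (by omega)] at h2
  have h3 := Ex_mono (step_nonneg A f0) N []
    ((fun _ => T * Real.log (T / (Wn n w T ∪ Fn n m).card)) - Ini A m w T +
      (T : ℝ) • ((Real.log (T / 10) + 1) • (fun xs => ind (hit (w + T + T) xs)) -
        (1 / (10 * (Fn n m).card / T) : ℝ) • ((fun _ => (T : ℝ)) + ucnt (w + T) (w + T + T) (Fn n m))))
    _ fun xs => le_trans (le_of_eq (by
      simp only [Pi.add_apply, Pi.sub_apply, Pi.smul_apply, smul_eq_mul]; ring))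
      (gain_ge A (by omega) hT hM xs)
  simp only [map_add, map_sub, map_smul, Ex_const (step_sum A f0), smul_eq_mul] at h3
  have h4 := hq.trans (Ex_mono (step_nonneg A f0) N [] _ (fun xs => ind (hit (w + T + T) xs))
    fun xs => by
      have := hit_mono (show w + T + T ≤ n by omega) (xs := xs)
      unfold ind
      split_ifs <;> first | (exfalso; tauto) | norm_num)
  have h5 := ucnt_bound A N (w + T) (Fn n m) (by nlinarith) T fun j hj => by
    simp only [Fn, mem_filter] at hj; omega
  generalize Ex (step A f0) N [] (ucnt (w + T) (w + T + T) (Fn n m)) = u at *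
  generalize (Ex (step A f0) N [] fun xs => ind (hit (w + T + T) xs)) = q at *
  generalize ((Fn n m).card : ℝ) = M at *
  have hM0 : 0 < M := by nlinarith
  have hT0 : (0 : ℝ) < T := by linarith
  have h6 : T ≤ M / T := by rwa [le_div_iff₀ hT0]
  have h7 : u ≤ 4 * (M / T) := by
    rcases h5 with h5 | h5
    · linarith
    · refine h5.trans ?_
      rw [← mul_div_assoc]
      gcongr
      linarith
  have h8 : 1 / (10 * M / T) * (T + u) ≤ 1 / 2 := by
    rw [mul_div_assoc, one_div_mul_eq_div, div_le_iff₀ (by positivity)]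
    linarith
  have h9 : 0 ≤ Real.log (T / 10) := Real.log_nonneg (by linarith)
  have h10 : Real.log (T / 10) / 2 ≤ (Real.log (T / 10) + 1) * q - 1 / (10 * M / T) * (T + u) := by
    nlinarith
  nlinarith [mul_le_mul_of_nonneg_left h10 hT0.le]

lemma steps_sum (d R : ℕ) (xs : List (Fin n → Bool)) :
    ∑ r ∈ range R, steps (d * r) (d * (r + 1)) xs ≤ xs.length := by
  unfold steps
  rw [sum_comm]
  refine le_trans (sum_le_sum fun s _ => (?_ : _ ≤ (1 : ℝ))) (by simp)
  have : ∀ r, ind (hit (d * r) (xs.take s) ∧ ¬hit (d * (r + 1)) (xs.take s)) =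
      ind (hit (d * r) (xs.take s)) - ind (hit (d * (r + 1)) (xs.take s)) := fun r => by
    have := hit_mono (show d * r ≤ d * (r + 1) by nlinarith) (xs := xs.take s)
    unfold ind
    split_ifs <;> first | (exfalso; tauto) | norm_num
  simp only [this]
  rw [sum_range_sub' (fun r => ind (hit (d * r) (xs.take s)))]
  linarith [ind_le_one (hit (d * 0) (xs.take s)), ind_nonneg (hit (d * R) (xs.take s))]

lemma windows (A : Alg n a k) {m T R : ℕ} (hm : 2 * T * R ≤ m) (hn : m ≤ n) (hT : 10 ≤ T)
    (hM : T * T ≤ (Fn n m).card) (N : ℕ)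
    (hq : 1 / 2 ≤ Ex (step A f0) N [] fun xs => ind (hit n xs)) :
    R * (T / 2 * Real.log (T / 10) - 2 * 2 ^ k) ≤ 2 * 2 ^ k * N := by
  have h1 : ∑ r ∈ range R, (T / 2 * Real.log (T / 10) - 2 * 2 ^ k) ≤ ∑ r ∈ range R,
      2 * 2 ^ k * Ex (step A f0) N [] (steps (2 * T * r) (2 * T * (r + 1))) := by
    refine sum_le_sum fun r hr => ?_
    have e : 2 * T * (r + 1) = 2 * T * r + T + T := by ring
    have : 2 * T * (r + 1) ≤ 2 * T * R := Nat.mul_le_mul_left _ (mem_range.1 hr)
    rw [e]
    exact window A (by omega) hn hT hM N hq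
  rw [sum_const, card_range, nsmul_eq_mul, ← mul_sum, ← map_sum] at h1
  refine h1.trans (mul_le_mul_of_nonneg_left ?_ (by positivity))
  rw [← Ex_const (step_sum A f0) N [] (N : ℝ)]
  refine Ex_mono' (step_nonneg A f0) N [] _ _ fun zs hz => ?_
  rw [Finset.sum_apply, List.nil_append, ← hz]
  exact steps_sum _ _ zs

lemma miss_half (A : Alg n a k) (hn : 20000 ≤ n) (hk : (2 : ℝ) ^ k ≤ Real.log n) (N : ℕ)
    (hN : (N : ℝ) < n * Real.log n / (384 * 2 ^ k)) : 1 / 2 ≤ miss A f0 N [] := by
  refine le_trans ?_ (miss_ge A N [])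
  by_contra hq
  have hq' : 1 / 2 ≤ Ex (step A f0) N [] fun xs => ind (hit n xs) := by
    unfold ind; linarith
  obtain ⟨T, hT⟩ : ∃ T, T = Nat.sqrt (n / 2) := ⟨_, rfl⟩
  have t1 : T * T ≤ n / 2 := hT ▸ Nat.sqrt_le _
  have t2 : n / 2 < (T + 1) * (T + 1) := hT ▸ Nat.lt_succ_sqrt _
  have t3 : 100 ≤ T := hT ▸ Nat.le_sqrt.2 (by omega)
  obtain ⟨R, hR⟩ : ∃ R, R = n / 2 / (2 * T) := ⟨_, rfl⟩
  have r1 : 2 * T * R ≤ n / 2 := hR ▸ Nat.mul_div_le _ _
  have r2 : n / 2 < 2 * T * (R + 1) := hR ▸ Nat.lt_mul_div_succ _ (by omega)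
  have h := windows A r1 (Nat.div_le_self _ _) (by omega) (by rw [card_Fn]; omega) N hq'
  have r3 : n ≤ 8 * (R * T) := by
    have : 100 * T ≤ T * T := Nat.mul_le_mul_right _ t3
    have e : 2 * T * (R + 1) = 2 * (R * T) + 2 * T := by ring
    omega
  have t4 : n ≤ T ^ 3 := by
    have : n ≤ 2 * ((T + 1) * (T + 1)) := by omega
    nlinarith
  have hT' : (100 : ℝ) ≤ T := by exact_mod_cast t3
  have l1 : Real.log n ≤ 3 * Real.log T := by
    have := Real.log_le_log (by positivity : (0 : ℝ) < n) (show (n : ℝ) ≤ T ^ 3 by exact_mod_cast t4)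
    rwa [Real.log_pow] at this
  have l2 : Real.log T ≤ 2 * Real.log (T / 10) := by
    have := Real.log_le_log (by positivity : (0 : ℝ) < T) (show (T : ℝ) ≤ (T / 10) ^ 2 by nlinarith)
    rwa [Real.log_pow] at this
  have hK : (0 : ℝ) < 2 ^ k := by positivity
  rw [lt_div_iff₀ (by positivity)] at hN
  have r4 : (n : ℝ) ≤ 8 * (R * T) := by exact_mod_cast r3
  have hR0 : (0 : ℝ) ≤ R := Nat.cast_nonneg R
  have l3 : T * Real.log n / 24 ≤ T / 2 * Real.log (T / 10) - 2 * 2 ^ k := by nlinarith
  have l4 := mul_le_mul_of_nonneg_left l3 hR0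
  have l5 := mul_le_mul_of_nonneg_right r4 (hK.le.trans hk)
  nlinarith

theorem main (A : Alg n a k) (hn : 20000 ≤ n) (hk : (2 : ℝ) ^ k ≤ Real.log n)
    (z : Fin n → Bool) (σ : Equiv.Perm (Fin n)) :
    ENNReal.ofReal (1 / 768 * (n * Real.log n / 2 ^ k)) ≤ expTime A (LO z σ) := by
  set N := ⌈n * Real.log n / (384 * 2 ^ k)⌉₊ with hN
  refine le_trans ?_ (ENNReal.sum_le_tsum (range N))
  refine le_trans ?_ (sum_le_sum (f := fun _ => ENNReal.ofReal (1 / 2)) fun t ht => ?_)
  · rw [sum_const, card_range, nsmul_eq_mul, ← ENNReal.ofReal_natCast,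
      ← ENNReal.ofReal_mul (by positivity)]
    refine ENNReal.ofReal_le_ofReal ?_
    have := Nat.le_ceil (n * Real.log n / (384 * 2 ^ k))
    rw [← hN] at this
    calc 1 / 768 * (n * Real.log n / 2 ^ k) = n * Real.log n / (384 * 2 ^ k) * (1 / 2) := by
          field_simp; ring
      _ ≤ _ := by gcongr
  · rw [miss_eq]
    exact ENNReal.ofReal_le_ofReal (miss_half A hn hk t (Nat.lt_ceil.1 (mem_range.1 ht)))

end Pool.Agent.P.MP_5c258a_lc
end
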