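import Pool.Agent.K.MP_5c258a_lc.C6
import Pool.Agent.K.MP_5c258a_lc.C5
import Pool.Agent.K.MP_5c258a_lc.C4

-- part Pool.Agent.P.MP_5c258a_lc.Bin.MainB
section

/-! The main family of plans: validity and gains. -/

namespace Pool.Agent.P.MP_5c258a_lc.Bin

open Finset Classical

variable {n r : ℕ} {tr : Tr n} {N : Finset (Fin n)}

lemma Ctx.lo_lLo {W : Fin (pL r) → Fin n} {τ a k : ℕ} {Tm : ℕ → ℕ} (h : Ctx r tr N W τ a k Tm)
    (κ : Fin 5) (i : ℕ) : τ ≤ lLo τ Tm κ i := by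
  fin_cases κ
  exacts [h.lo _, h.lo _, h.lo _, le_rfl, le_rfl]

lemma Ctx.lLo_lHi {W : Fin (pL r) → Fin n} {τ a k : ℕ} {Tm : ℕ → ℕ} (h : Ctx r tr N W τ a k Tm)
    (κ : Fin 5) (i : ℕ) : lLo τ Tm κ i ≤ lHi Tm κ i := by
  fin_cases κ
  exacts [h.anti (Nat.sub_le i 1), h.anti (Nat.le_succ i), h.anti (Nat.le_succ i), h.lo _, h.lo _]

lemma Ctx.lHi_le {W : Fin (pL r) → Fin n} {τ a k : ℕ} {Tm : ℕ → ℕ} (h : Ctx r tr N W τ a k Tm)
    (κ : Fin 5) (i : ℕ) : lHi Tm κ i ≤ Tm 0 := by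
  fin_cases κ <;> exact h.anti (Nat.zero_le _)

section

variable {col : ℕ → Fin (pL r) → Fin n} {t0 te : ℕ} {τ : Fin (pJ r) → ℕ}
  {Tm : Fin (pJ r) → Fin (pK r + 1) → ℕ → ℕ} {a : Fin (pJ r) → Fin (pK r + 1) → ℕ}
  {smp : Fin (pJ r) → Fin (pK r + 1) → ℕ → Fin (pN r) → Option (ℕ × ℕ)}
  {lab : Fin (pJ r) → Fin (pK r + 1) → Fin (pL r) → Option (Fin 5 × ℕ)}
  {sch : ME r → MLab r} {w0 : Fin (pJ r) × Fin (pK r + 1) × Fin (pK r + 1) → Fin 5 → ℕ}

lemma mk_q (h : tr.WF) {e : ME r} {x : Fin 5 × Fin (pK r + 1)} (he : sch e = some x)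
    (hs : ∀ j y, smp e.1.1 e.2 x.2 j = some y → y.2 ≤ τ e.1.1) {w : ℕ} (hw : τ e.1.1 < w) :
    (mkPlan r N col t0 te τ Tm (fun y j => (smp y.1 y.2.1 y.2.2 j).map Prod.snd) sch).q tr
      (fun kk => flA r tr N (τ kk.1.1) (Tm kk.1.1 kk.1.2.1) kk.1.2.2 kk.2)
      (fun kk => flZ (smp kk.1.1 kk.1.2.1 kk.1.2.2) (w0 kk.1) kk.2) e w =
    lQ r tr N (τ e.1.1) (Tm e.1.1 e.2) (smp e.1.1 e.2 x.2) (w0 (e.1.1, e.2, x.2) x.1) x.1 x.2
      (col e.1.1 e.1.2) w := by
  rw [← omK_dot r h N _ _ _ _ hs (w0 (e.1.1, e.2, x.2)) hw]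
  simp only [Plan.q, mkPlan, he, Option.elim]
  rw [Fintype.sum_prod_type, sum_eq_single (e.1.1, e.2, x.2)]
  · simp
  · intro y _ hy
    simp [hy]
  · simp

theorem mk_valid (hr : 0 < r) (h : tr.WF) (h0 : t0 ≤ te) (hτ : ∀ j, t0 ≤ τ j)
    (ha : ∀ j k, a j k ≤ te) (hz : ∀ j k i jj, sz (smp j k i jj) ≤ te) (hw : ∀ y κ, w0 y κ ≤ te)
    (hl : ∀ e x, sch e = some x → Ctx r tr N (col e.1.1) (τ e.1.1) (a e.1.1 e.2) e.2 (Tm e.1.1 e.2)
      ∧ Loc r tr N (col e.1.1) (τ e.1.1) (a e.1.1 e.2) e.2 (Tm e.1.1 e.2) (smp e.1.1 e.2)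
        (lab e.1.1 e.2) ∧ lab e.1.1 e.2 e.1.2 = some (x.1, (x.2 : ℕ)))
    (inj : ∀ b b' : Fin (pJ r) × Fin (pL r), col b.1 b.2 = col b'.1 b'.2 → b = b')
    (hd : ∀ b k k' x x', k' < k → sch (b, k) = some x → sch (b, k') = some x' →
      lHi (Tm b.1 k') x'.1 x'.2 ≤ lLo (τ b.1) (Tm b.1 k) x.1 x.2) :
    (mkPlan r N col t0 te τ Tm (fun y j => (smp y.1 y.2.1 y.2.2 j).map Prod.snd) sch).Valid
      (pH r) tr (fun kk => flA r tr N (τ kk.1.1) (Tm kk.1.1 kk.1.2.1) kk.1.2.2 kk.2)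
      (fun kk => flZ (smp kk.1.1 kk.1.2.1 kk.1.2.2) (w0 kk.1) kk.2) ∧
    ∀ e, (mkPlan r N col t0 te τ Tm (fun y j => (smp y.1 y.2.1 y.2.2 j).map Prod.snd) sch).gain tr
      (fun kk => flA r tr N (τ kk.1.1) (Tm kk.1.1 kk.1.2.1) kk.1.2.2 kk.2)
      (fun kk => flZ (smp kk.1.1 kk.1.2.1 kk.1.2.2) (w0 kk.1) kk.2) e =
      (sch e).elim 0 fun x => lGain r tr N (τ e.1.1) (Tm e.1.1 e.2) (smp e.1.1 e.2 x.2)
        (w0 (e.1.1, e.2, x.2) x.1) x.1 x.2 (col e.1.1 e.1.2) := by
  have hH : 1 ≤ pH r := Nat.one_le_iff_ne_zero.2 (by unfold pH pR; positivity)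
  have hq : ∀ e x, sch e = some x → ∀ w ∈ Ioc (lLo (τ e.1.1) (Tm e.1.1 e.2) x.1 x.2)
      (lHi (Tm e.1.1 e.2) x.1 x.2), _ = _ := fun e x he w hw =>
    mk_q (N := N) (col := col) (t0 := t0) (te := te) (Tm := Tm) (smp := smp) (w0 := w0) h he
      (fun j y hy => ((hl e x he).2.1.le _ j y hy).2)
      (lt_of_le_of_lt ((hl e x he).1.lo_lLo x.1 x.2) (mem_Ioc.1 hw).1)
  refine ⟨⟨h0, fun e => ?_, fun e => ?_, fun e => ?_, fun kk => ?_, ?_, ?_, fun e => ?_,
    fun e w _ kk => ?_, fun e w _ => ?_, fun e => ?_⟩, fun e => ?_⟩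
  · cases he : sch e with
    | none => simp [mkPlan, he]
    | some x => simpa [mkPlan, he] using (hτ _).trans ((hl e x he).1.lo_lLo x.1 x.2)
  · cases he : sch e with
    | none => simp [mkPlan, he]
    | some x => simpa [mkPlan, he] using (hl e x he).1.lLo_lHi x.1 x.2
  · cases he : sch e with
    | none => simpa [mkPlan, he] using h0
    | some x =>
      simpa [mkPlan, he] using ((hl e x he).1.lHi_le x.1 x.2).trans ((hl e x he).1.top.trans (ha _ _))
  · rcases kk with ⟨y, x | κ⟩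
    · exact hz _ _ _ _
    · exact hw _ _
  · refine le_trans (card_le_card (t := univ.image fun b : Fin (pJ r) × Fin (pL r) => col b.1 b.2)
      fun c hc => ?_) (card_image_le.trans ?_)
    · obtain ⟨e, -, rfl⟩ := mem_image.1 hc
      exact mem_image.2 ⟨e.1, mem_univ _, rfl⟩
    · rw [card_univ, Fintype.card_prod, Fintype.card_fin, Fintype.card_fin, pL,
        pow_succ' _ 80, pJ]
      exact Nat.mul_le_mul_right _ (Nat.div_le_self _ _)
  · rintro ⟨b, k⟩ ⟨b', k'⟩ hne hc w hw hw'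
    obtain rfl : b = b' := inj b b' hc
    cases he : sch (b, k) with
    | none => simp [mkPlan, he] at hw
    | some x =>
      cases he' : sch (b, k') with
      | none => simp [mkPlan, he'] at hw'
      | some x' =>
        simp only [mkPlan, he, he', Option.elim, mem_Ioc] at hw hw'
        rcases lt_trichotomy k' k with hk | hk | hk
        · have := hd b k k' x x' hk he he'
          omega
        · exact hne (by rw [hk])
        · have := hd b k' k x' x hk he' he
          omega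
  · cases he : sch e with
    | none =>
      simp only [mkPlan, he, Option.elim]
      exact div_le_one_of_le₀ (by exact_mod_cast hH) (Nat.cast_nonneg _)
    | some x => simpa [mkPlan, he] using ((hl e x he).2.1.lev _ _ _ (hl e x he).2.2).2.1
  · cases he : sch e with
    | none => simp [mkPlan, he]
    | some x =>
      simp only [mkPlan, he, Option.elim]
      split_ifs
      · exact omK_nonneg _ _ _ _ _ _ _ _ _ _
      · exact le_rfl
  · cases he : sch e with
    | none => simp [mkPlan, he]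
    | some x =>
      simp only [mkPlan, he, Option.elim]
      rw [Fintype.sum_prod_type, sum_eq_single (e.1.1, e.2, x.2)]
      · simpa using omK_sum _ _ _ _ _ _ _ _ _
      · intro y _ hy
        simp [hy]
      · simp
  · cases he : sch e with
    | none =>
      simp only [mkPlan, he, Option.elim]
      intro w hw
      simp at hw
    | some x =>
      have := Cond_congr tr _ _ _ (hq e x he) ((hl e x he).2.1.cond _ _ _ _ (hl e x he).2.2)
      simpa only [mkPlan, he, Option.elim] using this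
  · cases he : sch e with
    | none => simp [Plan.gain, mkPlan, he, gainOf, Tr.XX, Tr.QQ]
    | some x =>
      have h1 := XX_congr tr (col e.1.1 e.1.2) le_rfl (hq e x he)
      have h2 := QQ_congr tr (col e.1.1 e.1.2) (hq e x he)
      simp only [Option.elim, lGain, ← h1, ← h2]
      simp only [Plan.gain, mkPlan, he, Option.elim]

end

end Pool.Agent.P.MP_5c258a_lc.Bin
end

-- part Pool.Agent.P.MP_5c258a_lc.Bin.StepB
section

/-! Task STEP, auxiliary file: modes, grid, index payment. -/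

namespace Pool.Agent.P.MP_5c258a_lc.Bin.SB

open Finset Classical

theorem abs_sum_le {K : Type} [Fintype K] {om f b : K → ℝ} {α β : ℝ} (om0 : ∀ k, 0 ≤ om k)
    (om1 : ∑ k, om k ≤ 1) (hβ : 0 ≤ β) (h : ∀ k, |f k| ≤ α * b k + β) :
    |∑ k, om k * f k| ≤ α * ∑ k, om k * b k + β := by
  refine (abs_sum_le_sum_abs _ _).trans ?_
  have h1 : ∑ k, |om k * f k| ≤ ∑ k, (α * (om k * b k) + β * om k) := by
    refine sum_le_sum fun k _ => ?_
    rw [abs_mul, abs_of_nonneg (om0 k)]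
    nlinarith [mul_le_mul_of_nonneg_left (h k) (om0 k)]
  rw [sum_add_distrib, ← mul_sum, ← mul_sum] at h1
  nlinarith

theorem modes_gen {K : Type} [Fintype K] {om b d v : K → ℝ} {S a g t κ ε η θ' : ℝ}
    (om0 : ∀ k, 0 ≤ om k) (om1 : ∑ k, om k ≤ 1) (b0 : ∀ k, 0 ≤ b k) (k0 : 0 < κ) (k1 : κ ≤ 1)
    (e0 : 0 ≤ ε) (h0 : 0 ≤ η) (t0 : 0 ≤ θ') (acc : ∀ k, |b k - S * d k| ≤ ε * κ * b k + 2 * (η * κ))
    (hv : ∀ k, |v k - (S * d k + (b k - S * d k) / κ)| ≤ θ') (hS : (1 - t) * a + t * g = S) :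
    |∑ k, om k * b k - S * ∑ k, om k * d k| ≤ ε * ∑ k, om k * b k + 2 * η ∧
    |∑ k, om k * v k - ∑ k, om k * b k| ≤ ε * ∑ k, om k * b k + (θ' + 2 * η) ∧
    |(1 - κ) * (1 - t) * (a * ∑ k, om k * d k) + (1 - κ) * t * (g * ∑ k, om k * d k) +
      κ * ∑ k, om k * v k - ∑ k, om k * b k| ≤ θ' := by
  refine ⟨?_, ?_, ?_⟩
  · have e : ∑ k, om k * b k - S * ∑ k, om k * d k = ∑ k, om k * (b k - S * d k) := by
      rw [mul_sum, ← sum_sub_distrib]; exact sum_congr rfl fun k _ => by ring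
    rw [e]
    refine abs_sum_le om0 om1 (by positivity) fun k => (acc k).trans ?_
    nlinarith [mul_nonneg e0 (b0 k)]
  · have e : ∑ k, om k * v k - ∑ k, om k * b k = ∑ k, om k * (v k - b k) := by
      rw [← sum_sub_distrib]; exact sum_congr rfl fun k _ => by ring
    rw [e]
    refine abs_sum_le om0 om1 (by positivity) fun k => ?_
    set u := (b k - S * d k) / κ with hu
    have e1 : b k - S * d k = κ * u := by rw [hu]; field_simp
    have a1 : |u| ≤ ε * b k + 2 * η := by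
      have := acc k
      rw [e1, abs_mul, abs_of_pos k0] at this
      exact le_of_mul_le_mul_left (by linarith) k0
    have e2 : v k - b k = (v k - (S * d k + u)) + (1 - κ) * u := by linarith
    rw [e2]
    refine (abs_add_le _ _).trans ?_
    rw [abs_mul, abs_of_nonneg (by linarith : 0 ≤ 1 - κ)]
    nlinarith [hv k, abs_nonneg u]
  · have e : (1 - κ) * (1 - t) * (a * ∑ k, om k * d k) + (1 - κ) * t * (g * ∑ k, om k * d k) +
        κ * ∑ k, om k * v k - ∑ k, om k * b k =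
        ∑ k, om k * (κ * (v k - (S * d k + (b k - S * d k) / κ))) := by
      have e1 : (1 - κ) * (1 - t) * (a * ∑ k, om k * d k) + (1 - κ) * t * (g * ∑ k, om k * d k) =
          (1 - κ) * S * ∑ k, om k * d k := by rw [← hS]; ring
      rw [e1, mul_sum, mul_sum, ← sum_add_distrib, ← sum_sub_distrib]
      exact sum_congr rfl fun k _ => by field_simp; ring
    rw [e]
    have := abs_sum_le (b := b) (α := 0) (f := fun k => κ * (v k - (S * d k + (b k - S * d k) / κ)))
      om0 om1 t0 fun k => by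
        rw [abs_mul, abs_of_pos k0]; nlinarith [hv k, abs_nonneg (v k - (S * d k + (b k - S * d k) / κ))]
    linarith

theorem exists_round (N M : ℕ) (hN : 0 < N) {y : ℝ} (h0 : -1 ≤ y) (h1 : (y + 1) * N ≤ M) :
    ∃ B : Fin (M + 1), |((B : ℕ) : ℝ) / N - 1 - y| ≤ 1 / N := by
  have N0 : (0 : ℝ) < N := by exact_mod_cast hN
  have p0 : 0 ≤ (y + 1) * N := mul_nonneg (by linarith) N0.le
  refine ⟨⟨⌊(y + 1) * N⌋₊, Nat.lt_succ_of_le (Nat.floor_le_of_le h1)⟩, ?_⟩
  have a1 := Nat.floor_le p0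
  have a2 := Nat.lt_floor_add_one ((y + 1) * N)
  have e : ((⌊(y + 1) * N⌋₊ : ℕ) : ℝ) / N - 1 - y = (⌊(y + 1) * N⌋₊ - (y + 1) * N) / N := by
    field_simp; ring
  simp only
  rw [e, abs_div, abs_of_pos N0]
  exact div_le_div_of_nonneg_right (abs_le.2 ⟨by linarith, by linarith⟩) N0.le

theorem grid_pos {H : ℕ} (hH : 0 < H) (j : ℕ) : 0 < grid H j := by
  unfold grid; positivity

theorem grid_add (H j i : ℕ) : grid H j = (1 + 1 / 300000) ^ i * grid H (j + i) := by
  unfold grid; rw [pow_add]; field_simp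

theorem grid_last {H : ℕ} (hH : 0 < H) : grid H (eJ H) ≤ 1 / (H : ℝ) ^ 42 := by
  have H0 : (0 : ℝ) < H := by exact_mod_cast hH
  have b := one_add_mul_le_pow (a := (1 / 300000 : ℝ)) (by norm_num) (eJ H)
  have e : ((eJ H : ℕ) : ℝ) * (1 / 300000) = (H : ℝ) ^ 47 := by unfold eJ; push_cast; ring
  rw [e] at b
  unfold grid
  generalize (1 + 1 / 300000 : ℝ) ^ eJ H = Z at b
  have Z0 : 0 < Z := lt_of_lt_of_le (by positivity) b
  rw [div_le_div_iff₀ Z0 (by positivity)]
  have : (H : ℝ) ^ 5 * H ^ 42 = H ^ 47 := by ring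
  linarith

theorem pay_nonneg {F p : ℝ} (hF : 0 ≤ F) (p0 : 0 ≤ p) (p1 : p ≤ 1) : 0 ≤ pay F p := by
  have : 0 ≤ min F 6 := le_min hF (by norm_num)
  have : 0 ≤ 1 - p := by linarith
  unfold pay; positivity

theorem pay_le_sq {F p : ℝ} (hF : 0 ≤ F) (p0 : 0 ≤ p) (p1 : p ≤ 1) : pay F p ≤ F ^ 2 := by
  have h1 : 0 ≤ min F 6 := le_min hF (by norm_num)
  have h2 : F * min F 6 ≤ F ^ 2 := by nlinarith [min_le_left F 6]
  have h3 : p * (1 - p) ≤ 1 := by nlinarith
  unfold pay
  nlinarith [mul_nonneg hF h1]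

theorem pay_mul_ge {F p r : ℝ} (hF : 0 ≤ F) (p0 : 0 ≤ p) (p1 : p ≤ 1) (hr : 1 ≤ r) :
    r * pay F p ≤ pay (r * F) p := by
  have h1 : min F 6 ≤ min (r * F) 6 := min_le_min_right _ (by nlinarith)
  have h2 : 0 ≤ p * (1 - p) := mul_nonneg p0 (by linarith)
  have := mul_le_mul_of_nonneg_left h1 (show 0 ≤ p * (1 - p) * (r * F) by positivity)
  unfold pay; linarith

theorem pay_mul_le {F p r : ℝ} (hF : 0 ≤ F) (p0 : 0 ≤ p) (p1 : p ≤ 1) (hr : 1 ≤ r) :
    pay (r * F) p ≤ r ^ 2 * pay F p := by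
  have h1 : min (r * F) 6 ≤ r * min F 6 := by
    rcases le_total F 6 with h | h
    · rw [min_eq_left h]; exact min_le_left _ _
    · rw [min_eq_right h]; exact (min_le_right _ _).trans (by linarith)
  have h2 : 0 ≤ p * (1 - p) := mul_nonneg p0 (by linarith)
  have := mul_le_mul_of_nonneg_left h1 (show 0 ≤ p * (1 - p) * (r * F) by positivity)
  unfold pay; linarith

theorem index_cost {γ : ℝ} (hγ : 0 < γ) :
    ∃ A : ℝ, 0 ≤ A ∧ ∀ i : ℕ, Real.log ((i + 1 + 1 : ℝ) * (i + 1 + 2)) ≤ γ * i + A := by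
  refine ⟨3 * γ + 2 * |Real.log (γ / 2)|, by positivity, fun i => ?_⟩
  have i0 : (0 : ℝ) ≤ i := Nat.cast_nonneg i
  have h1 : Real.log ((i + 1 + 1 : ℝ) * (i + 1 + 2)) ≤ 2 * Real.log (i + 3) := by
    have := Real.log_le_log (by positivity)
      (show (i + 1 + 1 : ℝ) * (i + 1 + 2) ≤ (i + 3) ^ 2 by nlinarith)
    rw [Real.log_pow] at this
    exact_mod_cast this
  have h2 := Real.log_le_sub_one_of_pos (show 0 < γ / 2 * (i + 3) by positivity)
  rw [Real.log_mul (by positivity) (by positivity)] at h2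
  linarith [neg_abs_le (Real.log (γ / 2))]

/-- If the grid value one step above the reference was not admissible, the gains of case U pay
for the index. -/
theorem index_pay {E : Type} (s : Finset E) (F0 p l l1 c : E → ℝ) {r : ℝ} (hr : 1 ≤ r)
    (hF : ∀ e ∈ s, 0 ≤ F0 e) (p0 : ∀ e ∈ s, 0 ≤ p e) (p1 : ∀ e ∈ s, p e ≤ 1)
    (hl : ∀ e ∈ s, 0 < l e) (hl1 : ∀ e ∈ s, l e ≤ l1 e)
    (cap : ∀ e ∈ s, r * F0 e * c e ≤ 3 * l1 e)
    (h : 1 < ∑ e ∈ s, pay (F0 e / l e) (p e) ∨ ∃ e ∈ s, 3 * l e < F0 e * c e) :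
    Real.log r ≤ 3 * ∑ e ∈ s, (pay (r * F0 e / l1 e) (p e) + Real.log (l1 e / l e)) := by
  have r0 : 0 < r := by linarith
  have hρ : ∀ e ∈ s, 1 ≤ l1 e / l e := fun e he => by
    rw [le_div_iff₀ (hl e he)]; linarith [hl1 e he]
  have hF1 : ∀ e ∈ s, 0 ≤ r * F0 e / l1 e := fun e he =>
    div_nonneg (mul_nonneg r0.le (hF e he)) ((hl e he).le.trans (hl1 e he))
  have hp : ∀ e ∈ s, 0 ≤ pay (r * F0 e / l1 e) (p e) := fun e he =>
    pay_nonneg (hF1 e he) (p0 e he) (p1 e he)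
  set T := ∑ e ∈ s, (pay (r * F0 e / l1 e) (p e) + Real.log (l1 e / l e)) with hT
  have hnn : ∀ e ∈ s, 0 ≤ pay (r * F0 e / l1 e) (p e) + Real.log (l1 e / l e) := fun e he =>
    add_nonneg (hp e he) (Real.log_nonneg (hρ e he))
  have T0 : 0 ≤ T := sum_nonneg hnn
  have hone : ∀ e ∈ s, Real.log (l1 e / l e) ≤ T := fun e he => by
    have := single_le_sum hnn he
    linarith [hp e he]
  rcases h with h | ⟨e, he, h⟩
  · have a1 : ∀ e ∈ s, r * pay (F0 e / l e) (p e) ≤
        Real.exp (2 * T) * pay (r * F0 e / l1 e) (p e) := by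
      intro e he
      have le := hl e he
      have l1e : 0 < l1 e := le.trans_le (hl1 e he)
      have b1 := pay_mul_ge (div_nonneg (hF e he) le.le) (p0 e he) (p1 e he) hr
      have b2 := pay_mul_le (hF1 e he) (p0 e he) (p1 e he) (hρ e he)
      have e1 : l1 e / l e * (r * F0 e / l1 e) = r * (F0 e / l e) := by field_simp
      rw [e1] at b2
      have b3 : (l1 e / l e) ^ 2 ≤ Real.exp (2 * T) := by
        have : l1 e / l e ≤ Real.exp T := (Real.log_le_iff_le_exp (by positivity)).1 (hone e he)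
        rw [show 2 * T = T + T by ring, Real.exp_add, sq]
        exact mul_le_mul this this (by positivity) (by positivity)
      exact b1.trans (b2.trans (mul_le_mul_of_nonneg_right b3 (hp e he)))
    have a2 := sum_le_sum a1
    rw [← mul_sum, ← mul_sum] at a2
    have a3 : ∑ e ∈ s, pay (r * F0 e / l1 e) (p e) ≤ T :=
      sum_le_sum fun e he => by linarith [Real.log_nonneg (hρ e he)]
    have a4 : T ≤ Real.exp T := by linarith [Real.add_one_le_exp T]
    have a5 : r ≤ Real.exp (3 * T) := by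
      rw [show 3 * T = 2 * T + T by ring, Real.exp_add]
      have := mul_le_mul_of_nonneg_left (a3.trans a4) (Real.exp_pos (2 * T)).le
      nlinarith
    exact (Real.log_le_iff_le_exp r0).2 a5
  · have a1 : r ≤ l1 e / l e := by
      rw [le_div_iff₀ (hl e he)]
      nlinarith [cap e he, mul_le_mul_of_nonneg_left h.le r0.le]
    linarith [Real.log_le_log r0 a1, hone e he]

theorem exists_ge_avg {π f : Fin 3 → ℝ} (h0 : ∀ m, 0 ≤ π m) (h1 : ∑ m, π m = 1) :
    ∃ m, ∑ m, π m * f m ≤ f m := by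
  obtain ⟨m, -, hm⟩ := exists_max_image univ f univ_nonempty
  refine ⟨m, ?_⟩
  have := sum_le_sum fun i (_ : i ∈ univ) => mul_le_mul_of_nonneg_left (hm i (mem_univ i)) (h0 i)
  rwa [← sum_mul, h1, one_mul] at this

theorem stepU (ty : Ty) (hA : StepU .A) (hH : StepU .H) : StepU ty := by
  cases ty
  exacts [hA, hH, stepU_L]

theorem stepD (ty : Ty) (hA : StepD .A) (hH : StepD .H) : StepD ty := by
  cases ty
  exacts [hA, hH, stepD_L]

variable {n : ℕ} {E K : Type} [Fintype E] [Fintype K]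

theorem card_act {H : ℕ} {P : Plan n E K} {tr : Tr n} {A : K → ℕ → Prop} {z : K → ℕ}
    (hV : P.Valid H tr A z) (w : ℕ) : (univ.filter fun e => P.act e w).card ≤ H ^ 81 := by
  refine le_trans (card_le_card_of_injOn P.col (fun e _ => mem_coe.2 (mem_image_of_mem _ (mem_univ e)))
    fun e he e' he' h => ?_) hV.cols
  by_contra hne
  exact hV.disj e e' hne h w (mem_filter.1 he).2 (mem_filter.1 he').2

omit [Fintype E] in
theorem pot_idle {P : Plan n E K} {tr : Tr n} {A : K → ℕ → Prop} {z : K → ℕ} {e : E} {w : ℕ}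
    (h : ¬P.act e w) (s : MS) : P.pot tr A z e s w = P.pot tr A z e s (w - 1) := by
  simp only [Plan.act, mem_Ioc, not_and_or, not_lt, not_le] at h
  have : Ioc (P.lo e) (min w (P.hi e)) = Ioc (P.lo e) (min (w - 1) (P.hi e)) := by
    ext x; simp only [mem_Ioc]; omega
  simp only [Plan.pot, Tr.XX, Tr.QQ, this]

theorem XX_succ (tr : Tr n) (q : ℕ → ℝ) (b : Fin n) {lo w : ℕ} (h : lo < w) :
    tr.XX q b lo w = tr.XX q b lo (w - 1) + q w * (bR (tr.c w b) - tr.pb w b) := by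
  obtain ⟨w, rfl⟩ : ∃ w', w = w' + 1 := ⟨w - 1, by omega⟩
  simp only [Tr.XX, Nat.add_sub_cancel]
  rw [sum_Ioc_succ_top (by omega)]
  rfl

theorem QQ_succ (tr : Tr n) (q : ℕ → ℝ) (b : Fin n) {lo w : ℕ} (h : lo < w) :
    tr.QQ q b lo w = tr.QQ q b lo (w - 1) +
      q w ^ 2 * ((bR (tr.c w b) - tr.pb w b) ^ 2 + tr.pb w b * (1 - tr.pb w b)) := by
  obtain ⟨w, rfl⟩ : ∃ w', w = w' + 1 := ⟨w - 1, by omega⟩
  simp only [Tr.QQ, Nat.add_sub_cancel]
  rw [sum_Ioc_succ_top (by omega)]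
  rfl

theorem tok_of {H : ℕ} {P : Plan n E K} {tr : Tr n} {A : K → ℕ → Prop} {z : K → ℕ}
    (hV : P.Valid H tr A z) {e : E} {w : ℕ} (h : P.act e w) {s : MS}
    (hL : P.ty e = .L → s.lam = P.lam e) :
    TOK (P.ty e) s (base (P.ty e) (P.lam e) + tr.XX (P.q tr A z e) (P.col e) (P.lo e) (w - 1))
      (P.q tr A z e w) (tr.pb w (P.col e)) (tr.c w (P.col e)) := by
  have hc := hV.cond e
  have hw := mem_Ioc.1 h
  have hs := XX_succ tr (P.q tr A z e) (P.col e) hw.1
  generalize P.ty e = ty at hc hL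
  cases ty
  · exact hc w h
  · obtain ⟨-, hc⟩ := hc
    obtain ⟨a1, a2, a3⟩ := hc w h
    have b : -2 ≤ tr.XX (P.q tr A z e) (P.col e) (P.lo e) (w - 1) ∧
        tr.XX (P.q tr A z e) (P.col e) (P.lo e) (w - 1) ≤ 1 := by
      by_cases h1 : P.lo e < w - 1
      · exact (hc (w - 1) (mem_Ioc.2 ⟨h1, by omega⟩)).2
      · simp only [Tr.XX]; rw [Ioc_eq_empty h1]; norm_num
    simp only [TOK, base]
    refine ⟨a1, ?_, ?_, ?_, ?_⟩ <;> linarith [b.1, b.2]
  · simp only [TOK]; rw [hL rfl]; exact hc w h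

end Pool.Agent.P.MP_5c258a_lc.Bin.SB
end

-- part Pool.Agent.P.MP_5c258a_lc.Bin.TypP
section

/-! Task TYP: typicality of a window by symmetrisation (paper section 1). -/

namespace Pool.Agent.P.MP_5c258a_lc.Bin

open Finset Classical

variable {n : ℕ}

/-- All queries before number `F` have fitness below `m`, and query `F` exists. -/
def TyLow (m F : ℕ) (xs : List (Fin n → Bool)) : Prop :=
  F < xs.length ∧ ∀ s < F, f0 (xs.getD s fun _ => false) < m

/-- A function of the queries `f, f'`, cut off outside `TyLow`. -/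
noncomputable def tyE (m F f f' : ℕ) (g : (Fin n → Bool) → (Fin n → Bool) → ℝ)
    (xs : List (Fin n → Bool)) : ℝ :=
  if TyLow m F xs then g (xs.getD f fun _ => false) (xs.getD f' fun _ => false) else 0

lemma ty_getD_append (ls zs : List (Fin n → Bool)) {s : ℕ} (h : s < ls.length) :
    (ls ++ zs).getD s (fun _ => false) = ls.getD s fun _ => false :=
  List.getD_append _ _ _ _ h

lemma ty_getD_map (τ : (Fin n → Bool) → Fin n → Bool) (ls : List (Fin n → Bool)) {s : ℕ}
    (h : s < ls.length) :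
    (ls.map τ).getD s (fun _ => false) = τ (ls.getD s fun _ => false) := by
  rw [List.getD_eq_getElem _ _ (by simpa using h), List.getD_eq_getElem _ _ h]
  simp

lemma tyE_sym (A : BAlg n) (t m F f f' : ℕ) (hf : f ≤ F) (hf' : f' ≤ F)
    (π : Equiv.Perm (Fin n)) (w : Fin n → Bool) (hτ : Function.Involutive (sp π w))
    (hfix : ∀ x (j : Fin n), j.val < m → sp π w x j = x j)
    (g : (Fin n → Bool) → (Fin n → Bool) → ℝ) :
    Ex (bstep A f0) t [] (tyE m F f f' fun x y => g (sp π w x) (sp π w y)) =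
      Ex (bstep A f0) t [] (tyE m F f f' g) := by
  have hlt : ∀ x, f0 (sp π w x) < m ↔ f0 x < m := fun x => by
    have := le_f0_congr (i := m) (x := x) (x' := sp π w x) (hfix x)
    omega
  have key := Ex_couple (bstep_sum A f0) f0 (sp π w) hτ
    (fun xs y h => bstep_sp A f0 f0 π w xs y h) (tyE m F f f' g) (fun ls hl zs => by
      obtain ⟨l, hl, hne⟩ := hl
      have hm : ¬f0 l < m := fun h => hne (f0_congr (hfix l) h)
      obtain ⟨i, hi, rfl⟩ := List.getElem_of_mem hl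
      by_cases hF : F < ls.length
      · have e : TyLow m F (ls ++ zs) ↔ TyLow m F ls := by
          unfold TyLow
          refine and_congr (by simp only [List.length_append]; omega) ?_
          refine forall_congr' fun s => forall_congr' fun hs => ?_
          rw [ty_getD_append ls zs (hs.trans hF)]
        unfold tyE
        rw [ty_getD_append ls zs (hf.trans_lt hF), ty_getD_append ls zs (hf'.trans_lt hF)]
        simp only [e]
      · have e1 : ¬TyLow m F ls := fun h => hF h.1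
        have e2 : ¬TyLow m F (ls ++ zs) := fun h => by
          have := h.2 i (by omega)
          rw [ty_getD_append ls zs hi, List.getD_eq_getElem _ _ hi] at this
          exact hm this
        unfold tyE
        rw [if_neg e1, if_neg e2]) t []
  rw [List.map_nil] at key
  rw [← key]
  congr 1
  funext zs
  have e : TyLow m F (zs.map (sp π w)) ↔ TyLow m F zs := by
    unfold TyLow
    rw [List.length_map]
    refine and_congr_right fun hF => ?_
    refine forall_congr' fun s => forall_congr' fun hs => ?_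
    rw [ty_getD_map _ zs (hs.trans hF), hlt]
  unfold tyE
  by_cases h : TyLow m F zs
  · rw [if_pos h, if_pos (e.2 h), ty_getD_map _ zs (hf.trans_lt h.1),
      ty_getD_map _ zs (hf'.trans_lt h.1)]
  · rw [if_neg h, if_neg fun h' => h (e.1 h')]

lemma tyE_mgf (A : BAlg n) (t m F f f' L : ℕ) (hf : f ≤ F) (hf' : f' ≤ F)
    (π : Fin L → Equiv.Perm (Fin n)) (w : Fin L → Fin n → Bool)
    (hτ : ∀ l, Function.Involutive (sp (π l) (w l)))
    (hfix : ∀ l x (j : Fin n), j.val < m → sp (π l) (w l) x j = x j)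
    (a : Fin L → (Fin n → Bool) → (Fin n → Bool) → ℝ)
    (ha1 : ∀ l x y, a l (sp (π l) (w l) x) (sp (π l) (w l) y) = -a l x y)
    (ha2 : ∀ l l' x y, l' ≠ l → a l' (sp (π l) (w l) x) (sp (π l) (w l) y) = a l' x y)
    (S : Finset (Fin L)) :
    Ex (bstep A f0) t [] (tyE m F f f' fun x y => ∏ l, Real.exp (a l x y)) =
      Ex (bstep A f0) t [] (tyE m F f f' fun x y =>
        ∏ l, if l ∈ S then Real.cosh (a l x y) else Real.exp (a l x y)) := by
  induction S using Finset.induction_on with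
  | empty => simp
  | insert l S hl ih =>
    rw [ih]
    have h := tyE_sym A t m F f f' hf hf' (π l) (w l) (hτ l) (hfix l) fun x y =>
        ∏ l', if l' ∈ S then Real.cosh (a l' x y) else Real.exp (a l' x y)
    have e : (tyE m F f f' fun x y =>
        ∏ l', if l' ∈ insert l S then Real.cosh (a l' x y) else Real.exp (a l' x y)) =
        (1 / 2 : ℝ) • ((tyE m F f f' fun x y =>
          ∏ l', if l' ∈ S then Real.cosh (a l' x y) else Real.exp (a l' x y)) +
          tyE m F f f' fun x y => ∏ l', if l' ∈ S then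
            Real.cosh (a l' (sp (π l) (w l) x) (sp (π l) (w l) y))
            else Real.exp (a l' (sp (π l) (w l) x) (sp (π l) (w l) y))) := by
      funext xs
      simp only [tyE, Pi.smul_apply, Pi.add_apply, smul_eq_mul]
      split_ifs
      · generalize xs.getD f (fun _ => false) = x
        generalize xs.getD f' (fun _ => false) = y
        rw [← mul_prod_erase univ _ (mem_univ l), ← mul_prod_erase univ _ (mem_univ l),
          ← mul_prod_erase univ _ (mem_univ l)]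
        have p1 : ∏ l' ∈ univ.erase l, (if l' ∈ insert l S then Real.cosh (a l' x y)
            else Real.exp (a l' x y)) = ∏ l' ∈ univ.erase l,
            (if l' ∈ S then Real.cosh (a l' x y) else Real.exp (a l' x y)) :=
          prod_congr rfl fun l' h' => by simp only [mem_insert, (mem_erase.1 h').1, false_or]
        have p2 : ∏ l' ∈ univ.erase l, (if l' ∈ S then
            Real.cosh (a l' (sp (π l) (w l) x) (sp (π l) (w l) y))
            else Real.exp (a l' (sp (π l) (w l) x) (sp (π l) (w l) y))) = ∏ l' ∈ univ.erase l,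
            (if l' ∈ S then Real.cosh (a l' x y) else Real.exp (a l' x y)) :=
          prod_congr rfl fun l' h' => by rw [ha2 l l' x y (mem_erase.1 h').1]
        rw [p1, p2, if_pos (mem_insert_self l S), if_neg hl, if_neg hl, ha1, Real.cosh_eq]
        ring
      · simp
    rw [e, map_smul, map_add, h, smul_eq_mul]
    ring

lemma ty_tail (A : BAlg n) (t m F f f' L : ℕ) (hf : f ≤ F) (hf' : f' ≤ F)
    (π : Fin L → Equiv.Perm (Fin n)) (w : Fin L → Fin n → Bool)
    (hτ : ∀ l, Function.Involutive (sp (π l) (w l)))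
    (hfix : ∀ l x (j : Fin n), j.val < m → sp (π l) (w l) x j = x j)
    (a : Fin L → (Fin n → Bool) → (Fin n → Bool) → ℝ) (ha0 : ∀ l x y, |a l x y| ≤ 1)
    (ha1 : ∀ l x y, a l (sp (π l) (w l) x) (sp (π l) (w l) y) = -a l x y)
    (ha2 : ∀ l l' x y, l' ≠ l → a l' (sp (π l) (w l) x) (sp (π l) (w l) y) = a l' x y)
    (ε : ℝ) (hε : 0 ≤ ε) :
    Pr A t (fun xs => TyLow m F xs ∧
      ε * L ≤ ∑ l, a l (xs.getD f fun _ => false) (xs.getD f' fun _ => false)) ≤
      Real.exp (-(ε ^ 2 * L / 2)) := by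
  have h := tyE_mgf A t m F f f' L hf hf' π w hτ hfix (fun l x y => ε * a l x y)
    (fun l x y => by rw [ha1]; ring) (fun l l' x y h => by rw [ha2 l l' x y h]) univ
  have h1 : Ex (bstep A f0) t [] (tyE m F f f' fun x y =>
      ∏ l, if l ∈ univ then Real.cosh (ε * a l x y) else Real.exp (ε * a l x y)) ≤
      Real.exp (ε ^ 2 * L / 2) := by
    rw [← Ex_const (bstep_sum A f0) t [] (Real.exp (ε ^ 2 * L / 2))]
    refine Ex_mono (bstep_nonneg A f0) t [] _ _ fun zs => ?_
    unfold tyE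
    split_ifs
    · generalize zs.getD f (fun _ => false) = x
      generalize zs.getD f' (fun _ => false) = y
      beta_reduce
      calc ∏ l, Real.cosh (ε * a l x y) ≤ ∏ _l : Fin L, Real.exp (ε ^ 2 / 2) := by
            refine prod_le_prod (fun l _ => (Real.cosh_pos _).le) fun l _ => ?_
            refine (Real.cosh_le_exp_half_sq _).trans (Real.exp_le_exp.2 ?_)
            have h2 : a l x y ^ 2 ≤ 1 := by
              have := abs_le.1 (ha0 l x y)
              nlinarith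
            have h3 : 0 ≤ ε ^ 2 := sq_nonneg ε
            nlinarith
        _ = _ := by
            rw [prod_const, card_univ, Fintype.card_fin, ← Real.exp_nat_mul]
            congr 1
            ring
    · exact (Real.exp_pos _).le
  rw [← h] at h1
  unfold Pr
  calc _ ≤ Ex (bstep A f0) t [] (Real.exp (-(ε ^ 2 * L)) •
        tyE m F f f' fun x y => ∏ l, Real.exp (ε * a l x y)) := by
        refine Ex_mono (bstep_nonneg A f0) t [] _ _ fun zs => ?_
        simp only [Pi.smul_apply, smul_eq_mul, tyE]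
        by_cases h2 : TyLow m F zs
        · rw [if_pos h2]
          split_ifs with h3
          · rw [← Real.exp_sum, ← Real.exp_add, ← mul_sum]
            refine Real.one_le_exp ?_
            have := mul_le_mul_of_nonneg_left h3.2 hε
            nlinarith
          · exact mul_nonneg (Real.exp_pos _).le (prod_nonneg fun l _ => (Real.exp_pos _).le)
        · rw [if_neg h2, if_neg fun h3 => h2 h3.1, mul_zero]
    _ ≤ Real.exp (-(ε ^ 2 * L)) * Real.exp (ε ^ 2 * L / 2) := by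
        rw [map_smul, smul_eq_mul]
        exact mul_le_mul_of_nonneg_left h1 (Real.exp_pos _).le
    _ = _ := by rw [← Real.exp_add]; congr 1; ring

/-- the sign of a bit -/
def tySg (b : Bool) : ℝ := if b = true then 1 else -1

/-- the indicator that two bits differ -/
def tyD (b b' : Bool) : ℝ := if b = b' then 0 else 1

/-- the summands of the statistics -/
def tyA {L ng : ℕ} (W : Fin L → Fin n) (Gp : Fin ng → Fin L → Fin n) (o : Option (Fin ng))
    (s : Bool) (l : Fin L) (x y : Fin n → Bool) : ℝ :=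
  tySg s * o.elim (tySg (x (W l))) fun g =>
    tyD (x (W l)) (y (W l)) - tyD (x (Gp g l)) (y (Gp g l))

lemma ty_tail' (A : BAlg n) (t m f f' L ng : ℕ)
    (W : Fin L → Fin n) (Gp : Fin ng → Fin L → Fin n) (hW : Function.Injective W)
    (hG : Function.Injective fun x : Fin ng × Fin L => Gp x.1 x.2)
    (hWG : ∀ l g l', W l ≠ Gp g l') (hm : ∀ l, m ≤ (W l).val) (hm' : ∀ g l, m ≤ (Gp g l).val)
    (ε : ℝ) (hε : 0 ≤ ε) (o : Option (Fin ng)) (s : Bool) :
    Pr A t (fun xs => TyLow m (max f f') xs ∧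
      ε * L ≤ ∑ l, tyA W Gp o s l (xs.getD f fun _ => false) (xs.getD f' fun _ => false)) ≤
      Real.exp (-(ε ^ 2 * L / 2)) := by
  cases o with
  | none =>
    refine ty_tail A t m _ f f' L (le_max_left _ _) (le_max_right _ _) (fun _ => 1)
      (fun l j => decide (j = W l)) (fun l x => ?_) (fun l x j hj => ?_) _ (fun l x y => ?_)
      (fun l x y => ?_) (fun l l' x y h => ?_) ε hε
    · funext j
      by_cases h : j = W l <;> simp [sp, h]
    · have : j ≠ W l := fun h => by have := hm l; rw [← h] at this; omega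
      simp [sp, this]
    · simp only [tyA, Option.elim, tySg]
      split_ifs <;> simp
    · simp only [tyA, Option.elim, tySg, sp]
      cases s <;> cases h : x (W l) <;> simp [h]
    · have : W l' ≠ W l := fun e => h (hW e)
      simp [tyA, sp, this]
  | some g =>
    refine ty_tail A t m _ f f' L (le_max_left _ _) (le_max_right _ _)
      (fun l => Equiv.swap (W l) (Gp g l)) (fun _ _ => false) (fun l x => ?_)
      (fun l x j hj => ?_) _ (fun l x y => ?_) (fun l x y => ?_) (fun l l' x y h => ?_) ε hε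
    · funext j
      simp [sp]
    · have h1 : j ≠ W l := fun h => by have := hm l; rw [← h] at this; omega
      have h2 : j ≠ Gp g l := fun h => by have := hm' g l; rw [← h] at this; omega
      simp [sp, Equiv.swap_apply_of_ne_of_ne h1 h2]
    · simp only [tyA, Option.elim, tySg, tyD]
      split_ifs <;> simp
    · simp only [tyA, Option.elim, sp, Equiv.swap_apply_left, Equiv.swap_apply_right,
        Bool.xor_false]
      ring
    · have h1 : W l' ≠ W l := fun e => h (hW e)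
      have h2 : W l' ≠ Gp g l := hWG _ _ _
      have h3 : Gp g l' ≠ W l := (hWG _ _ _).symm
      have h4 : Gp g l' ≠ Gp g l := fun e =>
        h (congrArg Prod.snd (hG (a₁ := (g, l')) (a₂ := (g, l)) e))
      simp only [tyA, Option.elim, sp, Equiv.swap_apply_of_ne_of_ne h1 h2,
        Equiv.swap_apply_of_ne_of_ne h3 h4, Bool.xor_false]

/-- `W` is the window, `Gp g` are the groups that make up `N`; all these columns are different
and at least `m`. Flips of `W l` and swaps `W l ↔ Gp g l` are maps `sp π w` that do not change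
fitness values below `m` (`f0_congr`, `bstep_sp`, `Ex_couple`); Hoeffding for fair signs;
`nc_cases` transfers the two-sided bounds to the normalised strings. -/
theorem typ_prob (A : BAlg n) (O : Finset (Fin n)) (T m L ng : ℕ) (hL : 0 < L) (hg : 0 < ng)
    (W : Fin L → Fin n) (Gp : Fin ng → Fin L → Fin n) (hW : Function.Injective W)
    (hG : Function.Injective fun x : Fin ng × Fin L => Gp x.1 x.2)
    (hWG : ∀ l g l', W l ≠ Gp g l') (hm : ∀ l, m ≤ (W l).val) (hm' : ∀ g l, m ≤ (Gp g l).val)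
    (ε : ℝ) (hε : 0 ≤ ε) :
    Pr A (T + 1) (fun xs => ∃ τ ≤ T, (∀ s < τ, f0 (xs.getD s fun _ => false) < m) ∧
      ¬(nrm A O xs).Typ W (univ.image fun x : Fin ng × Fin L => Gp x.1 x.2) ε τ) ≤
      4 * (T + 1) ^ 2 * (ng + 1) * Real.exp (-(ε ^ 2 * L / 2)) := by
  have hL' : (0 : ℝ) < L := by exact_mod_cast hL
  have hg' : (0 : ℝ) < ng := by exact_mod_cast hg
  refine le_trans (Pr_mono A (T + 1) (q := fun xs =>
    ∃ i ∈ (univ : Finset (Fin (T + 1) × Fin (T + 1) × Option (Fin ng) × Bool)),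
      TyLow m (max i.1.val i.2.1.val) xs ∧ ε * L ≤ ∑ l, tyA W Gp i.2.2.1 i.2.2.2 l
        (xs.getD i.1.val fun _ => false) (xs.getD i.2.1.val fun _ => false))
    fun xs hlen h => ?_) ?_
  · obtain ⟨τ, hτ, hlow, hT⟩ := h
    have low : ∀ f ≤ τ, ∀ f' ≤ τ, TyLow m (max f f') xs := fun f hf f' hf' =>
      ⟨by omega, fun s hs => hlow s (by omega)⟩
    by_contra hc
    have hc' : ∀ f ≤ τ, ∀ f' ≤ τ, ∀ o s, ∑ l, tyA W Gp o s l
        (xs.getD f fun _ => false) (xs.getD f' fun _ => false) < ε * L := fun f hf f' hf' o s => by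
      by_contra h
      exact hc ⟨(⟨f, by omega⟩, ⟨f', by omega⟩, o, s), mem_univ _, low f hf f' hf', not_lt.1 h⟩
    refine hT ⟨fun f hf => ?_, fun f hf f' hf' => ?_⟩
    · obtain ⟨s, hs⟩ : ∃ s, ∀ l, (nrm A O xs).bt f (W l) = (1 + tyA W Gp none s l
          (xs.getD f fun _ => false) (xs.getD f fun _ => false)) / 2 := by
        rcases nc_cases A O xs f with e | e
        · refine ⟨true, fun l => ?_⟩
          simp only [Tr.bt, nrm, e, tyA, tySg, Option.elim]
          split_ifs <;> norm_num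
        · refine ⟨false, fun l => ?_⟩
          simp only [Tr.bt, nrm, e, tyA, tySg, Option.elim, cpl]
          cases xs.getD f (fun _ => false) (W l) <;> norm_num
      have h1 := hc' f hf f hf none s
      simp only [hs]
      rw [← sum_div, sum_add_distrib, sum_const, card_univ, Fintype.card_fin]
      have : 0 ≤ ε * L := by positivity
      simp only [nsmul_eq_mul, mul_one]
      linarith
    · obtain ⟨s, hs⟩ : ∃ s, ∀ g l, (nrm A O xs).df f f' (W l) - (nrm A O xs).df f f' (Gp g l) =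
          tyA W Gp (some g) s l (xs.getD f fun _ => false) (xs.getD f' fun _ => false) := by
        rcases nc_cases A O xs f with e | e <;> rcases nc_cases A O xs f' with e' | e'
        · refine ⟨true, fun g l => ?_⟩
          simp only [Tr.df, nrm, e, e', tyA, tySg, tyD, Option.elim]
          norm_num
        · refine ⟨false, fun g l => ?_⟩
          simp only [Tr.df, nrm, e, e', tyA, tySg, tyD, Option.elim, cpl]
          cases xs.getD f (fun _ => false) (W l) <;> cases xs.getD f' (fun _ => false) (W l) <;>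
            cases xs.getD f (fun _ => false) (Gp g l) <;>
            cases xs.getD f' (fun _ => false) (Gp g l) <;> norm_num
        · refine ⟨false, fun g l => ?_⟩
          simp only [Tr.df, nrm, e, e', tyA, tySg, tyD, Option.elim, cpl]
          cases xs.getD f (fun _ => false) (W l) <;> cases xs.getD f' (fun _ => false) (W l) <;>
            cases xs.getD f (fun _ => false) (Gp g l) <;>
            cases xs.getD f' (fun _ => false) (Gp g l) <;> norm_num
        · refine ⟨true, fun g l => ?_⟩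
          simp only [Tr.df, nrm, e, e', tyA, tySg, tyD, Option.elim, cpl]
          cases xs.getD f (fun _ => false) (W l) <;> cases xs.getD f' (fun _ => false) (W l) <;>
            cases xs.getD f (fun _ => false) (Gp g l) <;>
            cases xs.getD f' (fun _ => false) (Gp g l) <;> norm_num
      have h1 : ∀ g, ∑ l, (nrm A O xs).df f f' (W l) ≤
          ∑ l, (nrm A O xs).df f f' (Gp g l) + ε * L := fun g => by
        have := hc' f hf f' hf' (some g) s
        simp only [← hs, sum_sub_distrib] at this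
        linarith
      have h2 := sum_le_sum fun g (_ : g ∈ (univ : Finset (Fin ng))) => h1 g
      rw [sum_add_distrib, sum_const, sum_const, card_univ, Fintype.card_fin] at h2
      simp only [nsmul_eq_mul] at h2
      rw [sum_image fun x _ y _ h => hG h, card_image_of_injective _ hG, card_univ,
        Fintype.card_prod, Fintype.card_fin, Fintype.card_fin, Fintype.sum_prod_type]
      push_cast
      refine le_of_mul_le_mul_left (h2.trans (le_of_eq ?_)) hg'
      field_simp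
  · refine (Pr_exists A (T + 1) univ _).trans ?_
    refine (sum_le_sum fun i _ => ty_tail' A (T + 1) m i.1.val i.2.1.val L ng W Gp hW hG hWG hm
      hm' ε hε i.2.2.1 i.2.2.2).trans ?_
    rw [sum_const, card_univ, nsmul_eq_mul]
    refine mul_le_mul_of_nonneg_right ?_ (Real.exp_pos _).le
    simp only [Fintype.card_prod, Fintype.card_fin, Fintype.card_option, Fintype.card_bool]
    push_cast
    have : (0 : ℝ) ≤ (T + 1) ^ 2 * (ng + 1) := by positivity
    nlinarith

end Pool.Agent.P.MP_5c258a_lc.Bin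
end

-- part Pool.Agent.P.MP_5c258a_lc.Bin.DLocA
section

/-! Auxiliary facts for the task DLOC. -/

namespace Pool.Agent.P.MP_5c258a_lc.Bin.DL

open Finset Classical

variable {n m : ℕ} {r : ℕ} {tr : Tr n} {N : Finset (Fin n)} {τ : ℕ} {Tm : ℕ → ℕ}

lemma so_nonneg (x : Option (ℕ × ℕ)) : 0 ≤ so x := by
  cases x with
  | none => rw [so]
  | some x => rw [so]; norm_num

lemma pih_nonneg (h : tr.WF) (s : Fin m → Option (ℕ × ℕ)) (w : ℕ) : 0 ≤ pih tr τ s w :=
  div_nonneg (sum_nonneg fun _ _ => mul_nonneg (so_nonneg _) (Tr.pi_nonneg h _ _ _))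
    (Nat.cast_nonneg _)

lemma pih_super (h : tr.WF) (s : Fin m → Option (ℕ × ℕ)) {x : ℕ} (hx : τ ≤ x) (t : ℕ) :
    ∑ w ∈ Ioc x t, pih tr τ s w * tr.p w x ≤ pih tr τ s x := by
  have e : ∑ w ∈ Ioc x t, pih tr τ s w * tr.p w x =
      (∑ j, so (s j) * ∑ w ∈ Ioc x t, tr.pi τ (sz (s j)) w * tr.p w x) / m := by
    unfold pih
    simp_rw [mul_sum]
    rw [sum_comm, sum_div]
    refine sum_congr rfl fun w _ => ?_
    rw [div_mul_eq_mul_div, sum_mul]
    congr 1
    exact sum_congr rfl fun j _ => by ring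
  rw [e, pih]
  refine div_le_div_of_nonneg_right (sum_le_sum fun j _ => ?_) (Nat.cast_nonneg _)
  exact mul_le_mul_of_nonneg_left (Tr.pi_super h hx _ t) (so_nonneg _)

lemma XX_qA (s : Fin m → Option (ℕ × ℕ)) (b : Fin n) (lo t : ℕ) :
    tr.XX (qA tr τ s b) b lo t =
      (∑ j, sw tr b (s j) * tr.XX (tr.pi τ (sz (s j))) b lo t) / m := by
  unfold Tr.XX qA
  simp_rw [mul_sum]
  rw [sum_comm, sum_div]
  refine sum_congr rfl fun w _ => ?_
  rw [div_mul_eq_mul_div, sum_mul]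
  congr 1
  exact sum_congr rfl fun j _ => by ring

/-- Averaging a bound that holds for each sampled flow. -/
lemma avg_A (h : tr.WF) (s : Fin m → Option (ℕ × ℕ)) (b : Fin n) (lo t : ℕ) (G : ℕ → ℝ)
    (hG : ∀ z, G z ≤ tr.x1 lo z b + tr.kap τ z + tr.XX (tr.pi τ z) b lo t) :
    (∑ j, sw tr b (s j) * G (sz (s j))) / m ≤
      Yh tr lo s b + kh tr τ s + tr.XX (qA tr τ s b) b lo t := by
  rw [XX_qA, Yh, kh, ← add_div, ← add_div, ← sum_add_distrib, ← sum_add_distrib]
  refine div_le_div_of_nonneg_right (sum_le_sum fun j _ => ?_) (Nat.cast_nonneg _)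
  have h1 := mul_le_mul_of_nonneg_left (hG (sz (s j))) (dalt_sw_nonneg tr b (s j))
  have h2 := mul_le_mul_of_nonneg_right (dalt_sw_le tr b (s j)) (Tr.kap_nonneg h τ (sz (s j)))
  linarith

lemma condA (h : tr.WF) (s : Fin m → Option (ℕ × ℕ)) (b : Fin n) {lo : ℕ} (hlo : τ ≤ lo) (hi : ℕ)
    {lam : ℝ} (hl : Yh tr lo s b + kh tr τ s ≤ lam) : Cond tr (qA tr τ s b) b lo hi lam .A := by
  intro w hw
  have h1 := avg_A h s b lo (w - 1) (fun z => tr.pi τ z w * tr.pb w b)
    fun z => Tr.condA_one h hlo (mem_Ioc.1 hw).1 z b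
  have e : qA tr τ s b w * tr.pb w b =
      (∑ j, sw tr b (s j) * (tr.pi τ (sz (s j)) w * tr.pb w b)) / m := by
    rw [qA, div_mul_eq_mul_div, sum_mul]
    congr 1
    exact sum_congr rfl fun j _ => by ring
  rw [e]
  linarith

lemma endA (h : tr.WF) (s : Fin m → Option (ℕ × ℕ)) (b : Fin n) {lo hi : ℕ} (hlo : τ ≤ lo)
    (hhi : lo ≤ hi) {lam : ℝ} (hl : Yh tr lo s b + kh tr τ s ≤ lam) :
    Yh tr hi s b ≤ lam + tr.XX (qA tr τ s b) b lo hi := by
  have h1 := avg_A h s b lo hi (fun z => tr.x1 hi z b) fun z => Tr.endA_one h hlo hhi z b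
  rw [Yh]
  linarith

lemma qL_nonneg (h : tr.WF) (i : ℕ) (s : Fin m → Option (ℕ × ℕ)) (b : Fin n) (w : ℕ) :
    0 ≤ qL r tr N τ Tm i s b w := by
  refine div_nonneg (sum_nonneg fun j _ => mul_nonneg (dalt_sw_nonneg tr b _) ?_)
    (Nat.cast_nonneg _)
  split_ifs
  · exact Tr.gr_nonneg h _ _ _
  · exact le_rfl

lemma qL_le (h : tr.WF) (i : ℕ) (s : Fin m → Option (ℕ × ℕ)) (b : Fin n) (w : ℕ) :
    qL r tr N τ Tm i s b w ≤ pih tr τ s w := by
  refine div_le_div_of_nonneg_right (sum_le_sum fun j _ => ?_) (Nat.cast_nonneg _)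
  refine mul_le_mul (dalt_sw_le tr b _) ?_ ?_ (so_nonneg _)
  · split_ifs
    · exact Tr.gr_mono h (fun w hw => hw.1) _ _
    · exact Tr.pi_nonneg h _ _ _
  · split_ifs
    · exact Tr.gr_nonneg h _ _ _
    · exact le_rfl

lemma qL_zero (i : ℕ) (s : Fin m → Option (ℕ × ℕ)) (b : Fin n) {w : ℕ}
    (hw : ¬rp r (3 * 4 ^ i) < tr.vv N τ w) : qL r tr N τ Tm i s b w = 0 := by
  simp [qL, hw]

/-- The set `F` of the nodes of large variance in the range. -/
noncomputable def FF (r : ℕ) (tr : Tr n) (N : Finset (Fin n)) (τ i lo hi : ℕ) : Finset ℕ :=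
  (Ioc lo hi).filter fun f => rp r (3 * 4 ^ i) < tr.vv N τ f

/-- The quantity `S_b`. -/
noncomputable def SS (r : ℕ) (tr : Tr n) (N : Finset (Fin n)) (τ i lo hi : ℕ)
    (s : Fin m → Option (ℕ × ℕ)) (b : Fin n) : ℝ :=
  ∑ f ∈ FF r tr N τ i lo hi, pih tr τ s f ^ 2 * (tr.xi f b ^ 2 + tr.vr f b)

lemma var_nonneg (h : tr.WF) (f : ℕ) (b : Fin n) : 0 ≤ tr.xi f b ^ 2 + tr.vr f b :=
  add_nonneg (sq_nonneg _) (Tr.vr_nonneg h f b)

lemma QQ_qL (h : tr.WF) (i lo hi : ℕ) (s : Fin m → Option (ℕ × ℕ)) (b : Fin n) :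
    tr.QQ (qL r tr N τ Tm i s b) b lo hi ≤ SS r tr N τ i lo hi s b := by
  rw [SS, FF, sum_filter, Tr.QQ]
  refine sum_le_sum fun w _ => ?_
  split_ifs with hw
  · exact mul_le_mul_of_nonneg_right
      (pow_le_pow_left₀ (qL_nonneg h i s b w) (qL_le h i s b w) 2) (var_nonneg h w b)
  · rw [qL_zero i s b hw]; simp

/-- The two consequences of the meeting lemma. -/
lemma meet_use (h : tr.WF) (hr : 0 < r) (i : ℕ) {lo hi : ℕ} (hlo : τ ≤ lo)
    (s : Fin m → Option (ℕ × ℕ)) {η μ : ℝ}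
    (hη : ∑ w ∈ Ioc τ hi, pih tr τ s w ^ 2 * tr.VV N w ≤ η) (hμ : η ≤ μ * rp r (3 * 4 ^ i)) :
    (∀ f ∈ FF r tr N τ i lo hi, pih tr τ s f ^ 2 ≤ μ) ∧
      ∀ {ι : Type} (C : Finset ι) (W : ι → Fin n) (c : ℝ), 0 ≤ c →
        (∀ l ∈ C, c < SS r tr N τ i lo hi s (W l)) →
        ∃ w0 ≤ hi, C.card * c ≤ μ * ∑ l ∈ C, tr.QQ (tr.pi τ w0) (W l) lo hi := by
  have hv := rp_pos hr (3 * 4 ^ i)
  have hF : FF r tr N τ i lo hi ⊆ Ioc τ hi :=
    (filter_subset _ _).trans (Ioc_subset_Ioc_left hlo)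
  obtain ⟨M, M0, M1, M2⟩ := meeting h N τ hi (pih tr τ s) (pih_nonneg h s)
    (fun x hx _ => pih_super h s hx.le hi) (FF r tr N τ i lo hi) hF _ η hv
    (fun f hf => (mem_filter.1 hf).2.le) hη
  have M3 : ∑ x ∈ FF r tr N τ i lo hi, M x ≤ μ := M1.trans ((div_le_iff₀ hv).2 hμ)
  refine ⟨fun f hf => (M2 f hf).trans (le_trans (sum_le_sum fun x _ => ?_) M3), ?_⟩
  · exact mul_le_of_le_one_right (M0 x)
      (pow_le_one₀ (Tr.pi_nonneg h _ _ _) (Tr.gr_le_one h _ _ _))
  intro ι C W c hc hC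
  rcases C.eq_empty_or_nonempty with rfl | ⟨l0, hl0⟩
  · exact ⟨0, Nat.zero_le _, by simp⟩
  have hne : (FF r tr N τ i lo hi).Nonempty := by
    rw [nonempty_iff_ne_empty]
    intro he
    have := hC l0 hl0
    rw [SS, he, sum_empty] at this
    linarith
  obtain ⟨w0, hw0, hmax⟩ := exists_max_image _
    (fun x => ∑ l ∈ C, tr.QQ (tr.pi τ x) (W l) lo hi) hne
  refine ⟨w0, (mem_Ioc.1 (hF hw0)).2, ?_⟩
  have hQ0 : ∀ x l, 0 ≤ tr.QQ (tr.pi τ x) (W l) lo hi := fun x l =>
    sum_nonneg fun w _ => mul_nonneg (sq_nonneg _) (var_nonneg h w _)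
  have h1 : ∀ l, SS r tr N τ i lo hi s (W l) ≤
      ∑ x ∈ FF r tr N τ i lo hi, M x * tr.QQ (tr.pi τ x) (W l) lo hi := by
    intro l
    calc _ ≤ ∑ f ∈ FF r tr N τ i lo hi, ∑ x ∈ FF r tr N τ i lo hi,
            M x * (tr.pi τ x f ^ 2 * (tr.xi f (W l) ^ 2 + tr.vr f (W l))) := by
          refine sum_le_sum fun f hf => le_trans
            (mul_le_mul_of_nonneg_right (M2 f hf) (var_nonneg h f _)) (le_of_eq ?_)
          rw [sum_mul]
          exact sum_congr rfl fun x _ => by ring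
      _ ≤ _ := by
          rw [sum_comm]
          refine sum_le_sum fun x _ => ?_
          rw [← mul_sum]
          refine mul_le_mul_of_nonneg_left ?_ (M0 x)
          exact sum_le_sum_of_subset_of_nonneg (filter_subset _ _)
            fun w _ _ => mul_nonneg (sq_nonneg _) (var_nonneg h w _)
  calc (C.card : ℝ) * c = ∑ _l ∈ C, c := by rw [sum_const, nsmul_eq_mul]
    _ ≤ ∑ l ∈ C, ∑ x ∈ FF r tr N τ i lo hi, M x * tr.QQ (tr.pi τ x) (W l) lo hi :=
        sum_le_sum fun l hl => (hC l hl).le.trans (h1 l)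
    _ = ∑ x ∈ FF r tr N τ i lo hi, M x * ∑ l ∈ C, tr.QQ (tr.pi τ x) (W l) lo hi := by
        rw [sum_comm]
        exact sum_congr rfl fun x _ => by rw [mul_sum]
    _ ≤ ∑ x ∈ FF r tr N τ i lo hi, M x * ∑ l ∈ C, tr.QQ (tr.pi τ w0) (W l) lo hi :=
        sum_le_sum fun x hx => mul_le_mul_of_nonneg_left (hmax x hx) (M0 x)
    _ ≤ _ := by
        rw [← sum_mul]
        exact mul_le_mul_of_nonneg_right M3 (sum_nonneg fun l _ => hQ0 w0 l)

lemma condL (h : tr.WF) (i lo hi : ℕ) (s : Fin m → Option (ℕ × ℕ)) (b : Fin n) {lam : ℝ}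
    (hl : 0 ≤ lam) (hF : ∀ f ∈ FF r tr N τ i lo hi, pih tr τ s f ^ 2 ≤ lam ^ 2) :
    Cond tr (qL r tr N τ Tm i s b) b lo hi lam .L := by
  intro w hw
  by_cases h1 : rp r (3 * 4 ^ i) < tr.vv N τ w
  · exact (qL_le h i s b w).trans (abs_le_of_sq_le_sq' (hF w (mem_filter.2 ⟨hw, h1⟩)) hl).2
  · rw [qL_zero i s b h1]; exact hl

/-- The budget of a sample in terms of powers of `r`. -/
lemma bud_le (hr : 8 ≤ r) {c e d : ℕ} (hc : c ≤ 12 * pK r) (he : d + 3 * e + 1 ≤ c) :
    4 * (rp r c + 2 / pN r) ≤ rp r d * rp r (3 * e) := by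
  have hr0 : 0 < r := by omega
  have h8 : (8 : ℝ) ≤ r := by exact_mod_cast hr
  have h1 : rp r 1 ≤ 1 / 8 := by
    unfold rp
    rw [pow_one, one_div]
    exact inv_anti₀ (by norm_num) h8
  have h2 : (1 : ℝ) / pN r = rp r (20 * (pK r + 1) + 20 * (pK r + 1)) := by
    rw [rp_add, ← inv_pH, pN]; push_cast; ring
  have h3 : rp r (20 * (pK r + 1) + 20 * (pK r + 1)) ≤ rp r c * rp r 1 := by
    rw [← rp_add]; exact rp_anti hr0 (by omega)
  have h4 : rp r c ≤ rp r d * rp r (3 * e) * rp r 1 := by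
    rw [← rp_add, ← rp_add]; exact rp_anti hr0 (by omega)
  have h5 := rp_pos hr0 c
  have h6 := mul_pos (rp_pos hr0 d) (rp_pos hr0 (3 * e))
  have h7 : (2 : ℝ) / pN r = 2 * (1 / pN r) := by ring
  rw [h7, h2]
  nlinarith

lemma rp_two (r c : ℕ) : rp r c ^ 2 = rp r (2 * c) := by rw [two_mul, rp_add, sq]

lemma pow_eq_exp (hr : 0 < r) (c : ℕ) : (r : ℝ) ^ c = Real.exp (c * Real.log r) := by
  rw [Real.exp_nat_mul, Real.exp_log (by exact_mod_cast hr)]

lemma four_pow (i : ℕ) : (i : ℝ) + 1 ≤ (4 : ℝ) ^ i := by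
  have : i + 1 ≤ 4 ^ i := Nat.lt_pow_self (by norm_num)
  exact_mod_cast this

lemma num0 (hr : 0 < r) (hl : 10 ^ 14 ≤ Real.log r) (j : ℕ) {lam X : ℝ}
    (h1 : lam = 2 * rp r (2 * 4 ^ j)) (h2 : rp r (4 ^ j) / 2 ≤ lam + X) :
    cA / 8 * ((4 ^ (j + 1) : ℕ) : ℝ) * Real.log r + 2 * (((j + 1 : ℕ) : ℝ) + 4) ≤
      cA * Real.log ((lam + X) / lam) - 1 := by
  have hs := rp_pos hr (4 ^ j)
  have e1 := rp_mul_pow hr (4 ^ j)
  have hp : (0 : ℝ) < (r : ℝ) ^ (4 ^ j) := by
    have : (0 : ℝ) < r := by exact_mod_cast hr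
    positivity
  have h3 : (r : ℝ) ^ (4 ^ j) / 4 ≤ (lam + X) / lam := by
    rw [le_div_iff₀ (by rw [h1]; have := rp_pos hr (2 * 4 ^ j); positivity)]
    refine le_trans (le_of_eq ?_) h2
    rw [h1, ← rp_two]
    linear_combination rp r (4 ^ j) / 2 * e1
  have h4 := Real.log_le_log (by positivity) h3
  rw [Real.log_div hp.ne' (by norm_num), Real.log_pow] at h4
  have h5 : Real.log 4 ≤ 4 - 1 := Real.log_le_sub_one_of_pos (by norm_num)
  have h6 := four_pow j
  have h7 : (0 : ℝ) ≤ j := Nat.cast_nonneg _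
  have h8 : (4 : ℝ) ^ j * 10 ^ 14 ≤ 4 ^ j * Real.log r :=
    mul_le_mul_of_nonneg_left hl (by positivity)
  push_cast at h4 ⊢
  unfold cA
  rw [pow_succ]
  nlinarith

lemma num1 (hr : 0 < r) (hl : 10 ^ 14 ≤ Real.log r) (i : ℕ) :
    cA / 8 * ((4 ^ (i + 1) : ℕ) : ℝ) * Real.log r + 2 * ((i : ℝ) + 4) ≤
      cA * (r : ℝ) ^ (4 ^ i) - 1 := by
  have h1 := Real.add_one_le_exp (((4 ^ i : ℕ) : ℝ) * Real.log r)
  rw [← pow_eq_exp hr] at h1
  have h6 := four_pow i
  have h7 : (0 : ℝ) ≤ i := Nat.cast_nonneg _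
  have h8 : (4 : ℝ) ^ i * 10 ^ 14 ≤ 4 ^ i * Real.log r :=
    mul_le_mul_of_nonneg_left hl (by positivity)
  push_cast at h1 ⊢
  unfold cA
  rw [pow_succ]
  nlinarith

lemma num2 (hr : 0 < r) (hl : 10 ^ 14 ≤ Real.log r) (i : ℕ) :
    cA / 8 * ((4 ^ (i + 1) : ℕ) : ℝ) * Real.log r + 2 * ((i : ℝ) + 4) ≤
      cH * (r : ℝ) ^ (4 * 4 ^ i) - 1 := by
  have h6 := four_pow i
  have h7 : (0 : ℝ) ≤ i := Nat.cast_nonneg _
  have h8 : (4 : ℝ) ^ i * 10 ^ 14 ≤ 4 ^ i * Real.log r :=
    mul_le_mul_of_nonneg_left hl (by positivity)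
  have h0 : 0 ≤ ((4 * 4 ^ i : ℕ) : ℝ) * Real.log r := by
    have : 0 ≤ Real.log r := le_trans (by norm_num) hl
    positivity
  have h1 := Real.quadratic_le_exp_of_nonneg h0
  rw [← pow_eq_exp hr] at h1
  push_cast at h1 ⊢
  unfold cA cH
  rw [pow_succ]
  set y := (4 : ℝ) ^ i * Real.log r with hy
  have e1 : 4 * (4 : ℝ) ^ i * Real.log r = 4 * y := by rw [hy]; ring
  have e2 : 1 / 20000 / 8 * ((4 : ℝ) ^ i * 4) * Real.log r = y / 40000 := by rw [hy]; ring
  rw [e1] at h1
  rw [e2]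
  have h9 : 10 ^ 14 * y ≤ y * y := mul_le_mul_of_nonneg_right (by nlinarith) (by nlinarith)
  nlinarith

lemma num4 (hr : 0 < r) (hl : 10 ^ 14 ≤ Real.log r) (i : ℕ) {k : ℕ} (hk : k ≤ pK r) :
    cA / 8 * (k : ℝ) * Real.log r + 2 * ((i : ℝ) + 4) ≤ cH * (r : ℝ) ^ (14 * 4 ^ i) - 1 := by
  have h6 := four_pow i
  have h7 : (0 : ℝ) ≤ i := Nat.cast_nonneg _
  have h8 : (4 : ℝ) ^ i * 10 ^ 14 ≤ 4 ^ i * Real.log r :=
    mul_le_mul_of_nonneg_left hl (by positivity)
  have hl0 : 0 ≤ Real.log r := le_trans (by norm_num) hl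
  have hr1 : (1 : ℝ) ≤ r := by exact_mod_cast hr
  have h1 := Real.add_one_le_exp (((14 * 4 ^ i : ℕ) : ℝ) * Real.log r)
  rw [← pow_eq_exp hr] at h1
  have h2 := Real.quadratic_le_exp_of_nonneg hl0
  rw [Real.exp_log (by linarith)] at h2
  have h3 : (k : ℝ) ≤ (r : ℝ) ^ 13 := by exact_mod_cast hk
  have h4 : (r : ℝ) ^ 13 * r ≤ (r : ℝ) ^ (14 * 4 ^ i) := by
    rw [← pow_succ]
    exact pow_le_pow_right₀ hr1 (by have := Nat.one_le_pow i 4 (by norm_num); omega)
  have h5 : 10 ^ 13 * Real.log r ≤ r := by nlinarith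
  have h9 : (k : ℝ) * (10 ^ 13 * Real.log r) ≤ (r : ℝ) ^ 13 * r :=
    mul_le_mul h3 h5 (by positivity) (by positivity)
  push_cast at h1
  unfold cA cH
  nlinarith

end Pool.Agent.P.MP_5c258a_lc.Bin.DL
end
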